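import Pool.Agent.X262.LOS.Rel5

set_option autoImplicit false

/-!
# The number of the sifted integers in a window after a base: the full law
-/

namespace Pool.Agent.X262.LOS

open Finset Filter Pool.Agent.H373R2.T7 Pool.Agent.W123.RP Pool.Agent.W123.RU
open Pool.Agent.TH464.PO Pool.Agent.Y879.AP

/-- the Poisson probability of a finite set -/
noncomputable def Po (x : ℝ) (A : Finset ℕ) : ℝ := ∑ j ∈ A, Real.exp (-x) * x ^ j / j.factorial

lemma Po_bd (x : ℝ) (hx : 0 ≤ x) (A : Finset ℕ) : 0 ≤ Po x A ∧ Po x A ≤ 1 := poisson_le_one x hx A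

lemma Po_deriv (A : Finset ℕ) (x : ℝ) :
    HasDerivAt (fun x => Po x A) (Po x ((A.erase 0).image (fun j => j - 1)) - Po x A) x := by
  have hinj : Set.InjOn (fun j : ℕ => j - 1) (A.erase 0 : Finset ℕ) := by
    intro a ha b hb hab
    have ha' := Finset.mem_erase.1 (Finset.mem_coe.1 ha)
    have hb' := Finset.mem_erase.1 (Finset.mem_coe.1 hb)
    have h1 := ha'.1
    have h2 := hb'.1
    simp only at hab
    omega
  have h1 : Po x ((A.erase 0).image (fun j => j - 1)) =
      ∑ j ∈ A, Real.exp (-x) * (j * x ^ (j - 1)) / j.factorial := by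
    unfold Po
    rw [Finset.sum_image hinj]
    by_cases h0 : 0 ∈ A
    · rw [← Finset.add_sum_erase A _ h0]
      simp only [Nat.cast_zero, zero_mul, mul_zero, zero_div, zero_add]
      apply Finset.sum_congr rfl
      intro j hj
      obtain ⟨hj0, -⟩ := Finset.mem_erase.1 hj
      obtain ⟨i, rfl⟩ : ∃ i, j = i + 1 := ⟨j - 1, by omega⟩
      rw [Nat.add_sub_cancel, Nat.factorial_succ]
      push_cast
      have : (i.factorial : ℝ) ≠ 0 := by exact_mod_cast Nat.factorial_ne_zero i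
      field_simp
    · rw [Finset.erase_eq_of_notMem h0]
      apply Finset.sum_congr rfl
      intro j hj
      have hj0 : j ≠ 0 := fun h => h0 (h ▸ hj)
      obtain ⟨i, rfl⟩ : ∃ i, j = i + 1 := ⟨j - 1, by omega⟩
      rw [Nat.add_sub_cancel, Nat.factorial_succ]
      push_cast
      have : (i.factorial : ℝ) ≠ 0 := by exact_mod_cast Nat.factorial_ne_zero i
      field_simp
  rw [h1]
  unfold Po
  rw [← Finset.sum_sub_distrib]
  apply HasDerivAt.fun_sum
  intro j _
  have h2 : HasDerivAt (fun x : ℝ => Real.exp (-x)) (-Real.exp (-x)) x := by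
    have := (hasDerivAt_neg x).exp
    simpa using this
  have h3 := (h2.mul (hasDerivAt_pow j x)).div_const (j.factorial : ℝ)
  have e : Real.exp (-x) * (j * x ^ (j - 1)) / j.factorial - Real.exp (-x) * x ^ j / j.factorial =
      (-Real.exp (-x) * x ^ j + Real.exp (-x) * (j * x ^ (j - 1))) / j.factorial := by ring
  rw [e]
  exact h3

lemma Po_lip (A : Finset ℕ) (x y : ℝ) (hx : 0 ≤ x) (hy : 0 ≤ y) : |Po x A - Po y A| ≤ |x - y| := by
  have h := Convex.norm_image_sub_le_of_norm_hasDerivWithin_le (𝕜 := ℝ) (f := fun x => Po x A)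
    (f' := fun x => Po x ((A.erase 0).image (fun j => j - 1)) - Po x A) (s := Set.Ici (0 : ℝ))
    (x := y) (y := x) (C := 1) (fun z _ => (Po_deriv A z).hasDerivWithinAt) (fun z hz => by
      have h1 := Po_bd z hz A
      have h2 := Po_bd z hz ((A.erase 0).image (fun j => j - 1))
      rw [Real.norm_eq_abs, abs_le]
      constructor <;> linarith) (convex_Ici 0) hy hx
  rw [Real.norm_eq_abs, Real.norm_eq_abs, one_mul] at h
  exact h

open Classical in
/-- the number of the elements with the base and a number of elements of `A` in the window -/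
noncomputable def NA (Q : ℕ → ℕ → Prop) (y : ℕ) (B : Finset ℕ) (T : ℕ) (A : Finset ℕ) (Z Y : ℕ) : ℕ :=
  ((Ioc Z (Z + Y)).filter (fun n => Sf (QH Q B) y n ∧ Nn Q y (Icc 1 T \ B) n ∈ A)).card

open Classical in
theorem rel_law (c b w0 : ℕ) (hc : 1 ≤ c) (x0 ε : ℝ) (_hx0 : 0 ≤ x0) (hε : 0 < ε) (hε1 : ε ≤ 1) :
    ∃ (K0 y0 : ℕ) (κ η' τ1 : ℝ), 0 < κ ∧ 0 < η' ∧ 0 < τ1 ∧ ∀ y Y : ℕ, y0 ≤ y → y ^ K0 ≤ Y →
      ∀ (Q : ℕ → ℕ → Prop) (Ex : ℕ → Prop) (B : Finset ℕ) (ExB : ℕ → Prop), Sr c b w0 Q Ex B ExB →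
      Vq Q y ≤ κ →
      (∀ T : ℕ, τ1 ≤ T * Vq Q y → T * Vq Q y ≤ max x0 1 → T ≤ y → ∀ t ∈ Icc 1 T,
        (¬ Ex t → ((((pz y).filter (fun p : ℕ => T < p ∧ CoG Q p t)).card : ℕ) : ℝ) ≤ η' * T) ∧
        (¬ ExB t → ((((pz y).filter (fun p : ℕ => T < p ∧ CoB Q B p t)).card : ℕ) : ℝ) ≤ η' * T)) →
      ∀ Z : ℕ, |(Nb Q y B Z Y : ℝ) - Y * Vq (QH Q B) y| ≤ ε * (Y * Vq (QH Q B) y) ∧
        ∀ T : ℕ, T * Vq Q y ≤ x0 → ∀ A : Finset ℕ,
        |(NA Q y B T A Z Y : ℝ) - Y * Vq (QH Q B) y * Po (T * Vq Q y) A| ≤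
          ε * (Y * Vq (QH Q B) y) := by
  obtain ⟨K0, y0, T0, R0, η', hη', hlaw⟩ := lawR c b (2 * b + 1) w0 hc (max x0 1) (ε / 16) (1 / 2)
    (by positivity) (by positivity) (by norm_num)
  obtain ⟨y1, hy1⟩ := V_big c (max x0 1)
  obtain ⟨τ1, hτ1⟩ : ∃ τ1 : ℝ, τ1 = ε / 16 := ⟨_, rfl⟩
  have hτ10 : 0 < τ1 := by rw [hτ1]; positivity
  obtain ⟨κ, hκ⟩ : ∃ κ : ℝ, κ = τ1 / (T0 + 2 * b + 1) := ⟨_, rfl⟩
  have hκ0 : 0 < κ := by rw [hκ]; positivity
  have hκ1 : κ * (T0 + 2 * b + 1) = τ1 := by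
    rw [hκ]
    field_simp
  have hb0 : (0 : ℝ) ≤ b := Nat.cast_nonneg b
  have hT00 : (0 : ℝ) ≤ T0 := Nat.cast_nonneg T0
  have hκτ : κ ≤ τ1 := by
    nlinarith [mul_nonneg hκ0.le hT00, mul_nonneg hκ0.le hb0]
  have hκb : κ * b ≤ τ1 := by
    nlinarith [mul_nonneg hκ0.le hT00, mul_nonneg hκ0.le hb0]
  refine ⟨K0 + R0, max y0 (y1 + 1), κ, η', τ1, hκ0, hη', hτ10, ?_⟩
  intro y Y hy hyY Q Ex B ExB hs hVκ hcol Z
  have hy1' : 1 ≤ y := by
    have := (le_max_right y0 (y1 + 1)).trans hy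
    omega
  have hV0 : 0 < Vq Q y := Vq_pos Q hs.adm y
  obtain ⟨V, hV⟩ : ∃ V, V = Vq Q y := ⟨_, rfl⟩
  obtain ⟨N, hN⟩ : ∃ N, N = Y * Vq (QH Q B) y := ⟨_, rfl⟩
  have hVB0 := Vq_nonneg (QH Q B) y
  have hN0 : 0 ≤ N := by rw [hN]; positivity
  have hyB := hy1 y (by
    have := (le_max_right y0 (y1 + 1)).trans hy
    omega) Q hs.per hs.adm
  -- one window
  have hone : ∀ T : ℕ, τ1 ≤ T * Vq Q y → T * Vq Q y ≤ max x0 1 →
      (∀ A : Finset ℕ, |(NA Q y B T A Z Y : ℝ) - N * Po (T * Vq Q y) A| ≤ ε / 8 * N) ∧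
      |(Nb Q y B Z Y : ℝ) - N| ≤ ε / 4 * N := by
    intro T hT1 hT2
    have hTy : T ≤ y := by
      have h1 : (T : ℝ) * Vq Q y ≤ y * Vq Q y := hT2.trans hyB
      exact_mod_cast le_of_mul_le_mul_right h1 hV0
    have hTbig : T0 + 2 * b + 1 ≤ T := by
      have h1 : κ * ((T0 + 2 * b + 1 : ℕ) : ℝ) ≤ κ * T := by
        push_cast
        rw [hκ1]
        calc τ1 ≤ T * Vq Q y := hT1
          _ ≤ T * κ := mul_le_mul_of_nonneg_left hVκ (Nat.cast_nonneg _)
          _ = κ * T := mul_comm _ _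
      exact_mod_cast le_of_mul_le_mul_left h1 hκ0
    have hTR : T ^ R0 ≤ Y := (Nat.pow_le_pow_left hTy R0).trans
      ((Nat.pow_le_pow_right hy1' (by omega)).trans hyY)
    have hyK : y ^ K0 ≤ Y := (Nat.pow_le_pow_right hy1' (by omega)).trans hyY
    have hcardW : ((Icc 1 T \ B).card : ℝ) ≤ T := by
      have := card_le_card (sdiff_subset (s := Icc 1 T) (t := B))
      rw [Nat.card_Icc, Nat.add_sub_cancel] at this
      exact_mod_cast this
    have hcardW' : (T : ℝ) - b ≤ (Icc 1 T \ B).card := by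
      have h2 := Finset.le_card_sdiff B (Icc 1 T)
      rw [Nat.card_Icc, Nat.add_sub_cancel] at h2
      have h5 := hs.card
      have h3 : T ≤ (Icc 1 T \ B).card + b := by omega
      have h4 : (T : ℝ) ≤ (Icc 1 T \ B).card + b := by exact_mod_cast h3
      linarith
    have hok : Ok c (2 * b + 1) w0 1 T (1 / 2) (Icc 1 T \ B) Q Ex :=
      { sub := sdiff_subset
        dens := by
          have h1 : ((T0 + 2 * b + 1 : ℕ) : ℝ) ≤ T := by exact_mod_cast hTbig
          push_cast at h1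
          linarith
        per := hs.per
        adm := hs.adm
        noM := hs.no1
        equi := fun w m => equi_sdiff Q c hs.per B b hs.card T w m
        exc := fun a _ b _ hab hx => hs.exc a b hab hx }
    have hokB : OkB b w0 (Icc 1 T \ B) B Q ExB :=
      { card := hs.card
        exc := fun a ha hx => hs.excB a (Finset.mem_sdiff.1 ha).2 hx }
    have hx : ((Icc 1 T \ B).card : ℝ) * Vq Q y ≤ max x0 1 :=
      (mul_le_mul_of_nonneg_right hcardW hV0.le).trans hT2
    obtain ⟨h0, h1⟩ := hlaw Y y T ((le_max_left _ _).trans hy) hyK (by omega) hTR 1 Z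
      (Icc 1 T \ B) Q Ex hok hx (fun t ht => (hcol T hT1 hT2 hTy t ht).1) B ExB hokB
      (fun t ht => (hcol T hT1 hT2 hTy t ht).2)
    -- the mean
    have hm1 : |((Icc 1 T \ B).card : ℝ) * Vq Q y - T * Vq Q y| ≤ ε / 16 := by
      rw [← sub_mul, abs_mul, abs_of_pos hV0]
      have h2 : |((Icc 1 T \ B).card : ℝ) - T| ≤ b := by
        rw [abs_le]
        constructor <;> linarith
      calc |((Icc 1 T \ B).card : ℝ) - T| * Vq Q y ≤ b * κ := mul_le_mul h2 hVκ hV0.le hb0
        _ = κ * b := mul_comm _ _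
        _ ≤ _ := by rw [← hτ1]; exact hκb
    have hx0' : 0 ≤ ((Icc 1 T \ B).card : ℝ) * Vq Q y := by positivity
    have hT0' : 0 ≤ (T : ℝ) * Vq Q y := by positivity
    have hexp : ∀ A : Finset ℕ, |Po (((Icc 1 T \ B).card : ℝ) * Vq Q y) A - Po (T * Vq Q y) A| ≤
        ε / 16 := fun A => (Po_lip A _ _ hx0' hT0').trans hm1
    constructor
    · intro A
      have h2 := h1 A
      rw [← hN] at h2
      have e1 : ((Icc 1 Y).filter (fun m => Sf (QH Q B) y (Z + 1 * m) ∧
          Nn Q y (Icc 1 T \ B) (Z + 1 * m) ∈ A)).card = NA Q y B T A Z Y := by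
        unfold NA
        rw [shift_card]
      rw [e1] at h2
      have h3 : |N * Po (((Icc 1 T \ B).card : ℝ) * Vq Q y) A -
          N * Po (T * Vq Q y) A| ≤ ε / 16 * N := by
        rw [← mul_sub, abs_mul, abs_of_nonneg hN0, mul_comm (ε / 16)]
        exact mul_le_mul_of_nonneg_left (hexp A) hN0
      have h4 := abs_sub_le (NA Q y B T A Z Y : ℝ)
        (N * Po (((Icc 1 T \ B).card : ℝ) * Vq Q y) A) (N * Po (T * Vq Q y) A)
      unfold Po at h3 h4 ⊢
      linarith
    · rw [← hN] at h0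
      have e1 : ((Icc 1 Y).filter (fun m => Sf (QH Q B) y (Z + 1 * m))).card = Nb Q y B Z Y := by
        unfold Nb
        rw [shift_card]
      rw [e1] at h0
      nlinarith
  -- the smallest window
  obtain ⟨T', h1, h2, h3⟩ := exists_window V τ1 (by rw [hV]; exact hV0) (by rw [hV]; linarith)
  rw [hV] at h1 h2 h3
  have h4 := hone T' h1 (h2.trans (by
    refine le_trans ?_ (le_max_right _ _)
    rw [hτ1]
    linarith))
  have hNb := h4.2
  rw [← hN]
  refine ⟨hNb.trans (by nlinarith), fun T hT A => ?_⟩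
  by_cases hτT : τ1 ≤ T * Vq Q y
  · exact ((hone T hτT (hT.trans (le_max_left _ _))).1 A).trans (by nlinarith)
  · rw [not_le] at hτT
    have hTT := h3 T hτT
    have hT0' : 0 ≤ (T : ℝ) * Vq Q y := by positivity
    obtain ⟨n0, hn0⟩ : ∃ n0 : ℝ, n0 = NA Q y B T {0} Z Y := ⟨_, rfl⟩
    have a1 : (NA Q y B T' {0} Z Y : ℝ) ≤ n0 := by
      rw [hn0]
      unfold NA
      have : ((Ioc Z (Z + Y)).filter (fun n => Sf (QH Q B) y n ∧
            Nn Q y (Icc 1 T' \ B) n ∈ ({0} : Finset ℕ))).card ≤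
          ((Ioc Z (Z + Y)).filter (fun n => Sf (QH Q B) y n ∧
            Nn Q y (Icc 1 T \ B) n ∈ ({0} : Finset ℕ))).card := by
        apply card_le_card
        intro n hn
        rw [mem_filter, nn_vo] at hn ⊢
        exact ⟨hn.1, hn.2.1, fun h hh1 hh2 => hn.2.2 h hh1 (hh2.trans hTT)⟩
      exact_mod_cast this
    have b3 : 1 - ε / 8 ≤ Po (T' * Vq Q y) {0} := by
      unfold Po
      rw [Finset.sum_singleton, pow_zero, mul_one, Nat.factorial_zero, Nat.cast_one, div_one]
      have := Real.add_one_le_exp (-(T' * Vq Q y))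
      linarith
    have b1 : 1 - ε / 16 ≤ Po (T * Vq Q y) {0} := by
      unfold Po
      rw [Finset.sum_singleton, pow_zero, mul_one, Nat.factorial_zero, Nat.cast_one, div_one]
      have := Real.add_one_le_exp (-(T * Vq Q y))
      linarith
    obtain ⟨c1, c2⟩ := abs_le.1 (h4.1 {0})
    obtain ⟨d1, d2⟩ := abs_le.1 hNb
    have e3 : N * (1 - ε / 8) ≤ N * Po (T' * Vq Q y) {0} := mul_le_mul_of_nonneg_left b3 hN0
    have e6 : 0 ≤ ε * N := by positivity
    have f1 : N - ε / 4 * N ≤ n0 := by nlinarith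
    by_cases h0A : 0 ∈ A
    · have g1 : n0 ≤ NA Q y B T A Z Y := by
        rw [hn0]
        unfold NA
        have : ((Ioc Z (Z + Y)).filter (fun n => Sf (QH Q B) y n ∧
              Nn Q y (Icc 1 T \ B) n ∈ ({0} : Finset ℕ))).card ≤
            ((Ioc Z (Z + Y)).filter (fun n => Sf (QH Q B) y n ∧
              Nn Q y (Icc 1 T \ B) n ∈ A)).card := by
          apply card_le_card
          intro n hn
          rw [mem_filter, mem_singleton] at hn
          rw [mem_filter, hn.2.2]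
          exact ⟨hn.1, hn.2.1, h0A⟩
        exact_mod_cast this
      have g2 : (NA Q y B T A Z Y : ℝ) ≤ Nb Q y B Z Y := by
        unfold NA Nb
        have : ((Ioc Z (Z + Y)).filter (fun n => Sf (QH Q B) y n ∧
              Nn Q y (Icc 1 T \ B) n ∈ A)).card ≤
            ((Ioc Z (Z + Y)).filter (fun n => Sf (QH Q B) y n)).card := by
          apply card_le_card
          intro n hn
          rw [mem_filter] at hn ⊢
          exact ⟨hn.1, hn.2.1⟩
        exact_mod_cast this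
      have g3 : Po (T * Vq Q y) {0} ≤ Po (T * Vq Q y) A := by
        unfold Po
        apply Finset.sum_le_sum_of_subset_of_nonneg
        · intro j hj
          rw [mem_singleton] at hj
          rw [hj]
          exact h0A
        · intro j _ _
          positivity
      have g4 := (Po_bd (T * Vq Q y) hT0' A).2
      have g5 : N * (1 - ε / 16) ≤ N * Po (T * Vq Q y) A :=
        mul_le_mul_of_nonneg_left (b1.trans g3) hN0
      have g6 : N * Po (T * Vq Q y) A ≤ N * 1 := mul_le_mul_of_nonneg_left g4 hN0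
      rw [abs_le]
      constructor <;> nlinarith
    · have g1 : (NA Q y B T A Z Y : ℝ) + n0 ≤ Nb Q y B Z Y := by
        rw [hn0]
        unfold NA Nb
        have : ((Ioc Z (Z + Y)).filter (fun n => Sf (QH Q B) y n ∧
              Nn Q y (Icc 1 T \ B) n ∈ A)).card +
            ((Ioc Z (Z + Y)).filter (fun n => Sf (QH Q B) y n ∧
              Nn Q y (Icc 1 T \ B) n ∈ ({0} : Finset ℕ))).card ≤
            ((Ioc Z (Z + Y)).filter (fun n => Sf (QH Q B) y n)).card := by
          rw [← Finset.card_union_of_disjoint]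
          · apply card_le_card
            intro n hn
            rw [mem_union, mem_filter, mem_filter] at hn
            rw [mem_filter]
            rcases hn with hn | hn
            · exact ⟨hn.1, hn.2.1⟩
            · exact ⟨hn.1, hn.2.1⟩
          · rw [Finset.disjoint_left]
            intro n hn hn'
            rw [mem_filter] at hn hn'
            rw [mem_singleton] at hn'
            exact h0A (hn'.2.2 ▸ hn.2.2)
        exact_mod_cast this
      have g3 : Po (T * Vq Q y) A + Po (T * Vq Q y) {0} ≤ 1 := by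
        have := (Po_bd (T * Vq Q y) hT0' (A ∪ {0})).2
        unfold Po at this ⊢
        rw [Finset.sum_union (by
          rw [Finset.disjoint_singleton_right]
          exact h0A)] at this
        exact this
      have g4 := (Po_bd (T * Vq Q y) hT0' A).1
      have g5 : N * Po (T * Vq Q y) A ≤ N * (ε / 16) := mul_le_mul_of_nonneg_left (by linarith) hN0
      have g6 : 0 ≤ N * Po (T * Vq Q y) A := by positivity
      have g7 : (0 : ℝ) ≤ NA Q y B T A Z Y := Nat.cast_nonneg _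
      rw [abs_le]
      constructor <;> nlinarith

open Classical in
/-- **The law with a base** for the integers without prime factors up to `X ^ (1 / r)`. -/
theorem base_lawA (b : ℕ) (E x0 ε θ : ℝ) (hE : 0 ≤ E) (hx0 : 0 ≤ x0) (hε : 0 < ε) (hε1 : ε ≤ 1)
    (hθ : 0 < θ) : ∃ r0 : ℕ, 2 ≤ r0 ∧ ∀ r : ℕ, r0 ≤ r → ∀ᶠ X : ℕ in atTop, ∀ Z Y : ℕ,
      (X : ℝ) ^ θ ≤ Y → ∀ B : Finset ℕ, B.card ≤ b → (∀ a ∈ B, (a : ℝ) ≤ (X : ℝ) ^ E) →
      |(Nb Q1 ⌊(X : ℝ) ^ (1 / (r : ℝ))⌋₊ B Z Y : ℝ) -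
        Y * Vq (QH Q1 B) ⌊(X : ℝ) ^ (1 / (r : ℝ))⌋₊| ≤
        ε * (Y * Vq (QH Q1 B) ⌊(X : ℝ) ^ (1 / (r : ℝ))⌋₊) ∧
      ∀ T : ℕ, T * Vz ⌊(X : ℝ) ^ (1 / (r : ℝ))⌋₊ ≤ x0 → ∀ A : Finset ℕ,
        |(NA Q1 ⌊(X : ℝ) ^ (1 / (r : ℝ))⌋₊ B T A Z Y : ℝ) -
          Y * Vq (QH Q1 B) ⌊(X : ℝ) ^ (1 / (r : ℝ))⌋₊ *
            Po (T * Vz ⌊(X : ℝ) ^ (1 / (r : ℝ))⌋₊) A| ≤
          ε * (Y * Vq (QH Q1 B) ⌊(X : ℝ) ^ (1 / (r : ℝ))⌋₊) := by
  obtain ⟨K0, y0, κ, η', τ1, hκ, hη', hτ1, h1⟩ := rel_law 1 b 0 le_rfl x0 ε hx0 hε hε1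
  obtain ⟨r1, hr1⟩ : ∃ r1 : ℕ, (K0 : ℝ) / θ ≤ r1 := exists_nat_ge _
  refine ⟨max r1 2, le_max_right _ _, ?_⟩
  intro r hr
  have hr2 : 2 ≤ r := (le_max_right _ _).trans hr
  have hrr : (2 : ℝ) ≤ r := by exact_mod_cast hr2
  have hrpos : (0 : ℝ) < r := by linarith
  have hrK : (K0 : ℝ) ≤ θ * r := by
    have h4 : (K0 : ℝ) / θ ≤ r := hr1.trans (by exact_mod_cast (le_max_left _ _).trans hr)
    rw [div_le_iff₀ hθ] at h4
    linarith
  have hpow : Tendsto (fun X : ℕ => (X : ℝ) ^ (1 / (r : ℝ))) atTop atTop :=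
    (tendsto_rpow_atTop (by positivity)).comp tendsto_natCast_atTop_atTop
  have hlog : Tendsto (fun X : ℕ => Real.log (X : ℝ)) atTop atTop :=
    Real.tendsto_log_atTop.comp tendsto_natCast_atTop_atTop
  obtain ⟨C, hC, hVz⟩ := Pool.Agent.Y879.GL.Vz_up r hr2
  obtain ⟨L, hL⟩ : ∃ L : ℝ, L = b * (E + 1) * C / (τ1 * η') := ⟨_, rfl⟩
  have hL0 : 0 ≤ L := by rw [hL]; positivity
  filter_upwards [hpow.eventually_ge_atTop (y0 : ℝ), eventually_ge_atTop 2, hVz,
    hlog.eventually_ge_atTop (C / κ), hlog.eventually_ge_atTop (C / τ1 * Real.exp (L + 1))]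
    with X h4 h5 h6 h7 h8
  intro Z Y hXY B hB hBX
  obtain ⟨y, hy⟩ : ∃ y, y = ⌊(X : ℝ) ^ (1 / (r : ℝ))⌋₊ := ⟨_, rfl⟩
  rw [← hy] at h6 ⊢
  have hyy : y0 ≤ y := by
    rw [hy]
    exact Nat.le_floor h4
  have hX0 : (0 : ℝ) < X := by exact_mod_cast (by omega : 0 < X)
  have hX1 : (1 : ℝ) ≤ X := by exact_mod_cast (by omega : 1 ≤ X)
  have hX2 : (2 : ℝ) ≤ X := by exact_mod_cast h5
  have hlX : 0 < Real.log X := Real.log_pos (by linarith)
  have hyX' : (y : ℝ) ≤ X := by
    calc (y : ℝ) ≤ (X : ℝ) ^ (1 / (r : ℝ)) := by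
          rw [hy]
          exact Nat.floor_le (by positivity)
      _ ≤ (X : ℝ) ^ (1 : ℝ) := by
          apply Real.rpow_le_rpow_of_exponent_le hX1
          rw [div_le_one hrpos]
          linarith
      _ = X := Real.rpow_one _
  have hyK : y ^ K0 ≤ Y := by
    have h6 : ((y ^ K0 : ℕ) : ℝ) ≤ Y := by
      push_cast
      calc (y : ℝ) ^ K0 ≤ ((X : ℝ) ^ (1 / (r : ℝ))) ^ K0 := by
            apply pow_le_pow_left₀ (Nat.cast_nonneg _)
            rw [hy]
            exact Nat.floor_le (by positivity)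
        _ = (X : ℝ) ^ (1 / (r : ℝ) * K0) := by
            rw [Real.rpow_mul hX0.le, Real.rpow_natCast]
        _ ≤ (X : ℝ) ^ θ := by
            apply Real.rpow_le_rpow_of_exponent_le hX1
            rw [one_div, inv_mul_eq_div, div_le_iff₀ hrpos]
            exact hrK
        _ ≤ Y := hXY
    exact_mod_cast h6
  have hVκ : Vq Q1 y ≤ κ := by
    rw [Vq_Q1]
    refine h6.2.trans ?_
    rw [div_le_iff₀ hlX]
    rw [div_le_iff₀ hκ] at h7
    linarith
  have hsr : Sr 1 b 0 Q1 (fun _ => False) B (fun t => t ∈ B) :=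
    { per := Q1_perB
      adm := Q1_adm
      no1 := fun p hp n h => h.1 hp
      exc := fun _ _ _ h => h.elim
      card := hB
      excB := fun a ha hx => absurd hx ha }
  have h9 := h1 y Y hyy hyK Q1 (fun _ => False) B (fun t => t ∈ B) hsr hVκ (by
    intro T hT1 hT2 hTy t ht
    rw [mem_Icc] at ht
    have hTpos : 1 ≤ T := by omega
    refine ⟨fun _ => ?_, fun htB => ?_⟩
    · have : (pz y).filter (fun p : ℕ => T < p ∧ CoG Q1 p t) = ∅ := by
        rw [Finset.filter_eq_empty_iff]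
        rintro p hp ⟨hTp, m, ⟨_, hm1⟩, ⟨_, hm2⟩⟩
        have h10 : p ∣ t := (Nat.dvd_add_right hm1).1 hm2
        have := Nat.le_of_dvd (by omega) h10
        omega
      rw [this, card_empty]
      push_cast
      positivity
    · rw [Vq_Q1] at hT1
      have hTlog : τ1 / C * Real.log X ≤ T := by
        have h10 : τ1 ≤ T * (C / Real.log X) :=
          hT1.trans (mul_le_mul_of_nonneg_left h6.2 (Nat.cast_nonneg _))
        rw [← mul_div_assoc, le_div_iff₀ hlX] at h10
        rw [div_mul_eq_mul_div, div_le_iff₀ hC]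
        exact h10
      have hTe : Real.exp (L + 1) ≤ T := by
        refine le_trans ?_ hTlog
        rw [div_mul_eq_mul_div, div_le_iff₀ hτ1] at h8
        rw [div_mul_eq_mul_div, le_div_iff₀ hC]
        linarith
      have hTr : (0 : ℝ) < T := by exact_mod_cast hTpos
      have hLT : L + 1 ≤ Real.log T := by
        rw [← Real.log_exp (L + 1)]
        exact Real.log_le_log (Real.exp_pos _) hTe
      have hlT : 0 < Real.log T := by linarith
      have hT_X : (T : ℝ) ≤ X := le_trans (by exact_mod_cast hTy) hyX'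
      have hcount : ∀ a ∈ B, ((((pz y).filter (fun p : ℕ => T < p ∧
          ∃ m, Q1 p (m + a) ∧ Q1 p (m + t))).card : ℕ) : ℝ) ≤ (E + 1) * Real.log X / Real.log T := by
        intro a ha
        obtain ⟨m0, hm0, hm1, hm2⟩ : ∃ m0 : ℕ, m0 ≠ 0 ∧ (m0 : ℝ) ≤ (X : ℝ) ^ (E + 1) ∧
            ∀ p : ℕ, (∃ m, Q1 p (m + a) ∧ Q1 p (m + t)) → p ∣ m0 := by
          have hne : a ≠ t := fun h => htB (h ▸ ha)
          have hXE : (X : ℝ) ^ E ≤ (X : ℝ) ^ (E + 1) :=
            Real.rpow_le_rpow_of_exponent_le hX1 (by linarith)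
          have hXE1 : (X : ℝ) ≤ (X : ℝ) ^ (E + 1) := by
            calc (X : ℝ) = (X : ℝ) ^ (1 : ℝ) := (Real.rpow_one _).symm
              _ ≤ _ := Real.rpow_le_rpow_of_exponent_le hX1 (by linarith)
          rcases Nat.lt_or_gt_of_ne hne with h | h
          · refine ⟨t - a, by omega, ?_, ?_⟩
            · have h11 : ((t - a : ℕ) : ℝ) ≤ T := by exact_mod_cast (by omega : t - a ≤ T)
              linarith
            · rintro p ⟨m, ⟨_, hm1⟩, ⟨_, hm2⟩⟩
              have e : m + t = (m + a) + (t - a) := by omega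
              rw [e] at hm2
              exact (Nat.dvd_add_right hm1).1 hm2
          · refine ⟨a - t, by omega, ?_, ?_⟩
            · have h11 : ((a - t : ℕ) : ℝ) ≤ a := by exact_mod_cast (by omega : a - t ≤ a)
              have := hBX a ha
              linarith
            · rintro p ⟨m, ⟨_, hm1⟩, ⟨_, hm2⟩⟩
              have e : m + a = (m + t) + (a - t) := by omega
              rw [e] at hm1
              exact (Nat.dvd_add_right hm2).1 hm1
        rw [le_div_iff₀ hlT]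
        have h12 := prime_count ((pz y).filter (fun p : ℕ => T < p ∧
          ∃ m, Q1 p (m + a) ∧ Q1 p (m + t))) T m0 _ hTpos hm0 hm1 (by
            intro p hp
            rw [mem_filter, mem_pz] at hp
            exact ⟨hp.1.2, hp.2.1, hm2 p hp.2.2⟩)
        rw [Real.log_rpow hX0] at h12
        exact h12
      have hsub : (pz y).filter (fun p : ℕ => T < p ∧ CoB Q1 B p t) ⊆
          B.biUnion (fun a => (pz y).filter (fun p : ℕ => T < p ∧
            ∃ m, Q1 p (m + a) ∧ Q1 p (m + t))) := by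
        intro p hp
        rw [mem_filter] at hp
        obtain ⟨hp1, hp2, a, ha, hm⟩ := hp
        rw [mem_biUnion]
        exact ⟨a, ha, mem_filter.2 ⟨hp1, hp2, hm⟩⟩
      have h13 : ((((pz y).filter (fun p : ℕ => T < p ∧ CoB Q1 B p t)).card : ℕ) : ℝ) ≤
          ∑ a ∈ B, ((((pz y).filter (fun p : ℕ => T < p ∧
            ∃ m, Q1 p (m + a) ∧ Q1 p (m + t))).card : ℕ) : ℝ) := by
        exact_mod_cast (card_le_card hsub).trans card_biUnion_le
      refine h13.trans ((Finset.sum_le_sum hcount).trans ?_)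
      rw [Finset.sum_const, nsmul_eq_mul]
      have hq0 : 0 ≤ (E + 1) * Real.log X / Real.log T := by positivity
      have hBr : (B.card : ℝ) ≤ b := by exact_mod_cast hB
      calc (B.card : ℝ) * ((E + 1) * Real.log X / Real.log T) ≤
            b * ((E + 1) * Real.log X / Real.log T) := mul_le_mul_of_nonneg_right hBr hq0
        _ = (b * (E + 1) * Real.log X) / Real.log T := by ring
        _ ≤ η' * T := by
          rw [div_le_iff₀ hlT]
          have h14 : b * (E + 1) * C = L * (τ1 * η') := by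
            rw [hL]
            field_simp
          have h15 : Real.log X ≤ C / τ1 * T := by
            rw [div_mul_eq_mul_div, div_le_iff₀ hC] at hTlog
            rw [div_mul_eq_mul_div, le_div_iff₀ hτ1]
            linarith
          calc (b : ℝ) * (E + 1) * Real.log X ≤ b * (E + 1) * (C / τ1 * T) :=
                mul_le_mul_of_nonneg_left h15 (by positivity)
            _ = (b * (E + 1) * C) * T / τ1 := by ring
            _ = L * η' * T := by
              rw [h14]
              field_simp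
            _ ≤ η' * T * Real.log T := by
              have : L * (η' * T) ≤ Real.log T * (η' * T) :=
                mul_le_mul_of_nonneg_right (by linarith) (by positivity)
              linarith) Z
  rw [Vq_Q1] at h9
  exact h9

end Pool.Agent.X262.LOS
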