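import Pool.Agent.X262.LOS.RelP3

set_option autoImplicit false

/-!
# Tuples of almost primes in residue classes, in short intervals, uniformly in the modulus
-/

namespace Pool.Agent.X262.LOS

open Finset Filter Pool.Agent.H373R2.T7 Pool.Agent.W123.RP Pool.Agent.W123.RU
open Pool.Agent.TH464.PO Pool.Agent.Y879.AP

/-- the product over the primes dividing `q` is at least `φ(q) / q` -/
lemma Va_le_tot (q y : ℕ) (hq : 0 < q) : Va q y * ((q.totient : ℝ) / q) ≤ Vz y := by
  have h1 : Vz y = Va q y * ∏ p ∈ (pz y).filter (fun p => p ∣ q), (1 - 1 / (p : ℝ)) := by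
    unfold Vz Va
    rw [mul_comm, Finset.prod_filter_mul_prod_filter_not]
  have hq0 : (q : ℝ) ≠ 0 := by exact_mod_cast hq.ne'
  have h2 : (q.totient : ℝ) / q = ∏ p ∈ q.primeFactors, (1 - 1 / (p : ℝ)) := by
    have h3 : ((q.totient : ℚ) : ℝ) = ((q * ∏ p ∈ q.primeFactors, (1 - (p : ℚ)⁻¹) : ℚ) : ℝ) := by
      rw [Nat.totient_eq_mul_prod_factors]
    push_cast at h3
    rw [h3, mul_div_cancel_left₀ _ hq0]
    refine Finset.prod_congr rfl fun p _ => ?_
    rw [one_div]
  rw [h1, h2]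
  apply mul_le_mul_of_nonneg_left _ (Va_pos q y).le
  have h4 : (pz y).filter (fun p => p ∣ q) ⊆ q.primeFactors := by
    intro p hp
    rw [mem_filter, mem_pz] at hp
    exact Nat.mem_primeFactors.2 ⟨hp.1.2, hp.2, hq.ne'⟩
  apply Finset.prod_le_prod_of_subset_of_le_one h4
  · intro p hp
    have h5 : (1 : ℝ) ≤ p := by exact_mod_cast (Nat.mem_primeFactors.1 hp).1.one_lt.le
    rw [sub_nonneg]
    exact (div_le_one (by linarith)).2 h5
  · intro p _ _
    have : (0 : ℝ) ≤ 1 / (p : ℝ) := by positivity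
    linarith

open Classical in
/-- **The law for tuples of almost primes in residue classes**, in short intervals. -/
theorem prog_lawR (b : ℕ) (x0 ε θ : ℝ) (hx0 : 0 ≤ x0)
    (hε : 0 < ε) (hε1 : ε ≤ 1) (hθ : 0 < θ) : ∃ r0 : ℕ, 2 ≤ r0 ∧ ∀ r : ℕ, r0 ≤ r →
      ∀ E κ0 : ℝ, 0 ≤ E → 0 < κ0 → ∀ᶠ X : ℕ in atTop, ∀ a e : ℕ, 0 < a → κ0 * a ≤ a.totient →
      ∀ Z Y : ℕ, (X : ℝ) ^ θ ≤ Y →
      ∀ B : Finset ℕ, B.card ≤ b → (∀ h ∈ B, (h : ℝ) ≤ (X : ℝ) ^ E) →
      |(Nb (QA a e) ⌊(X : ℝ) ^ (1 / (r : ℝ))⌋₊ B Z Y : ℝ) -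
        Y * Vq (QH (QA a e) B) ⌊(X : ℝ) ^ (1 / (r : ℝ))⌋₊| ≤
        ε * (Y * Vq (QH (QA a e) B) ⌊(X : ℝ) ^ (1 / (r : ℝ))⌋₊) ∧
      ∀ T : ℕ, T * Va a ⌊(X : ℝ) ^ (1 / (r : ℝ))⌋₊ ≤ x0 → ∀ A : Finset ℕ,
        |(NA (QA a e) ⌊(X : ℝ) ^ (1 / (r : ℝ))⌋₊ B T A Z Y : ℝ) -
          Y * Vq (QH (QA a e) B) ⌊(X : ℝ) ^ (1 / (r : ℝ))⌋₊ *
            Po (T * Va a ⌊(X : ℝ) ^ (1 / (r : ℝ))⌋₊) A| ≤
          ε * (Y * Vq (QH (QA a e) B) ⌊(X : ℝ) ^ (1 / (r : ℝ))⌋₊) := by
  obtain ⟨K0, y0, κ, η', τ1, hκ, hη', hτ1, h1⟩ := rel_law 1 b 0 le_rfl x0 ε hx0 hε hε1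
  obtain ⟨r1, hr1⟩ : ∃ r1 : ℕ, (K0 : ℝ) / θ ≤ r1 := exists_nat_ge _
  refine ⟨max r1 2, le_max_right _ _, ?_⟩
  intro r hr E κ0 hE hκ0
  have hr2 : 2 ≤ r := (le_max_right _ _).trans hr
  have hrr : (2 : ℝ) ≤ r := by exact_mod_cast hr2
  have hrpos : (0 : ℝ) < r := by linarith
  have hrK : (K0 : ℝ) ≤ θ * r := by
    have h4 : (K0 : ℝ) / θ ≤ r := hr1.trans (by exact_mod_cast (le_max_left _ _).trans hr)
    rw [div_le_iff₀ hθ] at h4
    linarith
  have hpow : Tendsto (fun X : ℕ => (X : ℝ) ^ (1 / (r : ℝ))) atTop atTop :=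
    (tendsto_rpow_atTop (by positivity)).comp tendsto_natCast_atTop_atTop
  have hlog : Tendsto (fun X : ℕ => Real.log (X : ℝ)) atTop atTop :=
    Real.tendsto_log_atTop.comp tendsto_natCast_atTop_atTop
  obtain ⟨C', hC', hVz'⟩ := Pool.Agent.Y879.GL.Vz_up r hr2
  obtain ⟨C, hC⟩ : ∃ C : ℝ, C = C' / κ0 := ⟨_, rfl⟩
  have hC0 : 0 < C := by rw [hC]; positivity
  obtain ⟨L, hL⟩ : ∃ L : ℝ, L = b * (E + 1) * C / (τ1 * η') := ⟨_, rfl⟩
  have hL0 : 0 ≤ L := by rw [hL]; positivity
  filter_upwards [hpow.eventually_ge_atTop (y0 : ℝ), eventually_ge_atTop 2, hVz',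
    hlog.eventually_ge_atTop (C / κ), hlog.eventually_ge_atTop (C / τ1 * Real.exp (L + 1))]
    with X h4 h5 h6' h7 h8
  intro a e ha0 hκa Z Y hXY B hB hBX
  obtain ⟨y, hy⟩ : ∃ y, y = ⌊(X : ℝ) ^ (1 / (r : ℝ))⌋₊ := ⟨_, rfl⟩
  rw [← hy] at h6' ⊢
  have hyy : y0 ≤ y := by
    rw [hy]
    exact Nat.le_floor h4
  have hX0 : (0 : ℝ) < X := by exact_mod_cast (by omega : 0 < X)
  have hX1 : (1 : ℝ) ≤ X := by exact_mod_cast (by omega : 1 ≤ X)
  have hX2 : (2 : ℝ) ≤ X := by exact_mod_cast h5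
  have hlX : 0 < Real.log X := Real.log_pos (by linarith)
  have h6 : Va a y ≤ C / Real.log X := by
    have har : (0 : ℝ) < a := by exact_mod_cast ha0
    have h10 : κ0 ≤ (a.totient : ℝ) / a := by
      rw [le_div_iff₀ har]
      exact hκa
    have h11 : Va a y * κ0 ≤ C' / Real.log X :=
      (mul_le_mul_of_nonneg_left h10 (Va_pos a y).le).trans ((Va_le_tot a y ha0).trans h6'.2)
    rw [hC, div_div, mul_comm κ0, ← div_div, le_div_iff₀ hκ0]
    exact h11
  have hyX' : (y : ℝ) ≤ X := by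
    calc (y : ℝ) ≤ (X : ℝ) ^ (1 / (r : ℝ)) := by
          rw [hy]
          exact Nat.floor_le (by positivity)
      _ ≤ (X : ℝ) ^ (1 : ℝ) := by
          apply Real.rpow_le_rpow_of_exponent_le hX1
          rw [div_le_one hrpos]
          linarith
      _ = X := Real.rpow_one _
  have hyK : y ^ K0 ≤ Y := by
    have h6 : ((y ^ K0 : ℕ) : ℝ) ≤ Y := by
      push_cast
      calc (y : ℝ) ^ K0 ≤ ((X : ℝ) ^ (1 / (r : ℝ))) ^ K0 := by
            apply pow_le_pow_left₀ (Nat.cast_nonneg _)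
            rw [hy]
            exact Nat.floor_le (by positivity)
        _ = (X : ℝ) ^ (1 / (r : ℝ) * K0) := by
            rw [Real.rpow_mul hX0.le, Real.rpow_natCast]
        _ ≤ (X : ℝ) ^ θ := by
            apply Real.rpow_le_rpow_of_exponent_le hX1
            rw [one_div, inv_mul_eq_div, div_le_iff₀ hrpos]
            exact hrK
        _ ≤ Y := hXY
    exact_mod_cast h6
  have hVκ : Vq (QA a e) y ≤ κ := by
    rw [Vq_QA]
    refine h6.trans ?_
    rw [div_le_iff₀ hlX]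
    rw [div_le_iff₀ hκ] at h7
    linarith
  have hsr : Sr 1 b 0 (QA a e) (fun _ => False) B (fun t => t ∈ B) :=
    { per := QA_perB a e
      adm := QA_adm a e
      no1 := fun p hp n h => h.1 (hp.trans (one_dvd a))
      exc := fun _ _ _ h => h.elim
      card := hB
      excB := fun a ha hx => absurd hx ha }
  have h9 := h1 y Y hyy hyK (QA a e) (fun _ => False) B (fun t => t ∈ B) hsr hVκ (by
    intro T hT1 hT2 hTy t ht
    rw [mem_Icc] at ht
    have hTpos : 1 ≤ T := by omega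
    have hmul : ∀ p : ℕ, p.Prime → ¬ p ∣ a → ∀ m s : ℕ, p ∣ a * m + e → p ∣ a * (m + s) + e → p ∣ s := by
      intro p hp hpa m s h2 h3
      have h4 : a * (m + s) + e = (a * m + e) + a * s := by ring
      rw [h4] at h3
      exact (hp.dvd_mul.1 ((Nat.dvd_add_right h2).1 h3)).resolve_left hpa
    refine ⟨fun _ => ?_, fun htB => ?_⟩
    · have : (pz y).filter (fun p : ℕ => T < p ∧ CoG (QA a e) p t) = ∅ := by
        rw [Finset.filter_eq_empty_iff]
        rintro p hp ⟨hTp, m, ⟨hpa, hm1⟩, ⟨_, hm2⟩⟩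
        have h10 : p ∣ t := hmul p (mem_pz.1 hp).2 hpa m t hm1 hm2
        have := Nat.le_of_dvd (by omega) h10
        omega
      rw [this, card_empty]
      push_cast
      positivity
    · rw [Vq_QA] at hT1
      have hTlog : τ1 / C * Real.log X ≤ T := by
        have h10 : τ1 ≤ T * (C / Real.log X) :=
          hT1.trans (mul_le_mul_of_nonneg_left h6 (Nat.cast_nonneg _))
        rw [← mul_div_assoc, le_div_iff₀ hlX] at h10
        rw [div_mul_eq_mul_div, div_le_iff₀ hC0]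
        exact h10
      have hTe : Real.exp (L + 1) ≤ T := by
        refine le_trans ?_ hTlog
        rw [div_mul_eq_mul_div, div_le_iff₀ hτ1] at h8
        rw [div_mul_eq_mul_div, le_div_iff₀ hC0]
        linarith
      have hTr : (0 : ℝ) < T := by exact_mod_cast hTpos
      have hLT : L + 1 ≤ Real.log T := by
        rw [← Real.log_exp (L + 1)]
        exact Real.log_le_log (Real.exp_pos _) hTe
      have hlT : 0 < Real.log T := by linarith
      have hT_X : (T : ℝ) ≤ X := le_trans (by exact_mod_cast hTy) hyX'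
      have hcount : ∀ h ∈ B, ((((pz y).filter (fun p : ℕ => T < p ∧
          ∃ m, QA a e p (m + h) ∧ QA a e p (m + t))).card : ℕ) : ℝ) ≤
            (E + 1) * Real.log X / Real.log T := by
        intro h hh
        obtain ⟨m0, hm0, hm1, hm2⟩ : ∃ m0 : ℕ, m0 ≠ 0 ∧ (m0 : ℝ) ≤ (X : ℝ) ^ (E + 1) ∧
            ∀ p : ℕ, p.Prime → (∃ m, QA a e p (m + h) ∧ QA a e p (m + t)) → p ∣ m0 := by
          have hne : h ≠ t := fun hx => htB (hx ▸ hh)
          have hXE : (X : ℝ) ^ E ≤ (X : ℝ) ^ (E + 1) :=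
            Real.rpow_le_rpow_of_exponent_le hX1 (by linarith)
          have hXE1 : (X : ℝ) ≤ (X : ℝ) ^ (E + 1) := by
            calc (X : ℝ) = (X : ℝ) ^ (1 : ℝ) := (Real.rpow_one _).symm
              _ ≤ _ := Real.rpow_le_rpow_of_exponent_le hX1 (by linarith)
          rcases Nat.lt_or_gt_of_ne hne with h' | h'
          · refine ⟨t - h, by omega, ?_, ?_⟩
            · have h11 : ((t - h : ℕ) : ℝ) ≤ T := by exact_mod_cast (by omega : t - h ≤ T)
              linarith
            · rintro p hp ⟨m, ⟨hpa, hm1⟩, ⟨_, hm2⟩⟩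
              have e1 : m + t = (m + h) + (t - h) := by omega
              rw [e1] at hm2
              exact hmul p hp hpa _ _ hm1 hm2
          · refine ⟨h - t, by omega, ?_, ?_⟩
            · have h11 : ((h - t : ℕ) : ℝ) ≤ h := by exact_mod_cast (by omega : h - t ≤ h)
              have := hBX h hh
              linarith
            · rintro p hp ⟨m, ⟨hpa, hm1⟩, ⟨_, hm2⟩⟩
              have e1 : m + h = (m + t) + (h - t) := by omega
              rw [e1] at hm1
              exact hmul p hp hpa _ _ hm2 hm1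
        rw [le_div_iff₀ hlT]
        have h12 := prime_count ((pz y).filter (fun p : ℕ => T < p ∧
          ∃ m, QA a e p (m + h) ∧ QA a e p (m + t))) T m0 _ hTpos hm0 hm1 (by
            intro p hp
            rw [mem_filter, mem_pz] at hp
            exact ⟨hp.1.2, hp.2.1, hm2 p hp.1.2 hp.2.2⟩)
        rw [Real.log_rpow hX0] at h12
        exact h12
      have hsub : (pz y).filter (fun p : ℕ => T < p ∧ CoB (QA a e) B p t) ⊆
          B.biUnion (fun h => (pz y).filter (fun p : ℕ => T < p ∧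
            ∃ m, QA a e p (m + h) ∧ QA a e p (m + t))) := by
        intro p hp
        rw [mem_filter] at hp
        obtain ⟨hp1, hp2, h, hh, hm⟩ := hp
        rw [mem_biUnion]
        exact ⟨h, hh, mem_filter.2 ⟨hp1, hp2, hm⟩⟩
      have h13 : ((((pz y).filter (fun p : ℕ => T < p ∧ CoB (QA a e) B p t)).card : ℕ) : ℝ) ≤
          ∑ h ∈ B, ((((pz y).filter (fun p : ℕ => T < p ∧
            ∃ m, QA a e p (m + h) ∧ QA a e p (m + t))).card : ℕ) : ℝ) := by
        exact_mod_cast (card_le_card hsub).trans card_biUnion_le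
      refine h13.trans ((Finset.sum_le_sum hcount).trans ?_)
      rw [Finset.sum_const, nsmul_eq_mul]
      have hq0 : 0 ≤ (E + 1) * Real.log X / Real.log T := by positivity
      have hBr : (B.card : ℝ) ≤ b := by exact_mod_cast hB
      calc (B.card : ℝ) * ((E + 1) * Real.log X / Real.log T) ≤
            b * ((E + 1) * Real.log X / Real.log T) := mul_le_mul_of_nonneg_right hBr hq0
        _ = (b * (E + 1) * Real.log X) / Real.log T := by ring
        _ ≤ η' * T := by
          rw [div_le_iff₀ hlT]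
          have h14 : b * (E + 1) * C = L * (τ1 * η') := by
            rw [hL]
            field_simp
          have h15 : Real.log X ≤ C / τ1 * T := by
            rw [div_mul_eq_mul_div, div_le_iff₀ hC0] at hTlog
            rw [div_mul_eq_mul_div, le_div_iff₀ hτ1]
            linarith
          calc (b : ℝ) * (E + 1) * Real.log X ≤ b * (E + 1) * (C / τ1 * T) :=
                mul_le_mul_of_nonneg_left h15 (by positivity)
            _ = (b * (E + 1) * C) * T / τ1 := by ring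
            _ = L * η' * T := by
              rw [h14]
              field_simp
            _ ≤ η' * T * Real.log T := by
              have : L * (η' * T) ≤ Real.log T * (η' * T) :=
                mul_le_mul_of_nonneg_right (by linarith) (by positivity)
              linarith) Z
  rw [Vq_QA] at h9
  exact h9

end Pool.Agent.X262.LOS
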