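import Pool.Agent.X262.LOS.RelP2

set_option autoImplicit false

/-!
# Primes and almost primes in a residue class
-/

namespace Pool.Agent.X262.LOS

open Finset Filter Pool.Agent.H373R2.T7 Pool.Agent.W123.RP Pool.Agent.W123.RU
open Pool.Agent.TH464.PO Pool.Agent.Y879.AP
open Pool.Agent.Y879.PR (Base Om)

/-- `p` divides `a n + e`, for `p` prime to `a` -/
def QA (a e p n : ℕ) : Prop := ¬ p ∣ a ∧ p ∣ a * n + e

lemma QA_per (a e p n : ℕ) : QA a e p n ↔ QA a e p (n % p) := by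
  unfold QA
  apply and_congr_right
  intro _
  have h : a * (n % p) + e ≡ a * n + e [MOD p] := ((Nat.mod_modEq n p).mul_left a).add_right e
  exact (h.dvd_iff (dvd_refl p)).symm

lemma QA_nuB (a e p : ℕ) (hp : p.Prime) (hpa : ¬ p ∣ a) : nuB (QA a e) p = 1 := by
  classical
  unfold nuB
  rw [card_eq_one]
  obtain ⟨x, hx⟩ := Pool.Agent.Y879.PR.exists_root a e p hp hpa
  refine ⟨x % p, ?_⟩
  ext r
  rw [mem_filter, mem_range, mem_singleton]
  constructor
  · rintro ⟨h1, _, h2⟩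
    have h3 : a * r + e ≡ a * x + e [MOD p] :=
      ((Nat.modEq_zero_iff_dvd).2 h2).trans ((Nat.modEq_zero_iff_dvd).2 hx).symm
    have h4 : r ≡ x [MOD p] := Nat.ModEq.cancel_left_of_coprime
      ((Nat.Prime.coprime_iff_not_dvd hp).2 hpa) (Nat.ModEq.add_right_cancel' e h3)
    unfold Nat.ModEq at h4
    rw [← h4, Nat.mod_eq_of_lt h1]
  · rintro rfl
    refine ⟨Nat.mod_lt _ hp.pos, ?_⟩
    rw [← QA_per]
    exact ⟨hpa, hx⟩

lemma QA_nuB0 (a e p : ℕ) (hpa : p ∣ a) : nuB (QA a e) p = 0 := by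
  classical
  unfold nuB
  rw [card_eq_zero, Finset.filter_eq_empty_iff]
  intro r _ h
  exact h.1 hpa

lemma QA_perB (a e : ℕ) : PerB (QA a e) 1 := by
  refine ⟨QA_per a e, fun p hp => ?_⟩
  by_cases hpa : p ∣ a
  · rw [QA_nuB0 a e p hpa]
    exact Nat.zero_le 1
  · exact (QA_nuB a e p hp hpa).le

lemma QA_adm (a e p : ℕ) (hp : p.Prime) : nuB (QA a e) p < p :=
  ((QA_perB a e).few p hp).trans_lt hp.one_lt

lemma QA_base (a e : ℕ) : Base a e 1 (QA a e) where
  per := QA_perB a e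
  non := fun _ _ _ hpa h => h.1 hpa
  base := fun _ _ _ hpa hn => ⟨hpa, hn⟩

/-- the density of the almost primes in a residue class modulo `a` -/
noncomputable def Va (a y : ℕ) : ℝ := ∏ p ∈ (pz y).filter (fun p => ¬ p ∣ a), (1 - 1 / (p : ℝ))

lemma Vq_QA (a e y : ℕ) : Vq (QA a e) y = Va a y := by
  unfold Vq Va
  rw [Finset.prod_filter]
  apply Finset.prod_congr rfl
  intro p hp
  by_cases hpa : p ∣ a
  · rw [QA_nuB0 a e p hpa, if_neg (not_not.2 hpa), Nat.cast_zero, zero_div, sub_zero]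
  · rw [QA_nuB a e p (mem_pz.1 hp).2 hpa, if_pos hpa, Nat.cast_one]

lemma Va_pos (a y : ℕ) : 0 < Va a y := by
  rw [← Vq_QA a 0 y]
  exact Vq_pos _ (QA_adm a 0) y

lemma Va_le (a y : ℕ) (ha : 0 < a) : Va a y ≤ 2 ^ a * Vz y := by
  have h1 : Vz y = Va a y * ∏ p ∈ (pz y).filter (fun p => p ∣ a), (1 - 1 / (p : ℝ)) := by
    unfold Vz Va
    rw [mul_comm, Finset.prod_filter_mul_prod_filter_not]
  have h2 : (1 / 2 : ℝ) ^ a ≤ ∏ p ∈ (pz y).filter (fun p => p ∣ a), (1 - 1 / (p : ℝ)) := by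
    have h3 : (1 / 2 : ℝ) ^ ((pz y).filter (fun p => p ∣ a)).card ≤
        ∏ p ∈ (pz y).filter (fun p => p ∣ a), (1 - 1 / (p : ℝ)) := by
      rw [← Finset.prod_const]
      apply Finset.prod_le_prod
      · intro i _
        norm_num
      · intro p hp
        rw [mem_filter, mem_pz] at hp
        have h4 : (2 : ℝ) ≤ p := by exact_mod_cast hp.1.2.two_le
        have h5 : 1 / (p : ℝ) ≤ 1 / 2 := one_div_le_one_div_of_le (by norm_num) h4
        linarith
    refine le_trans ?_ h3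
    apply pow_le_pow_of_le_one (by norm_num) (by norm_num)
    have h6 : (pz y).filter (fun p => p ∣ a) ⊆ Icc 1 a := by
      intro p hp
      rw [mem_filter, mem_pz] at hp
      rw [mem_Icc]
      exact ⟨hp.1.2.one_lt.le, Nat.le_of_dvd ha hp.2⟩
    have h7 := card_le_card h6
    rwa [Nat.card_Icc, Nat.add_sub_cancel] at h7
  have h3 := (Va_pos a y).le
  rw [h1]
  have h4 : (2 : ℝ) ^ a * (1 / 2) ^ a = 1 := by
    rw [← mul_pow]
    norm_num
  calc Va a y = Va a y * (2 ^ a * (1 / 2) ^ a) := by rw [h4, mul_one]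
    _ = 2 ^ a * (Va a y * (1 / 2) ^ a) := by ring
    _ ≤ 2 ^ a * (Va a y * ∏ p ∈ (pz y).filter (fun p => p ∣ a), (1 - 1 / (p : ℝ))) := by gcongr

open Classical in
/-- **The law around the primes of a residue class.** -/
theorem prog_law (a b : ℕ) (ha : Squarefree a) (E x0 ε δ : ℝ) (hE : 0 ≤ E) (hx0 : 0 ≤ x0)
    (hε : 0 < ε) (hε1 : ε ≤ 1) (hδ : 0 < δ) (hδ1 : δ ≤ 1) : ∃ r0 : ℕ, 2 ≤ r0 ∧ ∀ r : ℕ, r0 ≤ r →
      ∀ᶠ X : ℕ in atTop, ∀ e : ℕ, e ≤ X → Nat.Coprime a e → ∀ u Y : ℕ, δ * X ≤ u → δ * X ≤ Y →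
      u + Y ≤ X → ∀ B : Finset ℕ, 0 ∈ B → B.card ≤ b → (∀ h ∈ B, (h : ℝ) ≤ (X : ℝ) ^ E) →
      |(NbP a e (QA a e) ⌊(X : ℝ) ^ (1 / (r : ℝ))⌋₊ B u Y : ℝ) * Real.log X -
        Y * (Vq (QH (QA a e) B) ⌊(X : ℝ) ^ (1 / (r : ℝ))⌋₊ / Vz ⌊(X : ℝ) ^ (1 / (r : ℝ))⌋₊)| ≤
        ε * (Y * (Vq (QH (QA a e) B) ⌊(X : ℝ) ^ (1 / (r : ℝ))⌋₊ / Vz ⌊(X : ℝ) ^ (1 / (r : ℝ))⌋₊)) ∧
      ∀ T : ℕ, T * Va a ⌊(X : ℝ) ^ (1 / (r : ℝ))⌋₊ ≤ x0 → ∀ A : Finset ℕ,
        |(NP a e (QA a e) ⌊(X : ℝ) ^ (1 / (r : ℝ))⌋₊ B T A u Y : ℝ) * Real.log X -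
          Y * (Vq (QH (QA a e) B) ⌊(X : ℝ) ^ (1 / (r : ℝ))⌋₊ / Vz ⌊(X : ℝ) ^ (1 / (r : ℝ))⌋₊) *
            Po (T * Va a ⌊(X : ℝ) ^ (1 / (r : ℝ))⌋₊) A| ≤
          ε * (Y * (Vq (QH (QA a e) B) ⌊(X : ℝ) ^ (1 / (r : ℝ))⌋₊ /
            Vz ⌊(X : ℝ) ^ (1 / (r : ℝ))⌋₊)) := by
  have ha0 : 0 < a := Nat.pos_of_ne_zero ha.ne_zero
  obtain ⟨K0, y0, κ, η', τ1, hκ, hη', hτ1, h1⟩ := rel_lawP a 1 b 0 ha x0 ε δ hx0 hε hε1 hδ hδ1
  refine ⟨max K0 2, le_max_right _ _, ?_⟩
  intro r hr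
  have hr2 : 2 ≤ r := (le_max_right _ _).trans hr
  have hrr : (2 : ℝ) ≤ r := by exact_mod_cast hr2
  have hrpos : (0 : ℝ) < r := by linarith
  have hrK : (K0 : ℝ) ≤ r := by exact_mod_cast (le_max_left _ _).trans hr
  have hpow : Tendsto (fun X : ℕ => (X : ℝ) ^ (1 / (r : ℝ))) atTop atTop :=
    (tendsto_rpow_atTop (by positivity)).comp tendsto_natCast_atTop_atTop
  have hlog : Tendsto (fun X : ℕ => Real.log (X : ℝ)) atTop atTop :=
    Real.tendsto_log_atTop.comp tendsto_natCast_atTop_atTop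
  obtain ⟨C', hC', hVz'⟩ := Pool.Agent.Y879.GL.Vz_up r hr2
  obtain ⟨C, hC⟩ : ∃ C : ℝ, C = 2 ^ a * C' := ⟨_, rfl⟩
  have hC0 : 0 < C := by rw [hC]; positivity
  obtain ⟨L, hL⟩ : ∃ L : ℝ, L = b * (E + 1) * C / (τ1 * η') := ⟨_, rfl⟩
  have hL0 : 0 ≤ L := by rw [hL]; positivity
  filter_upwards [hpow.eventually_ge_atTop (y0 : ℝ), eventually_ge_atTop 2, hVz',
    hlog.eventually_ge_atTop (C / κ), hlog.eventually_ge_atTop (C / τ1 * Real.exp (L + 1))]
    with X h4 h5 h6' h7 h8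
  intro e heX hae u Y hu hY huY B h0B hB hBX
  obtain ⟨y, hy⟩ : ∃ y, y = ⌊(X : ℝ) ^ (1 / (r : ℝ))⌋₊ := ⟨_, rfl⟩
  rw [← hy] at h6' ⊢
  have hyy : y0 ≤ y := by
    rw [hy]
    exact Nat.le_floor h4
  have hX0 : (0 : ℝ) < X := by exact_mod_cast (by omega : 0 < X)
  have hX1 : (1 : ℝ) ≤ X := by exact_mod_cast (by omega : 1 ≤ X)
  have hX2 : (2 : ℝ) ≤ X := by exact_mod_cast h5
  have hlX : 0 < Real.log X := Real.log_pos (by linarith)
  have h6 : Va a y ≤ C / Real.log X := by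
    refine (Va_le a y ha0).trans ?_
    rw [hC, mul_div_assoc]
    exact mul_le_mul_of_nonneg_left h6'.2 (by positivity)
  have hyX' : (y : ℝ) ≤ X := by
    calc (y : ℝ) ≤ (X : ℝ) ^ (1 / (r : ℝ)) := by
          rw [hy]
          exact Nat.floor_le (by positivity)
      _ ≤ (X : ℝ) ^ (1 : ℝ) := by
          apply Real.rpow_le_rpow_of_exponent_le hX1
          rw [div_le_one hrpos]
          linarith
      _ = X := Real.rpow_one _
  have hyK : y ^ K0 ≤ X := by
    have h6 : ((y ^ K0 : ℕ) : ℝ) ≤ X := by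
      push_cast
      calc (y : ℝ) ^ K0 ≤ ((X : ℝ) ^ (1 / (r : ℝ))) ^ K0 := by
            apply pow_le_pow_left₀ (Nat.cast_nonneg _)
            rw [hy]
            exact Nat.floor_le (by positivity)
        _ = (X : ℝ) ^ (1 / (r : ℝ) * K0) := by
            rw [Real.rpow_mul hX0.le, Real.rpow_natCast]
        _ ≤ (X : ℝ) ^ (1 : ℝ) := by
            apply Real.rpow_le_rpow_of_exponent_le hX1
            rw [one_div, inv_mul_eq_div, div_le_one hrpos]
            exact hrK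
        _ = X := Real.rpow_one _
    exact_mod_cast h6
  have hVκ : Vq (QA a e) y ≤ κ := by
    rw [Vq_QA]
    refine h6.trans ?_
    rw [div_le_iff₀ hlX]
    rw [div_le_iff₀ hκ] at h7
    linarith
  have hsr : Sr 1 b 0 (QA a e) (fun _ => False) B (fun t => t ∈ B) :=
    { per := QA_perB a e
      adm := QA_adm a e
      no1 := fun p hp n h => h.1 (hp.trans (one_dvd a))
      exc := fun _ _ _ h => h.elim
      card := hB
      excB := fun a ha hx => absurd hx ha }
  have h9 := h1 X y hyy hyK e heX hae (QA a e) (fun _ => False) B (fun t => t ∈ B) hsr (QA_base a e)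
    h0B hVκ (by
    intro T hT1 hT2 hTy t ht
    rw [mem_Icc] at ht
    have hTpos : 1 ≤ T := by omega
    have hmul : ∀ p : ℕ, p.Prime → ¬ p ∣ a → ∀ m s : ℕ, p ∣ a * m + e → p ∣ a * (m + s) + e → p ∣ s := by
      intro p hp hpa m s h2 h3
      have h4 : a * (m + s) + e = (a * m + e) + a * s := by ring
      rw [h4] at h3
      exact (hp.dvd_mul.1 ((Nat.dvd_add_right h2).1 h3)).resolve_left hpa
    refine ⟨fun _ => ?_, fun htB => ?_⟩
    · have : (pz y).filter (fun p : ℕ => T < p ∧ CoG (QA a e) p t) = ∅ := by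
        rw [Finset.filter_eq_empty_iff]
        rintro p hp ⟨hTp, m, ⟨hpa, hm1⟩, ⟨_, hm2⟩⟩
        have h10 : p ∣ t := hmul p (mem_pz.1 hp).2 hpa m t hm1 hm2
        have := Nat.le_of_dvd (by omega) h10
        omega
      rw [this, card_empty]
      push_cast
      positivity
    · rw [Vq_QA] at hT1
      have hTlog : τ1 / C * Real.log X ≤ T := by
        have h10 : τ1 ≤ T * (C / Real.log X) :=
          hT1.trans (mul_le_mul_of_nonneg_left h6 (Nat.cast_nonneg _))
        rw [← mul_div_assoc, le_div_iff₀ hlX] at h10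
        rw [div_mul_eq_mul_div, div_le_iff₀ hC0]
        exact h10
      have hTe : Real.exp (L + 1) ≤ T := by
        refine le_trans ?_ hTlog
        rw [div_mul_eq_mul_div, div_le_iff₀ hτ1] at h8
        rw [div_mul_eq_mul_div, le_div_iff₀ hC0]
        linarith
      have hTr : (0 : ℝ) < T := by exact_mod_cast hTpos
      have hLT : L + 1 ≤ Real.log T := by
        rw [← Real.log_exp (L + 1)]
        exact Real.log_le_log (Real.exp_pos _) hTe
      have hlT : 0 < Real.log T := by linarith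
      have hT_X : (T : ℝ) ≤ X := le_trans (by exact_mod_cast hTy) hyX'
      have hcount : ∀ h ∈ B, ((((pz y).filter (fun p : ℕ => T < p ∧
          ∃ m, QA a e p (m + h) ∧ QA a e p (m + t))).card : ℕ) : ℝ) ≤
            (E + 1) * Real.log X / Real.log T := by
        intro h hh
        obtain ⟨m0, hm0, hm1, hm2⟩ : ∃ m0 : ℕ, m0 ≠ 0 ∧ (m0 : ℝ) ≤ (X : ℝ) ^ (E + 1) ∧
            ∀ p : ℕ, p.Prime → (∃ m, QA a e p (m + h) ∧ QA a e p (m + t)) → p ∣ m0 := by
          have hne : h ≠ t := fun hx => htB (hx ▸ hh)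
          have hXE : (X : ℝ) ^ E ≤ (X : ℝ) ^ (E + 1) :=
            Real.rpow_le_rpow_of_exponent_le hX1 (by linarith)
          have hXE1 : (X : ℝ) ≤ (X : ℝ) ^ (E + 1) := by
            calc (X : ℝ) = (X : ℝ) ^ (1 : ℝ) := (Real.rpow_one _).symm
              _ ≤ _ := Real.rpow_le_rpow_of_exponent_le hX1 (by linarith)
          rcases Nat.lt_or_gt_of_ne hne with h' | h'
          · refine ⟨t - h, by omega, ?_, ?_⟩
            · have h11 : ((t - h : ℕ) : ℝ) ≤ T := by exact_mod_cast (by omega : t - h ≤ T)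
              linarith
            · rintro p hp ⟨m, ⟨hpa, hm1⟩, ⟨_, hm2⟩⟩
              have e1 : m + t = (m + h) + (t - h) := by omega
              rw [e1] at hm2
              exact hmul p hp hpa _ _ hm1 hm2
          · refine ⟨h - t, by omega, ?_, ?_⟩
            · have h11 : ((h - t : ℕ) : ℝ) ≤ h := by exact_mod_cast (by omega : h - t ≤ h)
              have := hBX h hh
              linarith
            · rintro p hp ⟨m, ⟨hpa, hm1⟩, ⟨_, hm2⟩⟩
              have e1 : m + h = (m + t) + (h - t) := by omega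
              rw [e1] at hm1
              exact hmul p hp hpa _ _ hm2 hm1
        rw [le_div_iff₀ hlT]
        have h12 := prime_count ((pz y).filter (fun p : ℕ => T < p ∧
          ∃ m, QA a e p (m + h) ∧ QA a e p (m + t))) T m0 _ hTpos hm0 hm1 (by
            intro p hp
            rw [mem_filter, mem_pz] at hp
            exact ⟨hp.1.2, hp.2.1, hm2 p hp.1.2 hp.2.2⟩)
        rw [Real.log_rpow hX0] at h12
        exact h12
      have hsub : (pz y).filter (fun p : ℕ => T < p ∧ CoB (QA a e) B p t) ⊆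
          B.biUnion (fun h => (pz y).filter (fun p : ℕ => T < p ∧
            ∃ m, QA a e p (m + h) ∧ QA a e p (m + t))) := by
        intro p hp
        rw [mem_filter] at hp
        obtain ⟨hp1, hp2, h, hh, hm⟩ := hp
        rw [mem_biUnion]
        exact ⟨h, hh, mem_filter.2 ⟨hp1, hp2, hm⟩⟩
      have h13 : ((((pz y).filter (fun p : ℕ => T < p ∧ CoB (QA a e) B p t)).card : ℕ) : ℝ) ≤
          ∑ h ∈ B, ((((pz y).filter (fun p : ℕ => T < p ∧
            ∃ m, QA a e p (m + h) ∧ QA a e p (m + t))).card : ℕ) : ℝ) := by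
        exact_mod_cast (card_le_card hsub).trans card_biUnion_le
      refine h13.trans ((Finset.sum_le_sum hcount).trans ?_)
      rw [Finset.sum_const, nsmul_eq_mul]
      have hq0 : 0 ≤ (E + 1) * Real.log X / Real.log T := by positivity
      have hBr : (B.card : ℝ) ≤ b := by exact_mod_cast hB
      calc (B.card : ℝ) * ((E + 1) * Real.log X / Real.log T) ≤
            b * ((E + 1) * Real.log X / Real.log T) := mul_le_mul_of_nonneg_right hBr hq0
        _ = (b * (E + 1) * Real.log X) / Real.log T := by ring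
        _ ≤ η' * T := by
          rw [div_le_iff₀ hlT]
          have h14 : b * (E + 1) * C = L * (τ1 * η') := by
            rw [hL]
            field_simp
          have h15 : Real.log X ≤ C / τ1 * T := by
            rw [div_mul_eq_mul_div, div_le_iff₀ hC0] at hTlog
            rw [div_mul_eq_mul_div, le_div_iff₀ hτ1]
            linarith
          calc (b : ℝ) * (E + 1) * Real.log X ≤ b * (E + 1) * (C / τ1 * T) :=
                mul_le_mul_of_nonneg_left h15 (by positivity)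
            _ = (b * (E + 1) * C) * T / τ1 := by ring
            _ = L * η' * T := by
              rw [h14]
              field_simp
            _ ≤ η' * T * Real.log T := by
              have : L * (η' * T) ≤ Real.log T * (η' * T) :=
                mul_le_mul_of_nonneg_right (by linarith) (by positivity)
              linarith) u Y hu hY huY
  rw [Vq_QA] at h9
  exact h9

end Pool.Agent.X262.LOS
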