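import Pool.Agent.X262.LOS.Champ

set_option autoImplicit false

/-!
# The most frequent gaps
-/

namespace Pool.Agent.X262.LOS

open Finset Filter Pool.Agent.H373R2.T7 Pool.Agent.W123.RP Pool.Agent.W123.RU
open Pool.Agent.TH464.PO Pool.Agent.Y879.AP

/-- comparison of two gaps, from the law -/
lemma two_gaps (N S G1 G2 ε a b : ℝ) (hN : 0 < N) (hS : 0 < S) (n1 n2 : ℝ)
    (h1 : n1 ≤ N * (S * G1) * (a + ε)) (h2 : N * (S * G2) * (b - ε) ≤ n2) (h : n2 ≤ n1) :
    G2 * (b - ε) ≤ G1 * (a + ε) := by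
  have h3 : N * S * (G2 * (b - ε)) ≤ N * S * (G1 * (a + ε)) := by nlinarith
  exact le_of_mul_le_mul_left h3 (by positivity)

lemma exists_z (A : ℝ) (c : ℝ) (hc : 0 < c) (C v : ℝ) (hC : 0 < C) (hv : 0 < v) (hA : 0 < A) :
    ∀ᶠ X : ℕ in atTop, ∃ z : ℕ, 3 ≤ z ∧ (4 : ℝ) ^ z ≤ c / C * Real.log X ∧
      Real.log (v * Real.log X ^ 2) / Real.log z / (z - 1) ≤ A := by
  have hlog : Tendsto (fun X : ℕ => Real.log (X : ℝ)) atTop atTop :=
    Real.tendsto_log_atTop.comp tendsto_natCast_atTop_atTop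
  have hlog2 : Tendsto (fun X : ℕ => Real.log (Real.log (X : ℝ))) atTop atTop :=
    Real.tendsto_log_atTop.comp hlog
  obtain ⟨l0, hl0⟩ : ∃ l0 : ℝ, l0 = max (max (|Real.log (c / C)| * 4 + 16) (|Real.log v|)) (Real.exp (6 / A) * 4) :=
    ⟨_, rfl⟩
  filter_upwards [hlog.eventually_ge_atTop 1, hlog2.eventually_ge_atTop l0] with X h1 h2
  obtain ⟨l, hl⟩ : ∃ l, l = Real.log (Real.log (X : ℝ)) := ⟨_, rfl⟩
  rw [← hl] at h2
  have a1 : |Real.log (c / C)| * 4 + 16 ≤ l := by
    refine le_trans ?_ h2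
    rw [hl0]
    exact (le_max_left _ _).trans (le_max_left _ _)
  have a2 : |Real.log v| ≤ l := by
    refine le_trans ?_ h2
    rw [hl0]
    exact (le_max_right _ _).trans (le_max_left _ _)
  have a3 : Real.exp (6 / A) * 4 ≤ l := by
    refine le_trans ?_ h2
    rw [hl0]
    exact le_max_right _ _
  have hlX : 0 < Real.log (X : ℝ) := by linarith
  have hl4 : Real.log 4 ≤ 3 / 2 := by
    have : Real.log 4 = 2 * Real.log 2 := by
      rw [show (4 : ℝ) = 2 ^ 2 by norm_num, Real.log_pow]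
      norm_num
    rw [this]
    have := Real.log_two_lt_d9
    linarith
  have hl40 : 0 < Real.log 4 := Real.log_pos (by norm_num)
  obtain ⟨w, hw⟩ : ∃ w, w = Real.log (c / C * Real.log X) := ⟨_, rfl⟩
  have hw1 : w = Real.log (c / C) + l := by
    rw [hw, Real.log_mul (by positivity) hlX.ne', hl]
  have habs := neg_abs_le (Real.log (c / C))
  have hw2 : 3 / 4 * l + 4 ≤ w := by
    rw [hw1]
    linarith
  refine ⟨⌊w / Real.log 4⌋₊, ?_, ?_, ?_⟩
  · apply Nat.le_floor
    rw [le_div_iff₀ hl40]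
    have := abs_nonneg (Real.log (c / C))
    push_cast
    nlinarith
  · have h3 : ((⌊w / Real.log 4⌋₊ : ℕ) : ℝ) ≤ w / Real.log 4 := Nat.floor_le (by
      apply div_nonneg _ hl40.le
      have := abs_nonneg (Real.log (c / C))
      linarith)
    rw [le_div_iff₀ hl40, ← Real.log_pow] at h3
    rw [← Real.log_le_log_iff (by positivity) (by positivity), ← hw]
    exact h3
  · obtain ⟨z, hz⟩ : ∃ z, z = ⌊w / Real.log 4⌋₊ := ⟨_, rfl⟩
    rw [← hz]
    have h3 : w / Real.log 4 < z + 1 := by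
      rw [hz]
      exact Nat.lt_floor_add_one _
    have h4 : w * (2 / 3) ≤ w / Real.log 4 := by
      rw [div_eq_mul_inv]
      have hw0 : 0 ≤ w := by
        have := abs_nonneg (Real.log (c / C))
        linarith
      apply mul_le_mul_of_nonneg_left _ hw0
      rw [le_inv_comm₀ (by norm_num) hl40]
      linarith
    have h5 : l / 2 + 1 ≤ (z : ℝ) := by linarith
    have hl16 : 16 ≤ l := by
      have := abs_nonneg (Real.log (c / C))
      linarith
    have h6 : 6 / A ≤ Real.log z := by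
      rw [← Real.log_exp (6 / A)]
      apply Real.log_le_log (Real.exp_pos _)
      have := Real.exp_pos (6 / A)
      linarith
    have h7 : 0 < Real.log z := lt_of_lt_of_le (by positivity) h6
    have h8 : Real.log (v * Real.log X ^ 2) ≤ 3 * l := by
      rw [Real.log_mul hv.ne' (by positivity), Real.log_pow, ← hl]
      have := le_abs_self (Real.log v)
      push_cast
      linarith
    rw [div_div, div_le_iff₀ (by
      apply mul_pos h7
      linarith)]
    refine h8.trans ?_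
    have h9 : 6 ≤ A * Real.log z := by
      rw [div_le_iff₀ hA] at h6
      linarith
    have h10 : l / 2 ≤ (z : ℝ) - 1 := by linarith
    calc 3 * l = 6 * (l / 2) := by ring
      _ ≤ (A * Real.log z) * (z - 1) := mul_le_mul h9 h10 (by linarith) (by positivity)
      _ = A * (Real.log z * (z - 1)) := by ring

open Classical in
/-- **The most frequent gaps** between consecutive integers without prime factors up to
`X ^ (1 / r)` are divisible by all small primes and of smaller order than the mean gap. -/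
theorem champ (m : ℕ) (δ θ : ℝ) (hδ : 0 < δ) (hθ : 0 < θ) : ∃ r0 : ℕ, 2 ≤ r0 ∧ ∀ r : ℕ, r0 ≤ r →
    ∀ᶠ X : ℕ in atTop, ∀ Z Y : ℕ, (X : ℝ) ^ θ ≤ Y → ∀ D : ℕ, 1 ≤ D →
      (∀ d : ℕ, 1 ≤ d → Ng ⌊(X : ℝ) ^ (1 / (r : ℝ))⌋₊ d Z Y ≤ Ng ⌊(X : ℝ) ^ (1 / (r : ℝ))⌋₊ D Z Y) →
      0 < Ng ⌊(X : ℝ) ^ (1 / (r : ℝ))⌋₊ D Z Y ∧ (∀ q : ℕ, q.Prime → q ≤ m → q ∣ D) ∧
        D * Vz ⌊(X : ℝ) ^ (1 / (r : ℝ))⌋₊ ≤ δ := by
  -- the parameters
  obtain ⟨m', hm'⟩ : ∃ m' : ℕ, m' = m + 3 := ⟨_, rfl⟩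
  have hm3 : (3 : ℝ) ≤ m' := by
    rw [hm']
    push_cast
    have : (0 : ℝ) ≤ m := Nat.cast_nonneg m
    linarith
  obtain ⟨δ1, hδ1⟩ : ∃ δ1 : ℝ, δ1 = min δ (1 / (8 * m' ^ 2)) := ⟨_, rfl⟩
  have hδ10 : 0 < δ1 := by rw [hδ1]; positivity
  have hδ1δ : δ1 ≤ δ := by rw [hδ1]; exact min_le_left _ _
  have hδ1m : δ1 ≤ 1 / (8 * m' ^ 2) := by rw [hδ1]; exact min_le_right _ _
  have hδ1s : δ1 ≤ 1 / 8 := by
    refine hδ1m.trans ?_
    apply one_div_le_one_div_of_le (by norm_num)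
    nlinarith
  have hgap : 0 < Real.exp (-(δ1 / 2)) - Real.exp (-δ1) := by
    rw [sub_pos, Real.exp_lt_exp]
    linarith
  obtain ⟨ε, hε⟩ : ∃ ε : ℝ, ε = min (min ((1 : ℝ) / 4) (1 / (8 * (m' : ℝ))))
    ((Real.exp (-(δ1 / 2)) - Real.exp (-δ1)) / 4) := ⟨_, rfl⟩
  have hε0 : 0 < ε := by
    rw [hε]
    exact lt_min (by positivity) (by linarith)
  have hε4 : ε ≤ 1 / 4 := by rw [hε]; exact (min_le_left _ _).trans (min_le_left _ _)
  have hεm : ε ≤ 1 / (8 * m') := by rw [hε]; exact (min_le_left _ _).trans (min_le_right _ _)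
  have hεg : ε ≤ (Real.exp (-(δ1 / 2)) - Real.exp (-δ1)) / 4 := by rw [hε]; exact min_le_right _ _
  obtain ⟨r0, hr02, hlaw⟩ := base_law 2 1 1 ε θ zero_le_one zero_le_one hε0 (by linarith) hθ
  refine ⟨r0, hr02, fun r hr => ?_⟩
  have hr2 : 2 ≤ r := hr02.trans hr
  have hrr : (2 : ℝ) ≤ r := by exact_mod_cast hr2
  have hrpos : (0 : ℝ) < r := by linarith
  obtain ⟨C, hC, hVz⟩ := Pool.Agent.Y879.GL.Vz_up r hr2
  obtain ⟨c0, C0, hc0, hC0, hVb⟩ := Vz_bounds
  obtain ⟨v, hv, hVlow⟩ := V_lower_unif 2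
  have hlog : Tendsto (fun X : ℕ => Real.log (X : ℝ)) atTop atTop :=
    Real.tendsto_log_atTop.comp tendsto_natCast_atTop_atTop
  have hpow : Tendsto (fun X : ℕ => (X : ℝ) ^ (1 / (r : ℝ))) atTop atTop :=
    (tendsto_rpow_atTop (by positivity)).comp tendsto_natCast_atTop_atTop
  obtain ⟨κ, hκ⟩ : ∃ κ : ℝ, κ = min (1 / 8) (δ1 / 4) := ⟨_, rfl⟩
  have hκ0 : 0 < κ := by rw [hκ]; positivity
  -- powers of the logarithm are small
  have hlogX : ∀ K : ℝ, ∀ᶠ X : ℕ in atTop, K * Real.log X ^ 2 ≤ (X : ℝ) := by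
    intro K
    have h := (isLittleO_log_rpow_rpow_atTop (2 : ℝ) (by norm_num : (0 : ℝ) < 1)).comp_tendsto
      tendsto_natCast_atTop_atTop
    have h1 := h.bound (show (0 : ℝ) < 1 / (|K| + 1) by positivity)
    filter_upwards [h1, eventually_ge_atTop 1] with X h2 h3
    have hX1 : (1 : ℝ) ≤ X := by exact_mod_cast h3
    have hl : 0 ≤ Real.log (X : ℝ) := Real.log_nonneg hX1
    simp only [Function.comp_def] at h2
    rw [Real.norm_of_nonneg (by positivity), Real.norm_of_nonneg (by positivity), Real.rpow_one,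
      show ((2 : ℝ)) = ((2 : ℕ) : ℝ) by norm_num, Real.rpow_natCast] at h2
    have h4 : K ≤ |K| + 1 := (le_abs_self K).trans (by linarith)
    calc K * Real.log X ^ 2 ≤ (|K| + 1) * Real.log X ^ 2 := by gcongr
      _ ≤ (|K| + 1) * (1 / (|K| + 1) * X) := by gcongr
      _ = X := by field_simp
  have hlogθ : ∀ᶠ X : ℕ in atTop, 8 / v * Real.log X ^ 2 ≤ (X : ℝ) ^ θ := by
    have h := (isLittleO_log_rpow_rpow_atTop (2 : ℝ) hθ).comp_tendsto tendsto_natCast_atTop_atTop
    have h1 := h.bound (show (0 : ℝ) < v / 8 by positivity)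
    filter_upwards [h1, eventually_ge_atTop 1] with X h2 h3
    have hX1 : (1 : ℝ) ≤ X := by exact_mod_cast h3
    have hl : 0 ≤ Real.log (X : ℝ) := Real.log_nonneg hX1
    simp only [Function.comp_def] at h2
    rw [Real.norm_of_nonneg (by positivity), Real.norm_of_nonneg (by positivity),
      show ((2 : ℝ)) = ((2 : ℕ) : ℝ) by norm_num, Real.rpow_natCast] at h2
    calc 8 / v * Real.log X ^ 2 ≤ 8 / v * (v / 8 * (X : ℝ) ^ θ) := by gcongr
      _ = (X : ℝ) ^ θ := by field_simp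
  filter_upwards [hlaw r hr, hVz, hlog.eventually_ge_atTop (C / κ), hlog.eventually_ge_atTop 1,
    hpow.eventually_ge_atTop ((m + 2 : ℕ) : ℝ), hlogX (4 * m' / v), hlogX (1 / c0), hlogθ,
    exists_z (δ1 / 4) (δ1 / 4) (by positivity) C (4 / v) hC (by positivity) (by positivity),
    eventually_ge_atTop 2] with X h1 h2 h3 h4 h5 h6 h7 h8 h9 h10
  intro Z Y hXY D hD hmax
  obtain ⟨y, hy⟩ : ∃ y, y = ⌊(X : ℝ) ^ (1 / (r : ℝ))⌋₊ := ⟨_, rfl⟩
  rw [← hy] at h1 h2 hmax ⊢
  have hX0 : (0 : ℝ) < X := by exact_mod_cast (by omega : 0 < X)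
  have hX1 : (1 : ℝ) ≤ X := by exact_mod_cast (by omega : 1 ≤ X)
  have hlX : 0 < Real.log X := by linarith
  have hym : m + 2 ≤ y := by
    rw [hy]
    exact Nat.le_floor h5
  have hyX : (y : ℝ) ≤ X := by
    calc (y : ℝ) ≤ (X : ℝ) ^ (1 / (r : ℝ)) := by
          rw [hy]
          exact Nat.floor_le (by positivity)
      _ ≤ (X : ℝ) ^ (1 : ℝ) := by
          apply Real.rpow_le_rpow_of_exponent_le hX1
          rw [div_le_one hrpos]
          linarith
      _ = X := Real.rpow_one _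
  have hy2r : (2 : ℝ) ≤ y := by exact_mod_cast (by omega : 2 ≤ y)
  have hly : 0 < Real.log y := Real.log_pos (by linarith)
  have hlyX : Real.log y ≤ Real.log X := Real.log_le_log (by linarith) hyX
  obtain ⟨V, hV⟩ : ∃ V, V = Vz y := ⟨_, rfl⟩
  rw [← hV] at h1 h2 ⊢
  have hVpos : 0 < V := by
    rw [hV]
    exact lt_of_lt_of_le (by positivity) (hVb y (by omega)).1
  have hVκ : V ≤ κ := by
    refine h2.2.trans ?_
    rw [div_le_iff₀ hlX]
    rw [div_le_iff₀ hκ0] at h3
    linarith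
  have hV8 : V ≤ 1 / 8 := hVκ.trans (by rw [hκ]; exact min_le_left _ _)
  have hVδ : V ≤ δ1 / 4 := hVκ.trans (by rw [hκ]; exact min_le_right _ _)
  have hVlowr : c0 / Real.log X ≤ V := by
    rw [hV]
    exact (div_le_div_of_nonneg_left hc0.le hly hlyX).trans (hVb y (by omega)).1
  obtain ⟨S2, hS2⟩ : ∃ S2, S2 = Vq (QH Q1 {0, 2}) y := ⟨_, rfl⟩
  have hS2low : v / Real.log X ^ 2 ≤ S2 := by
    have hper : PerB (QH Q1 {0, 2}) 2 := by
      have := perB_QH Q1 1 Q1_perB {0, 2}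
      rwa [card_pair (by norm_num), mul_one] at this
    have hadm : ∀ p : ℕ, p.Prime → nuB (QH Q1 {0, 2}) p < p := by
      intro p hp
      rw [pair_nuB 2 p hp]
      split_ifs with h
      · exact hp.one_lt
      · rcases Nat.eq_or_lt_of_le hp.two_le with h2 | h2
        · exact absurd (h2 ▸ dvd_refl 2) h
        · exact h2
    have h11 := hVlow (QH Q1 {0, 2}) hper hadm y (by omega)
    rw [← hS2] at h11
    refine le_trans ?_ h11
    apply div_le_div_of_nonneg_left hv.le (by positivity)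
    exact pow_le_pow_left₀ hly.le hlyX 2
  have hS2pos : 0 < S2 := lt_of_lt_of_le (by positivity) hS2low
  have hYpos : (0 : ℝ) < Y := lt_of_lt_of_le (by positivity) hXY
  have hYS : 8 ≤ Y * S2 := by
    have h11 : 8 / v * Real.log X ^ 2 ≤ Y := h8.trans hXY
    calc (8 : ℝ) = (8 / v * Real.log X ^ 2) * (v / Real.log X ^ 2) := by field_simp
      _ ≤ Y * S2 := mul_le_mul h11 hS2low (by positivity) hYpos.le
  -- the laws
  have hup : ∀ d : ℕ, 1 ≤ d → 2 ∣ d → (d : ℝ) ≤ X → ∀ T : ℕ, T ≤ d → T * V ≤ 1 →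
      (Ng y d Z Y : ℝ) ≤ Y * (S2 * Gf y d) * (Real.exp (-(T * V)) + ε) := by
    intro d hd h2d hdX T hTd hT
    have h11 := (h1 Z Y hXY {0, d} ((card_insert_le _ _).trans (by rw [card_singleton])) (by
      intro a ha
      rw [Real.rpow_one]
      rw [mem_insert, mem_singleton] at ha
      rcases ha with rfl | rfl
      · push_cast
        exact hX0.le
      · exact hdX)).2 T hT
    rw [pair_Vq y d h2d, ← hS2] at h11
    have h12 : (Ng y d Z Y : ℝ) ≤ Nv Q1 y {0, d} T Z Y := by exact_mod_cast ng_le y d T Z Y hTd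
    have h13 := (abs_le.1 h11).2
    have e : Y * (S2 * Gf y d) * (Real.exp (-(T * V)) + ε) =
        Y * (S2 * Gf y d) * Real.exp (-(T * V)) + ε * (Y * (S2 * Gf y d)) := by ring
    rw [e]
    linarith
  have hlow : ∀ d : ℕ, 1 ≤ d → 2 ∣ d → (d : ℝ) ≤ X → d * V ≤ 1 →
      Y * (S2 * Gf y d) * (Real.exp (-(d * V)) - ε) ≤ Ng y d Z Y := by
    intro d hd h2d hdX hT
    have h11 := (h1 Z Y hXY {0, d} ((card_insert_le _ _).trans (by rw [card_singleton])) (by
      intro a ha
      rw [Real.rpow_one]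
      rw [mem_insert, mem_singleton] at ha
      rcases ha with rfl | rfl
      · push_cast
        exact hX0.le
      · exact hdX)).2 d hT
    rw [pair_Vq y d h2d, ← hS2, ← ng_eq] at h11
    have h13 := (abs_le.1 h11).1
    have e : Y * (S2 * Gf y d) * (Real.exp (-(d * V)) - ε) =
        Y * (S2 * Gf y d) * Real.exp (-(d * V)) - ε * (Y * (S2 * Gf y d)) := by ring
    rw [e]
    linarith
  -- the gap two
  have hX2 : (2 : ℝ) ≤ X := by exact_mod_cast h10
  have hn2 : Y * S2 / 2 ≤ Ng y 2 Z Y := by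
    have h11 := hlow 2 (by norm_num) (dvd_refl 2) (by exact_mod_cast h10) (by
      push_cast
      linarith)
    have hG := Gf_ge y 2
    have h12 : 3 / 4 ≤ Real.exp (-((2 : ℕ) * V)) := by
      have := Real.add_one_le_exp (-(((2 : ℕ) : ℝ) * V))
      push_cast at this ⊢
      linarith
    refine le_trans ?_ h11
    calc Y * S2 / 2 = Y * (S2 * 1) * (1 / 2) := by ring
      _ ≤ Y * (S2 * Gf y 2) * (Real.exp (-((2 : ℕ) * V)) - ε) := by
        apply mul_le_mul _ (by linarith) (by norm_num) (by positivity)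
        gcongr
  have hnD : Y * S2 / 2 ≤ Ng y D Z Y := hn2.trans (by exact_mod_cast hmax 2 (by norm_num))
  have hnD4 : (4 : ℝ) ≤ Ng y D Z Y := by linarith
  have hnpos : 0 < Ng y D Z Y := by
    have : (0 : ℝ) < Ng y D Z Y := by linarith
    exact_mod_cast this
  -- the most frequent gap is not too large
  have hD4 : (D : ℝ) ≤ 4 / v * Real.log X ^ 2 := by
    have h11 := ng_few y D Z Y hD
    have hDr : (1 : ℝ) ≤ D := by exact_mod_cast hD
    have h12 : (Ng y D Z Y : ℝ) ≤ Y / D + 1 := by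
      calc (Ng y D Z Y : ℝ) ≤ ((Y / D + 1 : ℕ) : ℝ) := by exact_mod_cast h11
        _ ≤ Y / D + 1 := by
          push_cast
          have := Nat.cast_div_le (m := Y) (n := D) (α := ℝ)
          linarith
    have h13 : Y * S2 / 4 ≤ Y / D := by linarith
    rw [le_div_iff₀ (by linarith)] at h13
    have h14 : S2 * D ≤ 4 := by
      have h15 : Y * (S2 * D) ≤ Y * 4 := by linarith
      exact le_of_mul_le_mul_left h15 hYpos
    have h15 : v / Real.log X ^ 2 * D ≤ 4 :=
      (mul_le_mul_of_nonneg_right hS2low (by linarith)).trans h14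
    rw [div_mul_eq_mul_div, div_le_iff₀ (by positivity)] at h15
    rw [div_mul_eq_mul_div, le_div_iff₀ hv]
    linarith
  have hm'D : (m' : ℝ) * D ≤ X := by
    calc (m' : ℝ) * D ≤ m' * (4 / v * Real.log X ^ 2) := mul_le_mul_of_nonneg_left hD4 (by linarith)
      _ = 4 * m' / v * Real.log X ^ 2 := by ring
      _ ≤ X := h6
  have hDX : (D : ℝ) ≤ X := by
    have : (1 : ℝ) * D ≤ m' * D := mul_le_mul_of_nonneg_right (by linarith) (Nat.cast_nonneg _)
    linarith
  -- it is even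
  have hD2 : 2 ∣ D := by
    unfold Ng at hnpos
    rw [card_pos] at hnpos
    obtain ⟨n, hn⟩ := hnpos
    rw [mem_filter] at hn
    have h2y : 2 ∈ pz y := mem_pz.2 ⟨by omega, Nat.prime_two⟩
    have a1 := hn.2.1 2 h2y
    have a2 := hn.2.2.1 2 h2y
    unfold Q1 at a1 a2
    have b1 : ¬ 2 ∣ n := fun h => a1 ⟨by norm_num, h⟩
    have b2 : ¬ 2 ∣ n + D := fun h => a2 ⟨by norm_num, h⟩
    omega
  -- it is small
  have hDV : D * V ≤ δ1 := by
    by_contra hcon
    rw [not_le] at hcon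
    obtain ⟨z, hz3, hz4, hz5⟩ := h9
    obtain ⟨P, hP⟩ : ∃ P, P = primorial z := ⟨_, rfl⟩
    have hP1 : 1 ≤ P := by rw [hP]; exact primorial_pos z
    have hP2 : 2 ∣ P := by
      rw [hP, Nat.Prime.dvd_primorial_iff Nat.prime_two]
      omega
    have hPr : (P : ℝ) ≤ (4 : ℝ) ^ z := by
      rw [hP]
      exact_mod_cast primorial_le_four_pow z
    have hPV : P * V ≤ δ1 / 4 := by
      calc P * V ≤ (δ1 / 4 / C * Real.log X) * (C / Real.log X) :=
            mul_le_mul (hPr.trans hz4) h2.2 hVpos.le (by positivity)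
        _ = δ1 / 4 := by field_simp
    have hPX : (P : ℝ) ≤ X := by
      have h11 : (P : ℝ) ≤ δ1 / 4 / V := by
        rw [le_div_iff₀ hVpos]
        exact hPV
      have h12 : δ1 / 4 / V ≤ δ1 / 4 / (c0 / Real.log X) :=
        div_le_div_of_nonneg_left (by positivity) (by positivity) hVlowr
      have h13 : δ1 / 4 / (c0 / Real.log X) ≤ 1 / c0 * Real.log X ^ 2 := by
        have e : δ1 / 4 / (c0 / Real.log X) = 1 / c0 * (δ1 / 4 * Real.log X) := by
          field_simp
        rw [e]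
        apply mul_le_mul_of_nonneg_left _ (by positivity)
        have h14 : δ1 / 4 * Real.log X ≤ 1 * Real.log X :=
          mul_le_mul_of_nonneg_right (by linarith) hlX.le
        have h15 : 1 * Real.log X ≤ Real.log X * Real.log X :=
          mul_le_mul_of_nonneg_right h4 hlX.le
        rw [sq]
        exact h14.trans h15
      linarith
    have hl1 := hlow P hP1 hP2 hPX (by linarith)
    have hu1 : (Ng y D Z Y : ℝ) ≤ Y * (S2 * Gf y D) * (Real.exp (-δ1) + ε) := by
      have hGD := Gf_ge y D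
      rcases le_or_gt (D * V) 1 with h11 | h11
      · refine (hup D hD hD2 hDX D le_rfl h11).trans ?_
        apply mul_le_mul_of_nonneg_left _ (by positivity)
        have : Real.exp (-(D * V)) ≤ Real.exp (-δ1) := Real.exp_le_exp.2 (by linarith)
        linarith
      · obtain ⟨T, hT⟩ : ∃ T, T = ⌊1 / V⌋₊ := ⟨_, rfl⟩
        have hT1 : (T : ℝ) ≤ 1 / V := by
          rw [hT]
          exact Nat.floor_le (by positivity)
        have hT2 : 1 / V < T + 1 := by
          rw [hT]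
          exact Nat.lt_floor_add_one _
        rw [le_div_iff₀ hVpos] at hT1
        rw [div_lt_iff₀ hVpos] at hT2
        have hTD : T ≤ D := by
          have : (T : ℝ) * V ≤ D * V := by linarith
          exact_mod_cast le_of_mul_le_mul_right this hVpos
        refine (hup D hD hD2 hDX T hTD hT1).trans ?_
        apply mul_le_mul_of_nonneg_left _ (by positivity)
        have : Real.exp (-(T * V)) ≤ Real.exp (-δ1) := by
          apply Real.exp_le_exp.2
          have e : ((T : ℝ) + 1) * V = T * V + V := by ring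
          rw [e] at hT2
          linarith
        linarith
    have hcmp := two_gaps Y S2 (Gf y D) (Gf y P) ε (Real.exp (-δ1)) (Real.exp (-(P * V))) hYpos hS2pos
      _ _ hu1 hl1 (by exact_mod_cast hmax P hP1)
    have hG := Gf_large y z D P hz3 hD (fun p hp _ hpz => by
      rw [hP, Nat.Prime.dvd_primorial_iff hp]
      exact hpz)
    obtain ⟨ξ, hξ⟩ : ∃ ξ, ξ = Real.log D / Real.log z / (z - 1) := ⟨_, rfl⟩
    rw [← hξ] at hG
    have hzr : (3 : ℝ) ≤ z := by exact_mod_cast hz3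
    have hξδ : ξ ≤ δ1 / 4 := by
      refine le_trans ?_ hz5
      rw [hξ]
      have hlz : 0 < Real.log z := Real.log_pos (by linarith)
      apply div_le_div_of_nonneg_right _ (by linarith)
      apply div_le_div_of_nonneg_right _ hlz.le
      exact Real.log_le_log (by exact_mod_cast hD) hD4
    have hGP := Gf_ge y P
    have e1 : Real.exp (-(δ1 / 4)) ≤ Real.exp (-(P * V)) := Real.exp_le_exp.2 (by linarith)
    have e2 : Real.exp ξ ≤ Real.exp (δ1 / 4) := Real.exp_le_exp.2 hξδ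
    have e3 : Gf y P * (Real.exp (-(δ1 / 4)) - ε) ≤ Gf y P * (Real.exp (δ1 / 4) * (Real.exp (-δ1) + ε)) := by
      calc Gf y P * (Real.exp (-(δ1 / 4)) - ε) ≤ Gf y P * (Real.exp (-(P * V)) - ε) := by gcongr
        _ ≤ Gf y D * (Real.exp (-δ1) + ε) := hcmp
        _ ≤ (Gf y P * Real.exp ξ) * (Real.exp (-δ1) + ε) := by gcongr
        _ ≤ (Gf y P * Real.exp (δ1 / 4)) * (Real.exp (-δ1) + ε) := by gcongr
        _ = _ := by ring
    have e4 := le_of_mul_le_mul_left e3 (by linarith)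
    have e5 : Real.exp (-(δ1 / 4)) * (Real.exp (δ1 / 4) * (Real.exp (-δ1) + ε)) = Real.exp (-δ1) + ε := by
      rw [← mul_assoc, ← Real.exp_add]
      simp
    have e6 : Real.exp (-(δ1 / 4)) * Real.exp (-(δ1 / 4)) = Real.exp (-(δ1 / 2)) := by
      rw [← Real.exp_add]
      congr 1
      ring
    have e7 := mul_le_mul_of_nonneg_left e4 (Real.exp_pos (-(δ1 / 4))).le
    rw [e5, mul_sub, e6] at e7
    have e8 : Real.exp (-(δ1 / 4)) ≤ 1 := by
      rw [Real.exp_le_one_iff]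
      linarith
    have e9 : Real.exp (-(δ1 / 4)) * ε ≤ 1 * ε := mul_le_mul_of_nonneg_right e8 hε0.le
    linarith
  refine ⟨hnpos, ?_, hDV.trans hδ1δ⟩
  -- the prime factors
  intro q hq hqm
  rcases Nat.eq_or_lt_of_le hq.two_le with hq2 | hq2
  · rw [← hq2]
    exact hD2
  by_contra hqD
  have hqy : q ≤ y := by omega
  have hq3 : (3 : ℝ) ≤ q := by exact_mod_cast (by omega : 3 ≤ q)
  have hqm' : (q : ℝ) ≤ m' := by exact_mod_cast (by omega : q ≤ m')
  have hDpos : (0 : ℝ) < D := by exact_mod_cast hD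
  have hqDX : ((q * D : ℕ) : ℝ) ≤ X := by
    push_cast
    have : (q : ℝ) * D ≤ m' * D := mul_le_mul_of_nonneg_right hqm' hDpos.le
    linarith
  have hqDV : ((q * D : ℕ) : ℝ) * V ≤ 1 / (8 * m') := by
    push_cast
    calc (q : ℝ) * D * V = q * (D * V) := by ring
      _ ≤ m' * (1 / (8 * m' ^ 2)) := mul_le_mul hqm' (hDV.trans hδ1m) (by positivity) (by linarith)
      _ = 1 / (8 * m') := by
        field_simp
  have h8m : 1 / (8 * (m' : ℝ)) ≤ 1 / 24 := by
    apply one_div_le_one_div_of_le (by norm_num)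
    linarith
  have hl2 := hlow (q * D) (Nat.mul_pos hq.pos hD) (Dvd.dvd.mul_left hD2 q) hqDX (by linarith)
  have hu2 := hup D hD hD2 hDX D le_rfl (by linarith)
  have hcmp := two_gaps Y S2 (Gf y D) (Gf y (q * D)) ε (Real.exp (-(D * V)))
    (Real.exp (-(((q * D : ℕ) : ℝ) * V))) hYpos hS2pos _ _ hu2 hl2
    (by exact_mod_cast hmax (q * D) (Nat.mul_pos hq.pos hD))
  rw [Gf_mul y q D hq hq2 hqy hqD] at hcmp
  have hGD := Gf_ge y D
  have f1 : 1 - 1 / (8 * (m' : ℝ)) ≤ Real.exp (-(((q * D : ℕ) : ℝ) * V)) := by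
    have := Real.add_one_le_exp (-(((q * D : ℕ) : ℝ) * V))
    linarith
  have f2 : Real.exp (-(D * V)) ≤ 1 := by
    rw [Real.exp_le_one_iff]
    have : 0 ≤ (D : ℝ) * V := by positivity
    linarith
  have f3 : 1 / (m' : ℝ) ≤ 1 / ((q : ℝ) - 2) := one_div_le_one_div_of_le (by linarith) (by linarith)
  obtain ⟨t, ht⟩ : ∃ t : ℝ, t = 1 / m' := ⟨_, rfl⟩
  have ht0 : 0 < t := by rw [ht]; positivity
  have ht3 : t ≤ 1 / 3 := by
    rw [ht]
    exact one_div_le_one_div_of_le (by norm_num) hm3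
  have ht8 : 1 / (8 * (m' : ℝ)) = t / 8 := by
    rw [ht]
    field_simp
  rw [ht8] at f1 hεm
  rw [← ht] at f3
  have f4 : Gf y D * ((1 + t) * (1 - t / 8 - t / 8)) ≤ Gf y D * (1 + t / 8) := by
    calc Gf y D * ((1 + t) * (1 - t / 8 - t / 8)) ≤
          Gf y D * ((1 + 1 / ((q : ℝ) - 2)) * (Real.exp (-(((q * D : ℕ) : ℝ) * V)) - ε)) := by
          apply mul_le_mul_of_nonneg_left _ (by linarith)
          apply mul_le_mul (by linarith) (by linarith) (by linarith) (by linarith)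
      _ = (1 + 1 / ((q : ℝ) - 2)) * Gf y D * (Real.exp (-(((q * D : ℕ) : ℝ) * V)) - ε) := by ring
      _ ≤ Gf y D * (Real.exp (-(D * V)) + ε) := hcmp
      _ ≤ Gf y D * (1 + t / 8) := by
          apply mul_le_mul_of_nonneg_left _ (by linarith)
          linarith
  have f5 := le_of_mul_le_mul_left f4 (by linarith)
  have f6 : t * t ≤ t * (1 / 3) := mul_le_mul_of_nonneg_left ht3 ht0.le
  have f7 : (1 + t) * (1 - t / 8 - t / 8) = 1 + 3 / 4 * t - 1 / 4 * (t * t) := by ring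
  rw [f7] at f5
  linarith

end Pool.Agent.X262.LOS
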