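import Pool.Agent.X262.LOS.Main4

set_option autoImplicit false

/-!
# One fixed system
-/

namespace Pool.Agent.X262.LOS

open Finset Filter Pool.Agent.H373R2.T7 Pool.Agent.W123.RP Pool.Agent.W123.RU
open Pool.Agent.TH464.PO Pool.Agent.Y879.AP

open Classical in
/-- the patterns of the classes for one system -/
theorem pat_fix (c M w0 D l : ℕ) (hc : 1 ≤ c) (hM : 1 ≤ M) (C : Finset ℕ) (Q : ℕ → ℕ → Prop)
    (Ex : ℕ → Prop) (hsc : Sc c M w0 C Q Ex)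
    (hV : ∀ κ : ℝ, 0 < κ → ∃ y1 : ℕ, ∀ y : ℕ, y1 ≤ y → Vq Q y ≤ κ)
    (hcol : ∀ y T t' : ℕ, D ≤ T → 1 ≤ t' → t' ≤ T → ¬ Ex t' → ∀ S : Finset ℕ, S ⊆ pz y →
      (∀ p ∈ S, T < p ∧ CoG Q p t') → S.card ≤ D)
    (ε θ : ℝ) (hε : 0 < ε) (hθ : 0 < θ) :
    ∃ r0 : ℕ, 2 ≤ r0 ∧ ∀ r : ℕ, r0 ≤ r → ∀ᶠ X : ℕ in atTop, ∀ Z Y : ℕ, (X : ℝ) ^ θ ≤ Y → ∀ a ∈ C,
      ∀ bs : List ℕ, bs.length = l → (∀ b ∈ bs, b ∈ C) →
      0 < ((Ioc Z (Z + Y)).filter (fun n => Gc Q ⌊(X : ℝ) ^ (1 / (r : ℝ))⌋₊ M C n ∧ n % M = a)).card ∧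
      |(((Ioc Z (Z + Y)).filter (fun n => (Gc Q ⌊(X : ℝ) ^ (1 / (r : ℝ))⌋₊ M C n ∧ n % M = a) ∧
          Nxs (Gc Q ⌊(X : ℝ) ^ (1 / (r : ℝ))⌋₊ M C) M bs n)).card : ℝ) -
        (((Ioc Z (Z + Y)).filter
          (fun n => Gc Q ⌊(X : ℝ) ^ (1 / (r : ℝ))⌋₊ M C n ∧ n % M = a)).card : ℝ) / C.card ^ l| ≤
        ε * (((Ioc Z (Z + Y)).filter
          (fun n => Gc Q ⌊(X : ℝ) ^ (1 / (r : ℝ))⌋₊ M C n ∧ n % M = a)).card : ℝ) := by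
  obtain ⟨r0, hr0, h0⟩ := pat_fam c M w0 l hc hM ε θ hε hθ
  refine ⟨r0, hr0, fun r hr => ?_⟩
  have hr2 : 2 ≤ r := hr0.trans hr
  have hrr : (2 : ℝ) ≤ r := by exact_mod_cast hr2
  have hpow : Tendsto (fun X : ℕ => (X : ℝ) ^ (1 / (r : ℝ))) atTop atTop :=
    (tendsto_rpow_atTop (by positivity)).comp tendsto_natCast_atTop_atTop
  have hVe : ∀ κ : ℝ, 0 < κ → ∀ᶠ X : ℕ in atTop, Vq Q ⌊(X : ℝ) ^ (1 / (r : ℝ))⌋₊ ≤ κ := by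
    intro κ hκ
    obtain ⟨y1, hy1⟩ := hV κ hκ
    filter_upwards [hpow.eventually_ge_atTop (y1 : ℝ)] with X h1
    exact hy1 _ (Nat.le_floor h1)
  have h1 := h0 r hr (fun _ C' Q' Ex' => C' = C ∧ Q' = Q ∧ Ex' = Ex)
    (by
      rintro X C' Q' Ex' ⟨rfl, rfl, rfl⟩
      exact hsc)
    (by
      intro κ hκ
      filter_upwards [hVe κ hκ] with X h1
      rintro C' Q' Ex' ⟨rfl, rfl, rfl⟩
      exact h1)
    (by
      intro η' τ1 hη' hτ1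
      have hpos : 0 < min (τ1 / (D + 1)) (τ1 * η' / (D + 1)) := by positivity
      filter_upwards [hVe _ hpos] with X h1
      rintro C' Q' Ex' ⟨rfl, rfl, rfl⟩ T hT _ t' ht' hx
      obtain ⟨V, hVdef⟩ : ∃ V, V = Vq Q' ⌊(X : ℝ) ^ (1 / (r : ℝ))⌋₊ := ⟨_, rfl⟩
      rw [← hVdef] at h1 hT
      have hV0 : 0 < V := by rw [hVdef]; exact Vq_pos Q' hsc.adm _
      have hD0 : (0 : ℝ) ≤ D := Nat.cast_nonneg D
      have a1 : V ≤ τ1 / (D + 1) := h1.trans (min_le_left _ _)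
      have a2 : V ≤ τ1 * η' / (D + 1) := h1.trans (min_le_right _ _)
      rw [le_div_iff₀ (by positivity)] at a1 a2
      have b1 : D ≤ T := by
        have : (D : ℝ) * V ≤ T * V := by nlinarith
        exact_mod_cast le_of_mul_le_mul_right this hV0
      have b2 : (D : ℝ) ≤ η' * T := by
        have : (D : ℝ) * V ≤ (η' * T) * V := by nlinarith
        exact le_of_mul_le_mul_right this hV0
      rw [mem_Icc] at ht'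
      have h2 := hcol ⌊(X : ℝ) ^ (1 / (r : ℝ))⌋₊ T t' b1 ht'.1 ht'.2 hx
        ((pz ⌊(X : ℝ) ^ (1 / (r : ℝ))⌋₊).filter (fun p : ℕ => T < p ∧ CoG Q' p t'))
        (filter_subset _ _) (fun p hp => (mem_filter.1 hp).2)
      refine le_trans ?_ b2
      exact_mod_cast h2)
  filter_upwards [h1] with X h2
  intro Z Y hXY a ha bs hbs hbC
  exact h2 Z Y hXY C Q Ex ⟨rfl, rfl, rfl⟩ a ha bs hbs hbC

end Pool.Agent.X262.LOS
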