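import Pool.Agent.X262.LOS.Main

set_option autoImplicit false

/-!
# The densities tend to zero; the level as a power of `X`
-/

namespace Pool.Agent.X262.LOS

open Finset Filter Pool.Agent.H373R2.T7 Pool.Agent.W123.RP Pool.Agent.W123.RU
open Pool.Agent.TH464.PO Pool.Agent.Y879.AP

lemma V_small (M : ℕ) (hM : 1 ≤ M) (κ : ℝ) (hκ : 0 < κ) : ∃ y1 : ℕ, ∀ y : ℕ, y1 ≤ y → ∀ Q : ℕ → ℕ → Prop,
    (∀ p : ℕ, p.Prime → ¬ p ∣ M → 1 ≤ nuB Q p) → Vq Q y ≤ κ := by
  classical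
  have hns := not_summable_one_div_on_primes
  have hnn : ∀ n : ℕ, 0 ≤ Set.indicator {p : ℕ | p.Prime} (fun n : ℕ => (1 : ℝ) / n) n := by
    intro n
    apply Set.indicator_nonneg
    intro n _
    positivity
  have ht := (not_summable_iff_tendsto_nat_atTop_of_nonneg hnn).1 hns
  obtain ⟨S, hS⟩ : ∃ S : ℝ, S = ∑ p ∈ M.primeFactors, (1 : ℝ) / p := ⟨_, rfl⟩
  obtain ⟨y1, hy1⟩ := eventually_atTop.1 (ht.eventually_ge_atTop (S - Real.log κ))
  refine ⟨y1, fun y hy Q h1 => ?_⟩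
  have h3 := hy1 (y + 1) (by omega)
  have h4 : ∑ i ∈ range (y + 1), Set.indicator {p : ℕ | p.Prime} (fun n : ℕ => (1 : ℝ) / n) i =
      ∑ p ∈ pz y, (1 : ℝ) / p := by
    have : pz y = (range (y + 1)).filter Nat.Prime := by
      ext p
      rw [mem_pz, mem_filter, mem_range]
      constructor
      · rintro ⟨a, b⟩
        exact ⟨by omega, b⟩
      · rintro ⟨a, b⟩
        exact ⟨by omega, b⟩
    rw [this, Finset.sum_filter]
    apply Finset.sum_congr rfl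
    intro i _
    rw [Set.indicator_apply]
    rfl
  rw [h4] at h3
  have h5 : Vq Q y ≤ Real.exp (-(∑ p ∈ (pz y).filter (fun p => ¬ p ∣ M), (1 : ℝ) / p)) := by
    rw [← Finset.sum_neg_distrib, Real.exp_sum]
    unfold Vq
    rw [← Finset.prod_filter_mul_prod_filter_not (pz y) (fun p => p ∣ M)]
    have a1 : ∏ p ∈ (pz y).filter (fun p => p ∣ M), (1 - (nuB Q p : ℝ) / p) ≤ 1 := by
      apply Finset.prod_le_one
      · intro p hp
        exact one_sub_nonneg Q p (mem_pz.1 (mem_filter.1 hp).1).2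
      · intro p _
        have : 0 ≤ (nuB Q p : ℝ) / p := by positivity
        linarith
    have a2 : ∏ p ∈ (pz y).filter (fun p => ¬ p ∣ M), (1 - (nuB Q p : ℝ) / p) ≤
        ∏ p ∈ (pz y).filter (fun p => ¬ p ∣ M), Real.exp (-((1 : ℝ) / p)) := by
      apply Finset.prod_le_prod
      · intro p hp
        exact one_sub_nonneg Q p (mem_pz.1 (mem_filter.1 hp).1).2
      · intro p hp
        rw [mem_filter] at hp
        have hp' := (mem_pz.1 hp.1).2
        have b1 : (1 : ℝ) ≤ nuB Q p := by exact_mod_cast h1 p hp' hp.2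
        have b2 : (0 : ℝ) < p := by exact_mod_cast hp'.pos
        have b3 : (1 : ℝ) / p ≤ nuB Q p / p := div_le_div_of_nonneg_right b1 b2.le
        have b4 := Real.add_one_le_exp (-((1 : ℝ) / p))
        linarith
    have a3 : 0 ≤ ∏ p ∈ (pz y).filter (fun p => ¬ p ∣ M), (1 - (nuB Q p : ℝ) / p) := by
      apply Finset.prod_nonneg
      intro p hp
      exact one_sub_nonneg Q p (mem_pz.1 (mem_filter.1 hp).1).2
    calc _ ≤ 1 * ∏ p ∈ (pz y).filter (fun p => ¬ p ∣ M), (1 - (nuB Q p : ℝ) / p) :=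
          mul_le_mul_of_nonneg_right a1 a3
      _ ≤ _ := by rw [one_mul]; exact a2
  refine h5.trans ?_
  rw [← Real.exp_log hκ]
  apply Real.exp_le_exp.2
  have h6 := Finset.sum_filter_add_sum_filter_not (pz y) (fun p => p ∣ M) (fun p => (1 : ℝ) / p)
  have h7 : ∑ p ∈ (pz y).filter (fun p => p ∣ M), (1 : ℝ) / p ≤ S := by
    rw [hS]
    apply Finset.sum_le_sum_of_subset_of_nonneg
    · intro p hp
      rw [mem_filter] at hp
      rw [Nat.mem_primeFactors]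
      exact ⟨(mem_pz.1 hp.1).2, hp.2, by omega⟩
    · intro p _ _
      positivity
  linarith

open Classical in
/-- **The classes of consecutive elements**, with the level `X ^ (1 / r)`. -/
theorem los_X (c M w0 D : ℕ) (hc : 1 ≤ c) (hM : 1 ≤ M) (ε θ : ℝ) (hε : 0 < ε) (hθ : 0 < θ) :
    ∃ r0 : ℕ, 2 ≤ r0 ∧ ∀ r : ℕ, r0 ≤ r → ∀ᶠ X : ℕ in atTop, ∀ Z Y : ℕ, (X : ℝ) ^ θ ≤ Y →
      ∀ (C : Finset ℕ) (Q : ℕ → ℕ → Prop) (Ex : ℕ → Prop), Sy c M w0 D C Q Ex →
      (∀ p : ℕ, p.Prime → ¬ p ∣ M → 1 ≤ nuB Q p) → ∀ a ∈ C, ∀ b ∈ C,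
      0 < ((Ioc Z (Z + Y)).filter (fun n => Gd Q ⌊(X : ℝ) ^ (1 / (r : ℝ))⌋₊ M C n ∧ n % M = a)).card ∧
      |(((Ioc Z (Z + Y)).filter (fun n => (Gd Q ⌊(X : ℝ) ^ (1 / (r : ℝ))⌋₊ M C n ∧ n % M = a) ∧
          Nx (Gd Q ⌊(X : ℝ) ^ (1 / (r : ℝ))⌋₊ M C) M b n)).card : ℝ) -
        (((Ioc Z (Z + Y)).filter
          (fun n => Gd Q ⌊(X : ℝ) ^ (1 / (r : ℝ))⌋₊ M C n ∧ n % M = a)).card : ℝ) / C.card| ≤
        ε * (((Ioc Z (Z + Y)).filter
          (fun n => Gd Q ⌊(X : ℝ) ^ (1 / (r : ℝ))⌋₊ M C n ∧ n % M = a)).card : ℝ) := by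
  obtain ⟨K1, y1, κ1, hκ1, h1⟩ := los c M w0 D hc (min ε 1) (by positivity) (min_le_right _ _)
  obtain ⟨K2, y2, κ2, hκ2, h2⟩ := los_lower c M w0 D hc (1 / 2) (by norm_num) (by norm_num)
  obtain ⟨y3, h3⟩ := V_small M hM (min κ1 κ2) (by positivity)
  obtain ⟨K, hK⟩ : ∃ K, K = max K1 K2 + 1 := ⟨_, rfl⟩
  obtain ⟨r1, hr1⟩ : ∃ r1 : ℕ, (K : ℝ) / θ ≤ r1 := exists_nat_ge _
  refine ⟨max r1 2, le_max_right _ _, ?_⟩
  intro r hr
  have hr2 : 2 ≤ r := (le_max_right _ _).trans hr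
  have hrr : (2 : ℝ) ≤ r := by exact_mod_cast hr2
  have hrpos : (0 : ℝ) < r := by linarith
  have hrK : (K : ℝ) ≤ θ * r := by
    have h4 : (K : ℝ) / θ ≤ r := hr1.trans (by exact_mod_cast (le_max_left _ _).trans hr)
    rw [div_le_iff₀ hθ] at h4
    linarith
  have hpow : Tendsto (fun X : ℕ => (X : ℝ) ^ (1 / (r : ℝ))) atTop atTop :=
    (tendsto_rpow_atTop (by positivity)).comp tendsto_natCast_atTop_atTop
  filter_upwards [hpow.eventually_ge_atTop ((max (max y1 y2) (max y3 (2 * M)) : ℕ) : ℝ),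
    eventually_ge_atTop 1] with X h4 h5
  intro Z Y hXY C Q Ex hsy hnu a ha b hb
  obtain ⟨y, hy⟩ : ∃ y, y = ⌊(X : ℝ) ^ (1 / (r : ℝ))⌋₊ := ⟨_, rfl⟩
  rw [← hy]
  have hyy : max (max y1 y2) (max y3 (2 * M)) ≤ y := by
    rw [hy]
    exact Nat.le_floor h4
  have hX0 : (0 : ℝ) < X := by exact_mod_cast h5
  have hX1 : (1 : ℝ) ≤ X := by exact_mod_cast h5
  have hyK : y ^ K ≤ Y := by
    have h6 : ((y ^ K : ℕ) : ℝ) ≤ Y := by
      push_cast
      calc (y : ℝ) ^ K ≤ ((X : ℝ) ^ (1 / (r : ℝ))) ^ K := by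
            apply pow_le_pow_left₀ (Nat.cast_nonneg _)
            rw [hy]
            exact Nat.floor_le (by positivity)
        _ = (X : ℝ) ^ (1 / (r : ℝ) * K) := by
            rw [Real.rpow_mul hX0.le, Real.rpow_natCast]
        _ ≤ (X : ℝ) ^ θ := by
            apply Real.rpow_le_rpow_of_exponent_le hX1
            rw [one_div, inv_mul_eq_div, div_le_iff₀ hrpos]
            exact hrK
        _ ≤ Y := hXY
    exact_mod_cast h6
  have hy1 : 1 ≤ y := by omega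
  have hV := h3 y (by omega) Q hnu
  have hm := h1 y Y (by omega) ((Nat.pow_le_pow_right hy1 (by omega)).trans hyK) C Q Ex hsy
    (hV.trans (min_le_left _ _)) a ha b hb Z
  constructor
  · have h2M : 2 * y ^ K2 ≤ Y / M := by
      rw [Nat.le_div_iff_mul_le hM]
      calc 2 * y ^ K2 * M = y ^ K2 * (2 * M) := by ring
        _ ≤ y ^ K2 * y := Nat.mul_le_mul_left _ (by omega)
        _ = y ^ (K2 + 1) := (pow_succ _ _).symm
        _ ≤ y ^ K := Nat.pow_le_pow_right hy1 (by omega)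
        _ ≤ Y := hyK
    have hpos : 1 ≤ y ^ K2 := Nat.one_le_pow _ _ hy1
    obtain ⟨Y', hY'⟩ : ∃ Y', Y' = Y / M - 1 := ⟨_, rfl⟩
    have hMY : M * (Y' + 1) ≤ Y := by
      rw [hY', show Y / M - 1 + 1 = Y / M by omega]
      exact Nat.mul_div_le Y M
    have h6 := h2 y Y' (by omega) (by omega) Y hMY C Q Ex hsy (hV.trans (min_le_right _ _)) a ha b hb Z
    have h7 : (0 : ℝ) < (1 - 1 / 2) * (Y' * Vq Q y) / C.card := by
      have a1 := Vq_pos Q hsy.adm y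
      have a2 : (0 : ℝ) < Y' := by exact_mod_cast (by omega : 0 < Y')
      have a3 : (0 : ℝ) < C.card := by
        have := hsy.two
        exact_mod_cast (by omega : 0 < C.card)
      positivity
    have h8 := lt_of_lt_of_le h7 h6
    have h9 : 0 < ((Ioc Z (Z + Y)).filter (fun n => (Gd Q y M C n ∧ n % M = a) ∧
          Nx (Gd Q y M C) M b n)).card := by exact_mod_cast h8
    refine lt_of_lt_of_le h9 (card_le_card ?_)
    intro n hn
    rw [mem_filter] at hn ⊢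
    exact ⟨hn.1, hn.2.1⟩
  · refine hm.trans ?_
    apply mul_le_mul_of_nonneg_right (min_le_left _ _) (Nat.cast_nonneg _)

end Pool.Agent.X262.LOS
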