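import Pool.Agent.X262.LOS.ProgR

set_option autoImplicit false

/-!
# Constellations of almost primes in residue classes, in short intervals
-/

namespace Pool.Agent.X262.LOS

open Finset Filter Pool.Agent.H373R2.T7 Pool.Agent.W123.RP Pool.Agent.W123.RU
open Pool.Agent.TH464.PO Pool.Agent.Y879.AP

/-- `p`, prime to `q`, divides `q n + a + d` for some `d ∈ D` -/
def QC (q a : ℕ) (D : Finset ℕ) (p n : ℕ) : Prop := ¬ p ∣ q ∧ ∃ d ∈ D, p ∣ q * n + a + d

lemma QC_per (q a : ℕ) (D : Finset ℕ) (p n : ℕ) : QC q a D p n ↔ QC q a D p (n % p) := by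
  unfold QC
  apply and_congr_right
  intro _
  refine exists_congr fun d => and_congr_right fun _ => ?_
  have h : q * (n % p) + a + d ≡ q * n + a + d [MOD p] :=
    (((Nat.mod_modEq n p).mul_left q).add_right a).add_right d
  exact (h.dvd_iff (dvd_refl p)).symm

lemma neg_mod (p u v : ℕ) (hp : 0 < p) (h : p ∣ u + v) : v % p = (p - u % p) % p := by
  have h0 : (p - u % p) + u = p * (1 + u / p) := by
    have h1 := Nat.mod_lt u hp
    have h2 := Nat.mod_add_div u p
    have h3 : (p - u % p) + (u % p + p * (u / p)) = p + p * (u / p) := by omega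
    rw [h2] at h3
    rw [h3]
    ring
  have h1 : v + u ≡ (p - u % p) + u [MOD p] := by
    have h2 : v + u ≡ 0 [MOD p] := (Nat.modEq_zero_iff_dvd).2 (by rwa [add_comm])
    have h3 : (p - u % p) + u ≡ 0 [MOD p] := (Nat.modEq_zero_iff_dvd).2 (by
      rw [h0]
      exact dvd_mul_right p _)
    exact h2.trans h3.symm
  exact Nat.ModEq.add_right_cancel' u h1

lemma neg_dvd (p u : ℕ) (hp : 0 < p) : p ∣ u + (p - u % p) % p := by
  have h0 : (p - u % p) + u = p * (1 + u / p) := by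
    have h1 := Nat.mod_lt u hp
    have h2 := Nat.mod_add_div u p
    have h3 : (p - u % p) + (u % p + p * (u / p)) = p + p * (u / p) := by omega
    rw [h2] at h3
    rw [h3]
    ring
  have h1 : u + (p - u % p) % p ≡ u + (p - u % p) [MOD p] := (Nat.mod_modEq _ p).add_left u
  rw [add_comm u (p - u % p), h0] at h1
  exact (h1.dvd_iff (dvd_refl p)).2 (dvd_mul_right p _)

lemma QC_nuH (q a : ℕ) (D H : Finset ℕ) (p : ℕ) (hp : p.Prime) (hpq : ¬ p ∣ q) :
    nuB (QH (QC q a D) H) p = ((H ×ˢ D).image (fun x => (q * x.1 + x.2) % p)).card := by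
  classical
  have hp0 := hp.pos
  unfold nuB
  apply Finset.card_bij (fun n _ => (p - (q * n + a) % p) % p)
  · intro n hn
    rw [mem_filter] at hn
    obtain ⟨_, h, hh, _, d, hd, hdvd⟩ := hn
    rw [mem_image]
    refine ⟨(h, d), mem_product.2 ⟨hh, hd⟩, ?_⟩
    apply neg_mod p (q * n + a) _ hp0
    have e : q * n + a + (q * h + d) = q * (n + h) + a + d := by ring
    rw [e]
    exact hdvd
  · intro n hn n' hn' h
    rw [mem_filter, mem_range] at hn hn'
    have h1 := neg_dvd p (q * n + a) hp0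
    have h2 := neg_dvd p (q * n' + a) hp0
    rw [← h] at h2
    have h3 : q * n + a ≡ q * n' + a [MOD p] := by
      have h4 := ((Nat.modEq_zero_iff_dvd).2 h1).trans ((Nat.modEq_zero_iff_dvd).2 h2).symm
      exact Nat.ModEq.add_right_cancel' _ h4
    have h5 : n ≡ n' [MOD p] := Nat.ModEq.cancel_left_of_coprime
      ((Nat.Prime.coprime_iff_not_dvd hp).2 hpq) (Nat.ModEq.add_right_cancel' a h3)
    unfold Nat.ModEq at h5
    rwa [Nat.mod_eq_of_lt hn.1, Nat.mod_eq_of_lt hn'.1] at h5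
  · intro z hz
    rw [mem_image] at hz
    obtain ⟨⟨h, d⟩, hx, rfl⟩ := hz
    rw [mem_product] at hx
    obtain ⟨n0, hn0⟩ := Pool.Agent.Y879.PR.exists_root q (a + (q * h + d)) p hp hpq
    have h1 : p ∣ q * (n0 % p) + (a + (q * h + d)) := by
      have h2 : q * (n0 % p) + (a + (q * h + d)) ≡ q * n0 + (a + (q * h + d)) [MOD p] :=
        ((Nat.mod_modEq n0 p).mul_left q).add_right _
      exact (h2.dvd_iff (dvd_refl p)).2 hn0
    refine ⟨n0 % p, ?_, ?_⟩
    · rw [mem_filter, mem_range]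
      refine ⟨Nat.mod_lt _ hp0, h, hx.1, hpq, d, hx.2, ?_⟩
      have e : q * (n0 % p + h) + a + d = q * (n0 % p) + (a + (q * h + d)) := by ring
      rw [e]
      exact h1
    · beta_reduce
      symm
      apply neg_mod p (q * (n0 % p) + a) _ hp0
      have e : q * (n0 % p) + a + (q * h + d) = q * (n0 % p) + (a + (q * h + d)) := by ring
      rw [e]
      exact h1

lemma QC_nuH0 (q a : ℕ) (D H : Finset ℕ) (p : ℕ) (hpq : p ∣ q) : nuB (QH (QC q a D) H) p = 0 := by
  classical
  unfold nuB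
  rw [card_eq_zero, Finset.filter_eq_empty_iff]
  rintro n _ ⟨h, _, h1, _⟩
  exact h1 hpq

lemma QC_QH0 (q a : ℕ) (D : Finset ℕ) (p n : ℕ) : QH (QC q a D) {0} p n ↔ QC q a D p n := by
  unfold QH
  constructor
  · rintro ⟨h, hh, h1⟩
    rw [mem_singleton] at hh
    subst hh
    rwa [add_zero] at h1
  · intro h1
    exact ⟨0, mem_singleton_self _, by rwa [add_zero]⟩

lemma QC_nu0 (q a : ℕ) (D : Finset ℕ) (p : ℕ) : nuB (QC q a D) p = nuB (QH (QC q a D) {0}) p := by
  classical
  unfold nuB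
  apply card_iff
  intro r _
  exact (QC_QH0 q a D p r).symm

lemma QC_perB (q a : ℕ) (D : Finset ℕ) (c : ℕ) (hD : D.card ≤ c) : PerB (QC q a D) c := by
  classical
  refine ⟨QC_per q a D, fun p hp => ?_⟩
  rw [QC_nu0]
  by_cases hpq : p ∣ q
  · rw [QC_nuH0 q a D {0} p hpq]
    exact Nat.zero_le c
  · rw [QC_nuH q a D {0} p hp hpq]
    refine card_image_le.trans ?_
    rw [card_product, card_singleton, one_mul]
    exact hD

lemma QC_pos (q a : ℕ) (D : Finset ℕ) (hD : D.Nonempty) (p : ℕ) (hp : p.Prime) (hpq : ¬ p ∣ q) :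
    1 ≤ nuB (QC q a D) p := by
  classical
  rw [QC_nu0, QC_nuH q a D {0} p hp hpq]
  obtain ⟨d, hd⟩ := hD
  exact card_pos.2 ⟨(q * 0 + d) % p, mem_image.2 ⟨(0, d), mem_product.2
    ⟨mem_singleton_self _, hd⟩, rfl⟩⟩

lemma Vq_QC_le (q a : ℕ) (D : Finset ℕ) (hD : D.Nonempty)
    (hadm : ∀ p : ℕ, p.Prime → nuB (QC q a D) p < p) (y : ℕ) : Vq (QC q a D) y ≤ Va q y := by
  unfold Vq Va
  rw [Finset.prod_filter]
  apply Finset.prod_le_prod
  · intro p hp
    exact one_sub_nonneg _ p (mem_pz.1 hp).2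
  · intro p hp
    have h3 : (0 : ℝ) < p := by exact_mod_cast (mem_pz.1 hp).2.pos
    by_cases hpq : p ∣ q
    · rw [if_neg (not_not.2 hpq)]
      have : 0 ≤ (nuB (QC q a D) p : ℝ) / p := by positivity
      linarith
    · rw [if_pos hpq]
      have h2 : (1 : ℝ) ≤ nuB (QC q a D) p := by
        exact_mod_cast QC_pos q a D hD p (mem_pz.1 hp).2 hpq
      have h4 : 1 / (p : ℝ) ≤ nuB (QC q a D) p / p := div_le_div_of_nonneg_right h2 h3.le
      linarith

open Classical in
/-- **The law for constellations of almost primes in residue classes.** -/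
theorem const_lawR (c b w0 : ℕ) (hc : 1 ≤ c) (x0 ε θ : ℝ) (hx0 : 0 ≤ x0)
    (hε : 0 < ε) (hε1 : ε ≤ 1) (hθ : 0 < θ) : ∃ r0 : ℕ, 2 ≤ r0 ∧ ∀ r : ℕ, r0 ≤ r →
      ∀ E κ0 : ℝ, 0 ≤ E → 0 < κ0 → ∀ᶠ X : ℕ in atTop, ∀ q a : ℕ, 0 < q → (q : ℝ) ≤ (X : ℝ) ^ E →
      κ0 * q ≤ q.totient → ∀ D : Finset ℕ, D.Nonempty → D.card ≤ c →
      (∀ d ∈ D, (d : ℝ) ≤ (X : ℝ) ^ E) → (∀ p : ℕ, p.Prime → nuB (QC q a D) p < p) →
      (∀ t : ℕ, 1 ≤ t → (∃ d ∈ D, ∃ d' ∈ D, q * t + d' = d) →
        ∃ p ∈ pz w0, ∀ r, QC q a D p r ∨ QC q a D p (r + t)) →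
      ∀ Z Y : ℕ, (X : ℝ) ^ θ ≤ Y →
      ∀ B : Finset ℕ, B.card ≤ b → (∀ h ∈ B, (h : ℝ) ≤ (X : ℝ) ^ E) →
      |(Nb (QC q a D) ⌊(X : ℝ) ^ (1 / (r : ℝ))⌋₊ B Z Y : ℝ) -
        Y * Vq (QH (QC q a D) B) ⌊(X : ℝ) ^ (1 / (r : ℝ))⌋₊| ≤
        ε * (Y * Vq (QH (QC q a D) B) ⌊(X : ℝ) ^ (1 / (r : ℝ))⌋₊) ∧
      ∀ T : ℕ, T * Vq (QC q a D) ⌊(X : ℝ) ^ (1 / (r : ℝ))⌋₊ ≤ x0 → ∀ A : Finset ℕ,
        |(NA (QC q a D) ⌊(X : ℝ) ^ (1 / (r : ℝ))⌋₊ B T A Z Y : ℝ) -
          Y * Vq (QH (QC q a D) B) ⌊(X : ℝ) ^ (1 / (r : ℝ))⌋₊ *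
            Po (T * Vq (QC q a D) ⌊(X : ℝ) ^ (1 / (r : ℝ))⌋₊) A| ≤
          ε * (Y * Vq (QH (QC q a D) B) ⌊(X : ℝ) ^ (1 / (r : ℝ))⌋₊) := by
  obtain ⟨K0, y0, κ, η', τ1, hκ, hη', hτ1, h1⟩ := rel_law c b w0 hc x0 ε hx0 hε hε1
  obtain ⟨r1, hr1⟩ : ∃ r1 : ℕ, (K0 : ℝ) / θ ≤ r1 := exists_nat_ge _
  refine ⟨max r1 2, le_max_right _ _, ?_⟩
  intro r hr E κ0 hE hκ0
  have hr2 : 2 ≤ r := (le_max_right _ _).trans hr
  have hrr : (2 : ℝ) ≤ r := by exact_mod_cast hr2
  have hrpos : (0 : ℝ) < r := by linarith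
  have hrK : (K0 : ℝ) ≤ θ * r := by
    have h4 : (K0 : ℝ) / θ ≤ r := hr1.trans (by exact_mod_cast (le_max_left _ _).trans hr)
    rw [div_le_iff₀ hθ] at h4
    linarith
  have hpow : Tendsto (fun X : ℕ => (X : ℝ) ^ (1 / (r : ℝ))) atTop atTop :=
    (tendsto_rpow_atTop (by positivity)).comp tendsto_natCast_atTop_atTop
  have hlog : Tendsto (fun X : ℕ => Real.log (X : ℝ)) atTop atTop :=
    Real.tendsto_log_atTop.comp tendsto_natCast_atTop_atTop
  obtain ⟨C', hC', hVz'⟩ := Pool.Agent.Y879.GL.Vz_up r hr2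
  obtain ⟨C, hC⟩ : ∃ C : ℝ, C = C' / κ0 := ⟨_, rfl⟩
  have hC0 : 0 < C := by rw [hC]; positivity
  obtain ⟨E', hE'⟩ : ∃ E' : ℝ, E' = 2 * E + 3 := ⟨_, rfl⟩
  have hE'0 : 0 ≤ E' := by rw [hE']; positivity
  obtain ⟨L, hL⟩ : ∃ L : ℝ, L = (b + 1) * (c ^ 2 * E') * C / (τ1 * η') := ⟨_, rfl⟩
  have hL0 : 0 ≤ L := by rw [hL]; positivity
  filter_upwards [hpow.eventually_ge_atTop (y0 : ℝ), eventually_ge_atTop 2, hVz',
    hlog.eventually_ge_atTop (C / κ), hlog.eventually_ge_atTop (C / τ1 * Real.exp (L + 1))]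
    with X h4 h5 h6' h7 h8
  intro q a hq0 hqX hκq D hDne hDc hDX hadm hexc Z Y hXY B hB hBX
  obtain ⟨y, hy⟩ : ∃ y, y = ⌊(X : ℝ) ^ (1 / (r : ℝ))⌋₊ := ⟨_, rfl⟩
  rw [← hy] at h6' ⊢
  have hyy : y0 ≤ y := by
    rw [hy]
    exact Nat.le_floor h4
  have hX0 : (0 : ℝ) < X := by exact_mod_cast (by omega : 0 < X)
  have hX1 : (1 : ℝ) ≤ X := by exact_mod_cast (by omega : 1 ≤ X)
  have hX2 : (2 : ℝ) ≤ X := by exact_mod_cast h5
  have hlX : 0 < Real.log X := Real.log_pos (by linarith)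
  have h6 : Vq (QC q a D) y ≤ C / Real.log X := by
    refine (Vq_QC_le q a D hDne hadm y).trans ?_
    have har : (0 : ℝ) < q := by exact_mod_cast hq0
    have h10 : κ0 ≤ (q.totient : ℝ) / q := by
      rw [le_div_iff₀ har]
      exact hκq
    have h11 : Va q y * κ0 ≤ C' / Real.log X :=
      (mul_le_mul_of_nonneg_left h10 (Va_pos q y).le).trans ((Va_le_tot q y hq0).trans h6'.2)
    rw [hC, div_div, mul_comm κ0, ← div_div, le_div_iff₀ hκ0]
    exact h11
  have hyX' : (y : ℝ) ≤ X := by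
    calc (y : ℝ) ≤ (X : ℝ) ^ (1 / (r : ℝ)) := by
          rw [hy]
          exact Nat.floor_le (by positivity)
      _ ≤ (X : ℝ) ^ (1 : ℝ) := by
          apply Real.rpow_le_rpow_of_exponent_le hX1
          rw [div_le_one hrpos]
          linarith
      _ = X := Real.rpow_one _
  have hyXn : y ≤ X := by exact_mod_cast hyX'
  have hyK : y ^ K0 ≤ Y := by
    have h6 : ((y ^ K0 : ℕ) : ℝ) ≤ Y := by
      push_cast
      calc (y : ℝ) ^ K0 ≤ ((X : ℝ) ^ (1 / (r : ℝ))) ^ K0 := by
            apply pow_le_pow_left₀ (Nat.cast_nonneg _)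
            rw [hy]
            exact Nat.floor_le (by positivity)
        _ = (X : ℝ) ^ (1 / (r : ℝ) * K0) := by
            rw [Real.rpow_mul hX0.le, Real.rpow_natCast]
        _ ≤ (X : ℝ) ^ θ := by
            apply Real.rpow_le_rpow_of_exponent_le hX1
            rw [one_div, inv_mul_eq_div, div_le_iff₀ hrpos]
            exact hrK
        _ ≤ Y := hXY
    exact_mod_cast h6
  have hVκ : Vq (QC q a D) y ≤ κ := by
    refine h6.trans ?_
    rw [div_le_iff₀ hlX]
    rw [div_le_iff₀ hκ] at h7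
    linarith
  have hsr : Sr c b w0 (QC q a D) (fun t => ∃ d ∈ D, ∃ d' ∈ D, q * t + d' = d) B
      (fun t => ∃ h ∈ B, ∃ d ∈ D, ∃ d' ∈ D, q * t + d' = q * h + d) :=
    { per := QC_perB q a D c hDc
      adm := hadm
      no1 := fun p hp n h => h.1 (hp.trans (one_dvd q))
      exc := by
        intro a' b' hab hx
        obtain ⟨p, hp, h2⟩ := hexc (b' - a') (by omega) hx
        refine ⟨p, hp, fun r => ?_⟩
        have h3 := h2 (r + a')
        rwa [show r + a' + (b' - a') = r + b' by omega] at h3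
      card := hB
      excB := by
        intro t ht hx
        obtain ⟨h, hh, d, hd, d', hd', e⟩ := hx
        have hne : h ≠ t := fun hx => ht (hx ▸ hh)
        rcases Nat.lt_or_gt_of_ne hne with h' | h'
        · obtain ⟨p, hp, h2⟩ := hexc (t - h) (by omega) ⟨d, hd, d', hd', by
            have e1 : q * t = q * (t - h) + q * h := by
              rw [← Nat.mul_add]
              congr 1
              omega
            omega⟩
          refine ⟨p, hp, fun r => ?_⟩
          have h3 := h2 (r + h)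
          rw [show r + h + (t - h) = r + t by omega] at h3
          rcases h3 with h3 | h3
          · exact Or.inl ⟨h, hh, h3⟩
          · exact Or.inr h3
        · obtain ⟨p, hp, h2⟩ := hexc (h - t) (by omega) ⟨d', hd', d, hd, by
            have e1 : q * h = q * (h - t) + q * t := by
              rw [← Nat.mul_add]
              congr 1
              omega
            omega⟩
          refine ⟨p, hp, fun r => ?_⟩
          have h3 := h2 (r + t)
          rw [show r + t + (h - t) = r + h by omega] at h3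
          rcases h3 with h3 | h3
          · exact Or.inr h3
          · exact Or.inl ⟨h, hh, h3⟩ }
  -- the size of the numbers
  have hXE0 : 0 < (X : ℝ) ^ E := by positivity
  have hXE1 : 1 ≤ (X : ℝ) ^ E := Real.one_le_rpow hX1 hE
  have hXE' : (X : ℝ) ^ E' = (X : ℝ) ^ E * (X : ℝ) ^ E * (X * X * X) := by
    rw [hE', Real.rpow_add hX0, two_mul, Real.rpow_add hX0]
    congr 1
    have e3 : (3 : ℝ) = ((3 : ℕ) : ℝ) := by norm_num
    rw [e3, Real.rpow_natCast]
    ring
  have hsize : ∀ s d : ℕ, (s : ℝ) ≤ (X : ℝ) ^ E * X → d ∈ D →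
      ((q * s + d : ℕ) : ℝ) ≤ (X : ℝ) ^ E' := by
    intro s d hs hd
    have h3 := hDX d hd
    push_cast
    have h4 : (q : ℝ) * s ≤ (X : ℝ) ^ E * ((X : ℝ) ^ E * X) :=
      mul_le_mul hqX hs (Nat.cast_nonneg _) hXE0.le
    have h5 : (X : ℝ) ^ E ≤ (X : ℝ) ^ E * ((X : ℝ) ^ E * X) := by
      apply le_mul_of_one_le_right hXE0.le
      nlinarith
    have h6 : 0 ≤ (X : ℝ) ^ E * ((X : ℝ) ^ E * X) := by positivity
    have h7 : (2 : ℝ) ≤ X * X := by nlinarith
    rw [hXE']
    calc (q : ℝ) * s + d ≤ 2 * ((X : ℝ) ^ E * ((X : ℝ) ^ E * X)) := by linarith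
      _ ≤ (X * X) * ((X : ℝ) ^ E * ((X : ℝ) ^ E * X)) := mul_le_mul_of_nonneg_right h7 h6
      _ = _ := by ring
  have h9 := h1 y Y hyy hyK (QC q a D) (fun t => ∃ d ∈ D, ∃ d' ∈ D, q * t + d' = d) B
    (fun t => ∃ h ∈ B, ∃ d ∈ D, ∃ d' ∈ D, q * t + d' = q * h + d) hsr hVκ (by
    intro T hT1 hT2 hTy t ht
    rw [mem_Icc] at ht
    have hTpos : 1 ≤ T := by omega
    have hTlog : τ1 / C * Real.log X ≤ T := by
      have h10 : τ1 ≤ T * (C / Real.log X) :=
        hT1.trans (mul_le_mul_of_nonneg_left h6 (Nat.cast_nonneg _))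
      rw [← mul_div_assoc, le_div_iff₀ hlX] at h10
      rw [div_mul_eq_mul_div, div_le_iff₀ hC0]
      exact h10
    have hTe : Real.exp (L + 1) ≤ T := by
      refine le_trans ?_ hTlog
      rw [div_mul_eq_mul_div, div_le_iff₀ hτ1] at h8
      rw [div_mul_eq_mul_div, le_div_iff₀ hC0]
      linarith
    have hTr : (0 : ℝ) < T := by exact_mod_cast hTpos
    have hLT : L + 1 ≤ Real.log T := by
      rw [← Real.log_exp (L + 1)]
      exact Real.log_le_log (Real.exp_pos _) hTe
    have hlT : 0 < Real.log T := by linarith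
    have hq0' : 0 ≤ E' * Real.log X / Real.log T := by positivity
    -- the final estimate
    have hfin : ((b : ℝ) + 1) * (c ^ 2 * (E' * Real.log X / Real.log T)) ≤ η' * T := by
      have h14 : (b + 1) * (c ^ 2 * E') * C = L * (τ1 * η') := by
        rw [hL]
        field_simp
      have h15 : Real.log X ≤ C / τ1 * T := by
        rw [div_mul_eq_mul_div, div_le_iff₀ hC0] at hTlog
        rw [div_mul_eq_mul_div, le_div_iff₀ hτ1]
        linarith
      calc ((b : ℝ) + 1) * (c ^ 2 * (E' * Real.log X / Real.log T)) =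
            ((b + 1) * (c ^ 2 * E') * Real.log X) / Real.log T := by ring
        _ ≤ η' * T := by
          rw [div_le_iff₀ hlT]
          calc ((b : ℝ) + 1) * (c ^ 2 * E') * Real.log X ≤ (b + 1) * (c ^ 2 * E') * (C / τ1 * T) :=
                mul_le_mul_of_nonneg_left h15 (by positivity)
            _ = ((b + 1) * (c ^ 2 * E') * C) * T / τ1 := by ring
            _ = L * η' * T := by
              rw [h14]
              field_simp
            _ ≤ η' * T * Real.log T := by
              have : L * (η' * T) ≤ Real.log T * (η' * T) :=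
                mul_le_mul_of_nonneg_right (by linarith) (by positivity)
              linarith
    have hbr : (0 : ℝ) ≤ b := Nat.cast_nonneg b
    have htX : (t : ℝ) ≤ (X : ℝ) ^ E * X := by
      have h3 : (t : ℝ) ≤ y := by exact_mod_cast ht.2.trans hTy
      have h4 : (X : ℝ) ≤ (X : ℝ) ^ E * X := le_mul_of_one_le_left hX0.le hXE1
      linarith
    have hone : ∀ h : ℕ, (h : ℝ) ≤ (X : ℝ) ^ E * X →
        (∀ d ∈ D, ∀ d' ∈ D, q * t + d' ≠ q * h + d) → ((((pz y).filter (fun p : ℕ => T < p ∧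
        ∃ m, QC q a D p (m + h) ∧ QC q a D p (m + t))).card : ℕ) : ℝ) ≤
          c ^ 2 * (E' * Real.log X / Real.log T) := by
      intro h hh hne
      have hsub : (pz y).filter (fun p : ℕ => T < p ∧
          ∃ m, QC q a D p (m + h) ∧ QC q a D p (m + t)) ⊆
          (D ×ˢ D).biUnion (fun x => (pz y).filter (fun p : ℕ => T < p ∧
            p ∣ ((q * t + x.2) - (q * h + x.1)) + ((q * h + x.1) - (q * t + x.2)))) := by
        intro p hp
        rw [mem_filter] at hp
        obtain ⟨hp1, hp2, m, ⟨_, d, hd, e1⟩, ⟨_, d', hd', e2⟩⟩ := hp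
        rw [mem_biUnion]
        refine ⟨(d, d'), mem_product.2 ⟨hd, hd'⟩, mem_filter.2 ⟨hp1, hp2, ?_⟩⟩
        have e3 : q * m + a + (q * h + d) ≡ q * m + a + (q * t + d') [MOD p] := by
          have f1 : q * m + a + (q * h + d) = q * (m + h) + a + d := by ring
          have f2 : q * m + a + (q * t + d') = q * (m + t) + a + d' := by ring
          rw [f1, f2]
          exact ((Nat.modEq_zero_iff_dvd).2 e1).trans ((Nat.modEq_zero_iff_dvd).2 e2).symm
        have e4 : q * h + d ≡ q * t + d' [MOD p] := Nat.ModEq.add_left_cancel' _ e3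
        beta_reduce
        rcases Nat.lt_or_ge (q * h + d) (q * t + d') with h' | h'
        · rw [show ((q * t + d') - (q * h + d)) + ((q * h + d) - (q * t + d')) =
            (q * t + d') - (q * h + d) by omega]
          exact (Nat.modEq_iff_dvd' h'.le).1 e4
        · rw [show ((q * t + d') - (q * h + d)) + ((q * h + d) - (q * t + d')) =
            (q * h + d) - (q * t + d') by omega]
          exact (Nat.modEq_iff_dvd' h').1 e4.symm
      have h2 : ((((pz y).filter (fun p : ℕ => T < p ∧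
          ∃ m, QC q a D p (m + h) ∧ QC q a D p (m + t))).card : ℕ) : ℝ) ≤
          ∑ x ∈ D ×ˢ D, ((((pz y).filter (fun p : ℕ => T < p ∧
            p ∣ ((q * t + x.2) - (q * h + x.1)) + ((q * h + x.1) - (q * t + x.2)))).card : ℕ) : ℝ) := by
        exact_mod_cast (card_le_card hsub).trans card_biUnion_le
      refine h2.trans ?_
      have h3 : ∀ x ∈ D ×ˢ D, ((((pz y).filter (fun p : ℕ => T < p ∧
            p ∣ ((q * t + x.2) - (q * h + x.1)) + ((q * h + x.1) - (q * t + x.2)))).card : ℕ) : ℝ) ≤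
            E' * Real.log X / Real.log T := by
        intro x hx
        rw [mem_product] at hx
        have hne' := hne x.1 hx.1 x.2 hx.2
        rw [le_div_iff₀ hlT]
        have g1 := hsize t x.2 htX hx.2
        have g2 := hsize h x.1 hh hx.1
        have g3 : ((((q * t + x.2) - (q * h + x.1)) + ((q * h + x.1) - (q * t + x.2)) : ℕ) : ℝ) ≤
            (X : ℝ) ^ E' := by
          rcases Nat.lt_or_ge (q * h + x.1) (q * t + x.2) with h' | h'
          · have g4 : ((((q * t + x.2) - (q * h + x.1)) + ((q * h + x.1) - (q * t + x.2)) : ℕ) : ℝ) ≤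
                ((q * t + x.2 : ℕ) : ℝ) := by exact_mod_cast (by omega)
            exact g4.trans g1
          · have g4 : ((((q * t + x.2) - (q * h + x.1)) + ((q * h + x.1) - (q * t + x.2)) : ℕ) : ℝ) ≤
                ((q * h + x.1 : ℕ) : ℝ) := by exact_mod_cast (by omega)
            exact g4.trans g2
        have g5 := prime_count ((pz y).filter (fun p : ℕ => T < p ∧
            p ∣ ((q * t + x.2) - (q * h + x.1)) + ((q * h + x.1) - (q * t + x.2)))) T _ _ hTpos
            (by omega) g3 (by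
          intro p hp
          rw [mem_filter, mem_pz] at hp
          exact ⟨hp.1.2, hp.2.1, hp.2.2⟩)
        rw [Real.log_rpow hX0] at g5
        exact g5
      refine (Finset.sum_le_sum h3).trans ?_
      rw [Finset.sum_const, nsmul_eq_mul, card_product]
      apply mul_le_mul_of_nonneg_right _ hq0'
      have hDr : (D.card : ℝ) ≤ c := by exact_mod_cast hDc
      push_cast
      rw [sq]
      exact mul_le_mul hDr hDr (Nat.cast_nonneg _) (Nat.cast_nonneg _)
    have hc0 : 0 ≤ (c : ℝ) ^ 2 * (E' * Real.log X / Real.log T) := by positivity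
    refine ⟨fun hex => ?_, fun htB => ?_⟩
    · have h10 := hone 0 (by
        push_cast
        positivity) (by
        intro d hd d' hd' e
        rw [mul_zero, zero_add] at e
        exact hex ⟨d, hd, d', hd', e⟩)
      have h11 : ((((pz y).filter (fun p : ℕ => T < p ∧ CoG (QC q a D) p t)).card : ℕ) : ℝ) ≤
          c ^ 2 * (E' * Real.log X / Real.log T) := by
        refine le_trans ?_ h10
        have : ((pz y).filter (fun p : ℕ => T < p ∧ CoG (QC q a D) p t)).card ≤
            ((pz y).filter (fun p : ℕ => T < p ∧ ∃ m, QC q a D p (m + 0) ∧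
              QC q a D p (m + t))).card := by
          apply card_le_card
          intro p hp
          rw [mem_filter] at hp ⊢
          obtain ⟨m, q1, q2⟩ := hp.2.2
          exact ⟨hp.1, hp.2.1, m, by rw [add_zero]; exact q1, q2⟩
        exact_mod_cast this
      refine h11.trans (le_trans ?_ hfin)
      have : 0 ≤ (b : ℝ) * (c ^ 2 * (E' * Real.log X / Real.log T)) := mul_nonneg hbr hc0
      linarith
    · have hsub : (pz y).filter (fun p : ℕ => T < p ∧ CoB (QC q a D) B p t) ⊆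
          B.biUnion (fun h => (pz y).filter (fun p : ℕ => T < p ∧
            ∃ m, QC q a D p (m + h) ∧ QC q a D p (m + t))) := by
        intro p hp
        rw [mem_filter] at hp
        obtain ⟨hp1, hp2, h, hh, hm⟩ := hp
        rw [mem_biUnion]
        exact ⟨h, hh, mem_filter.2 ⟨hp1, hp2, hm⟩⟩
      have h13 : ((((pz y).filter (fun p : ℕ => T < p ∧ CoB (QC q a D) B p t)).card : ℕ) : ℝ) ≤
          ∑ h ∈ B, ((((pz y).filter (fun p : ℕ => T < p ∧
            ∃ m, QC q a D p (m + h) ∧ QC q a D p (m + t))).card : ℕ) : ℝ) := by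
        exact_mod_cast (card_le_card hsub).trans card_biUnion_le
      refine h13.trans ((Finset.sum_le_sum (fun h hh => hone h (by
        have g1 := hBX h hh
        have g2 : (X : ℝ) ^ E ≤ (X : ℝ) ^ E * X := le_mul_of_one_le_right hXE0.le hX1
        linarith) (fun d hd d' hd' e => htB ⟨h, hh, d, hd, d', hd', e⟩))).trans
        (le_trans ?_ hfin))
      rw [Finset.sum_const, nsmul_eq_mul]
      have hBr : (B.card : ℝ) ≤ b + 1 := by
        have : (B.card : ℝ) ≤ b := by exact_mod_cast hB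
        linarith
      exact mul_le_mul_of_nonneg_right hBr hc0) Z
  exact h9

end Pool.Agent.X262.LOS
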