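import Pool.Agent.X262.LOS.RelP4

set_option autoImplicit false

/-!
# Goldbach partitions into almost primes around arbitrary sets of such partitions
-/

namespace Pool.Agent.X262.LOS

open Finset Filter Pool.Agent.H373R2.T7 Pool.Agent.W123.RP Pool.Agent.W123.RU
open Pool.Agent.TH464.PO Pool.Agent.Y879.AP

open Classical in
/-- **The law around arbitrary sets of almost prime Goldbach partitions**, in short intervals. -/
theorem gold_lawR (b : ℕ) (E x0 ε θ : ℝ) (hE : 0 ≤ E) (hx0 : 0 ≤ x0)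
    (hε : 0 < ε) (hε1 : ε ≤ 1) (hθ : 0 < θ) : ∃ r0 : ℕ, 2 ≤ r0 ∧ ∀ r : ℕ, r0 ≤ r →
      ∀ᶠ X : ℕ in atTop, ∀ N : ℕ, 2 ∣ N → X + 1 ≤ N → (N : ℝ) ≤ (X : ℝ) ^ E →
      ∀ Z Y : ℕ, (X : ℝ) ^ θ ≤ Y →
      ∀ B : Finset ℕ, B.card ≤ b → (∀ h ∈ B, h ≤ X) →
      |(Nb (QG N) ⌊(X : ℝ) ^ (1 / (r : ℝ))⌋₊ B Z Y : ℝ) -
        Y * Vq (QH (QG N) B) ⌊(X : ℝ) ^ (1 / (r : ℝ))⌋₊| ≤
        ε * (Y * Vq (QH (QG N) B) ⌊(X : ℝ) ^ (1 / (r : ℝ))⌋₊) ∧
      ∀ T : ℕ, T * Vq (QG N) ⌊(X : ℝ) ^ (1 / (r : ℝ))⌋₊ ≤ x0 → ∀ A : Finset ℕ,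
        |(NA (QG N) ⌊(X : ℝ) ^ (1 / (r : ℝ))⌋₊ B T A Z Y : ℝ) -
          Y * Vq (QH (QG N) B) ⌊(X : ℝ) ^ (1 / (r : ℝ))⌋₊ *
            Po (T * Vq (QG N) ⌊(X : ℝ) ^ (1 / (r : ℝ))⌋₊) A| ≤
          ε * (Y * Vq (QH (QG N) B) ⌊(X : ℝ) ^ (1 / (r : ℝ))⌋₊) := by
  obtain ⟨K0, y0, κ, η', τ1, hκ, hη', hτ1, h1⟩ := rel_law 2 b 0 (by norm_num) x0 ε hx0 hε hε1
  obtain ⟨r1, hr1⟩ : ∃ r1 : ℕ, (K0 : ℝ) / θ ≤ r1 := exists_nat_ge _
  refine ⟨max r1 2, le_max_right _ _, ?_⟩
  intro r hr
  have hr2 : 2 ≤ r := (le_max_right _ _).trans hr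
  have hrr : (2 : ℝ) ≤ r := by exact_mod_cast hr2
  have hrpos : (0 : ℝ) < r := by linarith
  have hrK : (K0 : ℝ) ≤ θ * r := by
    have h4 : (K0 : ℝ) / θ ≤ r := hr1.trans (by exact_mod_cast (le_max_left _ _).trans hr)
    rw [div_le_iff₀ hθ] at h4
    linarith
  have hpow : Tendsto (fun X : ℕ => (X : ℝ) ^ (1 / (r : ℝ))) atTop atTop :=
    (tendsto_rpow_atTop (by positivity)).comp tendsto_natCast_atTop_atTop
  have hlog : Tendsto (fun X : ℕ => Real.log (X : ℝ)) atTop atTop :=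
    Real.tendsto_log_atTop.comp tendsto_natCast_atTop_atTop
  obtain ⟨C, hC0, hVz'⟩ := Pool.Agent.Y879.GL.Vz_up r hr2
  obtain ⟨E', hE'⟩ : ∃ E' : ℝ, E' = 3 * (E + 1) := ⟨_, rfl⟩
  have hE'0 : 0 ≤ E' := by rw [hE']; positivity
  obtain ⟨L, hL⟩ : ∃ L : ℝ, L = (b + 1) * E' * C / (τ1 * η') := ⟨_, rfl⟩
  have hL0 : 0 ≤ L := by rw [hL]; positivity
  filter_upwards [hpow.eventually_ge_atTop (y0 : ℝ), eventually_ge_atTop 2, hVz',
    hlog.eventually_ge_atTop (C / κ), hlog.eventually_ge_atTop (C / τ1 * Real.exp (L + 1))]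
    with X h4 h5 h6' h7 h8
  intro N hN2 hNX hNE Z Y hXY B hB hBX
  obtain ⟨y, hy⟩ : ∃ y, y = ⌊(X : ℝ) ^ (1 / (r : ℝ))⌋₊ := ⟨_, rfl⟩
  rw [← hy] at h6' ⊢
  have hyy : y0 ≤ y := by
    rw [hy]
    exact Nat.le_floor h4
  have hX0 : (0 : ℝ) < X := by exact_mod_cast (by omega : 0 < X)
  have hX1 : (1 : ℝ) ≤ X := by exact_mod_cast (by omega : 1 ≤ X)
  have hX2 : (2 : ℝ) ≤ X := by exact_mod_cast h5
  have hlX : 0 < Real.log X := Real.log_pos (by linarith)
  have h6 : Vq (QG N) y ≤ C / Real.log X := (Vq_QG_le N y hN2).trans h6'.2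
  have hyX' : (y : ℝ) ≤ X := by
    calc (y : ℝ) ≤ (X : ℝ) ^ (1 / (r : ℝ)) := by
          rw [hy]
          exact Nat.floor_le (by positivity)
      _ ≤ (X : ℝ) ^ (1 : ℝ) := by
          apply Real.rpow_le_rpow_of_exponent_le hX1
          rw [div_le_one hrpos]
          linarith
      _ = X := Real.rpow_one _
  have hyXn : y ≤ X := by exact_mod_cast hyX'
  have hyK : y ^ K0 ≤ Y := by
    have h6 : ((y ^ K0 : ℕ) : ℝ) ≤ Y := by
      push_cast
      calc (y : ℝ) ^ K0 ≤ ((X : ℝ) ^ (1 / (r : ℝ))) ^ K0 := by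
            apply pow_le_pow_left₀ (Nat.cast_nonneg _)
            rw [hy]
            exact Nat.floor_le (by positivity)
        _ = (X : ℝ) ^ (1 / (r : ℝ) * K0) := by
            rw [Real.rpow_mul hX0.le, Real.rpow_natCast]
        _ ≤ (X : ℝ) ^ θ := by
            apply Real.rpow_le_rpow_of_exponent_le hX1
            rw [one_div, inv_mul_eq_div, div_le_iff₀ hrpos]
            exact hrK
        _ ≤ Y := hXY
    exact_mod_cast h6
  have hVκ : Vq (QG N) y ≤ κ := by
    refine h6.trans ?_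
    rw [div_le_iff₀ hlX]
    rw [div_le_iff₀ hκ] at h7
    linarith
  have hsr : Sr 2 b 0 (QG N) (fun _ => False) B (fun t => t ∈ B) :=
    { per := QG_perB N
      adm := QG_adm N hN2
      no1 := fun p hp n h => h.1 hp
      exc := fun _ _ _ h => h.elim
      card := hB
      excB := fun a ha hx => absurd hx ha }
  -- the size of the numbers
  have hXE1 : 2 * (X : ℝ) ^ E ≤ (X : ℝ) ^ (E + 1) := by
    rw [Real.rpow_add hX0, Real.rpow_one]
    have h3 : 0 ≤ (X : ℝ) ^ E := by positivity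
    nlinarith
  have hXR : (X : ℝ) ≤ (X : ℝ) ^ (E + 1) := by
    calc (X : ℝ) = (X : ℝ) ^ (1 : ℝ) := (Real.rpow_one _).symm
      _ ≤ _ := Real.rpow_le_rpow_of_exponent_le hX1 (by linarith)
  have hNXr : (X : ℝ) ≤ N := by exact_mod_cast (by omega : X ≤ N)
  have hsize : ∀ z : ℕ, z ≤ N + X → (z : ℝ) ≤ (X : ℝ) ^ (E + 1) := by
    intro z hz
    have h3 : (z : ℝ) ≤ N + X := by exact_mod_cast hz
    linarith
  have hcnt : ∀ (S : Finset ℕ) (T m1 m2 m3 : ℕ), 2 ≤ T → m1 ≠ 0 → m2 ≠ 0 → m3 ≠ 0 →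
      m1 ≤ N + X → m2 ≤ N + X → m3 ≤ N + X →
      (∀ p ∈ S, p.Prime ∧ T < p ∧ (p ∣ m1 ∨ p ∣ m2 ∨ p ∣ m3)) →
      (S.card : ℝ) ≤ E' * Real.log X / Real.log T := by
    intro S T m1 m2 m3 hT z1 z2 z3 w1 w2 w3 hS
    have hTr : (2 : ℝ) ≤ T := by exact_mod_cast hT
    rw [le_div_iff₀ (Real.log_pos (by linarith))]
    have h3 : ((m1 * m2 * m3 : ℕ) : ℝ) ≤ (X : ℝ) ^ E' := by
      push_cast
      have e : (X : ℝ) ^ E' = (X : ℝ) ^ (E + 1) * (X : ℝ) ^ (E + 1) * (X : ℝ) ^ (E + 1) := by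
        rw [← Real.rpow_add hX0, ← Real.rpow_add hX0, hE']
        congr 1
        ring
      rw [e]
      have y1 := hsize m1 w1
      have y2 := hsize m2 w2
      have y3 := hsize m3 w3
      gcongr
    have h4 := prime_count S T (m1 * m2 * m3) _ (by omega) (by positivity) h3 (by
      intro p hp
      obtain ⟨q1, q2, q3⟩ := hS p hp
      refine ⟨q1, q2, ?_⟩
      rcases q3 with q3 | q3 | q3
      · exact Dvd.dvd.mul_right (Dvd.dvd.mul_right q3 _) _
      · exact Dvd.dvd.mul_right (Dvd.dvd.mul_left q3 _) _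
      · exact Dvd.dvd.mul_left q3 _)
    rwa [Real.log_rpow hX0] at h4
  have h9 := h1 y Y hyy hyK (QG N) (fun _ => False) B
    (fun t => t ∈ B) hsr hVκ (by
    intro T hT1 hT2 hTy t ht
    rw [mem_Icc] at ht
    have hTpos : 1 ≤ T := by omega
    have hTlog : τ1 / C * Real.log X ≤ T := by
      have h10 : τ1 ≤ T * (C / Real.log X) :=
        hT1.trans (mul_le_mul_of_nonneg_left h6 (Nat.cast_nonneg _))
      rw [← mul_div_assoc, le_div_iff₀ hlX] at h10
      rw [div_mul_eq_mul_div, div_le_iff₀ hC0]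
      exact h10
    have hTe : Real.exp (L + 1) ≤ T := by
      refine le_trans ?_ hTlog
      rw [div_mul_eq_mul_div, div_le_iff₀ hτ1] at h8
      rw [div_mul_eq_mul_div, le_div_iff₀ hC0]
      linarith
    have hTr : (0 : ℝ) < T := by exact_mod_cast hTpos
    have hLT : L + 1 ≤ Real.log T := by
      rw [← Real.log_exp (L + 1)]
      exact Real.log_le_log (Real.exp_pos _) hTe
    have hlT : 0 < Real.log T := by linarith
    have hT2' : 2 ≤ T := by
      by_contra hcon
      have : T = 1 := by omega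
      rw [this, Nat.cast_one, Real.log_one] at hlT
      exact lt_irrefl _ hlT
    have hq0 : 0 ≤ E' * Real.log X / Real.log T := by positivity
    -- the final estimate
    have hfin : ((b : ℝ) + 1) * (E' * Real.log X / Real.log T) ≤ η' * T := by
      have h14 : (b + 1) * E' * C = L * (τ1 * η') := by
        rw [hL]
        field_simp
      have h15 : Real.log X ≤ C / τ1 * T := by
        rw [div_mul_eq_mul_div, div_le_iff₀ hC0] at hTlog
        rw [div_mul_eq_mul_div, le_div_iff₀ hτ1]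
        linarith
      calc ((b : ℝ) + 1) * (E' * Real.log X / Real.log T) =
            ((b + 1) * E' * Real.log X) / Real.log T := by ring
        _ ≤ η' * T := by
          rw [div_le_iff₀ hlT]
          calc ((b : ℝ) + 1) * E' * Real.log X ≤ (b + 1) * E' * (C / τ1 * T) :=
                mul_le_mul_of_nonneg_left h15 (by positivity)
            _ = ((b + 1) * E' * C) * T / τ1 := by ring
            _ = L * η' * T := by
              rw [h14]
              field_simp
            _ ≤ η' * T * Real.log T := by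
              have : L * (η' * T) ≤ Real.log T * (η' * T) :=
                mul_le_mul_of_nonneg_right (by linarith) (by positivity)
              linarith
    have hbr : (0 : ℝ) ≤ b := Nat.cast_nonneg b
    -- the arithmetic of the collisions
    have hcol : ∀ p h m : ℕ, p.Prime → h ≤ X → h ≠ t → QG N p (m + h) → QG N p (m + t) →
        (p ∣ (h - t) + (t - h) ∨ p ∣ N + h - t ∨ p ∣ N + t - h) := by
      rintro p h m hp hh hne ⟨_, q1⟩ ⟨_, q2⟩
      have hdiff : m + h ≡ m + t [MOD p] → p ∣ (h - t) + (t - h) := by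
        intro q3
        have q4 : h ≡ t [MOD p] := Nat.ModEq.add_left_cancel' m q3
        rcases Nat.lt_or_gt_of_ne hne with h' | h'
        · rw [show (h - t) + (t - h) = t - h by omega]
          exact (Nat.modEq_iff_dvd' h'.le).1 q4
        · rw [show (h - t) + (t - h) = h - t by omega]
          exact (Nat.modEq_iff_dvd' h'.le).1 q4.symm
      rcases q1 with q1 | q1 <;> rcases q2 with q2 | q2
      · exact Or.inl (hdiff (((Nat.modEq_zero_iff_dvd).2 q1).trans ((Nat.modEq_zero_iff_dvd).2 q2).symm))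
      · -- m + h ≡ 0, m + t ≡ N
        right; left
        have q3 : m + t + h ≡ N + h [MOD p] := q2.add_right h
        have q4 : m + t + h ≡ t [MOD p] := by
          have q5 := ((Nat.modEq_zero_iff_dvd).2 q1).add_right t
          rw [zero_add] at q5
          rwa [show m + h + t = m + t + h by ring] at q5
        exact (Nat.modEq_iff_dvd' (by omega)).1 (q4.symm.trans q3)
      · -- m + h ≡ N, m + t ≡ 0
        right; right
        have q3 : m + h + t ≡ N + t [MOD p] := q1.add_right t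
        have q4 : m + h + t ≡ h [MOD p] := by
          have q5 := ((Nat.modEq_zero_iff_dvd).2 q2).add_right h
          rw [zero_add] at q5
          rwa [show m + t + h = m + h + t by ring] at q5
        exact (Nat.modEq_iff_dvd' (by omega)).1 (q4.symm.trans q3)
      · exact Or.inl (hdiff (q1.trans q2.symm))
    have htX : t ≤ X := ht.2.trans (hTy.trans hyXn)
    have hone : ∀ h, h ≤ X → h ≠ t → ((((pz y).filter (fun p : ℕ => T < p ∧
        ∃ m, QG N p (m + h) ∧ QG N p (m + t))).card : ℕ) : ℝ) ≤ E' * Real.log X / Real.log T := by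
      intro h hh hne
      refine hcnt _ T ((h - t) + (t - h)) (N + h - t) (N + t - h) hT2' (by omega) (by omega)
        (by omega) (by omega) (by omega) (by omega) ?_
      intro p hp
      rw [mem_filter, mem_pz] at hp
      obtain ⟨m, q1, q2⟩ := hp.2.2
      exact ⟨hp.1.2, hp.2.1, hcol p h m hp.1.2 hh hne q1 q2⟩
    refine ⟨fun _ => ?_, fun htB => ?_⟩
    · have h10 := hone 0 (Nat.zero_le _) (by omega)
      have h11 : ((((pz y).filter (fun p : ℕ => T < p ∧ CoG (QG N) p t)).card : ℕ) : ℝ) ≤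
          E' * Real.log X / Real.log T := by
        refine le_trans ?_ h10
        have : ((pz y).filter (fun p : ℕ => T < p ∧ CoG (QG N) p t)).card ≤
            ((pz y).filter (fun p : ℕ => T < p ∧ ∃ m, QG N p (m + 0) ∧ QG N p (m + t))).card := by
          apply card_le_card
          intro p hp
          rw [mem_filter] at hp ⊢
          obtain ⟨m, q1, q2⟩ := hp.2.2
          exact ⟨hp.1, hp.2.1, m, by rw [add_zero]; exact q1, q2⟩
        exact_mod_cast this
      refine h11.trans (le_trans ?_ hfin)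
      nlinarith
    · have hsub : (pz y).filter (fun p : ℕ => T < p ∧ CoB (QG N) B p t) ⊆
          B.biUnion (fun h => (pz y).filter (fun p : ℕ => T < p ∧
            ∃ m, QG N p (m + h) ∧ QG N p (m + t))) := by
        intro p hp
        rw [mem_filter] at hp
        obtain ⟨hp1, hp2, h, hh, hm⟩ := hp
        rw [mem_biUnion]
        exact ⟨h, hh, mem_filter.2 ⟨hp1, hp2, hm⟩⟩
      have h13 : ((((pz y).filter (fun p : ℕ => T < p ∧ CoB (QG N) B p t)).card : ℕ) : ℝ) ≤
          ∑ h ∈ B, ((((pz y).filter (fun p : ℕ => T < p ∧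
            ∃ m, QG N p (m + h) ∧ QG N p (m + t))).card : ℕ) : ℝ) := by
        exact_mod_cast (card_le_card hsub).trans card_biUnion_le
      refine h13.trans ((Finset.sum_le_sum (fun h hh => hone h (hBX h hh)
        (fun hx => htB (hx ▸ hh)))).trans (le_trans ?_ hfin))
      rw [Finset.sum_const, nsmul_eq_mul]
      have hBr : (B.card : ℝ) ≤ b + 1 := by
        have : (B.card : ℝ) ≤ b := by exact_mod_cast hB
        linarith
      exact mul_le_mul_of_nonneg_right hBr hq0) Z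
  exact h9

end Pool.Agent.X262.LOS
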