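import Pool.Agent.X262.LOS.Cls

set_option autoImplicit false

/-!
# Windows composed of cells (a short interval and a residue class)
-/

namespace Pool.Agent.X262.LOS

open Finset Filter Pool.Agent.H373R2.T7 Pool.Agent.W123.RP Pool.Agent.W123.RU
open Pool.Agent.TH464.PO Pool.Agent.Y879.AP

/-- the sifted integers in the classes `C` modulo `M` -/
def Gc (Q : ℕ → ℕ → Prop) (y M : ℕ) (C : Finset ℕ) (n : ℕ) : Prop := Sf Q y n ∧ n % M ∈ C

/-- the conditions on the system -/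
structure Sc (c M w0 : ℕ) (C : Finset ℕ) (Q : ℕ → ℕ → Prop) (Ex : ℕ → Prop) : Prop where
  per : PerB Q c
  adm : ∀ p : ℕ, p.Prime → nuB Q p < p
  noM : ∀ p, p ∣ M → ∀ n, ¬ Q p n
  exc : ∀ g a b, (g + a) % M ∈ C → (g + b) % M ∈ C → a < b → Ex (b - a) →
    ∃ p ∈ pz w0, ∀ r, Q p (r + a) ∨ Q p (r + b)
  cls : C ⊆ range M

/-- the cell number `i` in the class `c` contains no element -/
def Vc (G : ℕ → Prop) (M t x : ℕ) (s : ℕ × ℕ) : Prop :=
  ∀ h, s.1 * t < h → h ≤ (s.1 + 1) * t → (x + h) % M = s.2 → ¬ G (x + h)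

/-- the window of a set of cells -/
def Wce (M T t g : ℕ) (S : Finset (ℕ × ℕ)) : Finset ℕ :=
  (Icc 1 T).filter (fun h => ((h - 1) / t, (g + h) % M) ∈ S)

lemma cell_iff (t h i : ℕ) (ht : 1 ≤ t) (hh : 1 ≤ h) :
    (h - 1) / t = i ↔ i * t < h ∧ h ≤ (i + 1) * t := by
  rw [Nat.div_eq_iff (by omega)]
  have h1 : (i + 1) * t = i * t + t := by ring
  rw [h1]
  constructor
  · rintro ⟨a, b⟩
    constructor <;> omega
  · rintro ⟨a, b⟩
    constructor <;> omega

open Classical in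
lemma wce_split (M T t g L : ℕ) (ht : 1 ≤ t) (hT : L * t ≤ T) (S : Finset (ℕ × ℕ))
    (hS : ∀ s ∈ S, s.1 < L) (P : ℕ → Prop) :
    ((((Wce M T t g S).filter P).card : ℕ) : ℝ) = ∑ s ∈ S,
      (((((Icc 1 ((s.1 + 1) * t)).filter (fun h => (g + h) % M = s.2 ∧ P h)).card : ℕ) : ℝ) -
        ((((Icc 1 (s.1 * t)).filter (fun h => (g + h) % M = s.2 ∧ P h)).card : ℕ) : ℝ)) := by
  have e1 : ((Wce M T t g S).filter P).card = ∑ s ∈ S,
      (((Wce M T t g S).filter P).filter (fun h => ((h - 1) / t, (g + h) % M) = s)).card := by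
    apply Finset.card_eq_sum_card_fiberwise
    intro h hh
    rw [mem_coe, mem_filter] at hh
    unfold Wce at hh
    rw [mem_filter] at hh
    exact hh.1.2
  rw [e1]
  push_cast
  apply Finset.sum_congr rfl
  intro s hs
  have hsub0 : s.1 * t ≤ (s.1 + 1) * t := Nat.mul_le_mul_right t (by omega)
  have hsT : (s.1 + 1) * t ≤ T := (Nat.mul_le_mul_right t (hS s hs)).trans hT
  have e2 : ((Wce M T t g S).filter P).filter (fun h => ((h - 1) / t, (g + h) % M) = s) =
      (Icc 1 ((s.1 + 1) * t)).filter (fun h => (g + h) % M = s.2 ∧ P h) \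
        (Icc 1 (s.1 * t)).filter (fun h => (g + h) % M = s.2 ∧ P h) := by
    ext h
    rw [mem_filter, mem_filter, Finset.mem_sdiff, mem_filter, mem_filter]
    unfold Wce
    rw [mem_filter, mem_Icc, mem_Icc, mem_Icc]
    constructor
    · rintro ⟨⟨⟨a1, a2⟩, a5⟩, a6⟩
      have b1 : (h - 1) / t = s.1 := by rw [← a6]
      have b2 : (g + h) % M = s.2 := by rw [← a6]
      rw [cell_iff t h s.1 ht a1.1] at b1
      refine ⟨⟨⟨a1.1, b1.2⟩, b2, a5⟩, ?_⟩
      rintro ⟨b3, _⟩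
      omega
    · rintro ⟨⟨a1, a2, a3⟩, a4⟩
      have hlt : s.1 * t < h := by
        by_contra hlt
        exact a4 ⟨⟨a1.1, by omega⟩, a2, a3⟩
      have b1 : (h - 1) / t = s.1 := (cell_iff t h s.1 ht a1.1).2 ⟨hlt, a1.2⟩
      have b2 : ((h - 1) / t, (g + h) % M) = s := by rw [b1, a2]
      refine ⟨⟨⟨⟨a1.1, by omega⟩, ?_⟩, a3⟩, b2⟩
      rw [b2]
      exact hs
  have hsub : (Icc 1 (s.1 * t)).filter (fun h => (g + h) % M = s.2 ∧ P h) ⊆
      (Icc 1 ((s.1 + 1) * t)).filter (fun h => (g + h) % M = s.2 ∧ P h) := by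
    apply Finset.filter_subset_filter
    exact Finset.Icc_subset_Icc_right hsub0
  rw [e2, Finset.card_sdiff_of_subset hsub, Nat.cast_sub (card_le_card hsub)]

open Classical in
lemma wce_card (M T t g L : ℕ) (ht : 1 ≤ t) (hT : L * t ≤ T) (S : Finset (ℕ × ℕ))
    (hS : ∀ s ∈ S, s.1 < L) :
    ((Wce M T t g S).card : ℝ) =
      ∑ s ∈ S, ((Lc M g s.2 ((s.1 + 1) * t) : ℝ) - Lc M g s.2 (s.1 * t)) := by
  have h := wce_split M T t g L ht hT S hS (fun _ => True)
  rw [Finset.filter_true] at h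
  rw [h]
  apply Finset.sum_congr rfl
  intro c _
  unfold Lc
  simp

lemma wce_equi (Q : ℕ → ℕ → Prop) (k : ℕ) (hQ : PerB Q k) (M T t g L : ℕ) (ht : 1 ≤ t)
    (hT : L * t ≤ T) (S : Finset (ℕ × ℕ)) (hS : ∀ s ∈ S, s.1 < L ∧ s.2 < M)
    (hM : ∀ p, p ∣ M → ∀ n, ¬ Q p n) (w m : ℕ) :
    |(Nn Q w (Wce M T t g S) m : ℝ) - (Wce M T t g S).card * Vq Q w| ≤
      ((2 * S.card : ℕ) : ℝ) * Mw w := by
  classical
  unfold Nn
  rw [wce_split M T t g L ht hT S (fun s hs => (hS s hs).1),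
    wce_card M T t g L ht hT S (fun s hs => (hS s hs).1), Finset.sum_mul, ← Finset.sum_sub_distrib]
  refine (Finset.abs_sum_le_sum_abs _ _).trans ?_
  have h3 : ∀ s ∈ S, |(((((Icc 1 ((s.1 + 1) * t)).filter
        (fun h => (g + h) % M = s.2 ∧ Sf Q w (m + h))).card : ℕ) : ℝ) -
        ((((Icc 1 (s.1 * t)).filter (fun h => (g + h) % M = s.2 ∧ Sf Q w (m + h))).card : ℕ) : ℝ)) -
        ((Lc M g s.2 ((s.1 + 1) * t) : ℝ) - Lc M g s.2 (s.1 * t)) * Vq Q w| ≤ 2 * Mw w := by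
    intro s hs
    have a1 := abs_le.1 (prefix_sifted Q k hQ M g s.2 ((s.1 + 1) * t) w m (hS s hs).2 hM)
    have a2 := abs_le.1 (prefix_sifted Q k hQ M g s.2 (s.1 * t) w m (hS s hs).2 hM)
    rw [abs_le]
    constructor <;> linarith [a1.1, a1.2, a2.1, a2.2]
  refine (Finset.sum_le_sum h3).trans (le_of_eq ?_)
  rw [Finset.sum_const, nsmul_eq_mul]
  push_cast
  ring

lemma wce_size (M T t g L : ℕ) (ht : 1 ≤ t) (hT : L * t ≤ T) (S : Finset (ℕ × ℕ))
    (hS : ∀ s ∈ S, s.1 < L ∧ s.2 < M) :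
    |((Wce M T t g S).card : ℝ) - S.card * (t / M)| ≤ S.card := by
  rw [wce_card M T t g L ht hT S (fun s hs => (hS s hs).1)]
  have e : (S.card : ℝ) * (t / M) = ∑ _s ∈ S, ((t : ℝ) / M) := by
    rw [Finset.sum_const, nsmul_eq_mul]
  rw [e, ← Finset.sum_sub_distrib]
  refine (Finset.abs_sum_le_sum_abs _ _).trans ?_
  have h3 : ∀ s ∈ S, |((Lc M g s.2 ((s.1 + 1) * t) : ℝ) - Lc M g s.2 (s.1 * t)) - t / M| ≤ 1 := by
    intro s hs
    obtain ⟨h, _, _, hb⟩ := Lc_bounds M g s.2 (hS s hs).2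
    obtain ⟨a1, a2⟩ := hb ((s.1 + 1) * t)
    obtain ⟨a3, a4⟩ := hb (s.1 * t)
    have e : (t : ℝ) / M = ((((s.1 + 1) * t : ℕ) : ℝ) - h) / M - (((s.1 * t : ℕ) : ℝ) - h) / M := by
      push_cast
      ring
    rw [e, abs_le]
    constructor <;> linarith
  refine (Finset.sum_le_sum h3).trans ?_
  rw [Finset.sum_const, nsmul_eq_mul, mul_one]

lemma exp_lip' (x y : ℝ) (hx : 0 ≤ x) (hy : 0 ≤ y) : |Real.exp (-x) - Real.exp (-y)| ≤ |x - y| := by
  have key : ∀ x y : ℝ, 0 ≤ x → x ≤ y → |Real.exp (-x) - Real.exp (-y)| ≤ |x - y| := by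
    intro x y hx hxy
    have h1 : Real.exp (-y) ≤ Real.exp (-x) := Real.exp_le_exp.2 (by linarith)
    rw [abs_of_nonneg (by linarith), abs_of_nonpos (by linarith)]
    have h2 : Real.exp (-y) = Real.exp (-x) * Real.exp (-(y - x)) := by
      rw [← Real.exp_add]
      congr 1
      ring
    have h3 := Real.add_one_le_exp (-(y - x))
    have h4 : Real.exp (-x) ≤ 1 := Real.exp_le_one_iff.2 (by linarith)
    have h5 := Real.exp_pos (-x)
    rw [h2]
    nlinarith
  rcases le_total x y with h | h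
  · exact key x y hx h
  · rw [abs_sub_comm, abs_sub_comm x]
    exact key y x hy h

open Classical in
/-- the law for the windows composed of cells: the raw form -/
theorem cells_law (c M w0 L : ℕ) (hc : 1 ≤ c) (hM : 1 ≤ M) (hL : 1 ≤ L) (x0 ε : ℝ) (hx0 : 0 ≤ x0)
    (hε : 0 < ε) :
    ∃ (K1 y1 T1 : ℕ) (η' : ℝ), 0 < η' ∧ ∀ y Y' t : ℕ, y1 ≤ y → y ^ K1 ≤ Y' → T1 ≤ t → L * t ≤ y →
      ∀ (C : Finset ℕ) (Q : ℕ → ℕ → Prop) (Ex : ℕ → Prop), Sc c M w0 C Q Ex →
      ((L * t : ℕ) : ℝ) * Vq Q y ≤ x0 →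
      (∀ t' ∈ Icc 1 (L * t), ¬ Ex t' →
        ((((pz y).filter (fun p : ℕ => L * t < p ∧ CoG Q p t')).card : ℕ) : ℝ) ≤ η' * (L * t : ℕ)) →
      ∀ S : Finset (ℕ × ℕ), S.Nonempty → (∀ s ∈ S, s.1 < L ∧ s.2 ∈ C) → ∀ g : ℕ, ∀ A : Finset ℕ,
      |(((Icc 1 Y').filter (fun m => Nn Q y (Wce M (L * t) t g S) (g + M * m) ∈ A)).card : ℝ) -
        Y' * ∑ j ∈ A, Real.exp (-((Wce M (L * t) t g S).card * Vq Q y)) *
          ((Wce M (L * t) t g S).card * Vq Q y) ^ j / j.factorial| ≤ ε * Y' := by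
  obtain ⟨d, hd⟩ : ∃ d : ℝ, d = 1 / (2 * M * L) := ⟨_, rfl⟩
  have hMr : (1 : ℝ) ≤ M := by exact_mod_cast hM
  have hLr : (1 : ℝ) ≤ L := by exact_mod_cast hL
  have hd0 : 0 < d := by rw [hd]; positivity
  obtain ⟨K0, y0, T0, R0, η', hη', hlaw⟩ := lawW c (2 * (L * M)) w0 hc x0 ε d hx0 hε hd0
  refine ⟨max K0 R0, max y0 1, max T0 (2 * M + 1), η', hη', ?_⟩
  intro y Y' t hy hyY ht hty C Q Ex hsc hx hcol S hSne hSC g A
  have hy1 : 1 ≤ y := by omega
  have ht1 : 1 ≤ t := by omega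
  have htT : t ≤ L * t := Nat.le_mul_of_pos_left t (by omega)
  have hSM : ∀ s ∈ S, s.1 < L ∧ s.2 < M := fun s hs =>
    ⟨(hSC s hs).1, mem_range.1 (hsc.cls (hSC s hs).2)⟩
  obtain ⟨W, hW⟩ : ∃ W, W = Wce M (L * t) t g S := ⟨_, rfl⟩
  have hScard : S.card ≤ L * M := by
    have h1 : S ⊆ (range L) ×ˢ (range M) := by
      intro s hs
      rw [mem_product, mem_range, mem_range]
      exact hSM s hs
    have h2 := card_le_card h1
    rwa [card_product, card_range, card_range] at h2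
  have hsize := wce_size M (L * t) t g L ht1 le_rfl S hSM
  rw [← hW] at hsize ⊢
  have htr : 2 * (M : ℝ) ≤ t := by
    have : 2 * M ≤ t := by omega
    exact_mod_cast this
  have htr0 : (0 : ℝ) ≤ t := Nat.cast_nonneg t
  have hS1 : (1 : ℝ) ≤ S.card := by exact_mod_cast hSne.card_pos
  have hdens : d * ((L * t : ℕ) : ℝ) ≤ W.card := by
    have h1 : d * ((L * t : ℕ) : ℝ) = t / M / 2 := by
      rw [hd]
      push_cast
      field_simp
    have h2 : 2 ≤ (t : ℝ) / M := by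
      rw [le_div_iff₀ (by linarith)]
      linarith
    have h3 := (abs_le.1 hsize).1
    rw [h1]
    nlinarith
  have hV0 := Vq_nonneg Q y
  have hok : Ok c (2 * (L * M)) w0 M (L * t) d W Q Ex := by
    refine ⟨?_, hdens, hsc.per, hsc.adm, hsc.noM, ?_, ?_⟩
    · rw [hW]
      exact filter_subset _ _
    · intro w m
      rw [hW]
      refine (wce_equi Q c hsc.per M (L * t) t g L ht1 le_rfl S hSM hsc.noM w m).trans ?_
      apply mul_le_mul_of_nonneg_right _ (Nat.cast_nonneg _)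
      exact_mod_cast Nat.mul_le_mul_left 2 hScard
    · intro a' ha' b' hb' hab hex
      rw [hW] at ha' hb'
      unfold Wce at ha' hb'
      rw [mem_filter] at ha' hb'
      exact hsc.exc g a' b' (hSC _ ha'.2).2 (hSC _ hb'.2).2 hab hex
  have hWT : (W.card : ℝ) ≤ ((L * t : ℕ) : ℝ) := by
    have h1 := card_le_card hok.sub
    rw [Nat.card_Icc, Nat.add_sub_cancel] at h1
    exact_mod_cast h1
  have hx1 : W.card * Vq Q y ≤ x0 := le_trans (mul_le_mul_of_nonneg_right hWT hV0) hx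
  have hyK : y ^ K0 ≤ Y' := (Nat.pow_le_pow_right hy1 (le_max_left _ _)).trans hyY
  have hTR : (L * t) ^ R0 ≤ Y' := by
    calc (L * t) ^ R0 ≤ y ^ R0 := Nat.pow_le_pow_left hty R0
      _ ≤ y ^ max K0 R0 := Nat.pow_le_pow_right hy1 (le_max_right _ _)
      _ ≤ Y' := hyY
  exact hlaw Y' y (L * t) (by omega) hyK (by omega) hTR M g W Q Ex hok hx1 hcol A

lemma nn_zero (Q : ℕ → ℕ → Prop) (y M T t g m L : ℕ) (ht : 1 ≤ t) (hT : T = L * t) (C : Finset ℕ)
    (S : Finset (ℕ × ℕ)) (hS : ∀ s ∈ S, s.1 < L ∧ s.2 ∈ C) :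
    Nn Q y (Wce M T t g S) (g + M * m) = 0 ↔ ∀ s ∈ S, Vc (Gc Q y M C) M t (g + M * m) s := by
  classical
  have hmod : ∀ h, (g + M * m + h) % M = (g + h) % M := by
    intro h
    rw [show g + M * m + h = g + h + M * m by ring, Nat.add_mul_mod_self_left]
  unfold Nn
  rw [Finset.card_eq_zero, Finset.filter_eq_empty_iff]
  constructor
  · intro h2 s hs h h1 h3 h4 hG
    apply h2 (x := h) _ hG.1
    unfold Wce
    rw [mem_filter, mem_Icc]
    have hsT : (s.1 + 1) * t ≤ L * t := Nat.mul_le_mul_right t (hS s hs).1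
    refine ⟨⟨by omega, by omega⟩, ?_⟩
    rw [hmod] at h4
    rw [(cell_iff t h s.1 ht (by omega)).2 ⟨h1, h3⟩, h4]
    exact hs
  · intro h2 h hh hSf
    unfold Wce at hh
    rw [mem_filter, mem_Icc] at hh
    obtain ⟨b1, b2⟩ := hh
    have b3 := (cell_iff t h ((h - 1) / t) ht b1.1).1 rfl
    refine h2 _ b2 h b3.1 b3.2 (by rw [hmod]) ⟨hSf, ?_⟩
    rw [hmod]
    exact (hS _ b2).2

open Classical in
/-- the void law -/
theorem cells_void (c M w0 L : ℕ) (hc : 1 ≤ c) (hM : 1 ≤ M) (hL : 1 ≤ L) (x0 ε : ℝ) (hx0 : 0 ≤ x0)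
    (hε : 0 < ε) :
    ∃ (K1 y1 T1 : ℕ) (η' : ℝ), 0 < η' ∧ ∀ y Y' t : ℕ, y1 ≤ y → y ^ K1 ≤ Y' → T1 ≤ t → L * t ≤ y →
      ∀ (C : Finset ℕ) (Q : ℕ → ℕ → Prop) (Ex : ℕ → Prop), Sc c M w0 C Q Ex →
      ((L * t : ℕ) : ℝ) * Vq Q y ≤ x0 →
      (∀ t' ∈ Icc 1 (L * t), ¬ Ex t' →
        ((((pz y).filter (fun p : ℕ => L * t < p ∧ CoG Q p t')).card : ℕ) : ℝ) ≤ η' * (L * t : ℕ)) →
      2 * ((L * M : ℕ) : ℝ) * Vq Q y ≤ ε → ∀ g : ℕ,
      (∀ S : Finset (ℕ × ℕ), (∀ s ∈ S, s.1 < L ∧ s.2 ∈ C) →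
        |(((Icc 1 Y').filter (fun m => ∀ s ∈ S, Vc (Gc Q y M C) M t (g + M * m) s)).card : ℝ) -
          Y' * Real.exp (-(t * Vq Q y / M)) ^ S.card| ≤ ε * Y') ∧
      (∀ i < L, (((Icc 1 Y').filter (fun m => 2 ≤ ((Ioc (i * t) ((i + 1) * t)).filter
        (fun h => Gc Q y M C (g + M * m + h))).card)).card : ℝ) ≤
          ((C.card * (t * Vq Q y / M) + ε) ^ 2 + ε) * Y') := by
  obtain ⟨K1, y1, T1, η', hη', hlaw⟩ := cells_law c M w0 L hc hM hL x0 (ε / 2) hx0 (by positivity)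
  refine ⟨K1, y1, max T1 1, η', hη', ?_⟩
  intro y Y' t hy hyY ht hty C Q Ex hsc hx hcol hV g
  have ht1 : 1 ≤ t := by omega
  have hV0 := Vq_nonneg Q y
  have hMr : (1 : ℝ) ≤ M := by exact_mod_cast hM
  have hY0 : (0 : ℝ) ≤ Y' := Nat.cast_nonneg _
  have hSM : ∀ S : Finset (ℕ × ℕ), (∀ s ∈ S, s.1 < L ∧ s.2 ∈ C) → ∀ s ∈ S, s.1 < L ∧ s.2 < M :=
    fun S hSC s hs => ⟨(hSC s hs).1, mem_range.1 (hsc.cls (hSC s hs).2)⟩
  have hScard : ∀ S : Finset (ℕ × ℕ), (∀ s ∈ S, s.1 < L ∧ s.2 ∈ C) → S.card ≤ L * M := by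
    intro S hSC
    have h1 : S ⊆ (range L) ×ˢ (range M) := by
      intro s hs
      rw [mem_product, mem_range, mem_range]
      exact hSM S hSC s hs
    have h2 := card_le_card h1
    rwa [card_product, card_range, card_range] at h2
  constructor
  · intro S hSC
    rcases S.eq_empty_or_nonempty with hSe | hSne
    · rw [hSe]
      simp
      positivity
    · have h1 := hlaw y Y' t hy hyY (by omega) hty C Q Ex hsc hx hcol S hSne hSC g {0}
      rw [Finset.sum_singleton, pow_zero, Nat.factorial_zero, mul_one, Nat.cast_one, div_one] at h1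
      have hset : ((Icc 1 Y').filter (fun m => Nn Q y (Wce M (L * t) t g S) (g + M * m) ∈
          ({0} : Finset ℕ))).card =
          ((Icc 1 Y').filter (fun m => ∀ s ∈ S, Vc (Gc Q y M C) M t (g + M * m) s)).card := by
        apply card_iff
        intro m _
        rw [mem_singleton]
        exact nn_zero Q y M (L * t) t g m L ht1 rfl C S hSC
      rw [hset] at h1
      have hsize := wce_size M (L * t) t g L ht1 le_rfl S (hSM S hSC)
      obtain ⟨W, hW⟩ : ∃ W, W = Wce M (L * t) t g S := ⟨_, rfl⟩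
      rw [← hW] at h1 hsize
      have hSr : (S.card : ℝ) ≤ ((L * M : ℕ) : ℝ) := by exact_mod_cast hScard S hSC
      have e1 : Real.exp (-(t * Vq Q y / M)) ^ S.card = Real.exp (-(S.card * (t / M) * Vq Q y)) := by
        rw [← Real.exp_nat_mul]
        congr 1
        ring
      have h2 : |Real.exp (-(W.card * Vq Q y)) - Real.exp (-(t * Vq Q y / M)) ^ S.card| ≤ ε / 2 := by
        rw [e1]
        refine (exp_lip' _ _ (by positivity) (by positivity)).trans ?_
        rw [← sub_mul, abs_mul, abs_of_nonneg hV0]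
        have a1 : |(W.card : ℝ) - S.card * (t / M)| ≤ ((L * M : ℕ) : ℝ) := hsize.trans hSr
        have a2 := mul_le_mul_of_nonneg_right a1 hV0
        linarith
      have h3 : |Y' * Real.exp (-(W.card * Vq Q y)) - Y' * Real.exp (-(t * Vq Q y / M)) ^ S.card| ≤
          ε / 2 * Y' := by
        rw [← mul_sub, abs_mul, abs_of_nonneg hY0, mul_comm]
        exact mul_le_mul_of_nonneg_right h2 hY0
      have h4 := abs_sub_le ((((Icc 1 Y').filter
        (fun m => ∀ s ∈ S, Vc (Gc Q y M C) M t (g + M * m) s)).card : ℝ))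
        (Y' * Real.exp (-(W.card * Vq Q y))) (Y' * Real.exp (-(t * Vq Q y / M)) ^ S.card)
      linarith
  · intro i hi
    rcases C.eq_empty_or_nonempty with hCe | hCne
    · have : (Icc 1 Y').filter (fun m => 2 ≤ ((Ioc (i * t) ((i + 1) * t)).filter
        (fun h => Gc Q y M C (g + M * m + h))).card) = ∅ := by
        rw [Finset.filter_eq_empty_iff]
        intro m _ h1
        have h2 : (Ioc (i * t) ((i + 1) * t)).filter (fun h => Gc Q y M C (g + M * m + h)) = ∅ := by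
          rw [Finset.filter_eq_empty_iff]
          intro h _ h3
          have := h3.2
          rw [hCe] at this
          simp at this
        rw [h2] at h1
        simp at h1
      rw [this]
      simp
      positivity
    · obtain ⟨S, hS⟩ : ∃ S : Finset (ℕ × ℕ), S = C.image (fun c => (i, c)) := ⟨_, rfl⟩
      have hSc : S.card = C.card := by
        rw [hS]
        apply Finset.card_image_of_injective
        intro a b hab
        exact (Prod.mk.inj hab).2
      have hSC : ∀ s ∈ S, s.1 < L ∧ s.2 ∈ C := by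
        intro s hs
        rw [hS, mem_image] at hs
        obtain ⟨c', hc', rfl⟩ := hs
        exact ⟨hi, hc'⟩
      have hSne : S.Nonempty := by
        rw [hS]
        exact hCne.image _
      have h1 := hlaw y Y' t hy hyY (by omega) hty C Q Ex hsc hx hcol S hSne hSC g {0, 1}
      rw [Finset.sum_pair (by norm_num)] at h1
      have hsize := wce_size M (L * t) t g L ht1 le_rfl S (hSM S hSC)
      obtain ⟨x, hxdef⟩ : ∃ x : ℝ, x = (Wce M (L * t) t g S).card * Vq Q y := ⟨_, rfl⟩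
      rw [← hxdef] at h1
      simp only [pow_zero, Nat.factorial_zero, mul_one, Nat.cast_one, div_one, pow_one,
        Nat.factorial_one] at h1
      have hx0' : 0 ≤ x := by rw [hxdef]; positivity
      have hxle : x ≤ C.card * (t * Vq Q y / M) + ε := by
        have a1 := (abs_le.1 hsize).2
        have a2 : (S.card : ℝ) ≤ ((L * M : ℕ) : ℝ) := by exact_mod_cast hScard S hSC
        rw [hxdef]
        have a3 : ((Wce M (L * t) t g S).card : ℝ) ≤ C.card * (t / M) + ((L * M : ℕ) : ℝ) := by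
          rw [← hSc]
          linarith
        have a4 := mul_le_mul_of_nonneg_right a3 hV0
        have a5 : 0 ≤ ((L * M : ℕ) : ℝ) * Vq Q y := by positivity
        have a6 : ((C.card : ℝ) * (t / M) + ((L * M : ℕ) : ℝ)) * Vq Q y =
            C.card * (t * Vq Q y / M) + ((L * M : ℕ) : ℝ) * Vq Q y := by ring
        linarith
      have hcount : ∀ m, Nn Q y (Wce M (L * t) t g S) (g + M * m) =
          ((Ioc (i * t) ((i + 1) * t)).filter (fun h => Gc Q y M C (g + M * m + h))).card := by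
        intro m
        have hmod : ∀ h, (g + M * m + h) % M = (g + h) % M := by
          intro h
          rw [show g + M * m + h = g + h + M * m by ring, Nat.add_mul_mod_self_left]
        unfold Nn
        congr 1
        ext h
        rw [mem_filter, mem_filter, mem_Ioc]
        unfold Wce
        rw [mem_filter, mem_Icc, hS, mem_image]
        have hiL : (i + 1) * t ≤ L * t := Nat.mul_le_mul_right t hi
        constructor
        · rintro ⟨⟨b1, c', hc', b2⟩, b3⟩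
          have b4 : (h - 1) / t = i := (Prod.mk.inj b2).1.symm
          rw [cell_iff t h i ht1 b1.1] at b4
          refine ⟨b4, b3, ?_⟩
          rw [hmod, ← (Prod.mk.inj b2).2]
          exact hc'
        · rintro ⟨b1, b2, b3⟩
          rw [hmod] at b3
          refine ⟨⟨⟨by omega, by omega⟩, _, b3, ?_⟩, b2⟩
          rw [(cell_iff t h i ht1 (by omega)).2 b1]
      have hsplit : (((Icc 1 Y').filter (fun m => 2 ≤ ((Ioc (i * t) ((i + 1) * t)).filter
          (fun h => Gc Q y M C (g + M * m + h))).card)).card : ℝ) = Y' - (((Icc 1 Y').filter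
          (fun m => Nn Q y (Wce M (L * t) t g S) (g + M * m) ∈ ({0, 1} : Finset ℕ))).card : ℝ) := by
        have b1 := Finset.card_filter_add_card_filter_not (s := Icc 1 Y')
          (fun m => Nn Q y (Wce M (L * t) t g S) (g + M * m) ∈ ({0, 1} : Finset ℕ))
        rw [Nat.card_Icc, Nat.add_sub_cancel] at b1
        have b2 : ((Icc 1 Y').filter (fun m => 2 ≤ ((Ioc (i * t) ((i + 1) * t)).filter
            (fun h => Gc Q y M C (g + M * m + h))).card)).card = ((Icc 1 Y').filter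
            (fun m => ¬ Nn Q y (Wce M (L * t) t g S) (g + M * m) ∈ ({0, 1} : Finset ℕ))).card := by
          apply card_iff
          intro m _
          rw [hcount, mem_insert, mem_singleton]
          omega
        rw [b2]
        have b3 : (((Icc 1 Y').filter (fun m => Nn Q y (Wce M (L * t) t g S) (g + M * m) ∈
            ({0, 1} : Finset ℕ))).card : ℝ) + (((Icc 1 Y').filter
            (fun m => ¬ Nn Q y (Wce M (L * t) t g S) (g + M * m) ∈ ({0, 1} : Finset ℕ))).card : ℝ) =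
            Y' := by exact_mod_cast b1
        linarith
      rw [hsplit]
      have h2 := (abs_le.1 h1).1
      have h3 : 1 - x ^ 2 ≤ Real.exp (-x) + Real.exp (-x) * x := by
        have b1 := Real.add_one_le_exp (-x)
        have b2 : (1 - x) * (1 + x) ≤ Real.exp (-x) * (1 + x) :=
          mul_le_mul_of_nonneg_right (by linarith) (by linarith)
        linarith
      have h4 : x ^ 2 ≤ (C.card * (t * Vq Q y / M) + ε) ^ 2 := pow_le_pow_left₀ hx0' hxle 2
      have h5 := mul_le_mul_of_nonneg_left h3 hY0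
      have h6 := mul_le_mul_of_nonneg_left h4 hY0
      nlinarith

end Pool.Agent.X262.LOS
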