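import Pool.Agent.X262.LOS.Rel5

set_option autoImplicit false

/-!
# The gaps between consecutive integers without small prime factors
-/

namespace Pool.Agent.X262.LOS

open Finset Filter Pool.Agent.H373R2.T7 Pool.Agent.W123.RP Pool.Agent.W123.RU
open Pool.Agent.TH464.PO Pool.Agent.Y879.AP

open Classical in
/-- the number of the gaps `d` -/
noncomputable def Ng (y d Z Y : ℕ) : ℕ :=
  ((Ioc Z (Z + Y)).filter (fun n => Sf Q1 y n ∧ Sf Q1 y (n + d) ∧
    ∀ m, n < m → m < n + d → ¬ Sf Q1 y m)).card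

lemma sf_pair (y d n : ℕ) : Sf (QH Q1 {0, d}) y n ↔ Sf Q1 y n ∧ Sf Q1 y (n + d) := by
  rw [sf_QH]
  constructor
  · intro h
    have h0 := h 0 (by simp)
    rw [Nat.add_zero] at h0
    exact ⟨h0, h d (by simp)⟩
  · rintro ⟨h1, h2⟩ a ha
    rw [mem_insert, mem_singleton] at ha
    rcases ha with rfl | rfl
    · rwa [Nat.add_zero]
    · exact h2

lemma ng_eq (y d Z Y : ℕ) : Ng y d Z Y = Nv Q1 y {0, d} d Z Y := by
  classical
  unfold Ng Nv
  apply card_iff
  intro n _
  rw [sf_pair, and_assoc]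
  apply and_congr_right
  intro _
  apply and_congr_right
  intro _
  unfold Vo1
  constructor
  · intro h a h1 h2 h3
    rw [mem_insert, mem_singleton] at h3
    exact h (n + a) (by omega) (by omega)
  · intro h m h1 h2
    have h3 := h (m - n) (by omega) (by omega) (by
      rw [mem_insert, mem_singleton]
      omega)
    rwa [show n + (m - n) = m by omega] at h3

lemma ng_le (y d T Z Y : ℕ) (hT : T ≤ d) : Ng y d Z Y ≤ Nv Q1 y {0, d} T Z Y := by
  classical
  rw [ng_eq]
  unfold Nv
  apply card_le_card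
  intro n hn
  rw [mem_filter] at hn ⊢
  exact ⟨hn.1, hn.2.1, fun h h1 h2 => hn.2.2 h h1 (h2.trans hT)⟩

/-- few large gaps -/
lemma ng_few (y d Z Y : ℕ) (hd : 1 ≤ d) : Ng y d Z Y ≤ Y / d + 1 := by
  classical
  unfold Ng
  have h1 : ((Ioc Z (Z + Y)).filter (fun n => Sf Q1 y n ∧ Sf Q1 y (n + d) ∧
      ∀ m, n < m → m < n + d → ¬ Sf Q1 y m)).card ≤ (range (Y / d + 1)).card := by
    apply Finset.card_le_card_of_injOn (fun n => (n - Z - 1) / d)
    · intro n hn
      rw [mem_coe, mem_filter, mem_Ioc] at hn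
      beta_reduce
      rw [mem_coe, mem_range, Nat.lt_succ_iff]
      exact Nat.div_le_div_right (by omega)
    · have key : ∀ n n' : ℕ, n < n' → Z < n → Sf Q1 y n' → (∀ m, n < m → m < n + d → ¬ Sf Q1 y m) →
          (n - Z - 1) / d ≠ (n' - Z - 1) / d := by
        intro n n' hlt hZ hs hno he
        have h2 : n + d ≤ n' := by
          by_contra hcon
          exact hno n' hlt (by omega) hs
        have h3 : (n - Z - 1) / d + 1 ≤ (n' - Z - 1) / d := by
          rw [← Nat.add_div_right _ (by omega)]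
          exact Nat.div_le_div_right (by omega)
        omega
      intro n hn n' hn' he
      rw [mem_coe, mem_filter, mem_Ioc] at hn hn'
      simp only at he
      rcases Nat.lt_trichotomy n n' with h | h | h
      · exact absurd he (key n n' h hn.1.1 hn'.2.1 hn.2.2.2)
      · exact h
      · exact absurd he.symm (key n' n h hn'.1.1 hn.2.1 hn'.2.2.2)
  rwa [card_range] at h1

/-- the factor of the shift -/
noncomputable def Gf (y d : ℕ) : ℝ :=
  ∏ p ∈ (pz y).filter (fun p => 2 < p ∧ p ∣ d), (1 + 1 / ((p : ℝ) - 2))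

lemma pair_nuB (d p : ℕ) (hp : p.Prime) : nuB (QH Q1 {0, d}) p = if p ∣ d then 1 else 2 := by
  classical
  have hn1 : ¬ p ∣ 1 := fun h => hp.one_lt.ne' (Nat.dvd_one.1 h)
  have e : ∀ r, QH Q1 {0, d} p r ↔ (p ∣ r ∨ p ∣ r + d) := by
    intro r
    unfold QH Q1
    constructor
    · rintro ⟨h, hh, _, hd⟩
      rw [mem_insert, mem_singleton] at hh
      rcases hh with rfl | rfl
      · left
        rwa [Nat.add_zero] at hd
      · exact Or.inr hd
    · rintro (h | h)
      · exact ⟨0, by simp, hn1, by rwa [Nat.add_zero]⟩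
      · exact ⟨d, by simp, hn1, h⟩
  unfold nuB
  split_ifs with h
  · rw [card_eq_one]
    refine ⟨0, ?_⟩
    ext r
    rw [mem_filter, mem_range, mem_singleton, e]
    constructor
    · rintro ⟨h1, h2 | h2⟩
      · exact Nat.eq_zero_of_dvd_of_lt h2 h1
      · exact Nat.eq_zero_of_dvd_of_lt ((Nat.dvd_add_left h).1 h2) h1
    · rintro rfl
      exact ⟨hp.pos, Or.inl (dvd_zero p)⟩
  · have hm : d % p ≠ 0 := fun h2 => h (Nat.dvd_of_mod_eq_zero h2)
    have hlt := Nat.mod_lt d hp.pos
    rw [card_eq_two]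
    refine ⟨0, p - d % p, by omega, ?_⟩
    ext r
    rw [mem_filter, mem_range, mem_insert, mem_singleton, e]
    constructor
    · rintro ⟨h1, h2 | h2⟩
      · exact Or.inl (Nat.eq_zero_of_dvd_of_lt h2 h1)
      · right
        have h3 : p ∣ r + d % p := by
          have h4 : r + d = r + d % p + p * (d / p) := by
            have := Nat.mod_add_div d p
            omega
          rw [h4] at h2
          exact (Nat.dvd_add_left (Dvd.intro _ rfl)).1 h2
        obtain ⟨k, hk⟩ := h3
        have hk1 : k = 1 := by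
          rcases Nat.lt_trichotomy k 1 with h5 | h5 | h5
          · have : k = 0 := by omega
            rw [this] at hk
            omega
          · exact h5
          · have : p * 2 ≤ p * k := Nat.mul_le_mul_left p h5
            omega
        rw [hk1] at hk
        omega
    · rintro (rfl | rfl)
      · exact ⟨hp.pos, Or.inl (dvd_zero p)⟩
      · refine ⟨by omega, Or.inr ?_⟩
        have h4 : p - d % p + d = p * (1 + d / p) := by
          have := Nat.mod_add_div d p
          rw [Nat.mul_add, Nat.mul_one]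
          omega
        rw [h4]
        exact Dvd.intro _ rfl

lemma pair_Vq (y d : ℕ) (hd : 2 ∣ d) : Vq (QH Q1 {0, d}) y = Vq (QH Q1 {0, 2}) y * Gf y d := by
  unfold Gf
  rw [Finset.prod_filter]
  unfold Vq
  rw [← Finset.prod_mul_distrib]
  apply Finset.prod_congr rfl
  intro p hp
  have hpp := (mem_pz.1 hp).2
  rw [pair_nuB d p hpp, pair_nuB 2 p hpp]
  rcases Nat.eq_or_lt_of_le hpp.two_le with h | h
  · rw [← h]
    simp [hd]
  · have h2 : ¬ p ∣ 2 := fun h3 => by
      have := Nat.le_of_dvd (by norm_num) h3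
      omega
    have hp2 : (2 : ℝ) < p := by exact_mod_cast h
    rw [if_neg h2]
    by_cases h3 : p ∣ d
    · rw [if_pos h3, if_pos ⟨h, h3⟩]
      have : (p : ℝ) - 2 ≠ 0 := by linarith
      have : (p : ℝ) ≠ 0 := by linarith
      push_cast
      field_simp
      ring
    · rw [if_neg h3, if_neg (fun h4 => h3 h4.2), mul_one]

lemma Gf_ge (y d : ℕ) : 1 ≤ Gf y d := by
  unfold Gf
  apply Finset.one_le_prod
  intro p hp
  rw [mem_filter] at hp
  have hp2 : (2 : ℝ) < p := by exact_mod_cast hp.2.1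
  have : 0 < 1 / ((p : ℝ) - 2) := by
    apply div_pos one_pos
    linarith
  linarith

/-- the large prime factors -/
lemma Gf_large (y z d D : ℕ) (hz : 3 ≤ z) (hd : 1 ≤ d)
    (hD : ∀ p : ℕ, p.Prime → 2 < p → p ≤ z → p ∣ D) :
    Gf y d ≤ Gf y D * Real.exp (Real.log d / Real.log z / (z - 1)) := by
  classical
  have hzr : (3 : ℝ) ≤ z := by exact_mod_cast hz
  have hlz : 0 < Real.log z := Real.log_pos (by linarith)
  have hfac : ∀ p ∈ pz y, 2 < p → (1 : ℝ) ≤ 1 + 1 / ((p : ℝ) - 2) := by
    intro p _ h2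
    have hp2 : (2 : ℝ) < p := by exact_mod_cast h2
    have : 0 < 1 / ((p : ℝ) - 2) := by
      apply div_pos one_pos
      linarith
    linarith
  obtain ⟨S, hS⟩ : ∃ S, S = (pz y).filter (fun p => 2 < p ∧ p ∣ d) := ⟨_, rfl⟩
  have e1 : Gf y d = (∏ p ∈ S.filter (fun p => p ≤ z), (1 + 1 / ((p : ℝ) - 2))) *
      ∏ p ∈ S.filter (fun p => ¬ p ≤ z), (1 + 1 / ((p : ℝ) - 2)) := by
    unfold Gf
    rw [Finset.prod_filter_mul_prod_filter_not, hS]
  rw [e1]
  have h1 : ∏ p ∈ S.filter (fun p => p ≤ z), (1 + 1 / ((p : ℝ) - 2)) ≤ Gf y D := by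
    unfold Gf
    apply Finset.prod_le_prod_of_subset_of_one_le
    · intro p hp
      rw [mem_filter, hS, mem_filter] at hp
      rw [mem_filter]
      exact ⟨hp.1.1, hp.1.2.1, hD p (mem_pz.1 hp.1.1).2 hp.1.2.1 hp.2⟩
    · intro p hp
      rw [mem_filter, hS, mem_filter] at hp
      exact le_trans zero_le_one (hfac p hp.1.1 hp.1.2.1)
    · intro p hp _
      rw [mem_filter] at hp
      exact hfac p hp.1 hp.2.1
  have h2 : ∏ p ∈ S.filter (fun p => ¬ p ≤ z), (1 + 1 / ((p : ℝ) - 2)) ≤
      Real.exp (Real.log d / Real.log z / (z - 1)) := by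
    have hc := prime_count (S.filter (fun p => ¬ p ≤ z)) z d d (by omega) (by omega) le_rfl (by
      intro p hp
      rw [mem_filter, hS, mem_filter] at hp
      exact ⟨(mem_pz.1 hp.1.1).2, by omega, hp.1.2.2⟩)
    rw [← le_div_iff₀ hlz] at hc
    calc ∏ p ∈ S.filter (fun p => ¬ p ≤ z), (1 + 1 / ((p : ℝ) - 2)) ≤
        ∏ p ∈ S.filter (fun p => ¬ p ≤ z), Real.exp (1 / ((z : ℝ) - 1)) := by
          apply Finset.prod_le_prod
          · intro p hp
            rw [mem_filter, hS, mem_filter] at hp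
            exact le_trans zero_le_one (hfac p hp.1.1 hp.1.2.1)
          · intro p hp
            rw [mem_filter] at hp
            have hpz : (z : ℝ) + 1 ≤ p := by exact_mod_cast (by omega : z + 1 ≤ p)
            have h3 : 1 / ((p : ℝ) - 2) ≤ 1 / ((z : ℝ) - 1) := by
              apply div_le_div_of_nonneg_left zero_le_one (by linarith) (by linarith)
            have h4 := Real.add_one_le_exp (1 / ((z : ℝ) - 1))
            linarith
      _ = Real.exp (((S.filter (fun p => ¬ p ≤ z)).card : ℝ) * (1 / ((z : ℝ) - 1))) := by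
          rw [Finset.prod_const, Real.exp_nat_mul]
      _ ≤ _ := by
          apply Real.exp_le_exp.2
          rw [mul_one_div]
          exact div_le_div_of_nonneg_right hc (by linarith)
  apply mul_le_mul h1 h2
  · apply Finset.prod_nonneg
    intro p hp
    rw [mem_filter, hS, mem_filter] at hp
    exact le_trans zero_le_one (hfac p hp.1.1 hp.1.2.1)
  · exact le_trans zero_le_one (Gf_ge y D)

/-- one more prime factor -/
lemma Gf_mul (y q d : ℕ) (hq : q.Prime) (hq2 : 2 < q) (hqy : q ≤ y) (hqd : ¬ q ∣ d) :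
    Gf y (q * d) = (1 + 1 / ((q : ℝ) - 2)) * Gf y d := by
  classical
  unfold Gf
  have e : (pz y).filter (fun p => 2 < p ∧ p ∣ q * d) =
      insert q ((pz y).filter (fun p => 2 < p ∧ p ∣ d)) := by
    ext p
    rw [mem_insert, mem_filter, mem_filter]
    constructor
    · rintro ⟨h1, h2, h3⟩
      rcases (Nat.Prime.dvd_mul (mem_pz.1 h1).2).1 h3 with h4 | h4
      · exact Or.inl ((Nat.prime_dvd_prime_iff_eq (mem_pz.1 h1).2 hq).1 h4)
      · exact Or.inr ⟨h1, h2, h4⟩
    · rintro (rfl | ⟨h1, h2, h3⟩)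
      · exact ⟨mem_pz.2 ⟨hqy, hq⟩, hq2, Dvd.intro _ rfl⟩
      · exact ⟨h1, h2, Dvd.dvd.mul_left h3 q⟩
  rw [e, Finset.prod_insert]
  intro h
  rw [mem_filter] at h
  exact hqd h.2.2

end Pool.Agent.X262.LOS
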