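import Pool.Agent.X262.LOS.LawW

set_option autoImplicit false

/-!
# Windows which depend on the residue class
-/

namespace Pool.Agent.X262.LOS

open Finset Filter Pool.Agent.H373R2.T7 Pool.Agent.W123.RP Pool.Agent.W123.RU
open Pool.Agent.TH464.PO Pool.Agent.Y879.AP

/-- the shifts `h` in `(lo c, hi c]`, where `c` is the class of `g + h` modulo `M` -/
def Wcl (M T g : ℕ) (C : Finset ℕ) (lo hi : ℕ → ℕ) : Finset ℕ :=
  (Icc 1 T).filter (fun h => (g + h) % M ∈ C ∧ lo ((g + h) % M) < h ∧ h ≤ hi ((g + h) % M))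

lemma exists_first (M g c : ℕ) (hc : c < M) : ∃ h1, 1 ≤ h1 ∧ h1 ≤ M ∧ (g + h1) % M = c := by
  have hM : 0 < M := by omega
  have hg : g % M < M := Nat.mod_lt _ hM
  refine ⟨(c + M - g % M - 1) % M + 1, by omega, ?_, ?_⟩
  · have := Nat.mod_lt (c + M - g % M - 1) hM
    omega
  · have h1 : (g + ((c + M - g % M - 1) % M + 1)) ≡ (g % M + ((c + M - g % M - 1) + 1)) [MOD M] :=
      ((Nat.mod_modEq g M).symm).add ((Nat.mod_modEq (c + M - g % M - 1) M).add_right 1)
    unfold Nat.ModEq at h1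
    rw [h1, show g % M + ((c + M - g % M - 1) + 1) = c + M by omega, Nat.add_mod_right,
      Nat.mod_eq_of_lt hc]

open Classical in
/-- the elements of a class in `[1, x]` -/
lemma prefix_card (M g c x h1 : ℕ) (hM : 1 ≤ M) (h11 : 1 ≤ h1) (h1M : h1 ≤ M) (hg : (g + h1) % M = c)
    (P : ℕ → Prop) :
    ((Icc 1 x).filter (fun h => (g + h) % M = c ∧ P h)).card =
      ((range ((x + M - h1) / M)).filter (fun v => P (h1 + M * v))).card := by
  symm
  apply Finset.card_bij (fun v _ => h1 + M * v)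
  · intro v hv
    rw [mem_filter, mem_range] at hv
    rw [mem_filter, mem_Icc]
    have h2 : v + 1 ≤ (x + M - h1) / M := hv.1
    rw [Nat.le_div_iff_mul_le hM] at h2
    have h3 : (v + 1) * M = M * v + M := by ring
    refine ⟨⟨by omega, by omega⟩, ?_, hv.2⟩
    rw [← add_assoc, Nat.add_mul_mod_self_left]
    exact hg
  · intro a _ b _ hab
    have h2 : M * a = M * b := by omega
    exact Nat.eq_of_mul_eq_mul_left hM h2
  · intro h hh
    rw [mem_filter, mem_Icc] at hh
    obtain ⟨⟨a1, a2⟩, a3, a4⟩ := hh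
    have hge : h1 ≤ h := by
      by_contra hlt
      rw [not_le] at hlt
      have h2 : (g + h1) ≡ (g + h) [MOD M] := by
        unfold Nat.ModEq
        rw [hg, a3]
      have h3 : h1 ≡ h [MOD M] := Nat.ModEq.add_left_cancel' g h2
      have h4 := (Nat.modEq_iff_dvd' hlt.le).1 h3.symm
      have h5 := Nat.le_of_dvd (by omega) h4
      omega
    have h2 : (g + h1) ≡ (g + h) [MOD M] := by
      unfold Nat.ModEq
      rw [hg, a3]
    have h3 : h1 ≡ h [MOD M] := Nat.ModEq.add_left_cancel' g h2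
    obtain ⟨v, hv⟩ := (Nat.modEq_iff_dvd' hge).1 h3
    have e : h = h1 + M * v := by omega
    refine ⟨v, ?_, e.symm⟩
    rw [mem_filter, mem_range]
    refine ⟨?_, by rw [← e]; exact a4⟩
    have h5 : v + 1 ≤ (x + M - h1) / M := by
      rw [Nat.le_div_iff_mul_le hM]
      have h3 : (v + 1) * M = M * v + M := by ring
      omega
    exact h5

open Classical in
/-- sifted integers in an initial interval -/
lemma range_count (R : ℕ → ℕ → Prop) (c : ℕ) (hR : PerB R c) (w l : ℕ) :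
    |((((range l).filter (fun v => Sf R w v)).card : ℕ) : ℝ) - l * Vq R w| ≤ Mw w := by
  have hP := Mw_pos w
  have h := window R c hR w (Mw w - 1) l
  have e : ((range l).filter (fun v => Sf R w v)).card =
      ((Icc 1 l).filter (fun h => Sf R w (Mw w - 1 + h))).card := by
    apply Finset.card_bij (fun v _ => v + 1)
    · intro v hv
      rw [mem_filter, mem_range] at hv
      rw [mem_filter, mem_Icc]
      refine ⟨by omega, ?_⟩
      rw [show Mw w - 1 + (v + 1) = v + Mw w by omega]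
      have h3 := sf_periodic R c hR w v
      beta_reduce at h3
      rw [h3]
      exact hv.2
    · intro a _ b _ hab
      omega
    · intro h hh
      rw [mem_filter, mem_Icc] at hh
      refine ⟨h - 1, ?_, by omega⟩
      rw [mem_filter, mem_range]
      refine ⟨by omega, ?_⟩
      have h3 := sf_periodic R c hR w (h - 1)
      beta_reduce at h3
      rw [← h3, show h - 1 + Mw w = Mw w - 1 + h by omega]
      exact hh.2
  rw [e]
  exact h

open Classical in
/-- the number of the elements of a class in `[1, x]` -/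
noncomputable def Lc (M g c x : ℕ) : ℕ := ((Icc 1 x).filter (fun h => (g + h) % M = c)).card

lemma Lc_eq (M g c x h1 : ℕ) (hM : 1 ≤ M) (h11 : 1 ≤ h1) (h1M : h1 ≤ M) (hg : (g + h1) % M = c) :
    Lc M g c x = (x + M - h1) / M := by
  classical
  have e2 := prefix_card M g c x h1 hM h11 h1M hg (fun _ => True)
  have e3 : ((range ((x + M - h1) / M)).filter (fun _ => True)).card = (x + M - h1) / M := by
    rw [Finset.filter_true_of_mem (fun _ _ => trivial), card_range]
  unfold Lc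
  rw [← e3]
  refine Eq.trans (card_iff _ _ (fun r _ => ?_)) (e2.trans (card_iff _ _ (fun r _ => Iff.rfl)))
  simp

open Classical in
lemma prefix_sifted (Q : ℕ → ℕ → Prop) (k : ℕ) (hQ : PerB Q k) (M g c x w m : ℕ) (hc : c < M)
    (hM : ∀ p, p ∣ M → ∀ n, ¬ Q p n) :
    |((((Icc 1 x).filter (fun h => (g + h) % M = c ∧ Sf Q w (m + h))).card : ℕ) : ℝ) -
      Lc M g c x * Vq Q w| ≤ Mw w := by
  obtain ⟨h1, h11, h1M, hg⟩ := exists_first M g c hc
  have hM1 : 1 ≤ M := by omega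
  have e1 := prefix_card M g c x h1 hM1 h11 h1M hg (fun h => Sf Q w (m + h))
  have e3 := Lc_eq M g c x h1 hM1 h11 h1M hg
  have h := range_count (Aff Q (m + h1) M) k (perB_Aff Q k hQ _ M hM) w ((x + M - h1) / M)
  rw [Vq_Aff Q k hQ _ M hM] at h
  rw [e1, e3]
  have e4 : ((range ((x + M - h1) / M)).filter (fun v => Sf Q w (m + (h1 + M * v)))).card =
      ((range ((x + M - h1) / M)).filter (fun v => Sf (Aff Q (m + h1) M) w v)).card := by
    apply card_iff
    intro v _
    unfold Sf Aff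
    rw [add_assoc]
  rw [e4]
  exact h

lemma Lc_bounds (M g c : ℕ) (hc : c < M) : ∃ h1 : ℕ, 1 ≤ h1 ∧ h1 ≤ M ∧ ∀ x : ℕ,
    ((x : ℝ) - h1) / M ≤ Lc M g c x ∧ (Lc M g c x : ℝ) ≤ ((x : ℝ) - h1) / M + 1 := by
  classical
  obtain ⟨h1, h11, h1M, hg⟩ := exists_first M g c hc
  have hM1 : 1 ≤ M := by omega
  have hMr : (0 : ℝ) < M := by exact_mod_cast hM1
  refine ⟨h1, h11, h1M, fun x => ?_⟩
  have e3 := Lc_eq M g c x h1 hM1 h11 h1M hg
  rw [e3]
  have hcast : ((x + M - h1 : ℕ) : ℝ) = (x : ℝ) + M - h1 := by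
    rw [Nat.cast_sub (by omega)]
    push_cast
    ring
  constructor
  · have h2 : (((x + M - h1 : ℕ) : ℝ)) / M < (((x + M - h1) / M : ℕ) : ℝ) + 1 := by
      rw [div_lt_iff₀ hMr]
      have := Nat.lt_div_mul_add (a := x + M - h1) hM1
      have h3 : x + M - h1 < ((x + M - h1) / M + 1) * M := by
        rw [add_mul, one_mul]
        exact this
      exact_mod_cast h3
    rw [hcast] at h2
    have h4 : ((x : ℝ) + M - h1) / M = ((x : ℝ) - h1) / M + 1 := by
      field_simp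
      ring
    linarith
  · have h2 : (((x + M - h1) / M : ℕ) : ℝ) ≤ ((x + M - h1 : ℕ) : ℝ) / M := Nat.cast_div_le
    rw [hcast] at h2
    have h4 : ((x : ℝ) + M - h1) / M = ((x : ℝ) - h1) / M + 1 := by
      field_simp
      ring
    linarith

open Classical in
/-- splitting according to the class -/
lemma wcl_split (M T g : ℕ) (C : Finset ℕ) (lo hi : ℕ → ℕ) (h1 : ∀ c ∈ C, lo c ≤ hi c)
    (h2 : ∀ c ∈ C, hi c ≤ T) (P : ℕ → Prop) :
    ((((Wcl M T g C lo hi).filter P).card : ℕ) : ℝ) = ∑ c ∈ C,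
      (((((Icc 1 (hi c)).filter (fun h => (g + h) % M = c ∧ P h)).card : ℕ) : ℝ) -
        ((((Icc 1 (lo c)).filter (fun h => (g + h) % M = c ∧ P h)).card : ℕ) : ℝ)) := by
  have e1 : ((Wcl M T g C lo hi).filter P).card = ∑ c ∈ C,
      (((Wcl M T g C lo hi).filter P).filter (fun h => (g + h) % M = c)).card := by
    apply Finset.card_eq_sum_card_fiberwise
    intro h hh
    rw [mem_coe, mem_filter] at hh
    unfold Wcl at hh
    rw [mem_filter] at hh
    exact hh.1.2.1
  rw [e1]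
  push_cast
  apply Finset.sum_congr rfl
  intro c hc
  have e2 : ((Wcl M T g C lo hi).filter P).filter (fun h => (g + h) % M = c) =
      (Icc 1 (hi c)).filter (fun h => (g + h) % M = c ∧ P h) \
        (Icc 1 (lo c)).filter (fun h => (g + h) % M = c ∧ P h) := by
    ext h
    rw [mem_filter, mem_filter, Finset.mem_sdiff, mem_filter, mem_filter]
    unfold Wcl
    rw [mem_filter, mem_Icc, mem_Icc, mem_Icc]
    constructor
    · rintro ⟨⟨⟨a1, a2, a3, a4⟩, a5⟩, a6⟩
      rw [a6] at a2 a3 a4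
      refine ⟨⟨⟨a1.1, a4⟩, a6, a5⟩, ?_⟩
      rintro ⟨b1, _⟩
      omega
    · rintro ⟨⟨a1, a2, a3⟩, a4⟩
      have h3 := h2 c hc
      have hlt : lo c < h := by
        by_contra hlt
        exact a4 ⟨⟨a1.1, by omega⟩, a2, a3⟩
      refine ⟨⟨⟨⟨a1.1, by omega⟩, ?_⟩, a3⟩, a2⟩
      rw [a2]
      exact ⟨hc, hlt, a1.2⟩
  have hsub : (Icc 1 (lo c)).filter (fun h => (g + h) % M = c ∧ P h) ⊆
      (Icc 1 (hi c)).filter (fun h => (g + h) % M = c ∧ P h) := by
    apply Finset.filter_subset_filter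
    exact Finset.Icc_subset_Icc_right (h1 c hc)
  rw [e2, Finset.card_sdiff_of_subset hsub, Nat.cast_sub (card_le_card hsub)]

open Classical in
lemma wcl_card (M T g : ℕ) (C : Finset ℕ) (lo hi : ℕ → ℕ) (h1 : ∀ c ∈ C, lo c ≤ hi c)
    (h2 : ∀ c ∈ C, hi c ≤ T) :
    ((Wcl M T g C lo hi).card : ℝ) = ∑ c ∈ C, ((Lc M g c (hi c) : ℝ) - Lc M g c (lo c)) := by
  have h := wcl_split M T g C lo hi h1 h2 (fun _ => True)
  rw [Finset.filter_true] at h
  rw [h]
  apply Finset.sum_congr rfl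
  intro c _
  unfold Lc
  simp

/-- the equidistribution of the class windows -/
lemma wcl_equi (Q : ℕ → ℕ → Prop) (k : ℕ) (hQ : PerB Q k) (M T g : ℕ) (C : Finset ℕ)
    (hC : C ⊆ range M) (lo hi : ℕ → ℕ) (h1 : ∀ c ∈ C, lo c ≤ hi c) (h2 : ∀ c ∈ C, hi c ≤ T)
    (hM : ∀ p, p ∣ M → ∀ n, ¬ Q p n) (w m : ℕ) :
    |(Nn Q w (Wcl M T g C lo hi) m : ℝ) - (Wcl M T g C lo hi).card * Vq Q w| ≤
      ((2 * M : ℕ) : ℝ) * Mw w := by
  classical
  unfold Nn
  rw [wcl_split M T g C lo hi h1 h2, wcl_card M T g C lo hi h1 h2, Finset.sum_mul,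
    ← Finset.sum_sub_distrib]
  refine (Finset.abs_sum_le_sum_abs _ _).trans ?_
  have h3 : ∀ c ∈ C, |(((((Icc 1 (hi c)).filter (fun h => (g + h) % M = c ∧ Sf Q w (m + h))).card : ℕ) : ℝ) -
        ((((Icc 1 (lo c)).filter (fun h => (g + h) % M = c ∧ Sf Q w (m + h))).card : ℕ) : ℝ)) -
        ((Lc M g c (hi c) : ℝ) - Lc M g c (lo c)) * Vq Q w| ≤ 2 * Mw w := by
    intro c hc
    have hcM : c < M := mem_range.1 (hC hc)
    have a1 := abs_le.1 (prefix_sifted Q k hQ M g c (hi c) w m hcM hM)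
    have a2 := abs_le.1 (prefix_sifted Q k hQ M g c (lo c) w m hcM hM)
    rw [abs_le]
    constructor <;> linarith [a1.1, a1.2, a2.1, a2.2]
  refine (Finset.sum_le_sum h3).trans ?_
  rw [Finset.sum_const, nsmul_eq_mul]
  have h4 : (C.card : ℝ) ≤ M := by
    have := card_le_card hC
    rw [card_range] at this
    exact_mod_cast this
  have h5 : (0 : ℝ) ≤ Mw w := Nat.cast_nonneg _
  push_cast
  nlinarith

/-- the size of the class windows -/
lemma wcl_size (M T g : ℕ) (C : Finset ℕ) (hC : C ⊆ range M) (lo hi : ℕ → ℕ)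
    (h1 : ∀ c ∈ C, lo c ≤ hi c) (h2 : ∀ c ∈ C, hi c ≤ T) :
    |((Wcl M T g C lo hi).card : ℝ) - ∑ c ∈ C, ((hi c : ℝ) - lo c) / M| ≤ C.card := by
  rw [wcl_card M T g C lo hi h1 h2, ← Finset.sum_sub_distrib]
  refine (Finset.abs_sum_le_sum_abs _ _).trans ?_
  have h3 : ∀ c ∈ C, |((Lc M g c (hi c) : ℝ) - Lc M g c (lo c)) - ((hi c : ℝ) - lo c) / M| ≤ 1 := by
    intro c hc
    obtain ⟨h, _, _, hb⟩ := Lc_bounds M g c (mem_range.1 (hC hc))
    obtain ⟨a1, a2⟩ := hb (hi c)
    obtain ⟨a3, a4⟩ := hb (lo c)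
    have e : ((hi c : ℝ) - lo c) / M = ((hi c : ℝ) - h) / M - ((lo c : ℝ) - h) / M := by ring
    rw [e, abs_le]
    constructor <;> linarith
  refine (Finset.sum_le_sum h3).trans ?_
  rw [Finset.sum_const, nsmul_eq_mul, mul_one]

end Pool.Agent.X262.LOS
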