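import Mathlib

set_option autoImplicit false

/-!
# Consecutive elements of a set and their residue classes: the combinatorial part
-/

namespace Pool.Agent.X262.LOS

open Finset

/-- the next element after `n` is in the class `b` -/
def Nx (G : ℕ → Prop) (M b n : ℕ) : Prop :=
  ∃ n', n < n' ∧ G n' ∧ n' % M = b ∧ ∀ m, n < m → m < n' → ¬ G m

/-- no element `x + h` with `lo c < h ≤ hi c`, where `c` is the class of `x + h` -/
def Vo (G : ℕ → Prop) (M T : ℕ) (lo hi : ℕ → ℕ) (x : ℕ) : Prop :=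
  ∀ h ∈ Icc 1 T, G (x + h) → lo ((x + h) % M) < h → ¬ h ≤ hi ((x + h) % M)

/-- lower ends -/
def lo_ (a t : ℕ) (u : Bool) (c : ℕ) : ℕ := if u = true ∧ c = a then t else 0

/-- upper ends -/
def hi_ (b t j : ℕ) (v : Bool) (c : ℕ) : ℕ := if v = false ∧ c = b then (j + 1) * t else (j + 2) * t

/-- the event -/
def Ev (G : ℕ → Prop) (M T a b t j x : ℕ) : Prop :=
  Vo G M T (lo_ a t true) (hi_ b t j false) x ∧ ¬ Vo G M T (lo_ a t false) (hi_ b t j false) x ∧
    ¬ Vo G M T (lo_ a t true) (hi_ b t j true) x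

lemma ev_props (G : ℕ → Prop) (M T a b t j x : ℕ) (hT : (j + 2) * t ≤ T)
    (h : Ev G M T a b t j x) :
    (∃ h, 1 ≤ h ∧ h ≤ t ∧ G (x + h)) ∧ (∀ h, 1 ≤ h → h ≤ t → G (x + h) → (x + h) % M = a) ∧
    (∃ h, (j + 1) * t < h ∧ h ≤ (j + 2) * t ∧ G (x + h)) ∧
    (∀ h, t < h → h ≤ (j + 1) * t → ¬ G (x + h)) ∧
    (∀ h, (j + 1) * t < h → h ≤ (j + 2) * t → G (x + h) → (x + h) % M = b) := by
  obtain ⟨h1, h2, h3⟩ := h
  have e1 : (j + 2) * t = (j + 1) * t + t := by ring
  have e2 : (j + 1) * t = j * t + t := by ring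
  have hlo : ∀ c, lo_ a t true c ≤ t := fun c => by unfold lo_; split_ifs <;> omega
  have hhi : ∀ v c, (j + 1) * t ≤ hi_ b t j v c ∧ hi_ b t j v c ≤ (j + 2) * t := fun v c => by
    unfold hi_
    split_ifs <;> omega
  refine ⟨?_, ?_, ?_, ?_, ?_⟩
  · unfold Vo at h2
    push Not at h2
    obtain ⟨h, hh, hG, hl, hu⟩ := h2
    have h4 := h1 h hh hG
    rw [mem_Icc] at hh
    refine ⟨h, hh.1, ?_, hG⟩
    by_contra hlt
    exact h4 (lt_of_le_of_lt (hlo _) (by omega)) hu
  · intro h a1 a2 hG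
    by_contra hne
    refine h1 h (mem_Icc.2 ⟨a1, by omega⟩) hG ?_ ?_
    · unfold lo_
      rw [if_neg (fun h => hne h.2)]
      omega
    · exact le_trans (by omega) (hhi false _).1
  · unfold Vo at h3
    push Not at h3
    obtain ⟨h, hh, hG, hl, hu⟩ := h3
    have h4 := h1 h hh hG hl
    refine ⟨h, ?_, hu.trans (hhi true _).2, hG⟩
    have := (hhi false ((x + h) % M)).1
    omega
  · intro h a1 a2 hG
    exact h1 h (mem_Icc.2 ⟨by omega, by omega⟩) hG (lt_of_le_of_lt (hlo _) a1)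
      (a2.trans (hhi false _).1)
  · intro h a1 a2 hG
    by_contra hne
    refine h1 h (mem_Icc.2 ⟨by omega, by omega⟩) hG (lt_of_le_of_lt (hlo _) (by omega)) ?_
    unfold hi_
    rw [if_neg (fun h => hne h.2)]
    exact a2

lemma ev_disj (G : ℕ → Prop) (M T a b t i j x : ℕ) (hi : (i + 2) * t ≤ T) (hj : (j + 2) * t ≤ T)
    (h1 : Ev G M T a b t i x) (h2 : Ev G M T a b t j x) : i = j := by
  have key : ∀ i j, (i + 2) * t ≤ T → (j + 2) * t ≤ T → Ev G M T a b t i x → Ev G M T a b t j x →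
      ¬ i < j := by
    intro i j hi hj h1 h2 hij
    obtain ⟨_, _, ⟨h, a1, a2, a3⟩, _, _⟩ := ev_props G M T a b t i x hi h1
    obtain ⟨_, _, _, b1, _⟩ := ev_props G M T a b t j x hj h2
    have e1 : t ≤ (i + 1) * t := Nat.le_mul_of_pos_left t (by omega)
    have e2 : (i + 2) * t ≤ (j + 1) * t := Nat.mul_le_mul_right t (by omega)
    exact b1 h (by omega) (by omega) a3
  have a1 := key i j hi hj h1 h2
  have a2 := key j i hj hi h2 h1
  omega

/-- the event gives a pair of consecutive elements in the right classes -/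
lemma ev_pair (G : ℕ → Prop) (M T a b t j x : ℕ) (hT : (j + 2) * t ≤ T)
    (h : Ev G M T a b t j x) : ∃ n, x < n ∧ n ≤ x + t ∧ G n ∧ n % M = a ∧ Nx G M b n := by
  classical
  obtain ⟨⟨h1, a1, a2, a3⟩, b1, ⟨h2, c1, c2, c3⟩, d1, e1⟩ := ev_props G M T a b t j x hT h
  have f1 : (j + 1) * t = j * t + t := by ring
  obtain ⟨s, hs⟩ : ∃ s, s = (Icc 1 t).filter (fun h => G (x + h)) := ⟨_, rfl⟩
  have hne : s.Nonempty := ⟨h1, by rw [hs, mem_filter, mem_Icc]; exact ⟨⟨a1, a2⟩, a3⟩⟩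
  obtain ⟨h, hh, hmax⟩ := Finset.exists_max_image s id hne
  rw [hs, mem_filter, mem_Icc] at hh
  have hex : ∃ m, t < m ∧ G (x + m) := ⟨h2, by omega, c3⟩
  obtain ⟨m, hm⟩ : ∃ m, m = Nat.find hex := ⟨_, rfl⟩
  have hm1 : t < m ∧ G (x + m) := by rw [hm]; exact Nat.find_spec hex
  have hm2 : ∀ i, i < m → ¬ (t < i ∧ G (x + i)) := by
    intro i hi
    rw [hm] at hi
    exact Nat.find_min hex hi
  have hm3 : m ≤ h2 := by rw [hm]; exact Nat.find_min' hex ⟨by omega, c3⟩
  have hm4 : (j + 1) * t < m := by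
    by_contra hlt
    exact d1 m hm1.1 (by omega) hm1.2
  refine ⟨x + h, by omega, by omega, hh.2, b1 h hh.1.1 hh.1.2 hh.2, x + m, by omega, hm1.2,
    e1 m hm4 (by omega) hm1.2, ?_⟩
  intro i hi1 hi2 hG
  obtain ⟨k, rfl⟩ : ∃ k, i = x + k := ⟨i - x, by omega⟩
  by_cases hk : k ≤ t
  · have h3 := hmax k (by rw [hs, mem_filter, mem_Icc]; exact ⟨⟨by omega, hk⟩, hG⟩)
    simp only [id] at h3
    omega
  · exact hm2 k (by omega) ⟨by omega, hG⟩

open Classical in
/-- the number of the base points of the events -/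
lemma ev_count (G : ℕ → Prop) (M T a b t K Z Y : ℕ) (hT : ∀ j < K, (j + 2) * t ≤ T) :
    ((Ioc Z (Z + Y)).filter (fun x => ∃ j < K, Ev G M T a b t j x)).card ≤
      t * (((Ioc Z (Z + Y)).filter (fun n => (G n ∧ n % M = a) ∧ Nx G M b n)).card + t) := by
  obtain ⟨S, hS⟩ : ∃ S, S = (Ioc Z (Z + Y)).filter (fun x => ∃ j < K, Ev G M T a b t j x) := ⟨_, rfl⟩
  have hex : ∀ x ∈ S, ∃ n, x < n ∧ n ≤ x + t ∧ G n ∧ n % M = a ∧ Nx G M b n := by
    intro x hx
    rw [hS, mem_filter] at hx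
    obtain ⟨_, j, hj, he⟩ := hx
    exact ev_pair G M T a b t j x (hT j hj) he
  choose! f hf using hex
  obtain ⟨R, hR⟩ : ∃ R, R = (Ioc Z (Z + Y + t)).filter (fun n => (G n ∧ n % M = a) ∧ Nx G M b n) :=
    ⟨_, rfl⟩
  have hmaps : ∀ x ∈ S, f x ∈ R := by
    intro x hx
    obtain ⟨h1, h2, h3, h4, h5⟩ := hf x hx
    rw [hS, mem_filter, mem_Ioc] at hx
    rw [hR, mem_filter, mem_Ioc]
    exact ⟨⟨by omega, by omega⟩, ⟨h3, h4⟩, h5⟩
  have h1 := Finset.card_le_mul_card_image_of_maps_to hmaps t (by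
    intro n _
    have : S.filter (fun x => f x = n) ⊆ Ico (n - t) n := by
      intro x hx
      rw [mem_filter] at hx
      obtain ⟨h1, h2, _⟩ := hf x hx.1
      rw [hx.2] at h1 h2
      rw [mem_Ico]
      omega
    refine (card_le_card this).trans ?_
    rw [Nat.card_Ico]
    omega)
  rw [← hS]
  refine h1.trans (Nat.mul_le_mul_left _ ?_)
  rw [hR]
  have h2 : (Ioc Z (Z + Y + t)).filter (fun n => (G n ∧ n % M = a) ∧ Nx G M b n) ⊆
      (Ioc Z (Z + Y)).filter (fun n => (G n ∧ n % M = a) ∧ Nx G M b n) ∪ Ioc (Z + Y) (Z + Y + t) := by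
    intro n hn
    rw [mem_filter, mem_Ioc] at hn
    rw [mem_union, mem_filter, mem_Ioc, mem_Ioc]
    by_cases h : n ≤ Z + Y
    · exact Or.inl ⟨⟨hn.1.1, h⟩, hn.2⟩
    · exact Or.inr ⟨by omega, hn.1.2⟩
  refine (card_le_card h2).trans ((card_union_le _ _).trans ?_)
  rw [Nat.card_Ioc]
  omega

open Classical in
/-- splitting the base points according to the class and to the cell -/
lemma ev_lower (G : ℕ → Prop) (M T a b t K Z Y Y' : ℕ)
    (hT : ∀ j < K, (j + 2) * t ≤ T) (hY : M * (Y' + 1) ≤ Y) :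
    ∑ i ∈ Icc 1 M, ∑ j ∈ range K, ((Icc 1 Y').filter (fun m => Ev G M T a b t j (Z + i + M * m))).card ≤
      ((Ioc Z (Z + Y)).filter (fun x => ∃ j < K, Ev G M T a b t j x)).card := by
  have h1 : ∀ i ∈ Icc 1 M, ∑ j ∈ range K,
      ((Icc 1 Y').filter (fun m => Ev G M T a b t j (Z + i + M * m))).card =
      ((Icc 1 Y').filter (fun m => ∃ j < K, Ev G M T a b t j (Z + i + M * m))).card := by
    intro i _
    rw [← Finset.card_biUnion]
    · congr 1
      ext m
      rw [mem_biUnion, mem_filter]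
      constructor
      · rintro ⟨j, hj, hm⟩
        rw [mem_filter] at hm
        exact ⟨hm.1, j, mem_range.1 hj, hm.2⟩
      · rintro ⟨hm, j, hj, he⟩
        exact ⟨j, mem_range.2 hj, mem_filter.2 ⟨hm, he⟩⟩
    · intro j hj j' hj' hne
      rw [Function.onFun, Finset.disjoint_left]
      intro m hm hm'
      rw [mem_filter] at hm hm'
      exact hne (ev_disj G M T a b t j j' _ (hT j (mem_range.1 hj)) (hT j' (mem_range.1 hj')) hm.2 hm'.2)
  rw [Finset.sum_congr rfl h1]
  have h2 : ∑ i ∈ Icc 1 M, ((Icc 1 Y').filter (fun m => ∃ j < K, Ev G M T a b t j (Z + i + M * m))).card =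
      (((Icc 1 M) ×ˢ (Icc 1 Y')).filter
        (fun z => ∃ j < K, Ev G M T a b t j (Z + z.1 + M * z.2))).card := by
    rw [Finset.card_filter, Finset.sum_product]
    apply Finset.sum_congr rfl
    intro i _
    rw [Finset.card_filter]
  rw [h2]
  apply Finset.card_le_card_of_injOn (fun z => Z + z.1 + M * z.2)
  · intro z hz
    rw [mem_coe, mem_filter, mem_product, mem_Icc, mem_Icc] at hz
    rw [mem_coe, mem_filter, mem_Ioc]
    beta_reduce
    refine ⟨⟨by omega, ?_⟩, hz.2⟩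
    have h3 : M * z.2 ≤ M * Y' := Nat.mul_le_mul_left M hz.1.2.2
    have h4 : M * (Y' + 1) = M * Y' + M := by ring
    omega
  · intro z hz z' hz' he
    rw [mem_coe, mem_filter, mem_product, mem_Icc, mem_Icc] at hz hz'
    simp only at he
    have h3 : z.1 + M * z.2 = z'.1 + M * z'.2 := by omega
    have h4 : z.2 = z'.2 := by
      rcases Nat.lt_trichotomy z.2 z'.2 with h | h | h
      · have h5 : M * (z.2 + 1) ≤ M * z'.2 := Nat.mul_le_mul_left M h
        have h6 : M * (z.2 + 1) = M * z.2 + M := by ring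
        omega
      · exact h
      · have h5 : M * (z'.2 + 1) ≤ M * z.2 := Nat.mul_le_mul_left M h
        have h6 : M * (z'.2 + 1) = M * z'.2 + M := by ring
        omega
    ext
    · rw [h4] at h3
      omega
    · exact h4

lemma vo_mono (G : ℕ → Prop) (M T : ℕ) (lo lo' hi hi' : ℕ → ℕ) (x : ℕ) (h1 : ∀ c, lo c ≤ lo' c)
    (h2 : ∀ c, hi' c ≤ hi c) (h : Vo G M T lo hi x) : Vo G M T lo' hi' x := by
  intro s hs hG hl hu
  exact h s hs hG (lt_of_le_of_lt (h1 _) hl) (hu.trans (h2 _))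

lemma lo_mono (a t c : ℕ) : lo_ a t false c ≤ lo_ a t true c := by
  unfold lo_
  simp

lemma hi_mono (b t j c : ℕ) : hi_ b t j false c ≤ hi_ b t j true c := by
  unfold hi_
  have : (j + 1) * t ≤ (j + 2) * t := Nat.mul_le_mul_right t (by omega)
  split_ifs <;> simp_all

lemma vo_inter (G : ℕ → Prop) (M T a b t j x : ℕ) :
    Vo G M T (lo_ a t false) (hi_ b t j true) x ↔
      Vo G M T (lo_ a t false) (hi_ b t j false) x ∧ Vo G M T (lo_ a t true) (hi_ b t j true) x := by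
  constructor
  · intro h
    exact ⟨vo_mono G M T _ _ _ _ x (fun c => le_rfl) (hi_mono b t j) h,
      vo_mono G M T _ _ _ _ x (lo_mono a t) (fun c => le_rfl) h⟩
  · rintro ⟨h1, h2⟩ s hs hG hl hu
    by_cases h3 : s ≤ hi_ b t j false ((x + s) % M)
    · exact h1 s hs hG hl h3
    · refine h2 s hs hG ?_ hu
      rw [not_le] at h3
      refine lt_of_le_of_lt ?_ h3
      unfold lo_ hi_
      have e1 : t ≤ (j + 1) * t := Nat.le_mul_of_pos_left t (by omega)
      have e2 : t ≤ (j + 2) * t := Nat.le_mul_of_pos_left t (by omega)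
      split_ifs <;> omega

open Classical in
/-- inclusion and exclusion for one cell -/
lemma ev_card (G : ℕ → Prop) (M T a b t j g Y' : ℕ) :
    (((Icc 1 Y').filter (fun m => Ev G M T a b t j (g + M * m))).card : ℝ) =
      (((Icc 1 Y').filter (fun m => Vo G M T (lo_ a t true) (hi_ b t j false) (g + M * m))).card : ℝ) -
      (((Icc 1 Y').filter (fun m => Vo G M T (lo_ a t false) (hi_ b t j false) (g + M * m))).card : ℝ) -
      (((Icc 1 Y').filter (fun m => Vo G M T (lo_ a t true) (hi_ b t j true) (g + M * m))).card : ℝ) +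
      (((Icc 1 Y').filter (fun m => Vo G M T (lo_ a t false) (hi_ b t j true) (g + M * m))).card : ℝ) := by
  rw [Finset.card_filter, Finset.card_filter, Finset.card_filter, Finset.card_filter,
    Finset.card_filter]
  push_cast
  rw [← Finset.sum_sub_distrib, ← Finset.sum_sub_distrib, ← Finset.sum_add_distrib]
  apply Finset.sum_congr rfl
  intro m _
  obtain ⟨x, hx⟩ : ∃ x, x = g + M * m := ⟨_, rfl⟩
  rw [← hx]
  have h1 := vo_inter G M T a b t j x
  have h2 : Vo G M T (lo_ a t false) (hi_ b t j false) x → Vo G M T (lo_ a t true) (hi_ b t j false) x :=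
    vo_mono G M T _ _ _ _ x (lo_mono a t) (fun c => le_rfl)
  have h3 : Vo G M T (lo_ a t true) (hi_ b t j true) x → Vo G M T (lo_ a t true) (hi_ b t j false) x :=
    vo_mono G M T _ _ _ _ x (fun c => le_rfl) (hi_mono b t j)
  unfold Ev
  by_cases p1 : Vo G M T (lo_ a t true) (hi_ b t j false) x
  · by_cases p2 : Vo G M T (lo_ a t false) (hi_ b t j false) x
    · by_cases p3 : Vo G M T (lo_ a t true) (hi_ b t j true) x
      · rw [if_neg (fun h => h.2.1 p2), if_pos p1, if_pos p2, if_pos p3, if_pos (h1.2 ⟨p2, p3⟩)]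
        norm_num
      · rw [if_neg (fun h => h.2.1 p2), if_pos p1, if_pos p2, if_neg p3, if_neg (fun h => p3 (h1.1 h).2)]
        norm_num
    · by_cases p3 : Vo G M T (lo_ a t true) (hi_ b t j true) x
      · rw [if_neg (fun h => h.2.2 p3), if_pos p1, if_neg p2, if_pos p3, if_neg (fun h => p2 (h1.1 h).1)]
        norm_num
      · rw [if_pos ⟨p1, p2, p3⟩, if_pos p1, if_neg p2, if_neg p3, if_neg (fun h => p2 (h1.1 h).1)]
        norm_num
  · have p2 : ¬ Vo G M T (lo_ a t false) (hi_ b t j false) x := fun h => p1 (h2 h)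
    have p3 : ¬ Vo G M T (lo_ a t true) (hi_ b t j true) x := fun h => p1 (h3 h)
    rw [if_neg (fun h => p1 h.1), if_neg p1, if_neg p2, if_neg p3, if_neg (fun h => p2 (h1.1 h).1)]
    norm_num

end Pool.Agent.X262.LOS
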