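import Pool.Agent.X262.LOS.Win

set_option autoImplicit false

/-!
# The Poisson law for the number of the sifted integers in a window with gaps
-/

namespace Pool.Agent.X262.LOS

open Finset Filter Pool.Agent.H373R2.T7 Pool.Agent.W123.RP Pool.Agent.W123.RU
open Pool.Agent.TH464.PO Pool.Agent.Y879.AP

/-- the condition along the progression `g + M m` -/
def Aff (R : ℕ → ℕ → Prop) (g M p m : ℕ) : Prop := R p (g + M * m)

lemma aff_Q0 (R : ℕ → ℕ → Prop) (g M : ℕ) (hM : ∀ p, p ∣ M → ∀ n, ¬ R p n) (p m : ℕ) :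
    Aff R g M p m ↔ Q0 (Qt R g) M p m := by
  unfold Aff Q0 Qt
  rw [add_comm g]
  constructor
  · intro h
    exact ⟨fun hp => hM p hp _ h, h⟩
  · exact fun h => h.2

lemma aff_nuB (R : ℕ → ℕ → Prop) (c : ℕ) (hR : PerB R c) (g M : ℕ)
    (hM : ∀ p, p ∣ M → ∀ n, ¬ R p n) (p : ℕ) (hp : p.Prime) : nuB (Aff R g M) p = nuB R p := by
  classical
  have h1 : nuB (Aff R g M) p = nuB (Q0 (Qt R g) M) p := by
    unfold nuB
    exact card_iff _ _ (fun r _ => aff_Q0 R g M hM p r)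
  rw [h1]
  by_cases h : p ∣ M
  · rw [nuB_Q0_dvd _ _ _ h]
    unfold nuB
    symm
    rw [Finset.card_eq_zero, Finset.filter_eq_empty_iff]
    intro r _
    exact hM p h r
  · rw [nuB_Q0_not _ (perB_Qt _ _ hR g).per _ _ hp h, nuB_Qt _ c hR]

lemma perB_Aff (R : ℕ → ℕ → Prop) (c : ℕ) (hR : PerB R c) (g M : ℕ)
    (hM : ∀ p, p ∣ M → ∀ n, ¬ R p n) : PerB (Aff R g M) c := by
  refine ⟨fun p n => ?_, fun p hp => ?_⟩
  · unfold Aff
    rw [hR.per p (g + M * n), hR.per p (g + M * (n % p))]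
    rw [Nat.add_mod, Nat.mul_mod, Nat.add_mod g (M * (n % p)), Nat.mul_mod M (n % p), Nat.mod_mod]
  · rw [aff_nuB R c hR g M hM p hp]
    exact hR.few p hp

lemma Vq_Aff (R : ℕ → ℕ → Prop) (c : ℕ) (hR : PerB R c) (g M : ℕ)
    (hM : ∀ p, p ∣ M → ∀ n, ¬ R p n) (y : ℕ) : Vq (Aff R g M) y = Vq R y := by
  unfold Vq
  exact Finset.prod_congr rfl fun p hp => by rw [aff_nuB R c hR g M hM p (mem_pz.1 hp).2]

open Classical in
/-- binomial moments as sums over sets of shifts -/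
lemma moment_eqW (Q : ℕ → ℕ → Prop) (y k g M Y : ℕ) (W : Finset ℕ) :
    ∑ m ∈ Icc 1 Y, ((Nn Q y W (g + M * m)).choose k : ℝ) =
      ∑ H ∈ powersetCard k W, (((Icc 1 Y).filter (fun m => Sf (Aff (QH Q H) g M) y m)).card : ℝ) := by
  have h1 : ∀ H ∈ powersetCard k W,
      (((Icc 1 Y).filter (fun m => Sf (Aff (QH Q H) g M) y m)).card : ℝ) =
      ∑ m ∈ Icc 1 Y, if (∀ h ∈ H, Sf Q y (g + M * m + h)) then (1 : ℝ) else 0 := by
    intro H _
    rw [Finset.sum_ite, Finset.sum_const_zero, add_zero, Finset.sum_const, nsmul_eq_mul, mul_one]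
    congr 2
    apply Finset.filter_congr
    intro m _
    exact sf_QH Q H y (g + M * m)
  rw [Finset.sum_congr rfl h1, Finset.sum_comm]
  apply Finset.sum_congr rfl
  intro m _
  rw [Finset.sum_ite, Finset.sum_const_zero, add_zero, Finset.sum_const, nsmul_eq_mul, mul_one]
  unfold Nn
  rw [← Finset.card_powersetCard]
  congr 2
  ext H
  rw [mem_filter, mem_powersetCard, mem_powersetCard]
  constructor
  · rintro ⟨a1, a2⟩
    exact ⟨⟨fun h hh => (mem_filter.1 (a1 hh)).1, a2⟩, fun h hh => (mem_filter.1 (a1 hh)).2⟩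
  · rintro ⟨⟨a1, a2⟩, a3⟩
    exact ⟨fun h hh => mem_filter.2 ⟨a1 hh, a3 h hh⟩, a2⟩

/-- the conditions on the window and the system -/
structure Ok (c M0 w0 M T : ℕ) (d : ℝ) (W : Finset ℕ) (Q : ℕ → ℕ → Prop) (Ex : ℕ → Prop) : Prop where
  sub : W ⊆ Icc 1 T
  dens : d * T ≤ W.card
  per : PerB Q c
  adm : ∀ p : ℕ, p.Prime → nuB Q p < p
  noM : ∀ p, p ∣ M → ∀ n, ¬ Q p n
  equi : ∀ w m : ℕ, |(Nn Q w W m : ℝ) - W.card * Vq Q w| ≤ M0 * Mw w
  exc : ∀ a ∈ W, ∀ b ∈ W, a < b → Ex (b - a) → ∃ p ∈ pz w0, ∀ r, Q p (r + a) ∨ Q p (r + b)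

open Classical in
/-- **Binomial moments.** -/
theorem momentW (c k M0 w0 : ℕ) (hc : 1 ≤ c) (η d : ℝ) (hη : 0 < η) (hη1 : η ≤ 1) (hd : 0 < d) :
    ∃ (K0 y0 T0 : ℕ) (η' : ℝ), 0 < η' ∧ ∀ Y y T : ℕ, y0 ≤ y → y ^ K0 ≤ Y → T0 ≤ T →
      ∀ (M g : ℕ) (W : Finset ℕ) (Q : ℕ → ℕ → Prop) (Ex : ℕ → Prop), Ok c M0 w0 M T d W Q Ex →
      (∀ t ∈ Icc 1 T, ¬ Ex t →
        ((((pz y).filter (fun p : ℕ => T < p ∧ CoG Q p t)).card : ℕ) : ℝ) ≤ η' * T) →
      |∑ m ∈ Icc 1 Y, ((Nn Q y W (g + M * m)).choose (k + 1) : ℝ) -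
        Y * ((W.card * Vq Q y) ^ (k + 1) / (k + 1).factorial)| ≤
        η * Y * ((W.card * Vq Q y) ^ (k + 1) / (k + 1).factorial) + T ^ (k + 1) * √(Y : ℝ) := by
  obtain ⟨K0, x0, hK0, hfund⟩ := sys_fund ((k + 1) * c) (Nat.mul_pos (by omega) hc) (η / 4)
    (by positivity)
  obtain ⟨w, η', T0, hη', hsing⟩ := sing_avgW c k M0 w0 (η / 4) d (by positivity) (by linarith) hd
  refine ⟨K0, max x0 w, T0, η', hη', ?_⟩
  intro Y y T hy hyY hT M g W Q Ex hok hlarge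
  obtain ⟨s1, s2⟩ := hsing T hT W hok.sub hok.dens Q hok.per hok.adm hok.equi Ex hok.exc y
    ((le_max_right _ _).trans hy) hlarge
  rw [moment_eqW]
  obtain ⟨S, hS⟩ : ∃ S, S = ∑ H ∈ powersetCard (k + 1) W, Vq (QH Q H) y := ⟨_, rfl⟩
  obtain ⟨Z, hZ⟩ : ∃ Z : ℝ, Z = (W.card * Vq Q y) ^ (k + 1) / (k + 1).factorial := ⟨_, rfl⟩
  rw [← hS, ← hZ] at s1 s2
  rw [← hZ]
  have hV0 := Vq_nonneg Q y
  have hZ0 : 0 ≤ Z := by rw [hZ]; positivity
  have hY0 : (0 : ℝ) ≤ Y := Nat.cast_nonneg Y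
  have h1 : |∑ H ∈ powersetCard (k + 1) W,
      (((Icc 1 Y).filter (fun m => Sf (Aff (QH Q H) g M) y m)).card : ℝ) - Y * S| ≤
      η / 4 * (Y * S) + T ^ (k + 1) * √(Y : ℝ) := by
    have e : Y * S = ∑ H ∈ powersetCard (k + 1) W, (Y : ℝ) * Vq (QH Q H) y := by
      rw [hS, Finset.mul_sum]
    rw [e, ← Finset.sum_sub_distrib]
    refine (Finset.abs_sum_le_sum_abs _ _).trans ?_
    have h2 : ∀ H ∈ powersetCard (k + 1) W,
        |(((Icc 1 Y).filter (fun m => Sf (Aff (QH Q H) g M) y m)).card : ℝ) - Y * Vq (QH Q H) y| ≤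
        η / 4 * (Y * Vq (QH Q H) y) + √(Y : ℝ) := by
      intro H hH
      rw [mem_powersetCard] at hH
      have hper0 := perB_QH Q c hok.per H
      have hno : ∀ p, p ∣ M → ∀ n, ¬ QH Q H p n := by
        rintro p hp n ⟨h, _, hq⟩
        exact hok.noM p hp _ hq
      have hper := perB_Aff (QH Q H) _ hper0 g M hno
      rw [hH.2] at hper
      have h3 := hfund Y y ((le_max_left _ _).trans hy) hyY (Aff (QH Q H) g M) hper Y
      have e1 : ∏ p ∈ pz y, (1 - (nuB (Aff (QH Q H) g M) p : ℝ) / p) = Vq (QH Q H) y := by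
        rw [← Vq_Aff (QH Q H) _ hper0 g M hno y]
        rfl
      rw [e1] at h3
      unfold Sf
      convert h3
    refine (Finset.sum_le_sum h2).trans ?_
    rw [Finset.sum_add_distrib, ← Finset.mul_sum, Finset.sum_const, nsmul_eq_mul]
    have h3 : ((powersetCard (k + 1) W).card : ℝ) ≤ (T : ℝ) ^ (k + 1) := by
      have h4 := card_le_card (powersetCard_mono (n := k + 1) hok.sub)
      rw [card_powersetCard (k + 1) (Icc 1 T), Nat.card_Icc, Nat.add_sub_cancel] at h4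
      exact_mod_cast h4.trans (Nat.choose_le_pow T (k + 1))
    have h4 := mul_le_mul_of_nonneg_right h3 (Real.sqrt_nonneg (Y : ℝ))
    linarith
  have h5 : |Y * S - Y * Z| ≤ η / 4 * (Y * Z) := by
    rw [← mul_sub, abs_mul, abs_of_nonneg hY0]
    have : |S - Z| ≤ η / 4 * Z := by
      rw [abs_le]
      constructor <;> linarith
    calc (Y : ℝ) * |S - Z| ≤ Y * (η / 4 * Z) := mul_le_mul_of_nonneg_left this hY0
      _ = _ := by ring
  have h6 : Y * S ≤ 2 * (Y * Z) := by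
    have h7 := (abs_le.1 h5).2
    have h8 : 0 ≤ Y * Z := mul_nonneg hY0 hZ0
    nlinarith
  have h8 : 0 ≤ Y * Z := mul_nonneg hY0 hZ0
  have h9 := abs_sub_le (∑ H ∈ powersetCard (k + 1) W,
      (((Icc 1 Y).filter (fun m => Sf (Aff (QH Q H) g M) y m)).card : ℝ)) (Y * S) (Y * Z)
  have h10 : η / 4 * (Y * S) ≤ η / 4 * (2 * (Y * Z)) :=
    mul_le_mul_of_nonneg_left h6 (by positivity)
  have h11 : 0 ≤ η * (Y * Z) := by positivity
  calc _ ≤ _ := h9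
    _ ≤ η / 4 * (2 * (Y * Z)) + T ^ (k + 1) * √(Y : ℝ) + η / 4 * (Y * Z) := by linarith
    _ ≤ _ := by linarith

open Classical in
/-- **The Poisson law for windows with gaps**, uniform in the system `Q` and the window. -/
theorem lawW (c M0 w0 : ℕ) (hc : 1 ≤ c) (x0 ε d : ℝ) (hx0 : 0 ≤ x0) (hε : 0 < ε) (hd : 0 < d) :
    ∃ (K0 y0 T0 R0 : ℕ) (η' : ℝ), 0 < η' ∧ ∀ Y y T : ℕ, y0 ≤ y → y ^ K0 ≤ Y → T0 ≤ T → T ^ R0 ≤ Y →
      ∀ (M g : ℕ) (W : Finset ℕ) (Q : ℕ → ℕ → Prop) (Ex : ℕ → Prop), Ok c M0 w0 M T d W Q Ex →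
      W.card * Vq Q y ≤ x0 →
      (∀ t ∈ Icc 1 T, ¬ Ex t →
        ((((pz y).filter (fun p : ℕ => T < p ∧ CoG Q p t)).card : ℕ) : ℝ) ≤ η' * T) →
      ∀ A : Finset ℕ, |(((Icc 1 Y).filter (fun m => Nn Q y W (g + M * m) ∈ A)).card : ℝ) -
        Y * ∑ j ∈ A, Real.exp (-(W.card * Vq Q y)) * (W.card * Vq Q y) ^ j / j.factorial| ≤
          ε * Y := by
  obtain ⟨R, η, hη, htv⟩ := law_tv x0 ε hx0 hε
  obtain ⟨X1, hX1⟩ : ∃ X1 : ℝ, X1 = (1 + x0) ^ (R + 1) := ⟨_, rfl⟩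
  have hX1pos : 1 ≤ X1 := by rw [hX1]; exact one_le_pow₀ (by linarith)
  obtain ⟨η1, hη1⟩ : ∃ η1 : ℝ, η1 = min 1 (η / (2 * X1)) := ⟨_, rfl⟩
  have hη10 : 0 < η1 := by rw [hη1]; positivity
  have hη11 : η1 ≤ 1 := by rw [hη1]; exact min_le_left _ _
  have hη12 : η1 * X1 ≤ η / 2 := by
    have : η1 ≤ η / (2 * X1) := by rw [hη1]; exact min_le_right _ _
    rw [le_div_iff₀ (by positivity)] at this
    linarith
  choose K0 y0 T0 η' hη' hmom using fun k => momentW c k M0 w0 hc η1 d hη10 hη11 hd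
  obtain ⟨y1, hy1⟩ : ∃ y1 : ℕ, (2 / η) ^ 4 ≤ y1 := exists_nat_ge _
  obtain ⟨η0, hη00, hη0⟩ := exists_lower η' hη' R
  refine ⟨(∑ k ∈ range R, K0 k) + 1, (∑ k ∈ range R, y0 k) + y1 + 1, (∑ k ∈ range R, T0 k) + 1,
    4 * (R + 1), η0, hη00, ?_⟩
  intro Y y T hy hyY hT hTR M g W Q Ex hok hx hlarge A
  obtain ⟨x, hxdef⟩ : ∃ x, x = W.card * Vq Q y := ⟨_, rfl⟩
  rw [← hxdef] at hx ⊢
  have hx00 : 0 ≤ x := by
    rw [hxdef]
    exact mul_nonneg (Nat.cast_nonneg _) (Vq_nonneg Q y)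
  have hy1' : 1 ≤ y := by omega
  have hT1 : 1 ≤ T := by omega
  have hyY' : y ≤ Y := by
    calc y = y ^ 1 := (pow_one y).symm
      _ ≤ y ^ ((∑ k ∈ range R, K0 k) + 1) := Nat.pow_le_pow_right hy1' (by omega)
      _ ≤ Y := hyY
  have hY1 : (2 / η) ^ 4 ≤ (Y : ℝ) := hy1.trans (by exact_mod_cast (by omega : y1 ≤ Y))
  have hYpos : (0 : ℝ) < Y := lt_of_lt_of_le (by positivity) hY1
  have hs4 : 2 / η ≤ √(√(Y : ℝ)) := by
    apply Real.le_sqrt_of_sq_le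
    apply Real.le_sqrt_of_sq_le
    calc ((2 / η) ^ 2) ^ 2 = (2 / η) ^ 4 := by ring
      _ ≤ (Y : ℝ) := hY1
  have hT4 : (T : ℝ) ^ (R + 1) ≤ √(√(Y : ℝ)) := by
    apply Real.le_sqrt_of_sq_le
    apply Real.le_sqrt_of_sq_le
    calc (((T : ℝ) ^ (R + 1)) ^ 2) ^ 2 = (T : ℝ) ^ (4 * (R + 1)) := by
          rw [← pow_mul, ← pow_mul]
          congr 1
          ring
      _ ≤ Y := by exact_mod_cast hTR
  have hTY : (T : ℝ) ^ (R + 1) * √(Y : ℝ) ≤ η / 2 * Y := by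
    have e1 : √(√(Y : ℝ)) * √(√(Y : ℝ)) = √(Y : ℝ) := Real.mul_self_sqrt (Real.sqrt_nonneg _)
    have e2 : √(Y : ℝ) * √(Y : ℝ) = Y := Real.mul_self_sqrt hYpos.le
    have h1 : (T : ℝ) ^ (R + 1) * (2 / η) ≤ √(Y : ℝ) := by
      rw [← e1]
      exact mul_le_mul hT4 hs4 (by positivity) (Real.sqrt_nonneg _)
    calc (T : ℝ) ^ (R + 1) * √(Y : ℝ) = η / 2 * ((T : ℝ) ^ (R + 1) * (2 / η)) * √(Y : ℝ) := by
          field_simp
      _ ≤ η / 2 * √(Y : ℝ) * √(Y : ℝ) := by gcongr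
      _ = η / 2 * Y := by rw [mul_assoc, e2]
  have hcard : ((Icc 1 Y).card : ℝ) = Y := by
    rw [Nat.card_Icc, Nat.add_sub_cancel]
  have hmain := htv (Icc 1 Y) (fun m => Nn Q y W (g + M * m)) x hx00 hx (by
    intro k hk
    rw [hcard]
    rcases k with _ | k
    · simp
      positivity
    · have hkR : k ∈ range R := mem_range.2 (by omega)
      have hKk : K0 k ≤ ∑ k ∈ range R, K0 k := Finset.single_le_sum (fun _ _ => Nat.zero_le _) hkR
      have hyk : y0 k ≤ ∑ k ∈ range R, y0 k := Finset.single_le_sum (fun _ _ => Nat.zero_le _) hkR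
      have hTk : T0 k ≤ ∑ k ∈ range R, T0 k := Finset.single_le_sum (fun _ _ => Nat.zero_le _) hkR
      have h1 := hmom k Y y T (by omega)
        ((Nat.pow_le_pow_right hy1' (by omega)).trans hyY) (by omega) M g W Q Ex hok (fun t ht hx =>
          (hlarge t ht hx).trans
            (mul_le_mul_of_nonneg_right (hη0 k (by omega)) (Nat.cast_nonneg _)))
      rw [← hxdef] at h1
      refine h1.trans ?_
      have h2 : x ^ (k + 1) / ((k + 1).factorial : ℝ) ≤ X1 := by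
        have hf1 : (1 : ℝ) ≤ (k + 1).factorial := by exact_mod_cast Nat.factorial_pos (k + 1)
        calc x ^ (k + 1) / ((k + 1).factorial : ℝ) ≤ x ^ (k + 1) := div_le_self (by positivity) hf1
          _ ≤ (1 + x0) ^ (k + 1) := pow_le_pow_left₀ hx00 (by linarith) _
          _ ≤ (1 + x0) ^ (R + 1) := pow_le_pow_right₀ (by linarith) (by omega)
          _ = X1 := hX1.symm
      have h3 : (T : ℝ) ^ (k + 1) * √(Y : ℝ) ≤ η / 2 * Y := by
        refine le_trans ?_ hTY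
        apply mul_le_mul_of_nonneg_right _ (Real.sqrt_nonneg _)
        apply pow_le_pow_right₀ (by exact_mod_cast hT1) (by omega)
      have h4 : η1 * Y * (x ^ (k + 1) / ((k + 1).factorial : ℝ)) ≤ η / 2 * Y := by
        calc η1 * Y * (x ^ (k + 1) / ((k + 1).factorial : ℝ)) ≤ η1 * Y * X1 :=
              mul_le_mul_of_nonneg_left h2 (by positivity)
          _ = η1 * X1 * Y := by ring
          _ ≤ η / 2 * Y := by gcongr
      linarith) A
  rw [hcard] at hmain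
  exact hmain

end Pool.Agent.X262.LOS
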