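import Pool.Agent.X262.LOS.Voids

set_option autoImplicit false

/-!
# The residue classes of consecutive sifted integers
-/

namespace Pool.Agent.X262.LOS

open Finset Filter Pool.Agent.H373R2.T7 Pool.Agent.W123.RP Pool.Agent.W123.RU
open Pool.Agent.TH464.PO Pool.Agent.Y879.AP

lemma V_big (c : ℕ) (B : ℝ) : ∃ y1 : ℕ, ∀ y : ℕ, y1 ≤ y → ∀ Q : ℕ → ℕ → Prop, PerB Q c →
    (∀ p : ℕ, p.Prime → nuB Q p < p) → B ≤ y * Vq Q y := by
  obtain ⟨v, hv, hV⟩ := V_lower_unif c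
  have h := (Real.isLittleO_pow_log_id_atTop (n := c)).comp_tendsto
    (tendsto_natCast_atTop_atTop (R := ℝ))
  have h1 := h.def (show (0 : ℝ) < v / (|B| + 1) by positivity)
  obtain ⟨y1, hy1⟩ := eventually_atTop.1 h1
  refine ⟨max y1 3, fun y hy Q hQ hadm => ?_⟩
  have h2 := hy1 y ((le_max_left _ _).trans hy)
  have hy3 : (3 : ℝ) ≤ y := by exact_mod_cast (le_max_right _ _).trans hy
  have hlog : 0 < Real.log y := Real.log_pos (by linarith)
  simp only [Function.comp, Real.norm_eq_abs, id] at h2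
  rw [abs_of_pos (pow_pos hlog c), abs_of_pos (by linarith : (0 : ℝ) < y)] at h2
  have h3 := hV Q hQ hadm y (by omega)
  have h4 : (|B| + 1) * Real.log y ^ c ≤ v * y := by
    rw [div_mul_eq_mul_div, le_div_iff₀ (by positivity)] at h2
    linarith
  have h5 : |B| + 1 ≤ y * (v / Real.log y ^ c) := by
    rw [mul_div_assoc', le_div_iff₀ (by positivity)]
    linarith
  have h6 : (y : ℝ) * (v / Real.log y ^ c) ≤ y * Vq Q y :=
    mul_le_mul_of_nonneg_left h3 (by linarith)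
  have := le_abs_self B
  linarith

open Classical in
/-- upper bound for the number of sifted integers in one class -/
lemma upper (c M : ℕ) (hc : 1 ≤ c) (η : ℝ) (hη : 0 < η) : ∃ K2 y2 : ℕ, ∀ y Y' : ℕ, y2 ≤ y →
    y ^ K2 ≤ Y' → ∀ Y : ℕ, Y / M ≤ Y' + 1 → ∀ Q : ℕ → ℕ → Prop, PerB Q c →
      (∀ p : ℕ, p.Prime → nuB Q p < p) → (∀ p, p ∣ M → ∀ n, ¬ Q p n) → ∀ Z a : ℕ, a < M →
      (((Ioc Z (Z + Y)).filter (fun n => Sf Q y n ∧ n % M = a)).card : ℝ) ≤
        (1 + η) * (Y' * Vq Q y) := by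
  obtain ⟨K, x0, hK, hfund⟩ := sys_fund c hc (η / 2) (by positivity)
  obtain ⟨y1, hy1⟩ := V_big c 1
  obtain ⟨y3, hy3⟩ : ∃ y3 : ℕ, 2 * (4 + 2 * η) / η ≤ y3 := exists_nat_ge _
  refine ⟨max K 4, max (max x0 y1) (max y3 1), ?_⟩
  intro y Y' hy hyY Y hYM Q hQ hadm hno Z a ha
  have hy1' : 1 ≤ y := by omega
  obtain ⟨h1, h11, h1M, hg⟩ := exists_first M Z a ha
  have hM1 : 1 ≤ M := by omega
  obtain ⟨V, hV⟩ : ∃ V, V = Vq Q y := ⟨_, rfl⟩
  have hV1 : 1 ≤ y * V := by rw [hV]; exact hy1 y (by omega) Q hQ hadm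
  have hV0 : 0 ≤ V := by rw [hV]; exact Vq_nonneg Q y
  have hV2 : V ≤ 1 := by rw [hV]; exact Vq_le_one Q y
  have e1 : ((Ioc Z (Z + Y)).filter (fun n => Sf Q y n ∧ n % M = a)).card =
      ((Icc 1 Y).filter (fun h => (Z + h) % M = a ∧ Sf Q y (Z + h))).card := by
    symm
    apply Finset.card_bij (fun h _ => Z + h)
    · intro h hh
      rw [mem_filter, mem_Icc] at hh
      rw [mem_filter, mem_Ioc]
      exact ⟨by omega, hh.2.2, hh.2.1⟩
    · intro a _ b _ hab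
      omega
    · intro n hn
      rw [mem_filter, mem_Ioc] at hn
      refine ⟨n - Z, ?_, by omega⟩
      rw [mem_filter, mem_Icc, show Z + (n - Z) = n by omega]
      exact ⟨by omega, hn.2.2, hn.2.1⟩
  obtain ⟨L, hL⟩ : ∃ L, L = (Y + M - h1) / M := ⟨_, rfl⟩
  have e2 := prefix_card M Z a Y h1 hM1 h11 h1M hg (fun h => Sf Q y (Z + h))
  rw [e1, e2, ← hL]
  have hLY : L ≤ Y' + 2 := by
    rw [hL]
    have h2 : (Y + M - h1) / M ≤ (Y + M) / M := Nat.div_le_div_right (by omega)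
    have h3 : (Y + M) / M = Y / M + 1 := by
      rw [Nat.add_div_right _ (by omega)]
    omega
  obtain ⟨R, hR⟩ : ∃ R, R = Aff Q (Z + h1) M := ⟨_, rfl⟩
  have hRper : PerB R c := by rw [hR]; exact perB_Aff Q c hQ _ M hno
  have hRV : Vq R y = V := by rw [hR, hV]; exact Vq_Aff Q c hQ _ M hno y
  have h2 : ((range L).filter (fun v => Sf Q y (Z + (h1 + M * v)))).card ≤
      ((Icc 1 (Y' + 2)).filter (fun v => ∀ p ∈ pz y, ¬ R p v)).card + 1 := by
    have h3 : (range L).filter (fun v => Sf Q y (Z + (h1 + M * v))) ⊆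
        (Icc 1 (Y' + 2)).filter (fun v => ∀ p ∈ pz y, ¬ R p v) ∪ {0} := by
      intro v hv
      rw [mem_filter, mem_range] at hv
      rw [mem_union, mem_filter, mem_Icc, mem_singleton]
      by_cases h : v = 0
      · exact Or.inr h
      · left
        refine ⟨⟨by omega, by omega⟩, ?_⟩
        rw [hR]
        unfold Aff
        rw [add_assoc]
        exact hv.2
    refine (card_le_card h3).trans ((card_union_le _ _).trans ?_)
    rw [card_singleton]
  have hyK : y ^ K ≤ Y' := (Nat.pow_le_pow_right hy1' (le_max_left _ _)).trans hyY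
  have hy4 : y ^ 4 ≤ Y' := (Nat.pow_le_pow_right hy1' (le_max_right _ _)).trans hyY
  have h3 := hfund Y' y (by omega) hyK R hRper (Y' + 2)
  have e3 : ∏ p ∈ pz y, (1 - (nuB R p : ℝ) / p) = V := hRV
  rw [e3] at h3
  have h4 := (abs_le.1 h3).2
  have h5 : (((range L).filter (fun v => Sf Q y (Z + (h1 + M * v)))).card : ℝ) ≤
      (((Icc 1 (Y' + 2)).filter (fun v => ∀ p ∈ pz y, ¬ R p v)).card : ℝ) + 1 := by
    exact_mod_cast h2
  refine h5.trans ?_
  push_cast at h4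
  have hyr : (1 : ℝ) ≤ y := by exact_mod_cast hy1'
  obtain ⟨s, hs⟩ : ∃ s : ℝ, s = √(Y' : ℝ) := ⟨_, rfl⟩
  have hss : s * s = Y' := by rw [hs]; exact Real.mul_self_sqrt (Nat.cast_nonneg _)
  have hsy : (y : ℝ) ^ 2 ≤ s := by
    rw [hs]
    apply Real.le_sqrt_of_sq_le
    calc ((y : ℝ) ^ 2) ^ 2 = ((y ^ 4 : ℕ) : ℝ) := by push_cast; ring
      _ ≤ Y' := by exact_mod_cast hy4
  have hs0 : 0 ≤ s := by rw [hs]; exact Real.sqrt_nonneg _
  have hsV : (y : ℝ) ≤ s * V := by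
    calc (y : ℝ) = y * 1 := (mul_one _).symm
      _ ≤ y * (y * V) := by gcongr
      _ = y ^ 2 * V := by ring
      _ ≤ s * V := mul_le_mul_of_nonneg_right hsy hV0
  have hy3r : 2 * (4 + 2 * η) / η ≤ y := hy3.trans (by exact_mod_cast (by omega : y3 ≤ y))
  rw [div_le_iff₀ hη] at hy3r
  have hs1 : 1 ≤ s := by nlinarith
  have h6 : (4 + 2 * η) * s ≤ η / 2 * (Y' * V) := by
    calc (4 + 2 * η) * s ≤ (y * η / 2) * s := by
          apply mul_le_mul_of_nonneg_right _ hs0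
          linarith
      _ ≤ (s * V * η / 2) * s := by
          apply mul_le_mul_of_nonneg_right _ hs0
          have := mul_le_mul_of_nonneg_right hsV hη.le
          linarith
      _ = η / 2 * (s * s * V) := by ring
      _ = η / 2 * (Y' * V) := by rw [hss]
  rw [← hs] at h4
  rw [← hV]
  have hYV : 0 ≤ (Y' : ℝ) * V := by positivity
  have h7 : 2 * V * (1 + η / 2) ≤ 2 * (1 + η / 2) := by nlinarith
  have h8 : (4 + η) * s ≤ (4 + 2 * η) * s := mul_le_mul_of_nonneg_right (by linarith) hs0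
  have h9 : 3 + η + s ≤ (4 + η) * s := by nlinarith
  linarith

/-- the geometric sum -/
lemma geo (τ η : ℝ) (q K : ℕ) (hτ : 0 < τ) (hq : 2 ≤ q) (hη : 0 < η) (hτq : 8 * (τ * q) ≤ η)
    (hη1 : η ≤ 1) (hK : 4 ≤ η * (τ * q * K)) : τ / q * (1 - η / 2) ≤
      ∑ j ∈ range K, Real.exp (-(τ * (q * (j + 2) - 2))) * (1 - Real.exp (-τ)) ^ 2 := by
  have hqr : (2 : ℝ) ≤ q := by exact_mod_cast hq
  obtain ⟨r, hr⟩ : ∃ r : ℝ, r = Real.exp (-(τ * q)) := ⟨_, rfl⟩
  have hr0 : 0 < r := by rw [hr]; exact Real.exp_pos _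
  have hterm : ∀ j ∈ range K, Real.exp (-(τ * (q * (j + 2) - 2))) * (1 - Real.exp (-τ)) ^ 2 =
      (Real.exp (-(τ * (2 * q - 2))) * (1 - Real.exp (-τ)) ^ 2) * r ^ j := by
    intro j _
    rw [hr, ← Real.exp_nat_mul]
    have e : Real.exp (-(τ * (q * (j + 2) - 2))) =
        Real.exp (-(τ * (2 * q - 2))) * Real.exp (j * -(τ * q)) := by
      rw [← Real.exp_add]
      congr 1
      ring
    rw [e]
    ring
  rw [Finset.sum_congr rfl hterm, ← Finset.mul_sum]
  have hgeo := mul_neg_geom_sum r K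
  have hr1 : 1 - r ≤ τ * q := by
    have := Real.add_one_le_exp (-(τ * q))
    rw [hr]
    linarith
  have hrK : r ^ K ≤ η / 4 := by
    rw [hr, ← Real.exp_nat_mul]
    have h1 : Real.exp (K * -(τ * q)) * Real.exp (τ * q * K) = 1 := by
      rw [← Real.exp_add]
      rw [show (K : ℝ) * -(τ * q) + τ * q * K = 0 by ring, Real.exp_zero]
    have h2 := Real.add_one_le_exp (τ * q * K)
    have h3 := Real.exp_pos (K * -(τ * q))
    have h4 : Real.exp (K * -(τ * q)) * (4 / η) ≤ 1 := by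
      rw [← h1]
      apply mul_le_mul_of_nonneg_left _ h3.le
      rw [div_le_iff₀ hη]
      nlinarith
    rw [mul_div_assoc', div_le_iff₀ hη] at h4
    linarith
  have hsum : (1 - η / 4) / (τ * q) ≤ ∑ j ∈ range K, r ^ j := by
    rw [div_le_iff₀ (by positivity)]
    have h5 : 0 ≤ ∑ j ∈ range K, r ^ j := Finset.sum_nonneg fun _ _ => by positivity
    nlinarith
  have hexp1 : τ * (1 - τ) ≤ 1 - Real.exp (-τ) := by
    have h1 : Real.exp (-τ) * Real.exp τ = 1 := by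
      rw [← Real.exp_add]
      simp
    have h2 := Real.add_one_le_exp τ
    have h3 := Real.exp_pos (-τ)
    have h4 : Real.exp (-τ) * (1 + τ) ≤ 1 := by nlinarith
    by_contra h5
    rw [not_le] at h5
    have h6 : (1 - τ + τ ^ 2) * (1 + τ) < Real.exp (-τ) * (1 + τ) :=
      mul_lt_mul_of_pos_right (by linarith) (by linarith)
    have h7 : (1 - τ + τ ^ 2) * (1 + τ) = 1 + τ ^ 3 := by ring
    have h8 : 0 < τ ^ 3 := pow_pos hτ 3
    linarith
  have hτ1 : τ ≤ 1 / 16 := by nlinarith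
  have hsq : τ ^ 2 * (1 - 2 * τ) ≤ (1 - Real.exp (-τ)) ^ 2 := by
    have h1 : (τ * (1 - τ)) ^ 2 ≤ (1 - Real.exp (-τ)) ^ 2 :=
      pow_le_pow_left₀ (mul_nonneg hτ.le (by linarith)) hexp1 2
    refine le_trans ?_ h1
    have : 0 ≤ τ ^ 2 * τ ^ 2 := by positivity
    nlinarith
  have hexp2 : 1 - τ * (2 * q - 2) ≤ Real.exp (-(τ * (2 * q - 2))) := by
    have := Real.add_one_le_exp (-(τ * (2 * q - 2)))
    linarith
  have hA : τ ^ 2 * (1 - η / 4) ≤ Real.exp (-(τ * (2 * q - 2))) * (1 - Real.exp (-τ)) ^ 2 := by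
    calc τ ^ 2 * (1 - η / 4) ≤ (1 - τ * (2 * q - 2)) * (τ ^ 2 * (1 - 2 * τ)) := by
          have h1 : 1 - η / 4 ≤ (1 - τ * (2 * q - 2)) * (1 - 2 * τ) := by
            have h2 : 0 ≤ τ * (2 * q - 2) * (2 * τ) := by
              apply mul_nonneg (mul_nonneg hτ.le (by linarith)) (by linarith)
            nlinarith
          have h3 := mul_le_mul_of_nonneg_left h1 (by positivity : (0 : ℝ) ≤ τ ^ 2)
          linarith
      _ ≤ Real.exp (-(τ * (2 * q - 2))) * (1 - Real.exp (-τ)) ^ 2 := by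
          apply mul_le_mul hexp2 hsq _ (Real.exp_pos _).le
          apply mul_nonneg (by positivity) (by linarith)
  calc τ / q * (1 - η / 2) ≤ τ ^ 2 * (1 - η / 4) * ((1 - η / 4) / (τ * q)) := by
        have e : τ ^ 2 * (1 - η / 4) * ((1 - η / 4) / (τ * q)) = τ / q * ((1 - η / 4) * (1 - η / 4)) := by
          field_simp
        rw [e]
        apply mul_le_mul_of_nonneg_left _ (by positivity)
        nlinarith
    _ ≤ _ := by
        apply mul_le_mul hA hsum _ (by positivity)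
        apply div_nonneg (by linarith) (by positivity)

open Classical in
/-- **Lower bound** for the number of the consecutive elements in given classes. -/
theorem los_lower (c M w0 D : ℕ) (hc : 1 ≤ c) (η : ℝ) (hη : 0 < η) (hη1 : η ≤ 1) :
    ∃ (K0 y0 : ℕ) (κ : ℝ), 0 < κ ∧ ∀ y Y' : ℕ, y0 ≤ y → y ^ K0 ≤ Y' → ∀ Y : ℕ,
      M * (Y' + 1) ≤ Y → ∀ (C : Finset ℕ) (Q : ℕ → ℕ → Prop) (Ex : ℕ → Prop), Sy c M w0 D C Q Ex →
      Vq Q y ≤ κ → ∀ a ∈ C, ∀ b ∈ C, ∀ Z : ℕ,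
      (1 - η) * (Y' * Vq Q y) / C.card ≤
        (((Ioc Z (Z + Y)).filter (fun n => (Gd Q y M C n ∧ n % M = a) ∧
          Nx (Gd Q y M C) M b n)).card : ℝ) := by
  rcases Nat.eq_zero_or_pos M with hM0 | hM1
  · refine ⟨0, 0, 1, one_pos, ?_⟩
    intro y Y' _ _ Y _ C Q Ex hsy _ a ha
    have := hsy.cls ha
    rw [hM0] at this
    simp at this
  have hMr : (1 : ℝ) ≤ M := by exact_mod_cast hM1
  obtain ⟨τ, hτ⟩ : ∃ τ : ℝ, τ = η / (8 * M) := ⟨_, rfl⟩
  have hτ0 : 0 < τ := by rw [hτ]; positivity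
  have hτM : 8 * (τ * M) = η := by
    rw [hτ]
    field_simp
  obtain ⟨K, hK⟩ : ∃ K : ℕ, 4 / (η * τ) ≤ K := exists_nat_ge _
  have hK' : 4 ≤ η * (τ * K) := by
    rw [div_le_iff₀ (by positivity)] at hK
    linarith
  have hK0 : (0 : ℝ) < K := by
    by_contra h
    have : (K : ℝ) = 0 := le_antisymm (not_lt.1 h) (Nat.cast_nonneg _)
    rw [this] at hK'
    linarith
  obtain ⟨x0, hx0⟩ : ∃ x0 : ℝ, x0 = (K + 1) * (τ * M) := ⟨_, rfl⟩
  have hx00 : 0 ≤ x0 := by rw [hx0]; positivity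
  obtain ⟨ε, hε⟩ : ∃ ε : ℝ, ε = η * τ / (64 * K * M) := ⟨_, rfl⟩
  have hε0 : 0 < ε := by rw [hε]; positivity
  obtain ⟨K1, y1, T1, hvoid⟩ := voids c M w0 D K hc x0 ε hx00 hε0
  obtain ⟨y2, hy2⟩ := V_big c (max x0 1)
  obtain ⟨y3, hy3⟩ : ∃ y3 : ℕ, 4 * M / η ≤ y3 := exists_nat_ge _
  obtain ⟨κ, hκ⟩ : ∃ κ : ℝ, κ = min (τ / (T1 + 2)) (η * τ / (64 * K * M ^ 2)) := ⟨_, rfl⟩
  have hκ0 : 0 < κ := by rw [hκ]; positivity
  have hκ1 : κ ≤ τ / (T1 + 2) := by rw [hκ]; exact min_le_left _ _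
  have hκ2 : κ ≤ η * τ / (64 * K * M ^ 2) := by rw [hκ]; exact min_le_right _ _
  refine ⟨max K1 3, max (max y1 y2) (max y3 1), κ, hκ0, ?_⟩
  intro y Y' hy hyY Y hMY C Q Ex hsy hVκ a ha b hb Z
  have hy1' : 1 ≤ y := by omega
  obtain ⟨V, hV⟩ : ∃ V, V = Vq Q y := ⟨_, rfl⟩
  have hV0 : 0 < V := by rw [hV]; exact Vq_pos Q hsy.adm y
  rw [← hV] at hVκ ⊢
  have hVbig : max x0 1 ≤ y * V := by rw [hV]; exact hy2 y (by omega) Q hsy.per hsy.adm
  have hVbig1 : x0 ≤ y * V := (le_max_left _ _).trans hVbig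
  have hVbig2 : 1 ≤ y * V := (le_max_right _ _).trans hVbig
  obtain ⟨q, hq⟩ : ∃ q, q = C.card := ⟨_, rfl⟩
  have hq2 : 2 ≤ q := by rw [hq]; exact hsy.two
  have hqM : q ≤ M := by
    have := card_le_card hsy.cls
    rw [card_range] at this
    omega
  have hqr : (2 : ℝ) ≤ q := by exact_mod_cast hq2
  have hqMr : (q : ℝ) ≤ M := by exact_mod_cast hqM
  have hT1r : (0 : ℝ) ≤ T1 := Nat.cast_nonneg _
  -- the length of the cells
  obtain ⟨t, ht⟩ : ∃ t : ℕ, t = ⌊τ * M / V⌋₊ := ⟨_, rfl⟩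
  have ht1 : (t : ℝ) ≤ τ * M / V := by rw [ht]; exact Nat.floor_le (by positivity)
  have ht2 : τ * M / V < t + 1 := by rw [ht]; exact Nat.lt_floor_add_one _
  rw [le_div_iff₀ hV0] at ht1
  rw [div_lt_iff₀ hV0] at ht2
  have hVτ : V * (T1 + 2) ≤ τ := by
    have h1 := hVκ.trans hκ1
    rwa [le_div_iff₀ (by positivity)] at h1
  have htT : T1 ≤ t := by
    have h1 : ((T1 : ℝ) + 1) * V < (t + 1) * V := by nlinarith
    have h2 := lt_of_mul_lt_mul_right h1 hV0.le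
    have h3 : (T1 : ℝ) < t := by linarith
    exact_mod_cast h3.le
  have ht0 : 0 < t := by
    have h1 : (1 : ℝ) * V < (t + 1) * V := by nlinarith
    have h2 := lt_of_mul_lt_mul_right h1 hV0.le
    have h3 : (0 : ℝ) < t := by linarith
    exact_mod_cast h3
  have htr : (0 : ℝ) < t := by exact_mod_cast ht0
  have hty : (K + 1) * t ≤ y := by
    have h1 : ((K : ℝ) + 1) * t * V ≤ y * V := by
      calc ((K : ℝ) + 1) * t * V = (K + 1) * (t * V) := by ring
        _ ≤ (K + 1) * (τ * M) := by gcongr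
        _ = x0 := hx0.symm
        _ ≤ y * V := hVbig1
    have h2 := le_of_mul_le_mul_right h1 hV0
    exact_mod_cast h2
  have hx : ((K + 1) * t : ℕ) * Vq Q y ≤ x0 := by
    rw [← hV, hx0]
    push_cast
    calc ((K : ℝ) + 1) * t * V = (K + 1) * (t * V) := by ring
      _ ≤ (K + 1) * (τ * M) := by gcongr
  have hyK1 : y ^ K1 ≤ Y' := (Nat.pow_le_pow_right hy1' (le_max_left _ _)).trans hyY
  have hyK3 : y ^ 3 ≤ Y' := (Nat.pow_le_pow_right hy1' (le_max_right _ _)).trans hyY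
  obtain ⟨τ', hτ'⟩ : ∃ τ' : ℝ, τ' = t * V / M := ⟨_, rfl⟩
  have hτ'0 : 0 < τ' := by rw [hτ']; positivity
  have hτ'1 : τ' ≤ τ := by
    rw [hτ', div_le_iff₀ (by positivity)]
    exact ht1
  have hτ'2 : τ / 2 ≤ τ' := by
    rw [hτ', le_div_iff₀ (by positivity)]
    have h1 : V ≤ τ / 2 := by nlinarith
    nlinarith
  have hY0 : (0 : ℝ) ≤ Y' := Nat.cast_nonneg _
  -- one cell
  have hcell : ∀ j < K, ∀ g : ℕ, Y' * (Real.exp (-(τ' * (q * (j + 2) - 2))) * (1 - Real.exp (-τ')) ^ 2) -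
      4 * ((ε + q * V) * Y') ≤ (((Icc 1 Y').filter
        (fun m => Ev (Gd Q y M C) M ((K + 1) * t) a b t j (g + M * m))).card : ℝ) := by
    intro j hj g
    rw [ev_card]
    have hv := hvoid y Y' t (by omega) hyK1 htT hty C Q Ex hsy hx a ha b hb j hj
    have e1 := abs_le.1 (hv true false g)
    have e2 := abs_le.1 (hv false false g)
    have e3 := abs_le.1 (hv true true g)
    have e4 := abs_le.1 (hv false true g)
    rw [← hV, ← hτ', ← hq] at e1 e2 e3 e4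
    unfold Nm at e1 e2 e3 e4
    simp only [reduceIte, Bool.false_eq_true, reduceCtorEq] at e1 e2 e3 e4
    have f1 : Real.exp (-(τ' * (q * (j + 2) - 1 - 1))) = Real.exp (-(τ' * (q * (j + 2) - 2))) := by
      congr 1
      ring
    have f2 : Real.exp (-(τ' * (q * (j + 2) - 1 - 0))) =
        Real.exp (-(τ' * (q * (j + 2) - 2))) * Real.exp (-τ') := by
      rw [← Real.exp_add]
      congr 1
      ring
    have f3 : Real.exp (-(τ' * (q * (j + 2) - 0 - 1))) =
        Real.exp (-(τ' * (q * (j + 2) - 2))) * Real.exp (-τ') := by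
      rw [← Real.exp_add]
      congr 1
      ring
    have f4 : Real.exp (-(τ' * (q * (j + 2) - 0 - 0))) =
        Real.exp (-(τ' * (q * (j + 2) - 2))) * Real.exp (-τ') * Real.exp (-τ') := by
      rw [← Real.exp_add, ← Real.exp_add]
      congr 1
      ring
    rw [f1] at e1
    rw [f2] at e2
    rw [f3] at e3
    rw [f4] at e4
    nlinarith [e1.1, e2.2, e3.2, e4.1]
  -- the sum over the cells
  have hgeo := geo τ' η q K hτ'0 hq2 hη (by
      calc 8 * (τ' * q) ≤ 8 * (τ * M) := by gcongr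
        _ = η := hτM
        _ ≤ η := le_rfl) hη1 (by
      calc 4 ≤ η * (τ * K) := hK'
        _ ≤ η * (τ' * q * K) := by
          apply mul_le_mul_of_nonneg_left _ hη.le
          apply mul_le_mul_of_nonneg_right _ hK0.le
          nlinarith)
  have hsum1 : ∀ i ∈ Icc 1 M, Y' * (τ' / q * (1 - η / 2)) - K * (4 * ((ε + q * V) * Y')) ≤
      ∑ j ∈ range K, (((Icc 1 Y').filter
        (fun m => Ev (Gd Q y M C) M ((K + 1) * t) a b t j (Z + i + M * m))).card : ℝ) := by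
    intro i _
    have h1 := Finset.sum_le_sum (fun j hj => hcell j (mem_range.1 hj) (Z + i))
    rw [Finset.sum_sub_distrib, ← Finset.mul_sum, Finset.sum_const, card_range, nsmul_eq_mul] at h1
    refine le_trans ?_ h1
    have h2 := mul_le_mul_of_nonneg_left hgeo hY0
    linarith
  have hsum2 := Finset.sum_le_sum hsum1
  rw [Finset.sum_const, Nat.card_Icc, Nat.add_sub_cancel, nsmul_eq_mul] at hsum2
  have hT2 : ∀ j < K, (j + 2) * t ≤ (K + 1) * t := fun j hj => Nat.mul_le_mul_right t (by omega)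
  have h1 := ev_lower (Gd Q y M C) M ((K + 1) * t) a b t K Z Y Y' hT2 hMY
  have h2 := ev_count (Gd Q y M C) M ((K + 1) * t) a b t K Z Y hT2
  have h3 : (∑ i ∈ Icc 1 M, ∑ j ∈ range K, (((Icc 1 Y').filter
      (fun m => Ev (Gd Q y M C) M ((K + 1) * t) a b t j (Z + i + M * m))).card : ℝ)) ≤
      t * ((((Ioc Z (Z + Y)).filter (fun n => (Gd Q y M C n ∧ n % M = a) ∧
          Nx (Gd Q y M C) M b n)).card : ℝ) + t) := by
    exact_mod_cast h1.trans h2
  obtain ⟨P, hP⟩ : ∃ P : ℝ, P = (((Ioc Z (Z + Y)).filter (fun n => (Gd Q y M C n ∧ n % M = a) ∧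
          Nx (Gd Q y M C) M b n)).card : ℝ) := ⟨_, rfl⟩
  rw [← hP] at h3 ⊢
  have h4 := hsum2.trans h3
  -- divide by t
  have hεV : ε + q * V ≤ η * τ / (32 * K * M) := by
    have h5 : (q : ℝ) * V ≤ η * τ / (64 * K * M) := by
      calc (q : ℝ) * V ≤ M * (η * τ / (64 * K * M ^ 2)) :=
            mul_le_mul hqMr (hVκ.trans hκ2) hV0.le (by linarith)
        _ = η * τ / (64 * K * M) := by field_simp
    have h6 : η * τ / (32 * K * M) = η * τ / (64 * K * M) + η * τ / (64 * K * M) := by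
      field_simp
      norm_num
    rw [h6, ← hε]
    rw [← hε] at h5
    linarith
  have h5 : K * (4 * ((ε + q * V) * Y')) ≤ Y' * (τ' / q * (η / 4)) := by
    calc K * (4 * ((ε + q * V) * Y')) ≤ K * (4 * ((η * τ / (32 * K * M)) * Y')) := by gcongr
      _ = Y' * (τ / 2 / M * (η / 4)) := by
          field_simp
          ring
      _ ≤ Y' * (τ' / q * (η / 4)) := by
          apply mul_le_mul_of_nonneg_left _ hY0
          apply mul_le_mul_of_nonneg_right _ (by positivity)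
          exact div_le_div₀ hτ'0.le hτ'2 (by linarith) hqMr
  have h6 : (M : ℝ) * (Y' * (τ' / q * (1 - 3 * η / 4))) ≤ t * (P + t) := by
    refine le_trans ?_ h4
    apply mul_le_mul_of_nonneg_left _ (by linarith)
    have e : Y' * (τ' / q * (1 - 3 * η / 4)) = Y' * (τ' / q * (1 - η / 2)) - Y' * (τ' / q * (η / 4)) := by
      ring
    rw [e]
    linarith
  have h7 : (M : ℝ) * (Y' * (τ' / q * (1 - 3 * η / 4))) = t * (Y' * V / q * (1 - 3 * η / 4)) := by
    rw [hτ']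
    field_simp
  rw [h7] at h6
  have h8 := le_of_mul_le_mul_left h6 htr
  have h9 : (t : ℝ) ≤ Y' * V / q * (η / 4) := by
    have a1 : (t : ℝ) ≤ y := by
      have : t ≤ (K + 1) * t := Nat.le_mul_of_pos_left t (by omega)
      exact_mod_cast this.trans hty
    have a2 : 4 * M / η ≤ y := hy3.trans (by exact_mod_cast (by omega : y3 ≤ y))
    rw [div_le_iff₀ hη] at a2
    have a3 : (y : ℝ) ^ 3 ≤ Y' := by exact_mod_cast hyK3
    have hyr : (1 : ℝ) ≤ y := by exact_mod_cast hy1'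
    have a4 : (y : ℝ) ^ 2 ≤ Y' * V := by
      calc (y : ℝ) ^ 2 = y ^ 2 * 1 := (mul_one _).symm
        _ ≤ y ^ 2 * (y * V) := by gcongr
        _ = y ^ 3 * V := by ring
        _ ≤ Y' * V := mul_le_mul_of_nonneg_right a3 hV0.le
    calc (t : ℝ) ≤ y := a1
      _ ≤ y ^ 2 / q * (η / 4) := by
          rw [div_mul_eq_mul_div, le_div_iff₀ (by linarith)]
          nlinarith
      _ ≤ Y' * V / q * (η / 4) := by
          apply mul_le_mul_of_nonneg_right _ (by positivity)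
          exact div_le_div_of_nonneg_right a4 (by linarith)
  rw [← hq]
  have e : (1 - η) * (Y' * V) / q = Y' * V / q * (1 - 3 * η / 4) - Y' * V / q * (η / 4) := by ring
  rw [e]
  linarith

open Classical in
/-- **The classes of consecutive elements**: in every long interval the next element after an
element of the class `a` is in each of the classes with asymptotically the same frequency. -/
theorem los (c M w0 D : ℕ) (hc : 1 ≤ c) (ε : ℝ) (hε : 0 < ε) (hε1 : ε ≤ 1) :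
    ∃ (K0 y0 : ℕ) (κ : ℝ), 0 < κ ∧ ∀ y Y : ℕ, y0 ≤ y → y ^ K0 ≤ Y →
      ∀ (C : Finset ℕ) (Q : ℕ → ℕ → Prop) (Ex : ℕ → Prop), Sy c M w0 D C Q Ex →
      Vq Q y ≤ κ → ∀ a ∈ C, ∀ b ∈ C, ∀ Z : ℕ,
      |(((Ioc Z (Z + Y)).filter (fun n => (Gd Q y M C n ∧ n % M = a) ∧
          Nx (Gd Q y M C) M b n)).card : ℝ) -
        (((Ioc Z (Z + Y)).filter (fun n => Gd Q y M C n ∧ n % M = a)).card : ℝ) / C.card| ≤
        ε * (((Ioc Z (Z + Y)).filter (fun n => Gd Q y M C n ∧ n % M = a)).card : ℝ) := by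
  obtain ⟨η, hη⟩ : ∃ η : ℝ, η = ε / 2 := ⟨_, rfl⟩
  have hη0 : 0 < η := by rw [hη]; positivity
  have hη1 : η ≤ 1 := by rw [hη]; linarith
  rcases Nat.eq_zero_or_pos M with hM0 | hM1
  · refine ⟨0, 0, 1, one_pos, ?_⟩
    intro y Y _ _ C Q Ex hsy _ a ha
    have := hsy.cls ha
    rw [hM0] at this
    simp at this
  obtain ⟨K1, y1, κ, hκ, hlow⟩ := los_lower c M w0 D hc η hη0 hη1
  obtain ⟨K2, y2, hup⟩ := upper c M hc η hη0
  refine ⟨max K1 K2 + 1, max (max y1 y2) (2 * M), κ, hκ, ?_⟩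
  intro y Y hy hyY C Q Ex hsy hV a ha b hb Z
  have hy1' : 1 ≤ y := by omega
  obtain ⟨Y', hY'⟩ : ∃ Y', Y' = Y / M - 1 := ⟨_, rfl⟩
  have h2M : 2 * y ^ max K1 K2 ≤ Y / M := by
    rw [Nat.le_div_iff_mul_le hM1]
    calc 2 * y ^ max K1 K2 * M = y ^ max K1 K2 * (2 * M) := by ring
      _ ≤ y ^ max K1 K2 * y := Nat.mul_le_mul_left _ (by omega)
      _ = y ^ (max K1 K2 + 1) := (pow_succ _ _).symm
      _ ≤ Y := hyY
  have hpos : 1 ≤ y ^ max K1 K2 := Nat.one_le_pow _ _ hy1'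
  have hyY' : y ^ max K1 K2 ≤ Y' := by omega
  have hMY : M * (Y' + 1) ≤ Y := by
    rw [hY', show Y / M - 1 + 1 = Y / M by omega]
    exact Nat.mul_div_le Y M
  have hk1 : y ^ K1 ≤ Y' := (Nat.pow_le_pow_right hy1' (le_max_left _ _)).trans hyY'
  have hk2 : y ^ K2 ≤ Y' := (Nat.pow_le_pow_right hy1' (le_max_right _ _)).trans hyY'
  obtain ⟨q, hq⟩ : ∃ q, q = C.card := ⟨_, rfl⟩
  have hq2 : 2 ≤ q := by rw [hq]; exact hsy.two
  have hqr : (2 : ℝ) ≤ q := by exact_mod_cast hq2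
  have haM : a < M := mem_range.1 (hsy.cls ha)
  obtain ⟨S, hS⟩ : ∃ S, S = (Ioc Z (Z + Y)).filter (fun n => Gd Q y M C n ∧ n % M = a) := ⟨_, rfl⟩
  have hSsub : S.card ≤ ((Ioc Z (Z + Y)).filter (fun n => Sf Q y n ∧ n % M = a)).card := by
    rw [hS]
    apply card_le_card
    intro n hn
    rw [mem_filter] at hn ⊢
    exact ⟨hn.1, hn.2.1.1, hn.2.2⟩
  have hu := hup y Y' (by omega) hk2 Y (by omega) Q hsy.per hsy.adm hsy.noM Z a haM
  obtain ⟨A, hA⟩ : ∃ A : ℝ, A = S.card := ⟨_, rfl⟩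
  have hAu : A ≤ (1 + η) * (Y' * Vq Q y) := by
    rw [hA]
    refine le_trans ?_ hu
    exact_mod_cast hSsub
  have hA0 : 0 ≤ A := by rw [hA]; positivity
  obtain ⟨P, hP⟩ : ∃ P : ℕ → ℝ, P = fun b => (((Ioc Z (Z + Y)).filter
      (fun n => (Gd Q y M C n ∧ n % M = a) ∧ Nx (Gd Q y M C) M b n)).card : ℝ) := ⟨_, rfl⟩
  have hlo : ∀ b ∈ C, (1 - 2 * η) * A / q ≤ P b := by
    intro b hb
    have h1 := hlow y Y' (by omega) hk1 Y hMY C Q Ex hsy hV a ha b hb Z
    rw [← hq] at h1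
    rw [hP]
    refine le_trans ?_ h1
    apply div_le_div_of_nonneg_right _ (by linarith)
    have h2 : 0 ≤ (Y' : ℝ) * Vq Q y := mul_nonneg (Nat.cast_nonneg _) (Vq_nonneg _ _)
    have h3 : (1 - 2 * η) * A ≤ (1 - 2 * η) * ((1 + η) * (Y' * Vq Q y)) := by
      apply mul_le_mul_of_nonneg_left hAu
      rw [hη]
      linarith
    refine h3.trans ?_
    nlinarith [mul_nonneg (sq_nonneg η) h2]
  have hsum : ∑ b ∈ C, P b ≤ A := by
    rw [hP, hA]
    have h1 : ∑ b ∈ C, ((Ioc Z (Z + Y)).filter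
      (fun n => (Gd Q y M C n ∧ n % M = a) ∧ Nx (Gd Q y M C) M b n)).card ≤ S.card := by
      rw [← Finset.card_biUnion]
      · apply card_le_card
        intro n hn
        rw [mem_biUnion] at hn
        obtain ⟨b, _, hn⟩ := hn
        rw [mem_filter] at hn
        rw [hS, mem_filter]
        exact ⟨hn.1, hn.2.1⟩
      · intro b _ b' _ hne
        rw [Function.onFun, Finset.disjoint_left]
        intro n hn hn'
        rw [mem_filter] at hn hn'
        obtain ⟨m, h1, h2, h3, h4⟩ := hn.2.2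
        obtain ⟨m', h1', h2', h3', h4'⟩ := hn'.2.2
        rcases Nat.lt_trichotomy m m' with h | h | h
        · exact h4' m h1 h h2
        · exact hne (by rw [← h3, ← h3', h])
        · exact h4 m' h1' h h2'
    beta_reduce
    exact_mod_cast h1
  have hup2 : P b ≤ A / q + 2 * η * A := by
    rw [← Finset.add_sum_erase C P hb] at hsum
    have h1 := Finset.card_nsmul_le_sum (C.erase b) P ((1 - 2 * η) * A / q)
      (fun b' hb' => hlo b' (mem_of_mem_erase hb'))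
    rw [card_erase_of_mem hb, ← hq, nsmul_eq_mul, Nat.cast_sub (by omega)] at h1
    push_cast at h1
    have h2 : ((q : ℝ) - 1) * ((1 - 2 * η) * A / q) = A - A / q - 2 * η * A + 2 * η * A / q := by
      field_simp
      ring
    have h3 : 0 ≤ 2 * η * A / q := by positivity
    linarith
  have hlo2 : A / q - 2 * η * A ≤ P b := by
    refine le_trans ?_ (hlo b hb)
    have h1 : 2 * η * A / q ≤ 2 * η * A := div_le_self (by positivity) (by linarith)
    have h2 : (1 - 2 * η) * A / q = A / q - 2 * η * A / q := by ring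
    linarith
  have hPb : (((Ioc Z (Z + Y)).filter (fun n => (Gd Q y M C n ∧ n % M = a) ∧
          Nx (Gd Q y M C) M b n)).card : ℝ) = P b := by rw [hP]
  rw [hPb, ← hS, ← hq, ← hA, abs_le]
  have h2η : 2 * η = ε := by rw [hη]; ring
  rw [h2η] at hlo2 hup2
  constructor <;> linarith

end Pool.Agent.X262.LOS
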