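import Mathlib

set_option autoImplicit false

/-!
# Patterns of consecutive elements: the combinatorial part
-/

namespace Pool.Agent.X262.LOS

open Finset

/-! ### abstract counting -/

open Classical in
/-- inclusion and exclusion -/
lemma incl (Om : Finset ℕ) (A : ℕ → ℕ × ℕ → Prop) (C : Finset ℕ) (L : ℕ) (u e : ℝ)
    (hv : ∀ S : Finset (ℕ × ℕ), (∀ s ∈ S, s.1 < L ∧ s.2 ∈ C) →
      |((Om.filter (fun w => ∀ s ∈ S, A w s)).card : ℝ) - Om.card * u ^ S.card| ≤ e)
    (N : Finset (ℕ × ℕ)) : ∀ S : Finset (ℕ × ℕ), (∀ s ∈ S, s.1 < L ∧ s.2 ∈ C) →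
      (∀ s ∈ N, s.1 < L ∧ s.2 ∈ C) → Disjoint S N →
      |((Om.filter (fun w => (∀ s ∈ S, A w s) ∧ ∀ s ∈ N, ¬ A w s)).card : ℝ) -
        Om.card * (u ^ S.card * (1 - u) ^ N.card)| ≤ 2 ^ N.card * e := by
  induction N using Finset.induction_on with
  | empty =>
    intro S hS _ _
    simpa using hv S hS
  | insert v N hvN ih =>
    intro S hS hN hd
    rw [Finset.disjoint_insert_right] at hd
    have h1 := ih S hS (fun s hs => hN s (mem_insert_of_mem hs)) hd.2
    have h2 := ih (insert v S) (fun s hs => by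
      rcases mem_insert.1 hs with h | h
      · rw [h]
        exact hN v (mem_insert_self _ _)
      · exact hS s h) (fun s hs => hN s (mem_insert_of_mem hs))
      (by rw [Finset.disjoint_insert_left]; exact ⟨hvN, hd.2⟩)
    rw [card_insert_of_notMem hd.1] at h2
    rw [card_insert_of_notMem hvN]
    have h3 : ((Om.filter (fun w => (∀ s ∈ S, A w s) ∧ ∀ s ∈ insert v N, ¬ A w s)).card : ℝ) =
        ((Om.filter (fun w => (∀ s ∈ S, A w s) ∧ ∀ s ∈ N, ¬ A w s)).card : ℝ) -
        ((Om.filter (fun w => (∀ s ∈ insert v S, A w s) ∧ ∀ s ∈ N, ¬ A w s)).card : ℝ) := by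
      have h4 := Finset.card_filter_add_card_filter_not
        (s := Om.filter (fun w => (∀ s ∈ S, A w s) ∧ ∀ s ∈ N, ¬ A w s)) (fun w => A w v)
      rw [filter_filter, filter_filter] at h4
      have h5 : Om.filter (fun w => (∀ s ∈ insert v S, A w s) ∧ ∀ s ∈ N, ¬ A w s) =
          Om.filter (fun w => ((∀ s ∈ S, A w s) ∧ ∀ s ∈ N, ¬ A w s) ∧ A w v) := by
        apply Finset.filter_congr
        intro w _
        simp only [mem_insert, forall_eq_or_imp]
        tauto
      have h6 : Om.filter (fun w => (∀ s ∈ S, A w s) ∧ ∀ s ∈ insert v N, ¬ A w s) =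
          Om.filter (fun w => ((∀ s ∈ S, A w s) ∧ ∀ s ∈ N, ¬ A w s) ∧ ¬ A w v) := by
        apply Finset.filter_congr
        intro w _
        simp only [mem_insert, forall_eq_or_imp]
        tauto
      rw [h5, h6, ← h4]
      push_cast
      ring
    rw [h3]
    have a1 := abs_le.1 h1
    have a2 := abs_le.1 h2
    have e1 : (Om.card : ℝ) * (u ^ S.card * (1 - u) ^ (N.card + 1)) =
        Om.card * (u ^ S.card * (1 - u) ^ N.card) -
          Om.card * (u ^ (S.card + 1) * (1 - u) ^ N.card) := by ring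
    have e2 : (2 : ℝ) ^ (N.card + 1) * e = 2 ^ N.card * e + 2 ^ N.card * e := by ring
    rw [e1, e2, abs_le]
    constructor <;> linarith [a1.1, a1.2, a2.1, a2.2]

/-- the first hits from the slot `i` on are in the classes `bs`, with less than `K` void slots
before each of them -/
def Hp (A : ℕ × ℕ → Prop) (C : Finset ℕ) (K : ℕ) : List ℕ → ℕ → Prop
  | [], _ => True
  | b :: bs, i => ∃ g < K, (∀ j, i ≤ j → j < i + g → ∀ c ∈ C, A (j, c)) ∧
      (∀ c ∈ C, c ≠ b → A (i + g, c)) ∧ ¬ A (i + g, b) ∧ Hp A C K bs (i + g + 1)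

open Classical in
lemma hp_count (Om : Finset ℕ) (A : ℕ → ℕ × ℕ → Prop) (C : Finset ℕ) (L K : ℕ) (u e : ℝ)
    (hv : ∀ S : Finset (ℕ × ℕ), (∀ s ∈ S, s.1 < L ∧ s.2 ∈ C) →
      |((Om.filter (fun w => ∀ s ∈ S, A w s)).card : ℝ) - Om.card * u ^ S.card| ≤ e)
    (bs : List ℕ) : (∀ b ∈ bs, b ∈ C) → ∀ i : ℕ, i + bs.length * K ≤ L →
      ∀ S N : Finset (ℕ × ℕ), (∀ s ∈ S, s.1 < i ∧ s.2 ∈ C) →
      (∀ s ∈ N, s.1 < i ∧ s.2 ∈ C) → Disjoint S N →
      Om.card * (u ^ S.card * (1 - u) ^ N.card) *
          (∑ g ∈ range K, u ^ (g * C.card + (C.card - 1)) * (1 - u)) ^ bs.length -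
        K ^ bs.length * 2 ^ (N.card + bs.length) * e ≤
      ((Om.filter (fun w => (∀ s ∈ S, A w s) ∧ (∀ s ∈ N, ¬ A w s) ∧ Hp (A w) C K bs i)).card : ℝ) := by
  induction bs with
  | nil =>
    intro _ i hi S N hS hN hd
    have h1 := incl Om A C L u e hv N S (fun s hs => ⟨by have := (hS s hs).1; simp at hi; omega, (hS s hs).2⟩)
      (fun s hs => ⟨by have := (hN s hs).1; simp at hi; omega, (hN s hs).2⟩) hd
    have h2 := (abs_le.1 h1).1
    simp only [List.length_nil, pow_zero, mul_one, one_mul, add_zero, Hp, and_true]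
    linarith
  | cons b bs ih =>
    intro hb i hi S N hS hN hd
    have hbC : b ∈ C := hb b (by simp)
    have hlen : (b :: bs).length = bs.length + 1 := rfl
    rw [hlen] at hi ⊢
    have hi' : i + (bs.length * K + K) ≤ L := by
      have : (bs.length + 1) * K = bs.length * K + K := by ring
      omega
    obtain ⟨q, hq⟩ : ∃ q, q = C.card := ⟨_, rfl⟩
    rw [← hq] at ih ⊢
    -- the sets
    obtain ⟨Sg, hSg⟩ : ∃ Sg : ℕ → Finset (ℕ × ℕ), Sg = fun g =>
      (S ∪ (Ico i (i + g)) ×ˢ C) ∪ ({i + g} : Finset ℕ) ×ˢ (C.erase b) := ⟨_, rfl⟩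
    obtain ⟨Ng, hNg⟩ : ∃ Ng : ℕ → Finset (ℕ × ℕ), Ng = fun g => insert (i + g, b) N := ⟨_, rfl⟩
    have hSgmem : ∀ g s, s ∈ Sg g ↔ s ∈ S ∨ ((i ≤ s.1 ∧ s.1 < i + g) ∧ s.2 ∈ C) ∨
        (s.1 = i + g ∧ s.2 ≠ b ∧ s.2 ∈ C) := by
      intro g s
      rw [hSg]
      beta_reduce
      rw [mem_union, mem_union, mem_product, mem_product, mem_Ico, mem_singleton, mem_erase]
      tauto
    have hScard : ∀ g, (Sg g).card = S.card + (g * q + (q - 1)) := by
      intro g
      rw [hSg]
      beta_reduce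
      rw [card_union_of_disjoint, card_union_of_disjoint, card_product, card_product, Nat.card_Ico,
        card_singleton, card_erase_of_mem hbC, hq]
      · have : i + g - i = g := by omega
        rw [this]
        ring
      · rw [Finset.disjoint_left]
        intro s h1 h2
        rw [mem_product, mem_Ico] at h2
        have := (hS s h1).1
        omega
      · rw [Finset.disjoint_left]
        intro s h1 h2
        rw [mem_product, mem_singleton] at h2
        rcases mem_union.1 h1 with h3 | h3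
        · have := (hS s h3).1
          omega
        · rw [mem_product, mem_Ico] at h3
          omega
    have hNcard : ∀ g, (Ng g).card = N.card + 1 := by
      intro g
      rw [hNg]
      beta_reduce
      rw [card_insert_of_notMem]
      intro h
      have := (hN _ h).1
      simp at this
    have hone : ∀ g ∈ range K,
        Om.card * (u ^ S.card * (1 - u) ^ N.card) * (u ^ (g * q + (q - 1)) * (1 - u)) *
          (∑ g ∈ range K, u ^ (g * q + (q - 1)) * (1 - u)) ^ bs.length -
        K ^ bs.length * 2 ^ (N.card + 1 + bs.length) * e ≤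
        ((Om.filter (fun w => (∀ s ∈ Sg g, A w s) ∧ (∀ s ∈ Ng g, ¬ A w s) ∧
          Hp (A w) C K bs (i + g + 1))).card : ℝ) := by
      intro g hg
      rw [mem_range] at hg
      have h1 := ih (fun c hc => hb c (by simp [hc])) (i + g + 1) (by omega) (Sg g) (Ng g) (by
        intro s hs
        rw [hSgmem] at hs
        rcases hs with h | h | h
        · exact ⟨by have := (hS s h).1; omega, (hS s h).2⟩
        · exact ⟨by omega, h.2⟩
        · exact ⟨by omega, h.2.2⟩) (by
        intro s hs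
        rw [hNg] at hs
        rcases mem_insert.1 hs with h | h
        · rw [h]
          exact ⟨by simp, hbC⟩
        · exact ⟨by have := (hN s h).1; omega, (hN s h).2⟩) (by
        rw [Finset.disjoint_left]
        intro s h1 h2
        rw [hSgmem] at h1
        rw [hNg] at h2
        rcases mem_insert.1 h2 with h | h
        · rw [h] at h1
          rcases h1 with h3 | h3 | h3
          · have := (hS _ h3).1
            simp at this
          · simp at h3
          · simp at h3
        · have h4 := (hN s h).1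
          rcases h1 with h3 | h3 | h3
          · exact Finset.disjoint_left.1 hd h3 h
          · omega
          · omega)
      rw [hScard, hNcard] at h1
      refine le_trans (le_of_eq ?_) h1
      rw [pow_add u S.card, pow_succ (1 - u) N.card]
      ring
    have hsum := Finset.sum_le_sum hone
    rw [Finset.sum_sub_distrib, Finset.sum_const, card_range, nsmul_eq_mul] at hsum
    have e1 : ∑ g ∈ range K, Om.card * (u ^ S.card * (1 - u) ^ N.card) *
        (u ^ (g * q + (q - 1)) * (1 - u)) *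
          (∑ g ∈ range K, u ^ (g * q + (q - 1)) * (1 - u)) ^ bs.length =
        Om.card * (u ^ S.card * (1 - u) ^ N.card) *
          (∑ g ∈ range K, u ^ (g * q + (q - 1)) * (1 - u)) ^ (bs.length + 1) := by
      rw [← Finset.sum_mul, ← Finset.mul_sum]
      ring
    rw [e1] at hsum
    have e2 : (K : ℝ) ^ (bs.length + 1) * 2 ^ (N.card + (bs.length + 1)) * e =
        K * (K ^ bs.length * 2 ^ (N.card + 1 + bs.length) * e) := by
      rw [show N.card + (bs.length + 1) = N.card + 1 + bs.length by ring]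
      ring
    rw [e2]
    refine hsum.trans ?_
    -- disjointness
    have hdis : ∑ g ∈ range K, (Om.filter (fun w => (∀ s ∈ Sg g, A w s) ∧ (∀ s ∈ Ng g, ¬ A w s) ∧
          Hp (A w) C K bs (i + g + 1))).card ≤
        (Om.filter (fun w => (∀ s ∈ S, A w s) ∧ (∀ s ∈ N, ¬ A w s) ∧ Hp (A w) C K (b :: bs) i)).card := by
      rw [← Finset.card_biUnion]
      · apply card_le_card
        intro w hw
        rw [mem_biUnion] at hw
        obtain ⟨g, hg, hw⟩ := hw
        rw [mem_filter] at hw ⊢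
        obtain ⟨h1, h2, h3, h4⟩ := hw
        refine ⟨h1, fun s hs => h2 s ((hSgmem g s).2 (Or.inl hs)), fun s hs => h3 s (by
          rw [hNg]
          exact mem_insert_of_mem hs), ?_⟩
        refine ⟨g, mem_range.1 hg, ?_, ?_, ?_, h4⟩
        · intro j hj1 hj2 c hc
          exact h2 (j, c) ((hSgmem g _).2 (Or.inr (Or.inl ⟨⟨hj1, hj2⟩, hc⟩)))
        · intro c hc hcb
          exact h2 (i + g, c) ((hSgmem g _).2 (Or.inr (Or.inr ⟨rfl, hcb, hc⟩)))
        · exact h3 (i + g, b) (by rw [hNg]; exact mem_insert_self _ _)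
      · have key : ∀ g g', g < g' → Disjoint (Om.filter (fun w => (∀ s ∈ Sg g, A w s) ∧
            (∀ s ∈ Ng g, ¬ A w s) ∧ Hp (A w) C K bs (i + g + 1)))
            (Om.filter (fun w => (∀ s ∈ Sg g', A w s) ∧ (∀ s ∈ Ng g', ¬ A w s) ∧
              Hp (A w) C K bs (i + g' + 1))) := by
          intro g g' hgg
          rw [Finset.disjoint_left]
          intro w hw hw'
          rw [mem_filter] at hw hw'
          apply hw.2.2.1 (i + g, b) (by rw [hNg]; exact mem_insert_self _ _)
          exact hw'.2.1 (i + g, b) ((hSgmem g' _).2 (Or.inr (Or.inl ⟨⟨by simp, by simp; omega⟩, hbC⟩)))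
        intro g _ g' _ hne
        rcases Nat.lt_or_gt_of_ne hne with h | h
        · exact key g g' h
        · exact (key g' g h).symm
    exact_mod_cast hdis

/-! ### from the cells to the elements -/

/-- the next elements after `n` are in the classes `bs` -/
def Nxs (G : ℕ → Prop) (M : ℕ) : List ℕ → ℕ → Prop
  | [], _ => True
  | b :: bs, n => ∃ n', n < n' ∧ G n' ∧ n' % M = b ∧ (∀ m, n < m → m < n' → ¬ G m) ∧ Nxs G M bs n'

/-- the cell number `i` in the class `c` contains no element -/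
def Vd (G : ℕ → Prop) (M t x : ℕ) (s : ℕ × ℕ) : Prop :=
  ∀ h, s.1 * t < h → h ≤ (s.1 + 1) * t → (x + h) % M = s.2 → ¬ G (x + h)

lemma cell_iff' (t h i : ℕ) (ht : 1 ≤ t) (hh : 1 ≤ h) :
    (h - 1) / t = i ↔ i * t < h ∧ h ≤ (i + 1) * t := by
  rw [Nat.div_eq_iff (by omega)]
  have h1 : (i + 1) * t = i * t + t := by ring
  rw [h1]
  constructor
  · rintro ⟨a, b⟩
    constructor <;> omega
  · rintro ⟨a, b⟩
    constructor <;> omega

open Classical in
lemma hp_nxs (G : ℕ → Prop) (M t x L K : ℕ) (C : Finset ℕ) (ht : 1 ≤ t) (hG : ∀ n, G n → n % M ∈ C)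
    (hsim : ∀ j < L, ((Ioc (j * t) ((j + 1) * t)).filter (fun h => G (x + h))).card < 2)
    (bs : List ℕ) : ∀ i n : ℕ, i + bs.length * K ≤ L → n ≤ x + i * t →
      (∀ m, n < m → m ≤ x + i * t → ¬ G m) → Hp (Vd G M t x) C K bs i → Nxs G M bs n := by
  induction bs with
  | nil =>
    intro i n _ _ _ _
    trivial
  | cons b bs ih =>
    intro i n hi hn hno hHp
    obtain ⟨g, hg, h1, h2, h3, h4⟩ := hHp
    have hlen : (b :: bs).length = bs.length + 1 := rfl
    rw [hlen] at hi
    have hi' : i + (bs.length * K + K) ≤ L := by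
      have : (bs.length + 1) * K = bs.length * K + K := by ring
      omega
    have hgL : i + g < L := by omega
    unfold Vd at h3
    push Not at h3
    obtain ⟨h, a1, a2, a3, a4⟩ := h3
    simp only at a1 a2 a3
    have hit : i * t ≤ (i + g) * t := Nat.mul_le_mul_right t (by omega)
    have huniq : ∀ h', (i + g) * t < h' → h' ≤ (i + g + 1) * t → G (x + h') → h' = h := by
      intro h' b1 b2 b3
      by_contra hne
      have b4 := hsim (i + g) hgL
      have b5 : ({h', h} : Finset ℕ) ⊆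
          (Ioc ((i + g) * t) ((i + g + 1) * t)).filter (fun h => G (x + h)) := by
        intro z hz
        rw [mem_insert, mem_singleton] at hz
        rw [mem_filter, mem_Ioc]
        rcases hz with hz | hz
        · rw [hz]
          exact ⟨⟨b1, b2⟩, b3⟩
        · rw [hz]
          exact ⟨⟨a1, a2⟩, a4⟩
      have b6 := card_le_card b5
      rw [card_pair hne] at b6
      omega
    refine ⟨x + h, by omega, a4, a3, ?_, ?_⟩
    · intro m hm1 hm2 hGm
      by_cases hm3 : m ≤ x + i * t
      · exact hno m hm1 hm3 hGm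
      · obtain ⟨h', rfl⟩ : ∃ h', m = x + h' := ⟨m - x, by omega⟩
        have c1 : 1 ≤ h' := by omega
        obtain ⟨j, hj⟩ : ∃ j, j = (h' - 1) / t := ⟨_, rfl⟩
        have c2 := (cell_iff' t h' j ht c1).1 hj.symm
        have c3 : i ≤ j := by
          by_contra hlt
          have : (j + 1) * t ≤ i * t := Nat.mul_le_mul_right t (by omega)
          omega
        have c4 : j ≤ i + g := by
          by_contra hlt
          have : (i + g + 1) * t ≤ j * t := Nat.mul_le_mul_right t (by omega)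
          omega
        rcases Nat.lt_or_ge j (i + g) with h5 | h5
        · exact h1 j c3 h5 _ (hG _ hGm) h' c2.1 c2.2 rfl hGm
        · have h6 : j = i + g := by omega
          rw [h6] at c2
          have := huniq h' c2.1 c2.2 hGm
          omega
    · apply ih (i + g + 1) (x + h) (by omega) (by omega) _ h4
      intro m hm1 hm2 hGm
      obtain ⟨h', rfl⟩ : ∃ h', m = x + h' := ⟨m - x, by omega⟩
      have := huniq h' (by omega) (by omega) hGm
      omega

/-- the back event: exactly one cell in the first `R` slots is hit, and it is in the class `a` -/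
def Bk (A : ℕ × ℕ → Prop) (C : Finset ℕ) (R a i0 : ℕ) : Prop :=
  (∀ s ∈ ((range R) ×ˢ C).erase (i0, a), A s) ∧ (∀ s ∈ ({(i0, a)} : Finset (ℕ × ℕ)), ¬ A s)

open Classical in
lemma bk_pair (G : ℕ → Prop) (M t x L K R a i0 : ℕ) (C : Finset ℕ) (ht : 1 ≤ t)
    (hG : ∀ n, G n → n % M ∈ C)
    (hsim : ∀ j < L, ((Ioc (j * t) ((j + 1) * t)).filter (fun h => G (x + h))).card < 2)
    (hi0 : i0 < R) (bs : List ℕ) (hL : R + bs.length * K ≤ L)
    (hB : Bk (Vd G M t x) C R a i0) (hH : Hp (Vd G M t x) C K bs R) :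
    ∃ n, x < n ∧ n ≤ x + R * t ∧ (G n ∧ n % M = a) ∧ Nxs G M bs n := by
  obtain ⟨h1, h2⟩ := hB
  have h3 := h2 (i0, a) (mem_singleton_self _)
  unfold Vd at h3
  push Not at h3
  obtain ⟨h, a1, a2, a3, a4⟩ := h3
  simp only at a1 a2 a3
  have hiR : (i0 + 1) * t ≤ R * t := Nat.mul_le_mul_right t hi0
  refine ⟨x + h, by omega, by omega, ⟨a4, a3⟩, ?_⟩
  apply hp_nxs G M t x L K C ht hG hsim bs R (x + h) hL (by omega) _ hH
  intro m hm1 hm2 hGm
  obtain ⟨h', rfl⟩ : ∃ h', m = x + h' := ⟨m - x, by omega⟩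
  have c1 : 1 ≤ h' := by omega
  obtain ⟨j, hj⟩ : ∃ j, j = (h' - 1) / t := ⟨_, rfl⟩
  have c2 := (cell_iff' t h' j ht c1).1 hj.symm
  have c3 : j < R := by
    by_contra hlt
    have : R * t ≤ j * t := Nat.mul_le_mul_right t (by omega)
    omega
  by_cases hja : j = i0
  · rw [hja] at c2
    have b4 := hsim i0 (by omega)
    have b5 : ({h', h} : Finset ℕ) ⊆
        (Ioc (i0 * t) ((i0 + 1) * t)).filter (fun h => G (x + h)) := by
      intro z hz
      rw [mem_insert, mem_singleton] at hz
      rw [mem_filter, mem_Ioc]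
      rcases hz with hz | hz
      · rw [hz]
        exact ⟨c2, hGm⟩
      · rw [hz]
        exact ⟨⟨a1, a2⟩, a4⟩
    have b6 := card_le_card b5
    rw [card_pair (by omega)] at b6
    omega
  · have h5 := h1 (j, (x + h') % M) (by
      rw [mem_erase, mem_product, mem_range]
      exact ⟨fun h6 => hja (Prod.mk.inj h6).1, c3, hG _ hGm⟩)
    exact h5 h' c2.1 c2.2 rfl hGm

open Classical in
/-- the number of the base points of the events -/
lemma bk_count (G : ℕ → Prop) (M t L K R a Z Y : ℕ) (C : Finset ℕ) (ht : 1 ≤ t)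
    (hG : ∀ n, G n → n % M ∈ C) (bs : List ℕ) (hL : R + bs.length * K ≤ L) :
    ((Ioc Z (Z + Y)).filter (fun x => (∃ i0 < R, Bk (Vd G M t x) C R a i0 ∧
      Hp (Vd G M t x) C K bs R) ∧
      ∀ j < L, ((Ioc (j * t) ((j + 1) * t)).filter (fun h => G (x + h))).card < 2)).card ≤
      (R * t) * (((Ioc Z (Z + Y)).filter (fun n => (G n ∧ n % M = a) ∧ Nxs G M bs n)).card + R * t) := by
  obtain ⟨S, hS⟩ : ∃ S, S = (Ioc Z (Z + Y)).filter (fun x => (∃ i0 < R, Bk (Vd G M t x) C R a i0 ∧
      Hp (Vd G M t x) C K bs R) ∧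
      ∀ j < L, ((Ioc (j * t) ((j + 1) * t)).filter (fun h => G (x + h))).card < 2) := ⟨_, rfl⟩
  have hex : ∀ x ∈ S, ∃ n, x < n ∧ n ≤ x + R * t ∧ (G n ∧ n % M = a) ∧ Nxs G M bs n := by
    intro x hx
    rw [hS, mem_filter] at hx
    obtain ⟨_, ⟨i0, hi0, hB, hH⟩, hsim⟩ := hx
    exact bk_pair G M t x L K R a i0 C ht hG hsim hi0 bs hL hB hH
  choose! f hf using hex
  obtain ⟨T, hT⟩ : ∃ T, T = R * t := ⟨_, rfl⟩
  rw [← hT] at hf ⊢
  obtain ⟨W, hW⟩ : ∃ W, W = (Ioc Z (Z + Y + T)).filter (fun n => (G n ∧ n % M = a) ∧ Nxs G M bs n) :=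
    ⟨_, rfl⟩
  have hmaps : ∀ x ∈ S, f x ∈ W := by
    intro x hx
    obtain ⟨h1, h2, h3, h4⟩ := hf x hx
    rw [hS, mem_filter, mem_Ioc] at hx
    rw [hW, mem_filter, mem_Ioc]
    exact ⟨⟨by omega, by omega⟩, h3, h4⟩
  have h1 := Finset.card_le_mul_card_image_of_maps_to hmaps T (by
    intro n _
    have : S.filter (fun x => f x = n) ⊆ Ico (n - T) n := by
      intro x hx
      rw [mem_filter] at hx
      obtain ⟨h1, h2, _⟩ := hf x hx.1
      rw [hx.2] at h1 h2
      rw [mem_Ico]
      omega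
    refine (card_le_card this).trans ?_
    rw [Nat.card_Ico]
    omega)
  rw [← hS]
  refine h1.trans (Nat.mul_le_mul_left _ ?_)
  rw [hW]
  have h2 : (Ioc Z (Z + Y + T)).filter (fun n => (G n ∧ n % M = a) ∧ Nxs G M bs n) ⊆
      (Ioc Z (Z + Y)).filter (fun n => (G n ∧ n % M = a) ∧ Nxs G M bs n) ∪ Ioc (Z + Y) (Z + Y + T) := by
    intro n hn
    rw [mem_filter, mem_Ioc] at hn
    rw [mem_union, mem_filter, mem_Ioc, mem_Ioc]
    by_cases h : n ≤ Z + Y
    · exact Or.inl ⟨⟨hn.1.1, h⟩, hn.2⟩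
    · exact Or.inr ⟨by omega, hn.1.2⟩
  refine (card_le_card h2).trans ((card_union_le _ _).trans ?_)
  rw [Nat.card_Ioc]
  omega

open Classical in
/-- splitting the base points according to the class -/
lemma split_bases (P : ℕ → Prop) (M Z Y Y' : ℕ) (hY : M * (Y' + 1) ≤ Y) :
    ∑ i ∈ Icc 1 M, ((Icc 1 Y').filter (fun m => P (Z + i + M * m))).card ≤
      ((Ioc Z (Z + Y)).filter P).card := by
  have h2 : ∑ i ∈ Icc 1 M, ((Icc 1 Y').filter (fun m => P (Z + i + M * m))).card =
      (((Icc 1 M) ×ˢ (Icc 1 Y')).filter (fun z => P (Z + z.1 + M * z.2))).card := by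
    rw [Finset.card_filter, Finset.sum_product]
    apply Finset.sum_congr rfl
    intro i _
    rw [Finset.card_filter]
  rw [h2]
  apply Finset.card_le_card_of_injOn (fun z => Z + z.1 + M * z.2)
  · intro z hz
    rw [mem_coe, mem_filter, mem_product, mem_Icc, mem_Icc] at hz
    rw [mem_coe, mem_filter, mem_Ioc]
    beta_reduce
    refine ⟨⟨by omega, ?_⟩, hz.2⟩
    have h3 : M * z.2 ≤ M * Y' := Nat.mul_le_mul_left M hz.1.2.2
    have h4 : M * (Y' + 1) = M * Y' + M := by ring
    omega
  · intro z hz z' hz' he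
    rw [mem_coe, mem_filter, mem_product, mem_Icc, mem_Icc] at hz hz'
    simp only at he
    have h3 : z.1 + M * z.2 = z'.1 + M * z'.2 := by omega
    have h4 : z.2 = z'.2 := by
      rcases Nat.lt_trichotomy z.2 z'.2 with h | h | h
      · have h5 : M * (z.2 + 1) ≤ M * z'.2 := Nat.mul_le_mul_left M h
        have h6 : M * (z.2 + 1) = M * z.2 + M := by ring
        omega
      · exact h
      · have h5 : M * (z'.2 + 1) ≤ M * z.2 := Nat.mul_le_mul_left M h
        have h6 : M * (z'.2 + 1) = M * z'.2 + M := by ring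
        omega
    ext
    · rw [h4] at h3
      omega
    · exact h4

end Pool.Agent.X262.LOS
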