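import Pool.Agent.X262.LOS.Cells
import Pool.Agent.X262.LOS.Pat
import Pool.Agent.X262.LOS.Main

set_option autoImplicit false

/-!
# The patterns of the residue classes of consecutive sifted integers
-/

namespace Pool.Agent.X262.LOS

open Finset Filter Pool.Agent.H373R2.T7 Pool.Agent.W123.RP Pool.Agent.W123.RU
open Pool.Agent.TH464.PO Pool.Agent.Y879.AP

/-- the probability of the right class at the next hit -/
lemma rho_low (τ u : ℝ) (q K : ℕ) (hτ : 0 < τ) (hu : u = Real.exp (-τ)) (hq : 1 ≤ q) (hK : 1 ≤ K) :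
    (1 - (τ * q + 1 / (τ * K))) / q ≤ ∑ g ∈ range K, u ^ (g * q + (q - 1)) * (1 - u) := by
  have hqr : (1 : ℝ) ≤ q := by exact_mod_cast hq
  have hKr : (1 : ℝ) ≤ K := by exact_mod_cast hK
  have hu0 : 0 < u := by rw [hu]; exact Real.exp_pos _
  have hu1 : u < 1 := by
    rw [hu, ← Real.exp_zero]
    exact Real.exp_lt_exp.2 (by linarith)
  obtain ⟨r, hr⟩ : ∃ r : ℝ, r = u ^ q := ⟨_, rfl⟩
  have hr0 : 0 < r := by rw [hr]; positivity
  have hr1 : r < 1 := by rw [hr]; exact pow_lt_one₀ hu0.le hu1 (by omega)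
  have hterm : ∀ g ∈ range K, u ^ (g * q + (q - 1)) * (1 - u) = (u ^ (q - 1) * (1 - u)) * r ^ g := by
    intro g _
    rw [hr, ← pow_mul, pow_add, mul_comm g q]
    ring
  rw [Finset.sum_congr rfl hterm, ← Finset.mul_sum]
  have hgeo := mul_neg_geom_sum r K
  have h1 : 1 - r ≤ q * (1 - u) := by
    have := one_add_mul_le_pow (a := u - 1) (by linarith) q
    rw [show 1 + (u - 1) = u by ring, ← hr] at this
    linarith
  have hrK : r ^ K ≤ 1 / (τ * K) := by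
    rw [hr, ← pow_mul, hu, ← Real.exp_nat_mul]
    have a1 : Real.exp (((q * K : ℕ) : ℝ) * -τ) * Real.exp (((q * K : ℕ) : ℝ) * τ) = 1 := by
      rw [← Real.exp_add]
      rw [show ((q * K : ℕ) : ℝ) * -τ + ((q * K : ℕ) : ℝ) * τ = 0 by ring, Real.exp_zero]
    have a2 := Real.add_one_le_exp (((q * K : ℕ) : ℝ) * τ)
    have a3 := Real.exp_pos (((q * K : ℕ) : ℝ) * -τ)
    rw [le_div_iff₀ (by positivity), ← a1]
    apply mul_le_mul_of_nonneg_left _ a3.le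
    refine le_trans ?_ a2
    push_cast
    nlinarith [mul_pos hτ (by linarith : (0 : ℝ) < K)]
  have hsum0 : 0 ≤ ∑ g ∈ range K, r ^ g := Finset.sum_nonneg fun _ _ => by positivity
  have hup : τ * (q - 1) ≥ 0 := mul_nonneg hτ.le (by linarith)
  have hu2 : 1 - τ * q ≤ u ^ (q - 1) := by
    rw [hu, ← Real.exp_nat_mul]
    have a1 := Real.add_one_le_exp (((q - 1 : ℕ) : ℝ) * -τ)
    have a2 : ((q - 1 : ℕ) : ℝ) = (q : ℝ) - 1 := by
      rw [Nat.cast_sub hq]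
      simp
    rw [a2] at a1 ⊢
    linarith
  have hrK0 : 0 ≤ r ^ K := by positivity
  have hrK1 : r ^ K ≤ 1 := pow_le_one₀ hr0.le hr1.le
  have h2 : 1 - r ^ K ≤ q * ((1 - u) * ∑ g ∈ range K, r ^ g) := by
    rw [← hgeo]
    have := mul_le_mul_of_nonneg_right h1 hsum0
    linarith
  rw [div_le_iff₀ (by linarith)]
  calc 1 - (τ * q + 1 / (τ * K)) ≤ (1 - τ * q) * (1 - r ^ K) := by
        nlinarith [mul_nonneg (mul_nonneg hτ.le (by linarith : (0 : ℝ) ≤ q)) hrK0]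
    _ ≤ u ^ (q - 1) * (q * ((1 - u) * ∑ g ∈ range K, r ^ g)) := by
        apply mul_le_mul hu2 h2 (by linarith) (by positivity)
    _ = u ^ (q - 1) * (1 - u) * ∑ g ∈ range K, r ^ g * q := by
        rw [← Finset.sum_mul]
        ring
    _ = _ := by
        rw [← Finset.sum_mul]
        ring

/-- the numbers -/
lemma numbers (M l : ℕ) (hM : 1 ≤ M) (η : ℝ) (hη : 0 < η) (hη1 : η ≤ 1) :
    ∃ (R K : ℕ) (τ ε : ℝ), 1 ≤ R ∧ 1 ≤ K ∧ 0 < τ ∧ 0 < ε ∧ ε ≤ τ ∧ ∀ (q : ℕ) (τ' u : ℝ), 1 ≤ q →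
      q ≤ M → τ / 2 ≤ τ' → τ' ≤ τ → u = Real.exp (-τ') →
      1 / (q : ℝ) ^ l - η ≤ (R * (u ^ (R * q - 1) * (1 - u) *
        (∑ g ∈ range K, u ^ (g * q + (q - 1)) * (1 - u)) ^ l - K ^ l * 2 ^ (1 + l) * ε) -
          (R + l * K : ℕ) * ((q * τ' + ε) ^ 2 + ε)) / (R * τ') := by
  have hMr : (1 : ℝ) ≤ M := by exact_mod_cast hM
  have hl0 : (0 : ℝ) ≤ l := Nat.cast_nonneg l
  obtain ⟨B, hB⟩ : ∃ B : ℝ, B = M + 1 := ⟨_, rfl⟩
  have hB1 : 1 ≤ B := by rw [hB]; linarith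
  obtain ⟨Λ, hΛ⟩ : ∃ Λ : ℝ, Λ = 16 * (l + 1) / η + 1 := ⟨_, rfl⟩
  have hΛ0 : 0 < Λ := by rw [hΛ]; positivity
  obtain ⟨R0, hR0⟩ : ∃ R0 : ℕ, 8 * l * Λ * B ^ 2 / η ≤ R0 := exists_nat_ge _
  obtain ⟨R, hR⟩ : ∃ R : ℕ, R = R0 + 1 := ⟨_, rfl⟩
  have hR1 : 1 ≤ R := by omega
  have hRr : (1 : ℝ) ≤ R := by exact_mod_cast hR1
  have hRbig : l * B ^ 2 * Λ ≤ η / 8 * R := by
    have h1 : (R0 : ℝ) ≤ R := by exact_mod_cast (by omega : R0 ≤ R)
    have h2 := hR0.trans h1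
    rw [div_le_iff₀ hη] at h2
    linarith
  obtain ⟨Dn, hDn⟩ : ∃ Dn : ℝ, Dn = R * M + (l + 1) * M + B ^ 2 + 1 := ⟨_, rfl⟩
  have hDn1 : 1 ≤ Dn := by
    rw [hDn]
    have : 0 ≤ (R : ℝ) * M + (l + 1) * M + B ^ 2 := by positivity
    linarith
  obtain ⟨τ, hτ⟩ : ∃ τ : ℝ, τ = η / (8 * Dn) := ⟨_, rfl⟩
  have hτ0 : 0 < τ := by rw [hτ]; positivity
  have hτD : τ * Dn = η / 8 := by
    rw [hτ]
    field_simp
  have hτ1 : τ ≤ η / 8 := by nlinarith
  have hτRM : τ * (R * M) ≤ η / 8 := by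
    rw [← hτD]
    apply mul_le_mul_of_nonneg_left _ hτ0.le
    rw [hDn]
    have : 0 ≤ ((l : ℝ) + 1) * M + B ^ 2 + 1 := by positivity
    linarith
  have hτlM : τ * ((l + 1) * M) ≤ η / 8 := by
    rw [← hτD]
    apply mul_le_mul_of_nonneg_left _ hτ0.le
    rw [hDn]
    have : 0 ≤ (R : ℝ) * M + B ^ 2 + 1 := by positivity
    linarith
  have hτB : τ * B ^ 2 ≤ η / 8 := by
    rw [← hτD]
    apply mul_le_mul_of_nonneg_left _ hτ0.le
    rw [hDn]
    have : 0 ≤ (R : ℝ) * M + (l + 1) * M + 1 := by positivity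
    linarith
  obtain ⟨K, hK⟩ : ∃ K : ℕ, K = ⌈16 * (l + 1) / (η * τ)⌉₊ := ⟨_, rfl⟩
  have hKpos : 0 < 16 * ((l : ℝ) + 1) / (η * τ) := by positivity
  have hK1 : 1 ≤ K := by
    rw [hK]
    exact Nat.ceil_pos.2 hKpos
  have hKr : (1 : ℝ) ≤ K := by exact_mod_cast hK1
  have hKlow : 16 * ((l : ℝ) + 1) ≤ η * (τ * K) := by
    have h1 : 16 * ((l : ℝ) + 1) / (η * τ) ≤ K := by rw [hK]; exact Nat.le_ceil _
    rw [div_le_iff₀ (by positivity)] at h1
    linarith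
  have hKup : τ * K ≤ Λ := by
    have h1 : (K : ℝ) ≤ 16 * ((l : ℝ) + 1) / (η * τ) + 1 := by
      rw [hK]
      exact (Nat.ceil_lt_add_one hKpos.le).le
    have h2 := mul_le_mul_of_nonneg_left h1 hτ0.le
    have h3 : τ * (16 * ((l : ℝ) + 1) / (η * τ) + 1) = 16 * (l + 1) / η + τ := by
      field_simp
    rw [h3] at h2
    rw [hΛ]
    linarith
  obtain ⟨E, hE⟩ : ∃ E : ℝ, E = (K : ℝ) ^ l * 2 ^ (1 + l) + (R + l * K) := ⟨_, rfl⟩
  have hE1 : 1 ≤ E := by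
    rw [hE]
    have h1 : 0 ≤ (K : ℝ) ^ l * 2 ^ (1 + l) := by positivity
    have h2 : 0 ≤ (l : ℝ) * K := by positivity
    linarith
  obtain ⟨ε, hε⟩ : ∃ ε : ℝ, ε = η * τ / (16 * E) := ⟨_, rfl⟩
  have hε0 : 0 < ε := by rw [hε]; positivity
  have hεE : ε * E = η * τ / 16 := by
    rw [hε]
    field_simp
  have hετ : ε ≤ τ / 16 := by nlinarith
  refine ⟨R, K, τ, ε, hR1, hK1, hτ0, hε0, by linarith, ?_⟩
  intro q τ' u hq hqM h1 h2 hu
  have hqr : (1 : ℝ) ≤ q := by exact_mod_cast hq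
  have hqMr : (q : ℝ) ≤ M := by exact_mod_cast hqM
  have hτ'0 : 0 < τ' := by linarith
  have hu0 : 0 < u := by rw [hu]; exact Real.exp_pos _
  have hu1 : u < 1 := by
    rw [hu, ← Real.exp_zero]
    exact Real.exp_lt_exp.2 (by linarith)
  obtain ⟨ρ, hρ⟩ : ∃ ρ : ℝ, ρ = ∑ g ∈ range K, u ^ (g * q + (q - 1)) * (1 - u) := ⟨_, rfl⟩
  have hτ'q : τ' * q ≤ τ * M := mul_le_mul h2 hqMr (by linarith) hτ0.le
  have hlM : τ * M ≤ η / 8 / (l + 1) := by
    rw [le_div_iff₀ (by positivity)]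
    linarith
  have hl1 : η / 8 / ((l : ℝ) + 1) ≤ 1 / 8 := by
    rw [div_le_iff₀ (by positivity)]
    nlinarith
  have hρlow := rho_low τ' u q K hτ'0 hu hq hK1
  rw [← hρ] at hρlow ⊢
  have hKlow' : 1 / (τ' * K) ≤ η / 8 / (l + 1) := by
    rw [div_le_div_iff₀ (by positivity) (by positivity)]
    have : τ / 2 * K ≤ τ' * K := mul_le_mul_of_nonneg_right h1 (by linarith)
    nlinarith
  obtain ⟨δ, hδ⟩ : ∃ δ : ℝ, δ = τ' * q + 1 / (τ' * K) := ⟨_, rfl⟩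
  rw [← hδ] at hρlow
  have hδ1 : δ ≤ η / 4 / (l + 1) := by
    have : η / 4 / ((l : ℝ) + 1) = η / 8 / (l + 1) + η / 8 / (l + 1) := by
      field_simp
      norm_num
    rw [hδ, this]
    linarith
  have hδ0 : 0 ≤ δ := by rw [hδ]; positivity
  have hδl : l * δ ≤ η / 4 := by
    have h3 : (l : ℝ) * δ ≤ (l + 1) * (η / 4 / (l + 1)) := mul_le_mul (by linarith) hδ1 hδ0 (by linarith)
    have h4 : ((l : ℝ) + 1) * (η / 4 / (l + 1)) = η / 4 := by field_simp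
    linarith
  have hδ2 : δ ≤ 1 := by linarith
  have hρl : (1 - η / 4) / (q : ℝ) ^ l ≤ ρ ^ l := by
    have h3 : ((1 - δ) / q) ^ l ≤ ρ ^ l :=
      pow_le_pow_left₀ (div_nonneg (by linarith) (by linarith)) hρlow l
    rw [div_pow] at h3
    refine le_trans ?_ h3
    apply div_le_div_of_nonneg_right _ (by positivity)
    have h4 := one_add_mul_le_pow (a := -δ) (by linarith) l
    rw [show 1 + -δ = 1 - δ by ring] at h4
    linarith
  have hexp1 : τ' * (1 - τ') ≤ 1 - u := by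
    have a1 : u * Real.exp τ' = 1 := by
      rw [hu, ← Real.exp_add]
      simp
    have a2 := Real.add_one_le_exp τ'
    have a4 : u * (1 + τ') ≤ 1 := by nlinarith
    by_contra a5
    rw [not_le] at a5
    have a6 : (1 - τ' + τ' ^ 2) * (1 + τ') < u * (1 + τ') :=
      mul_lt_mul_of_pos_right (by linarith) (by linarith)
    have a7 : (1 - τ' + τ' ^ 2) * (1 + τ') = 1 + τ' ^ 3 := by ring
    have a8 : 0 < τ' ^ 3 := pow_pos hτ'0 3
    linarith
  have hupow : 1 - τ' * (R * q) ≤ u ^ (R * q - 1) := by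
    rw [hu, ← Real.exp_nat_mul]
    have a1 := Real.add_one_le_exp (((R * q - 1 : ℕ) : ℝ) * -τ')
    have a2 : ((R * q - 1 : ℕ) : ℝ) = (R : ℝ) * q - 1 := by
      rw [Nat.cast_sub (Nat.mul_pos hR1 hq)]
      push_cast
      ring
    rw [a2] at a1 ⊢
    linarith
  have hRq : τ' * (R * q) ≤ η / 8 := by
    refine le_trans ?_ hτRM
    apply mul_le_mul h2 _ (by positivity) hτ0.le
    exact mul_le_mul_of_nonneg_left hqMr (by linarith)
  -- the main term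
  have hT1 : 1 / (q : ℝ) ^ l - η / 2 ≤ u ^ (R * q - 1) * (1 - u) * ρ ^ l / τ' := by
    have a1 : (1 - η / 8) * (1 - η / 8) ≤ u ^ (R * q - 1) * ((1 - u) / τ') := by
      apply mul_le_mul (by linarith) _ (by linarith) (by positivity)
      rw [le_div_iff₀ hτ'0]
      refine le_trans ?_ hexp1
      rw [mul_comm]
      apply mul_le_mul_of_nonneg_left _ hτ'0.le
      linarith
    have a2 : (1 - η / 8) * (1 - η / 8) * ((1 - η / 4) / (q : ℝ) ^ l) ≤
        u ^ (R * q - 1) * ((1 - u) / τ') * ρ ^ l := by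
      apply mul_le_mul a1 hρl
      · apply div_nonneg (by linarith) (by positivity)
      · apply mul_nonneg (by positivity) (div_nonneg (by linarith) hτ'0.le)
    have a3 : u ^ (R * q - 1) * ((1 - u) / τ') * ρ ^ l = u ^ (R * q - 1) * (1 - u) * ρ ^ l / τ' := by
      ring
    rw [← a3]
    refine le_trans ?_ a2
    have a4 : 1 / (q : ℝ) ^ l ≤ 1 := by
      rw [div_le_one (by positivity)]
      exact one_le_pow₀ hqr
    have a5 : 0 < 1 / (q : ℝ) ^ l := by positivity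
    have a6 : (1 - η / 8) * (1 - η / 8) * ((1 - η / 4) / (q : ℝ) ^ l) =
        (1 - η / 8) * (1 - η / 8) * (1 - η / 4) * (1 / (q : ℝ) ^ l) := by ring
    rw [a6]
    have a7 : 1 - η / 2 ≤ (1 - η / 8) * (1 - η / 8) * (1 - η / 4) := by
      have b1 : 1 - η / 4 ≤ (1 - η / 8) * (1 - η / 8) := by
        have : 0 ≤ η * η := by positivity
        linarith
      have b2 := mul_le_mul_of_nonneg_right b1 (by linarith : (0 : ℝ) ≤ 1 - η / 4)
      have b3 : 0 ≤ η * η := by positivity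
      linarith
    have a8 := mul_le_mul_of_nonneg_right a7 a5.le
    have a9 : (η / 2) * (1 / (q : ℝ) ^ l) ≤ (η / 2) * 1 :=
      mul_le_mul_of_nonneg_left a4 (by linarith)
    linarith
  have hT2 : K ^ l * 2 ^ (1 + l) * ε / τ' ≤ η / 8 := by
    rw [div_le_iff₀ hτ'0]
    have a1 : K ^ l * 2 ^ (1 + l) * ε ≤ ε * E := by
      rw [hE]
      have : 0 ≤ ε * ((R : ℝ) + l * K) := by positivity
      linarith
    rw [hεE] at a1
    have a2 : η / 8 * (τ / 2) ≤ η / 8 * τ' := mul_le_mul_of_nonneg_left h1 (by linarith)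
    linarith
  have hT3 : ((R + l * K : ℕ) : ℝ) * ((q * τ' + ε) ^ 2 + ε) / (R * τ') ≤ 3 * η / 8 := by
    push_cast
    have a1 : (q * τ' + ε) ^ 2 ≤ B ^ 2 * τ' ^ 2 := by
      rw [← mul_pow]
      apply pow_le_pow_left₀ (by positivity)
      rw [hB]
      nlinarith
    have a2 : ((R : ℝ) + l * K) * ε ≤ η * τ / 16 := by
      rw [← hεE, hE]
      have : 0 ≤ ε * ((K : ℝ) ^ l * 2 ^ (1 + l)) := by positivity
      linarith
    rw [div_le_iff₀ (by positivity)]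
    have a3 : ((R : ℝ) + l * K) * (B ^ 2 * τ' ^ 2) ≤ (η / 4) * (R * τ') := by
      have b1 : (l : ℝ) * K * τ' * B ^ 2 ≤ η / 8 * R := by
        calc (l : ℝ) * K * τ' * B ^ 2 ≤ l * K * τ * B ^ 2 := by gcongr
          _ = l * B ^ 2 * (τ * K) := by ring
          _ ≤ l * B ^ 2 * Λ := by gcongr
          _ ≤ _ := hRbig
      have b2 : τ' * B ^ 2 ≤ η / 8 := by
        refine le_trans ?_ hτB
        gcongr
      have b3 : ((R : ℝ) + l * K) * (B ^ 2 * τ' ^ 2) =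
          (R * (τ' * B ^ 2) + l * K * τ' * B ^ 2) * τ' := by ring
      rw [b3]
      have b4 : R * (τ' * B ^ 2) + l * K * τ' * B ^ 2 ≤ η / 4 * R := by
        have := mul_le_mul_of_nonneg_left b2 (by linarith : (0 : ℝ) ≤ R)
        linarith
      calc _ ≤ (η / 4 * R) * τ' := mul_le_mul_of_nonneg_right b4 hτ'0.le
        _ = _ := by ring
    have a4 : ((R : ℝ) + l * K) * (q * τ' + ε) ^ 2 ≤ ((R : ℝ) + l * K) * (B ^ 2 * τ' ^ 2) :=
      mul_le_mul_of_nonneg_left a1 (by positivity)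
    have a5 : η * τ / 16 ≤ η / 8 * (R * τ') := by
      have c1 : 1 * τ' ≤ R * τ' := mul_le_mul_of_nonneg_right hRr hτ'0.le
      have c2 : η / 8 * (τ / 2) ≤ η / 8 * (R * τ') :=
        mul_le_mul_of_nonneg_left (by linarith) (by linarith)
      linarith
    have a6 : ((R : ℝ) + l * K) * ((q * τ' + ε) ^ 2 + ε) =
        ((R : ℝ) + l * K) * (q * τ' + ε) ^ 2 + ((R : ℝ) + l * K) * ε := by ring
    rw [a6]
    linarith
  have hsplit : (R * (u ^ (R * q - 1) * (1 - u) * ρ ^ l - K ^ l * 2 ^ (1 + l) * ε) -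
          (R + l * K : ℕ) * ((q * τ' + ε) ^ 2 + ε)) / (R * τ') =
      u ^ (R * q - 1) * (1 - u) * ρ ^ l / τ' - K ^ l * 2 ^ (1 + l) * ε / τ' -
        ((R + l * K : ℕ) : ℝ) * ((q * τ' + ε) ^ 2 + ε) / (R * τ') := by
    field_simp
  rw [hsplit]
  linarith

end Pool.Agent.X262.LOS
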