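import Pool.Agent.X262.LOS.Main2

set_option autoImplicit false

/-!
# The patterns of the residue classes of consecutive sifted integers: conclusion
-/

namespace Pool.Agent.X262.LOS

open Finset Filter Pool.Agent.H373R2.T7 Pool.Agent.W123.RP Pool.Agent.W123.RU
open Pool.Agent.TH464.PO Pool.Agent.Y879.AP

open Classical in
/-- the events in one class of base points -/
lemma one_class (G : ℕ → Prop) (M t L K R a g Y' l : ℕ) (C : Finset ℕ) (u ε μ : ℝ)
    (bs : List ℕ) (hbs : bs.length = l) (hbC : ∀ b ∈ bs, b ∈ C) (ha : a ∈ C)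
    (hL : L = R + l * K)
    (hv : ∀ S : Finset (ℕ × ℕ), (∀ s ∈ S, s.1 < L ∧ s.2 ∈ C) →
      |(((Icc 1 Y').filter (fun m => ∀ s ∈ S, Vd G M t (g + M * m) s)).card : ℝ) -
        Y' * u ^ S.card| ≤ ε * Y')
    (hm : ∀ i < L, (((Icc 1 Y').filter (fun m => 2 ≤ ((Ioc (i * t) ((i + 1) * t)).filter
      (fun h => G (g + M * m + h))).card)).card : ℝ) ≤ μ * Y') :
    Y' * (R * (u ^ (R * C.card - 1) * (1 - u) *
      (∑ g ∈ range K, u ^ (g * C.card + (C.card - 1)) * (1 - u)) ^ l - K ^ l * 2 ^ (1 + l) * ε) -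
        (L : ℕ) * μ) ≤
      (((Icc 1 Y').filter (fun m => (∃ i0 < R, Bk (Vd G M t (g + M * m)) C R a i0 ∧
        Hp (Vd G M t (g + M * m)) C K bs R) ∧
        ∀ j < L, ((Ioc (j * t) ((j + 1) * t)).filter
          (fun h => G (g + M * m + h))).card < 2)).card : ℝ) := by
  obtain ⟨ρ, hρ⟩ : ∃ ρ : ℝ, ρ = ∑ g ∈ range K, u ^ (g * C.card + (C.card - 1)) * (1 - u) := ⟨_, rfl⟩
  rw [← hρ]
  have hcard : ((Icc 1 Y').card : ℝ) = Y' := by rw [Nat.card_Icc, Nat.add_sub_cancel]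
  -- one back cell
  have hone : ∀ i0 ∈ range R, Y' * (u ^ (R * C.card - 1) * (1 - u)) * ρ ^ l -
      K ^ l * 2 ^ (1 + l) * (ε * Y') ≤
      (((Icc 1 Y').filter (fun m => Bk (Vd G M t (g + M * m)) C R a i0 ∧
        Hp (Vd G M t (g + M * m)) C K bs R)).card : ℝ) := by
    intro i0 hi0
    rw [mem_range] at hi0
    have hmem : (i0, a) ∈ (range R) ×ˢ C := by
      rw [mem_product, mem_range]
      exact ⟨hi0, ha⟩
    have h1 := hp_count (Icc 1 Y') (fun m s => Vd G M t (g + M * m) s) C L K u (ε * Y')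
      (by rw [hcard]; exact hv) bs hbC R (by rw [hbs, hL])
      (((range R) ×ˢ C).erase (i0, a)) {(i0, a)} (by
        intro s hs
        have := mem_of_mem_erase hs
        rw [mem_product, mem_range] at this
        exact this) (by
        intro s hs
        rw [mem_singleton] at hs
        rw [hs]
        exact ⟨hi0, ha⟩) (by
        rw [Finset.disjoint_singleton_right]
        exact notMem_erase _ _)
    rw [hcard, hbs, card_erase_of_mem hmem, card_product, card_range, card_singleton, pow_one,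
      ← hρ] at h1
    refine h1.trans ?_
    apply le_of_eq
    congr 2
    apply Finset.filter_congr
    intro m _
    unfold Bk
    tauto
  have hsum := Finset.sum_le_sum hone
  rw [Finset.sum_const, card_range, nsmul_eq_mul] at hsum
  -- disjointness
  have hdis : ∑ i0 ∈ range R, ((Icc 1 Y').filter (fun m => Bk (Vd G M t (g + M * m)) C R a i0 ∧
        Hp (Vd G M t (g + M * m)) C K bs R)).card ≤
      ((Icc 1 Y').filter (fun m => ∃ i0 < R, Bk (Vd G M t (g + M * m)) C R a i0 ∧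
        Hp (Vd G M t (g + M * m)) C K bs R)).card := by
    rw [← Finset.card_biUnion]
    · apply card_le_card
      intro m hm'
      rw [mem_biUnion] at hm'
      obtain ⟨i0, hi0, hm'⟩ := hm'
      rw [mem_filter] at hm' ⊢
      exact ⟨hm'.1, i0, mem_range.1 hi0, hm'.2⟩
    · intro i hi i' hi' hne
      rw [mem_coe, mem_range] at hi hi'
      rw [Function.onFun, Finset.disjoint_left]
      intro m h1 h2
      rw [mem_filter] at h1 h2
      apply h1.2.1.2 (i, a) (mem_singleton_self _)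
      apply h2.2.1.1 (i, a)
      rw [mem_erase, mem_product, mem_range]
      exact ⟨fun h => hne (Prod.mk.inj h).1, hi, ha⟩
  have hdis' : (∑ i0 ∈ range R, (((Icc 1 Y').filter (fun m => Bk (Vd G M t (g + M * m)) C R a i0 ∧
        Hp (Vd G M t (g + M * m)) C K bs R)).card : ℝ)) ≤
      (((Icc 1 Y').filter (fun m => ∃ i0 < R, Bk (Vd G M t (g + M * m)) C R a i0 ∧
        Hp (Vd G M t (g + M * m)) C K bs R)).card : ℝ) := by exact_mod_cast hdis
  -- the multiple hits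
  have hmul : ((Icc 1 Y').filter (fun m => ∃ i0 < R, Bk (Vd G M t (g + M * m)) C R a i0 ∧
        Hp (Vd G M t (g + M * m)) C K bs R)).card ≤
      ((Icc 1 Y').filter (fun m => (∃ i0 < R, Bk (Vd G M t (g + M * m)) C R a i0 ∧
        Hp (Vd G M t (g + M * m)) C K bs R) ∧
        ∀ j < L, ((Ioc (j * t) ((j + 1) * t)).filter
          (fun h => G (g + M * m + h))).card < 2)).card +
      ∑ j ∈ range L, ((Icc 1 Y').filter (fun m => 2 ≤ ((Ioc (j * t) ((j + 1) * t)).filter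
        (fun h => G (g + M * m + h))).card)).card := by
    have h1 : (Icc 1 Y').filter (fun m => ∃ i0 < R, Bk (Vd G M t (g + M * m)) C R a i0 ∧
        Hp (Vd G M t (g + M * m)) C K bs R) ⊆
      ((Icc 1 Y').filter (fun m => (∃ i0 < R, Bk (Vd G M t (g + M * m)) C R a i0 ∧
        Hp (Vd G M t (g + M * m)) C K bs R) ∧
        ∀ j < L, ((Ioc (j * t) ((j + 1) * t)).filter
          (fun h => G (g + M * m + h))).card < 2)) ∪
      (range L).biUnion (fun j => (Icc 1 Y').filter (fun m => 2 ≤ ((Ioc (j * t) ((j + 1) * t)).filter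
        (fun h => G (g + M * m + h))).card)) := by
      intro m hm'
      rw [mem_filter] at hm'
      rw [mem_union, mem_filter, mem_biUnion]
      by_cases h : ∀ j < L, ((Ioc (j * t) ((j + 1) * t)).filter
          (fun h => G (g + M * m + h))).card < 2
      · exact Or.inl ⟨hm'.1, hm'.2, h⟩
      · right
        push Not at h
        obtain ⟨j, hj, h2⟩ := h
        exact ⟨j, mem_range.2 hj, mem_filter.2 ⟨hm'.1, h2⟩⟩
    refine (card_le_card h1).trans ((card_union_le _ _).trans ?_)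
    apply Nat.add_le_add_left
    exact Finset.card_biUnion_le
  have hmul' : (((Icc 1 Y').filter (fun m => ∃ i0 < R, Bk (Vd G M t (g + M * m)) C R a i0 ∧
        Hp (Vd G M t (g + M * m)) C K bs R)).card : ℝ) ≤
      (((Icc 1 Y').filter (fun m => (∃ i0 < R, Bk (Vd G M t (g + M * m)) C R a i0 ∧
        Hp (Vd G M t (g + M * m)) C K bs R) ∧
        ∀ j < L, ((Ioc (j * t) ((j + 1) * t)).filter
          (fun h => G (g + M * m + h))).card < 2)).card : ℝ) +
      ∑ j ∈ range L, (((Icc 1 Y').filter (fun m => 2 ≤ ((Ioc (j * t) ((j + 1) * t)).filter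
        (fun h => G (g + M * m + h))).card)).card : ℝ) := by exact_mod_cast hmul
  have hmul2 : ∑ j ∈ range L, (((Icc 1 Y').filter (fun m => 2 ≤ ((Ioc (j * t) ((j + 1) * t)).filter
        (fun h => G (g + M * m + h))).card)).card : ℝ) ≤ L * (μ * Y') := by
    have := Finset.sum_le_card_nsmul (range L) (fun j => (((Icc 1 Y').filter
      (fun m => 2 ≤ ((Ioc (j * t) ((j + 1) * t)).filter
        (fun h => G (g + M * m + h))).card)).card : ℝ)) (μ * Y') (fun j hj => hm j (mem_range.1 hj))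
    rwa [card_range, nsmul_eq_mul] at this
  have e1 : Y' * (R * (u ^ (R * C.card - 1) * (1 - u) * ρ ^ l - K ^ l * 2 ^ (1 + l) * ε) - (L : ℕ) * μ) =
      R * (Y' * (u ^ (R * C.card - 1) * (1 - u)) * ρ ^ l - K ^ l * 2 ^ (1 + l) * (ε * Y')) -
        L * (μ * Y') := by ring
  rw [e1]
  linarith

open Classical in
/-- **Lower bound** for the number of the elements followed by a given pattern of classes. -/
theorem pat_lower (c M w0 l : ℕ) (hc : 1 ≤ c) (hM : 1 ≤ M) (η : ℝ) (hη : 0 < η) (hη1 : η ≤ 1) :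
    ∃ (K0 y0 : ℕ) (κ η' τ1 : ℝ), 0 < κ ∧ 0 < η' ∧ 0 < τ1 ∧ ∀ y Y' : ℕ, y0 ≤ y → y ^ K0 ≤ Y' →
      ∀ Y : ℕ, M * (Y' + 1) ≤ Y → ∀ (C : Finset ℕ) (Q : ℕ → ℕ → Prop) (Ex : ℕ → Prop),
      Sc c M w0 C Q Ex → Vq Q y ≤ κ →
      (∀ T : ℕ, τ1 ≤ T * Vq Q y → T ≤ y → ∀ t' ∈ Icc 1 T, ¬ Ex t' →
        ((((pz y).filter (fun p : ℕ => T < p ∧ CoG Q p t')).card : ℕ) : ℝ) ≤ η' * T) →
      ∀ a ∈ C, ∀ bs : List ℕ, bs.length = l → (∀ b ∈ bs, b ∈ C) → ∀ Z : ℕ,
      (1 / (C.card : ℝ) ^ l - η) * (Y' * Vq Q y) ≤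
        (((Ioc Z (Z + Y)).filter (fun n => (Gc Q y M C n ∧ n % M = a) ∧
          Nxs (Gc Q y M C) M bs n)).card : ℝ) := by
  have hMr : (1 : ℝ) ≤ M := by exact_mod_cast hM
  obtain ⟨R, K, τ, ε, hR1, hK1, hτ0, hε0, hετ, hnum⟩ := numbers M l hM (η / 2) (by positivity)
    (by linarith)
  have hRr : (1 : ℝ) ≤ R := by exact_mod_cast hR1
  obtain ⟨L, hL⟩ : ∃ L, L = R + l * K := ⟨_, rfl⟩
  have hL1 : 1 ≤ L := by omega
  have hLr : (1 : ℝ) ≤ L := by exact_mod_cast hL1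
  have hRL : R ≤ L := by omega
  obtain ⟨x0, hx0⟩ : ∃ x0 : ℝ, x0 = L * (τ * M) := ⟨_, rfl⟩
  have hx00 : 0 ≤ x0 := by rw [hx0]; positivity
  obtain ⟨K1, y1, T1, η', hη', hcells⟩ := cells_void c M w0 L hc hM hL1 x0 ε hx00 hε0
  obtain ⟨y2, hy2⟩ := V_big c (max x0 1)
  obtain ⟨y3, hy3⟩ : ∃ y3 : ℕ, 2 / η ≤ y3 := exists_nat_ge _
  obtain ⟨κ, hκ⟩ : ∃ κ : ℝ, κ = min (τ / (T1 + 2)) (ε / (2 * (L * M))) := ⟨_, rfl⟩
  have hT1r : (0 : ℝ) ≤ T1 := Nat.cast_nonneg _
  have hκ0 : 0 < κ := by rw [hκ]; positivity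
  have hκ1 : κ ≤ τ / (T1 + 2) := by rw [hκ]; exact min_le_left _ _
  have hκ2 : κ ≤ ε / (2 * (L * M)) := by rw [hκ]; exact min_le_right _ _
  refine ⟨max K1 3, max (max y1 y2) (max y3 1), κ, η', τ * M / 2, hκ0, hη', by positivity, ?_⟩
  intro y Y' hy hyY Y hMY C Q Ex hsc hVκ hcol a ha bs hbs hbC Z
  have hy1' : 1 ≤ y := by omega
  obtain ⟨V, hV⟩ : ∃ V, V = Vq Q y := ⟨_, rfl⟩
  have hV0 : 0 < V := by rw [hV]; exact Vq_pos Q hsc.adm y
  have hVbig : max x0 1 ≤ y * V := by rw [hV]; exact hy2 y (by omega) Q hsc.per hsc.adm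
  have hVbig1 : x0 ≤ y * V := (le_max_left _ _).trans hVbig
  have hVbig2 : 1 ≤ y * V := (le_max_right _ _).trans hVbig
  rw [← hV] at hVκ hcol ⊢
  obtain ⟨q, hq⟩ : ∃ q, q = C.card := ⟨_, rfl⟩
  have hq1 : 1 ≤ q := by rw [hq]; exact card_pos.2 ⟨a, ha⟩
  have hqM : q ≤ M := by
    have := card_le_card hsc.cls
    rw [card_range] at this
    omega
  -- the length of the cells
  obtain ⟨t, ht⟩ : ∃ t : ℕ, t = ⌊τ * M / V⌋₊ := ⟨_, rfl⟩
  have ht1 : (t : ℝ) ≤ τ * M / V := by rw [ht]; exact Nat.floor_le (by positivity)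
  have ht2 : τ * M / V < t + 1 := by rw [ht]; exact Nat.lt_floor_add_one _
  rw [le_div_iff₀ hV0] at ht1
  rw [div_lt_iff₀ hV0] at ht2
  have hVτ : V * (T1 + 2) ≤ τ := by
    have h1 := hVκ.trans hκ1
    rwa [le_div_iff₀ (by positivity)] at h1
  have htT : T1 ≤ t := by
    have h1 : ((T1 : ℝ) + 1) * V < (t + 1) * V := by nlinarith
    have h2 := lt_of_mul_lt_mul_right h1 hV0.le
    have h3 : (T1 : ℝ) < t := by linarith
    exact_mod_cast h3.le
  have ht0 : 0 < t := by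
    have h1 : (1 : ℝ) * V < (t + 1) * V := by nlinarith
    have h2 := lt_of_mul_lt_mul_right h1 hV0.le
    have h3 : (0 : ℝ) < t := by linarith
    exact_mod_cast h3
  have htr : (0 : ℝ) < t := by exact_mod_cast ht0
  have hx : ((L * t : ℕ) : ℝ) * V ≤ x0 := by
    rw [hx0]
    push_cast
    calc (L : ℝ) * t * V = L * (t * V) := by ring
      _ ≤ L * (τ * M) := by gcongr
  have hty : L * t ≤ y := by
    have h1 : ((L * t : ℕ) : ℝ) * V ≤ y * V := hx.trans hVbig1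
    have h2 := le_of_mul_le_mul_right h1 hV0
    exact_mod_cast h2
  have hyK1 : y ^ K1 ≤ Y' := (Nat.pow_le_pow_right hy1' (le_max_left _ _)).trans hyY
  have hyK3 : y ^ 3 ≤ Y' := (Nat.pow_le_pow_right hy1' (le_max_right _ _)).trans hyY
  obtain ⟨τ', hτ'⟩ : ∃ τ' : ℝ, τ' = t * V / M := ⟨_, rfl⟩
  have hτ'0 : 0 < τ' := by rw [hτ']; positivity
  have hτ'1 : τ' ≤ τ := by
    rw [hτ', div_le_iff₀ (by positivity)]
    exact ht1
  have hVhalf : V ≤ τ / 2 := by nlinarith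
  have htV : τ * M / 2 ≤ t * V := by nlinarith
  have hτ'2 : τ / 2 ≤ τ' := by
    rw [hτ', le_div_iff₀ (by positivity)]
    linarith
  have hY0 : (0 : ℝ) ≤ Y' := Nat.cast_nonneg _
  have hcolT : ∀ t' ∈ Icc 1 (L * t), ¬ Ex t' →
        ((((pz y).filter (fun p : ℕ => L * t < p ∧ CoG Q p t')).card : ℕ) : ℝ) ≤ η' * (L * t : ℕ) := by
    apply hcol (L * t) _ hty
    push_cast
    calc τ * M / 2 ≤ 1 * (t * V) := by linarith
      _ ≤ L * (t * V) := by gcongr
      _ = L * t * V := by ring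
  have hLV : 2 * ((L * M : ℕ) : ℝ) * Vq Q y ≤ ε := by
    rw [← hV]
    have h1 := hVκ.trans hκ2
    rw [le_div_iff₀ (by positivity)] at h1
    push_cast
    linarith
  obtain ⟨u, hu⟩ : ∃ u : ℝ, u = Real.exp (-τ') := ⟨_, rfl⟩
  obtain ⟨B, hB⟩ : ∃ B : ℝ, B = R * (u ^ (R * q - 1) * (1 - u) *
      (∑ g ∈ range K, u ^ (g * q + (q - 1)) * (1 - u)) ^ l - K ^ l * 2 ^ (1 + l) * ε) -
        (L : ℕ) * ((q * τ' + ε) ^ 2 + ε) := ⟨_, rfl⟩
  have hBlow : (1 / (q : ℝ) ^ l - η / 2) * (R * τ') ≤ B := by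
    have h1 := hnum q τ' u hq1 hqM hτ'2 hτ'1 hu
    rw [le_div_iff₀ (by positivity)] at h1
    rw [hB, hL]
    exact h1
  obtain ⟨P0, hP0⟩ : ∃ P0 : ℕ → Prop, P0 = fun x =>
      (∃ i0 < R, Bk (Vd (Gc Q y M C) M t x) C R a i0 ∧ Hp (Vd (Gc Q y M C) M t x) C K bs R) ∧
      ∀ j < L, ((Ioc (j * t) ((j + 1) * t)).filter (fun h => Gc Q y M C (x + h))).card < 2 := ⟨_, rfl⟩
  have hclass : ∀ i ∈ Icc 1 M, Y' * B ≤ (((Icc 1 Y').filter (fun m => P0 (Z + i + M * m))).card : ℝ) := by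
    intro i _
    obtain ⟨hv, hm⟩ := hcells y Y' t (by omega) hyK1 htT hty C Q Ex hsc (by rw [← hV]; exact hx)
      hcolT hLV (Z + i)
    rw [← hV, ← hτ', ← hu] at hv
    rw [← hV, ← hτ', ← hq] at hm
    have h1 := one_class (Gc Q y M C) M t L K R a (Z + i) Y' l C u ε ((q * τ' + ε) ^ 2 + ε) bs hbs hbC
      ha hL hv hm
    rw [← hq, ← hB] at h1
    refine h1.trans (le_of_eq ?_)
    congr 1
    exact card_iff _ _ (fun m _ => by rw [hP0])
  have hsum := Finset.sum_le_sum hclass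
  rw [Finset.sum_const, Nat.card_Icc, Nat.add_sub_cancel, nsmul_eq_mul] at hsum
  have h1 := split_bases P0 M Z Y Y' hMY
  have h2 : ((Ioc Z (Z + Y)).filter P0).card ≤ (R * t) *
      (((Ioc Z (Z + Y)).filter (fun n => (Gc Q y M C n ∧ n % M = a) ∧
          Nxs (Gc Q y M C) M bs n)).card + R * t) := by
    refine le_trans (le_of_eq ?_)
      (bk_count (Gc Q y M C) M t L K R a Z Y C ht0 (fun n hn => hn.2) bs (by rw [hbs, hL]))
    exact card_iff _ _ (fun m _ => by rw [hP0])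
  have h3 : (∑ i ∈ Icc 1 M, (((Icc 1 Y').filter (fun m => P0 (Z + i + M * m))).card : ℝ)) ≤
      (R * t) * ((((Ioc Z (Z + Y)).filter (fun n => (Gc Q y M C n ∧ n % M = a) ∧
          Nxs (Gc Q y M C) M bs n)).card : ℝ) + R * t) := by
    exact_mod_cast h1.trans h2
  obtain ⟨P, hP⟩ : ∃ P : ℝ, P = (((Ioc Z (Z + Y)).filter (fun n => (Gc Q y M C n ∧ n % M = a) ∧
          Nxs (Gc Q y M C) M bs n)).card : ℝ) := ⟨_, rfl⟩
  rw [← hP] at h3 ⊢
  have h4 := hsum.trans h3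
  have h5 : (R * t : ℝ) * ((1 / (q : ℝ) ^ l - η / 2) * (Y' * V)) ≤ (R * t) * (P + R * t) := by
    refine le_trans ?_ h4
    have h6 : (M : ℝ) * (Y' * ((1 / (q : ℝ) ^ l - η / 2) * (R * τ'))) ≤ M * (Y' * B) := by
      apply mul_le_mul_of_nonneg_left _ (by linarith)
      exact mul_le_mul_of_nonneg_left hBlow hY0
    refine le_trans (le_of_eq ?_) h6
    rw [hτ']
    field_simp
  have h6 := le_of_mul_le_mul_left h5 (by positivity)
  have h7 : (R * t : ℝ) ≤ η / 2 * (Y' * V) := by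
    have a1 : (R * t : ℝ) ≤ y := by
      have : R * t ≤ y := (Nat.mul_le_mul_right t hRL).trans hty
      exact_mod_cast this
    have a2 : 2 / η ≤ y := hy3.trans (by exact_mod_cast (by omega : y3 ≤ y))
    rw [div_le_iff₀ hη] at a2
    have a3 : (y : ℝ) ^ 3 ≤ Y' := by exact_mod_cast hyK3
    have hyr : (1 : ℝ) ≤ y := by exact_mod_cast hy1'
    have a4 : (y : ℝ) ^ 2 ≤ Y' * V := by
      calc (y : ℝ) ^ 2 = y ^ 2 * 1 := (mul_one _).symm
        _ ≤ y ^ 2 * (y * V) := by gcongr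
        _ = y ^ 3 * V := by ring
        _ ≤ Y' * V := mul_le_mul_of_nonneg_right a3 hV0.le
    calc (R * t : ℝ) ≤ y := a1
      _ ≤ η / 2 * y ^ 2 := by nlinarith
      _ ≤ _ := mul_le_mul_of_nonneg_left a4 (by positivity)
  rw [← hq]
  have e : (1 / (q : ℝ) ^ l - η) * (Y' * V) = (1 / (q : ℝ) ^ l - η / 2) * (Y' * V) - η / 2 * (Y' * V) := by
    ring
  rw [e]
  linarith

end Pool.Agent.X262.LOS
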