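import Pool.Agent.X262.LOS.Main3
import Pool.Agent.X262.LOS.Small

set_option autoImplicit false

/-!
# Asymptotic independence of the residue classes of consecutive sifted integers
-/

namespace Pool.Agent.X262.LOS

open Finset Filter Pool.Agent.H373R2.T7 Pool.Agent.W123.RP Pool.Agent.W123.RU
open Pool.Agent.TH464.PO Pool.Agent.Y879.AP

lemma nxs_unique (G : ℕ → Prop) (M : ℕ) (bs : List ℕ) : ∀ (bs' : List ℕ) (n : ℕ),
    bs.length = bs'.length → Nxs G M bs n → Nxs G M bs' n → bs = bs' := by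
  induction bs with
  | nil =>
    intro bs' n h _ _
    exact (List.length_eq_zero_iff.1 h.symm).symm
  | cons b bs ih =>
    intro bs' n h h1 h2
    cases bs' with
    | nil => simp at h
    | cons b' bs' =>
      obtain ⟨m, a1, a2, a3, a4, a5⟩ := h1
      obtain ⟨m', b1, b2, b3, b4, b5⟩ := h2
      have hm : m = m' := by
        rcases Nat.lt_trichotomy m m' with h | h | h
        · exact absurd a2 (b4 m a1 h)
        · exact h
        · exact absurd b2 (a4 m' b1 h)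
      subst hm
      rw [ih bs' m (by simpa using h) a5 b5, ← a3, ← b3]

open Classical in
/-- **The patterns of the classes of consecutive elements** are asymptotically equidistributed. -/
theorem pat (c M w0 l : ℕ) (hc : 1 ≤ c) (hM : 1 ≤ M) (ε : ℝ) (hε : 0 < ε) (hε1 : ε ≤ 1) :
    ∃ (K0 y0 : ℕ) (κ η' τ1 : ℝ), 0 < κ ∧ 0 < η' ∧ 0 < τ1 ∧ ∀ y Y : ℕ, y0 ≤ y → y ^ K0 ≤ Y →
      ∀ (C : Finset ℕ) (Q : ℕ → ℕ → Prop) (Ex : ℕ → Prop), Sc c M w0 C Q Ex → Vq Q y ≤ κ →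
      (∀ T : ℕ, τ1 ≤ T * Vq Q y → T ≤ y → ∀ t' ∈ Icc 1 T, ¬ Ex t' →
        ((((pz y).filter (fun p : ℕ => T < p ∧ CoG Q p t')).card : ℕ) : ℝ) ≤ η' * T) →
      ∀ a ∈ C, ∀ bs : List ℕ, bs.length = l → (∀ b ∈ bs, b ∈ C) → ∀ Z : ℕ,
      0 < ((Ioc Z (Z + Y)).filter (fun n => Gc Q y M C n ∧ n % M = a)).card ∧
      |(((Ioc Z (Z + Y)).filter (fun n => (Gc Q y M C n ∧ n % M = a) ∧
          Nxs (Gc Q y M C) M bs n)).card : ℝ) -
        (((Ioc Z (Z + Y)).filter (fun n => Gc Q y M C n ∧ n % M = a)).card : ℝ) / C.card ^ l| ≤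
        ε * (((Ioc Z (Z + Y)).filter (fun n => Gc Q y M C n ∧ n % M = a)).card : ℝ) := by
  have hMr : (1 : ℝ) ≤ M := by exact_mod_cast hM
  have hMl : (1 : ℝ) ≤ (M : ℝ) ^ l := one_le_pow₀ hMr
  obtain ⟨η, hη⟩ : ∃ η : ℝ, η = ε / (4 * M ^ l) := ⟨_, rfl⟩
  have hη0 : 0 < η := by rw [hη]; positivity
  have hηM : η * M ^ l = ε / 4 := by
    rw [hη]
    field_simp
  have hη1 : η ≤ 1 / 4 := by nlinarith
  obtain ⟨K1, y1, κ, η', τ1, hκ, hη', hτ1, hlow⟩ := pat_lower c M w0 l hc hM η hη0 (by linarith)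
  obtain ⟨K2, y2, hup⟩ := upper c M hc η hη0
  refine ⟨max K1 K2 + 1, max (max y1 y2) (2 * M), κ, η', τ1, hκ, hη', hτ1, ?_⟩
  intro y Y hy hyY C Q Ex hsc hV hcol a ha bs hbs hbC Z
  have hy1' : 1 ≤ y := by omega
  obtain ⟨Y', hY'⟩ : ∃ Y', Y' = Y / M - 1 := ⟨_, rfl⟩
  have h2M : 2 * y ^ max K1 K2 ≤ Y / M := by
    rw [Nat.le_div_iff_mul_le hM]
    calc 2 * y ^ max K1 K2 * M = y ^ max K1 K2 * (2 * M) := by ring
      _ ≤ y ^ max K1 K2 * y := Nat.mul_le_mul_left _ (by omega)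
      _ = y ^ (max K1 K2 + 1) := (pow_succ _ _).symm
      _ ≤ Y := hyY
  have hpos : 1 ≤ y ^ max K1 K2 := Nat.one_le_pow _ _ hy1'
  have hyY' : y ^ max K1 K2 ≤ Y' := by omega
  have hMY : M * (Y' + 1) ≤ Y := by
    rw [hY', show Y / M - 1 + 1 = Y / M by omega]
    exact Nat.mul_div_le Y M
  have hk1 : y ^ K1 ≤ Y' := (Nat.pow_le_pow_right hy1' (le_max_left _ _)).trans hyY'
  have hk2 : y ^ K2 ≤ Y' := (Nat.pow_le_pow_right hy1' (le_max_right _ _)).trans hyY'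
  obtain ⟨q, hq⟩ : ∃ q, q = C.card := ⟨_, rfl⟩
  have hq1 : 1 ≤ q := by rw [hq]; exact card_pos.2 ⟨a, ha⟩
  have hqM : q ≤ M := by
    have := card_le_card hsc.cls
    rw [card_range] at this
    omega
  have hqr : (1 : ℝ) ≤ q := by exact_mod_cast hq1
  have hqMr : (q : ℝ) ≤ M := by exact_mod_cast hqM
  have hql : (1 : ℝ) ≤ (q : ℝ) ^ l := one_le_pow₀ hqr
  have hqlM : (q : ℝ) ^ l ≤ (M : ℝ) ^ l := pow_le_pow_left₀ (by linarith) hqMr l
  have hηq : η * (q : ℝ) ^ l ≤ ε / 4 := by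
    rw [← hηM]
    exact mul_le_mul_of_nonneg_left hqlM hη0.le
  have haM : a < M := mem_range.1 (hsc.cls ha)
  obtain ⟨S, hS⟩ : ∃ S, S = (Ioc Z (Z + Y)).filter (fun n => Gc Q y M C n ∧ n % M = a) := ⟨_, rfl⟩
  have hSsub : S.card ≤ ((Ioc Z (Z + Y)).filter (fun n => Sf Q y n ∧ n % M = a)).card := by
    rw [hS]
    apply card_le_card
    intro n hn
    rw [mem_filter] at hn ⊢
    exact ⟨hn.1, hn.2.1.1, hn.2.2⟩
  have hu := hup y Y' (by omega) hk2 Y (by omega) Q hsc.per hsc.adm hsc.noM Z a haM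
  obtain ⟨A, hA⟩ : ∃ A : ℝ, A = S.card := ⟨_, rfl⟩
  have hAu : A ≤ (1 + η) * (Y' * Vq Q y) := by
    rw [hA]
    refine le_trans ?_ hu
    exact_mod_cast hSsub
  have hA0 : 0 ≤ A := by rw [hA]; positivity
  obtain ⟨P, hP⟩ : ∃ P : List ℕ → ℝ, P = fun bs => (((Ioc Z (Z + Y)).filter
      (fun n => (Gc Q y M C n ∧ n % M = a) ∧ Nxs (Gc Q y M C) M bs n)).card : ℝ) := ⟨_, rfl⟩
  have hYV : 0 < (Y' : ℝ) * Vq Q y := by
    have a1 := Vq_pos Q hsc.adm y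
    have a2 : (0 : ℝ) < Y' := by exact_mod_cast (by omega : 0 < Y')
    positivity
  have hinv : η ≤ 1 / (q : ℝ) ^ l := by
    rw [le_div_iff₀ (by linarith)]
    linarith
  have hlo0 : ∀ bs : List ℕ, bs.length = l → (∀ b ∈ bs, b ∈ C) →
      (1 / (q : ℝ) ^ l - η) * (Y' * Vq Q y) ≤ P bs := by
    intro bs hbs hbC
    have h1 := hlow y Y' (by omega) hk1 Y hMY C Q Ex hsc hV hcol a ha bs hbs hbC Z
    rw [← hq] at h1
    rw [hP]
    exact h1
  have hlo : ∀ bs : List ℕ, bs.length = l → (∀ b ∈ bs, b ∈ C) →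
      A / (q : ℝ) ^ l - 2 * η * A ≤ P bs := by
    intro bs hbs hbC
    refine le_trans ?_ (hlo0 bs hbs hbC)
    have h2 : (1 - η) * A ≤ Y' * Vq Q y := by
      have h3 : (1 - η) * A ≤ (1 - η) * ((1 + η) * (Y' * Vq Q y)) :=
        mul_le_mul_of_nonneg_left hAu (by linarith)
      have h4 : (1 - η) * ((1 + η) * (Y' * Vq Q y)) = Y' * Vq Q y - η ^ 2 * (Y' * Vq Q y) := by ring
      have h5 : 0 ≤ η ^ 2 * (Y' * Vq Q y) := by positivity
      linarith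
    have h3 := mul_le_mul_of_nonneg_left h2 (by linarith : (0 : ℝ) ≤ 1 / (q : ℝ) ^ l - η)
    refine le_trans ?_ h3
    have h4 : (1 / (q : ℝ) ^ l - η) * ((1 - η) * A) =
        A / (q : ℝ) ^ l - η * A - (1 / (q : ℝ) ^ l) * (η * A) + η ^ 2 * A := by ring
    rw [h4]
    have h5 : 1 / (q : ℝ) ^ l ≤ 1 := by
      rw [div_le_one (by linarith)]
      exact hql
    have h6 : (1 / (q : ℝ) ^ l) * (η * A) ≤ 1 * (η * A) :=
      mul_le_mul_of_nonneg_right h5 (by positivity)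
    have h7 : 0 ≤ η ^ 2 * A := by positivity
    linarith
  -- the sum over all patterns
  obtain ⟨F, hF⟩ : ∃ F : Finset (Fin l → ℕ), F = Fintype.piFinset (fun _ : Fin l => C) := ⟨_, rfl⟩
  have hFc : F.card = q ^ l := by
    rw [hF, Fintype.card_piFinset_const, hq]
  have hFm : ∀ b ∈ F, (List.ofFn b).length = l ∧ ∀ x ∈ List.ofFn b, x ∈ C := by
    intro b hb
    rw [hF, Fintype.mem_piFinset] at hb
    refine ⟨List.length_ofFn, fun x hx => ?_⟩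
    rw [List.mem_ofFn] at hx
    obtain ⟨i, rfl⟩ := hx
    exact hb i
  have hsum : ∑ b ∈ F, P (List.ofFn b) ≤ A := by
    rw [hP, hA]
    have h1 : ∑ b ∈ F, ((Ioc Z (Z + Y)).filter
      (fun n => (Gc Q y M C n ∧ n % M = a) ∧ Nxs (Gc Q y M C) M (List.ofFn b) n)).card ≤ S.card := by
      rw [← Finset.card_biUnion]
      · apply card_le_card
        intro n hn
        rw [mem_biUnion] at hn
        obtain ⟨b, _, hn⟩ := hn
        rw [mem_filter] at hn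
        rw [hS, mem_filter]
        exact ⟨hn.1, hn.2.1⟩
      · intro b _ b' _ hne
        rw [Function.onFun, Finset.disjoint_left]
        intro n hn hn'
        rw [mem_filter] at hn hn'
        apply hne
        exact List.ofFn_injective (nxs_unique (Gc Q y M C) M _ _ n
          (by rw [List.length_ofFn, List.length_ofFn]) hn.2.2 hn'.2.2)
    beta_reduce
    exact_mod_cast h1
  obtain ⟨b, hbF, hbb⟩ : ∃ b ∈ F, List.ofFn b = bs := by
    subst hbs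
    refine ⟨bs.get, ?_, List.ofFn_get bs⟩
    rw [hF, Fintype.mem_piFinset]
    intro i
    exact hbC _ (List.get_mem bs i)
  have hup2 : P bs ≤ A / (q : ℝ) ^ l + ε * A := by
    rw [← Finset.add_sum_erase F (fun b => P (List.ofFn b)) hbF] at hsum
    rw [hbb] at hsum
    have h1 := Finset.card_nsmul_le_sum (F.erase b) (fun b => P (List.ofFn b))
      (A / (q : ℝ) ^ l - 2 * η * A) (fun b' hb' => by
        have := hFm b' (mem_of_mem_erase hb')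
        exact hlo _ this.1 this.2)
    rw [card_erase_of_mem hbF, hFc, nsmul_eq_mul, Nat.cast_sub (Nat.one_le_pow _ _ hq1)] at h1
    push_cast at h1
    have h2 : ((q : ℝ) ^ l - 1) * (A / (q : ℝ) ^ l - 2 * η * A) =
        A - A / (q : ℝ) ^ l - 2 * (η * (q : ℝ) ^ l) * A + 2 * η * A := by
      field_simp
      ring
    have h3 : 0 ≤ 2 * η * A := by positivity
    have h4 : 2 * (η * (q : ℝ) ^ l) * A ≤ 2 * (ε / 4) * A :=
      mul_le_mul_of_nonneg_right (mul_le_mul_of_nonneg_left hηq (by norm_num)) hA0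
    have h5 : 0 ≤ ε * A := by positivity
    linarith
  have hlo2 : A / (q : ℝ) ^ l - ε * A ≤ P bs := by
    refine le_trans ?_ (hlo bs hbs hbC)
    have h1 : 2 * η * A ≤ ε * A := by
      apply mul_le_mul_of_nonneg_right _ hA0
      nlinarith
    linarith
  have hPb : (((Ioc Z (Z + Y)).filter (fun n => (Gc Q y M C n ∧ n % M = a) ∧
          Nxs (Gc Q y M C) M bs n)).card : ℝ) = P bs := by rw [hP]
  constructor
  · have h1 : 0 < P bs := by
      refine lt_of_lt_of_le ?_ (hlo0 bs hbs hbC)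
      apply mul_pos _ hYV
      have : η < 1 / (q : ℝ) ^ l := by
        rw [lt_div_iff₀ (by linarith)]
        linarith
      linarith
    rw [← hPb] at h1
    have h2 : 0 < ((Ioc Z (Z + Y)).filter (fun n => (Gc Q y M C n ∧ n % M = a) ∧
          Nxs (Gc Q y M C) M bs n)).card := by exact_mod_cast h1
    refine lt_of_lt_of_le h2 (card_le_card ?_)
    intro n hn
    rw [mem_filter] at hn ⊢
    exact ⟨hn.1, hn.2.1⟩
  · rw [hPb, ← hS, ← hq, ← hA, abs_le]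
    constructor <;> linarith

open Classical in
/-- The same with the level `X ^ (1 / r)`, for families of systems. -/
theorem pat_fam (c M w0 l : ℕ) (hc : 1 ≤ c) (hM : 1 ≤ M) (ε θ : ℝ) (hε : 0 < ε) (hθ : 0 < θ) :
    ∃ r0 : ℕ, 2 ≤ r0 ∧ ∀ r : ℕ, r0 ≤ r →
      ∀ F : ℕ → Finset ℕ → (ℕ → ℕ → Prop) → (ℕ → Prop) → Prop,
      (∀ X C Q Ex, F X C Q Ex → Sc c M w0 C Q Ex) →
      (∀ κ : ℝ, 0 < κ → ∀ᶠ X : ℕ in atTop, ∀ C Q Ex, F X C Q Ex →
        Vq Q ⌊(X : ℝ) ^ (1 / (r : ℝ))⌋₊ ≤ κ) →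
      (∀ η' τ1 : ℝ, 0 < η' → 0 < τ1 → ∀ᶠ X : ℕ in atTop, ∀ C Q Ex, F X C Q Ex →
        ∀ T : ℕ, τ1 ≤ T * Vq Q ⌊(X : ℝ) ^ (1 / (r : ℝ))⌋₊ → T ≤ ⌊(X : ℝ) ^ (1 / (r : ℝ))⌋₊ →
        ∀ t' ∈ Icc 1 T, ¬ Ex t' → ((((pz ⌊(X : ℝ) ^ (1 / (r : ℝ))⌋₊).filter
          (fun p : ℕ => T < p ∧ CoG Q p t')).card : ℕ) : ℝ) ≤ η' * T) →
      ∀ᶠ X : ℕ in atTop, ∀ Z Y : ℕ, (X : ℝ) ^ θ ≤ Y → ∀ C Q Ex, F X C Q Ex → ∀ a ∈ C,
      ∀ bs : List ℕ, bs.length = l → (∀ b ∈ bs, b ∈ C) →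
      0 < ((Ioc Z (Z + Y)).filter (fun n => Gc Q ⌊(X : ℝ) ^ (1 / (r : ℝ))⌋₊ M C n ∧ n % M = a)).card ∧
      |(((Ioc Z (Z + Y)).filter (fun n => (Gc Q ⌊(X : ℝ) ^ (1 / (r : ℝ))⌋₊ M C n ∧ n % M = a) ∧
          Nxs (Gc Q ⌊(X : ℝ) ^ (1 / (r : ℝ))⌋₊ M C) M bs n)).card : ℝ) -
        (((Ioc Z (Z + Y)).filter
          (fun n => Gc Q ⌊(X : ℝ) ^ (1 / (r : ℝ))⌋₊ M C n ∧ n % M = a)).card : ℝ) / C.card ^ l| ≤
        ε * (((Ioc Z (Z + Y)).filter
          (fun n => Gc Q ⌊(X : ℝ) ^ (1 / (r : ℝ))⌋₊ M C n ∧ n % M = a)).card : ℝ) := by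
  obtain ⟨K, y1, κ, η', τ1, hκ, hη', hτ1, h1⟩ := pat c M w0 l hc hM (min ε 1) (by positivity)
    (min_le_right _ _)
  obtain ⟨r1, hr1⟩ : ∃ r1 : ℕ, (K : ℝ) / θ ≤ r1 := exists_nat_ge _
  refine ⟨max r1 2, le_max_right _ _, ?_⟩
  intro r hr F hF hV hcol
  have hr2 : 2 ≤ r := (le_max_right _ _).trans hr
  have hrr : (2 : ℝ) ≤ r := by exact_mod_cast hr2
  have hrpos : (0 : ℝ) < r := by linarith
  have hrK : (K : ℝ) ≤ θ * r := by
    have h4 : (K : ℝ) / θ ≤ r := hr1.trans (by exact_mod_cast (le_max_left _ _).trans hr)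
    rw [div_le_iff₀ hθ] at h4
    linarith
  have hpow : Tendsto (fun X : ℕ => (X : ℝ) ^ (1 / (r : ℝ))) atTop atTop :=
    (tendsto_rpow_atTop (by positivity)).comp tendsto_natCast_atTop_atTop
  filter_upwards [hpow.eventually_ge_atTop (y1 : ℝ), eventually_ge_atTop 1, hV κ hκ,
    hcol η' τ1 hη' hτ1] with X h4 h5 h6 h7
  intro Z Y hXY C Q Ex hFX a ha bs hbs hbC
  obtain ⟨y, hy⟩ : ∃ y, y = ⌊(X : ℝ) ^ (1 / (r : ℝ))⌋₊ := ⟨_, rfl⟩
  rw [← hy] at h6 h7 ⊢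
  have hyy : y1 ≤ y := by
    rw [hy]
    exact Nat.le_floor h4
  have hX0 : (0 : ℝ) < X := by exact_mod_cast h5
  have hX1 : (1 : ℝ) ≤ X := by exact_mod_cast h5
  have hyK : y ^ K ≤ Y := by
    have h6 : ((y ^ K : ℕ) : ℝ) ≤ Y := by
      push_cast
      calc (y : ℝ) ^ K ≤ ((X : ℝ) ^ (1 / (r : ℝ))) ^ K := by
            apply pow_le_pow_left₀ (Nat.cast_nonneg _)
            rw [hy]
            exact Nat.floor_le (by positivity)
        _ = (X : ℝ) ^ (1 / (r : ℝ) * K) := by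
            rw [Real.rpow_mul hX0.le, Real.rpow_natCast]
        _ ≤ (X : ℝ) ^ θ := by
            apply Real.rpow_le_rpow_of_exponent_le hX1
            rw [one_div, inv_mul_eq_div, div_le_iff₀ hrpos]
            exact hrK
        _ ≤ Y := hXY
    exact_mod_cast h6
  obtain ⟨b1, b2⟩ := h1 y Y hyy hyK C Q Ex (hF X C Q Ex hFX) (h6 C Q Ex hFX) (h7 C Q Ex hFX) a ha bs
    hbs hbC Z
  refine ⟨b1, b2.trans ?_⟩
  exact mul_le_mul_of_nonneg_right (min_le_left _ _) (Nat.cast_nonneg _)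

end Pool.Agent.X262.LOS
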