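import Pool.Agent.X262.LOS.Rel6

set_option autoImplicit false

/-!
# Sifted integers in windows at the multiples of powers of two
-/

namespace Pool.Agent.X262.LOS

open Finset Filter Pool.Agent.H373R2.T7 Pool.Agent.W123.RP Pool.Agent.W123.RU
open Pool.Agent.TH464.PO Pool.Agent.Y879.AP

/-- `p` divides the odd integer `2 m - 1` -/
def QP (p m : ℕ) : Prop := p.Prime ∧ (2 * m) % p = 1

lemma QP_per (p n : ℕ) : QP p n ↔ QP p (n % p) := by
  unfold QP
  rw [Nat.mul_mod 2 n p, Nat.mul_mod 2 (n % p) p, Nat.mod_mod]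

lemma QP_two (n : ℕ) : ¬ QP 2 n := by
  rintro ⟨_, h⟩
  omega

lemma QP_inj (p m n : ℕ) (h1 : QP p m) (h2 : QP p n) : m % p = n % p := by
  have hp := h1.1
  have h3 : 2 * m ≡ 2 * n [MOD p] := h1.2.trans h2.2.symm
  have hp2 : p ≠ 2 := by
    rintro rfl
    exact QP_two m h1
  have hc : Nat.Coprime p 2 := by
    rw [hp.coprime_iff_not_dvd]
    intro h
    exact hp2 ((Nat.prime_dvd_prime_iff_eq hp Nat.prime_two).1 h)
  exact Nat.ModEq.cancel_left_of_coprime hc h3

lemma QP_nuB_le (p : ℕ) : nuB QP p ≤ 1 := by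
  classical
  unfold nuB
  rw [Finset.card_le_one]
  intro a ha b hb
  rw [mem_filter, mem_range] at ha hb
  have h := QP_inj p a b ha.2 hb.2
  rwa [Nat.mod_eq_of_lt ha.1, Nat.mod_eq_of_lt hb.1] at h

lemma QP_nuB_two : nuB QP 2 = 0 := by
  classical
  unfold nuB
  rw [Finset.card_eq_zero, Finset.filter_eq_empty_iff]
  intro a _
  exact QP_two a

lemma QP_nuB_odd (p : ℕ) (hp : p.Prime) (h2 : p ≠ 2) : nuB QP p = 1 := by
  classical
  refine le_antisymm (QP_nuB_le p) ?_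
  unfold nuB
  rw [Nat.one_le_iff_ne_zero, ← Nat.pos_iff_ne_zero, Finset.card_pos]
  have hodd : p % 2 = 1 := by
    rcases hp.eq_two_or_odd with h | h
    · exact absurd h h2
    · exact h
  have hp3 : 3 ≤ p := by
    have := hp.two_le
    omega
  refine ⟨(p + 1) / 2, ?_⟩
  rw [mem_filter, mem_range]
  refine ⟨by omega, hp, ?_⟩
  have e : 2 * ((p + 1) / 2) = p + 1 := by omega
  rw [e, Nat.add_mod_left, Nat.mod_eq_of_lt (by omega)]

lemma QP_perB : PerB QP 1 := ⟨QP_per, fun p _ => QP_nuB_le p⟩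

lemma QP_adm (p : ℕ) (hp : p.Prime) : nuB QP p < p :=
  lt_of_le_of_lt (QP_nuB_le p) hp.one_lt

lemma Vq_QP (y : ℕ) (hy : 2 ≤ y) : Vq QP y = 2 * Vz y := by
  unfold Vq Vz
  have h2 : 2 ∈ pz y := mem_pz.2 ⟨hy, Nat.prime_two⟩
  rw [← Finset.mul_prod_erase _ _ h2, ← Finset.mul_prod_erase _ (fun p : ℕ => 1 - 1 / (p : ℝ)) h2,
    QP_nuB_two]
  have e : ∏ x ∈ (pz y).erase 2, (1 - (nuB QP x : ℝ) / x) =
      ∏ x ∈ (pz y).erase 2, (1 - 1 / (x : ℝ)) := by
    apply Finset.prod_congr rfl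
    intro p hp
    rw [mem_erase] at hp
    rw [QP_nuB_odd p (mem_pz.1 hp.2).2 hp.1]
    norm_num
  rw [e]
  push_cast
  ring

/-- all prime factors of `m` are larger than `y` -/
def RoughP (y m : ℕ) : Prop := ∀ q : ℕ, q.Prime → q ∣ m → y < q

lemma rough_iff (y N : ℕ) (hN : 1 ≤ N) : Sf QP y N ↔ RoughP y (2 * N - 1) := by
  unfold Sf RoughP QP
  constructor
  · intro h q hq hd
    by_contra hlt
    have hqy : q ∈ pz y := mem_pz.2 ⟨by omega, hq⟩
    apply h q hqy
    refine ⟨hq, ?_⟩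
    have e : 2 * N = (2 * N - 1) + 1 := by omega
    obtain ⟨c, hc⟩ := hd
    rw [e, hc, Nat.mul_add_mod, Nat.mod_eq_of_lt hq.one_lt]
  · rintro h q hq ⟨hp, hm⟩
    rw [mem_pz] at hq
    have hd : q ∣ 2 * N - 1 := (Nat.modEq_iff_dvd' (by omega)).1 (by
      rw [Nat.ModEq, hm, Nat.mod_eq_of_lt hp.one_lt])
    have := h q hp hd
    omega

open Classical in
/-- the number of the `y`-rough integers in the closed interval `[A, A + H]` -/
noncomputable def roughIn (y A H : ℕ) : ℕ := ((Icc A (A + H)).filter (RoughP y)).card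

lemma rough_count (y A H : ℕ) (hy : 2 ≤ y) :
    roughIn y A H = Nn QP y (Icc 1 ((A + H + 1) / 2 - A / 2)) (A / 2) := by
  classical
  unfold roughIn Nn
  symm
  apply Finset.card_bij (fun h _ => 2 * (A / 2 + h) - 1)
  · intro h hh
    rw [mem_filter, mem_Icc] at hh
    rw [mem_filter, mem_Icc]
    refine ⟨⟨by omega, by omega⟩, ?_⟩
    exact (rough_iff y _ (by omega)).1 hh.2
  · intro h hh h' hh' he
    rw [mem_filter, mem_Icc] at hh hh'
    omega
  · intro m hm
    rw [mem_filter, mem_Icc] at hm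
    have hodd : m % 2 = 1 := by
      by_contra h
      have h2 : 2 ∣ m := by omega
      have := hm.2 2 Nat.prime_two h2
      omega
    refine ⟨(m + 1) / 2 - A / 2, ?_, by omega⟩
    rw [mem_filter, mem_Icc]
    refine ⟨⟨by omega, by omega⟩, ?_⟩
    have e : A / 2 + ((m + 1) / 2 - A / 2) = (m + 1) / 2 := by omega
    rw [e, rough_iff y _ (by omega)]
    have e2 : 2 * ((m + 1) / 2) - 1 = m := by omega
    rw [e2]
    exact hm.2

lemma QP_coG (p t : ℕ) (h : CoG QP p t) : p ∣ t := by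
  obtain ⟨m, h1, h2⟩ := h
  have h3 := QP_inj p m (m + t) h1 h2
  have h4 : m ≡ m + t [MOD p] := h3
  have h5 := (Nat.modEq_iff_dvd' (by omega)).1 h4
  rwa [Nat.add_sub_cancel_left] at h5

open Classical in
lemma QP_large (y T t : ℕ) (ht : t ∈ Icc 1 T) (η : ℝ) (hη : 0 < η) :
    ((((pz y).filter (fun p : ℕ => T < p ∧ CoG QP p t)).card : ℕ) : ℝ) ≤ η * T := by
  have h : (pz y).filter (fun p : ℕ => T < p ∧ CoG QP p t) = ∅ := by
    rw [Finset.filter_eq_empty_iff]
    rintro p _ ⟨h1, h2⟩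
    rw [mem_Icc] at ht
    have h3 := Nat.le_of_dvd (by omega) (QP_coG p t h2)
    omega
  rw [h, card_empty, Nat.cast_zero]
  exact mul_nonneg hη.le (Nat.cast_nonneg T)

lemma QP_noM (n p : ℕ) (hp : p ∣ 2 ^ n) (m : ℕ) : ¬ QP p m := by
  intro h
  have h2 : p = 2 := (Nat.prime_dvd_prime_iff_eq h.1 Nat.prime_two).1 (h.1.dvd_of_dvd_pow hp)
  rw [h2] at h
  exact QP_two m h

lemma QP_ok (n T : ℕ) : Ok 1 1 0 (2 ^ n) T 1 (Icc 1 T) QP (fun _ => False) where
  sub := fun _ h => h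
  dens := by
    rw [Nat.card_Icc, Nat.add_sub_cancel]
    simp
  per := QP_perB
  adm := QP_adm
  noM := fun p hp m => QP_noM n p hp m
  equi := by
    intro w m
    rw [Nat.card_Icc, Nat.add_sub_cancel]
    have := window QP 1 QP_perB w m T
    rw [Nat.cast_one, one_mul]
    unfold Nn
    convert this
  exc := fun _ _ _ _ _ h => h.elim

end Pool.Agent.X262.LOS
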