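import Pool.Agent.X262.LOS.PowTwo

set_option autoImplicit false

/-!
# A law of large numbers for the number of the sifted integers in a window
-/

namespace Pool.Agent.X262.LOS

open Finset Filter Pool.Agent.H373R2.T7 Pool.Agent.W123.RP Pool.Agent.W123.RU
open Pool.Agent.TH464.PO Pool.Agent.Y879.AP

lemma var_id {ι : Type*} (s : Finset ι) (N : ι → ℕ) (μ : ℝ) :
    ∑ i ∈ s, ((N i : ℝ) - μ) ^ 2 = 2 * ∑ i ∈ s, ((N i).choose 2 : ℝ) +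
      (1 - 2 * μ) * ∑ i ∈ s, ((N i).choose 1 : ℝ) + s.card * μ ^ 2 := by
  rw [Finset.mul_sum, Finset.mul_sum, ← Finset.sum_add_distrib, ← nsmul_eq_mul, ← Finset.sum_const,
    ← Finset.sum_add_distrib]
  apply Finset.sum_congr rfl
  intro i _
  rw [Nat.cast_choose_two, Nat.choose_one_right]
  ring

lemma cheb_num (ε μ Y T s S1 S2 D : ℝ) (hε : 0 < ε) (hε1 : ε ≤ 1) (hμ : 8 / ε ^ 3 ≤ μ)
    (hμT : μ ≤ T) (hT : 1 ≤ T) (hY : 0 ≤ Y) (hs : 0 ≤ s) (hsm : 20 / ε ^ 3 * (T ^ 2 * s) ≤ Y)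
    (h1 : |S1 - Y * μ| ≤ ε ^ 3 / 32 * (Y * μ) + T * s)
    (h2 : |S2 - Y * (μ ^ 2 / 2)| ≤ ε ^ 3 / 32 * (Y * (μ ^ 2 / 2)) + T ^ 2 * s)
    (hD : D = 2 * S2 + (1 - 2 * μ) * S1 + Y * μ ^ 2) : D ≤ ε * ((ε * μ) ^ 2 * Y) := by
  have he3 : 0 < ε ^ 3 := by positivity
  have he31 : ε ^ 3 ≤ 1 := pow_le_one₀ hε.le hε1
  have hμ8 : 8 ≤ μ := by
    refine le_trans ?_ hμ
    rw [le_div_iff₀ he3]
    linarith
  have hμe : 8 ≤ ε ^ 3 * μ := by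
    rw [div_le_iff₀ he3] at hμ
    linarith
  have hsm' : 20 * (T ^ 2 * s) ≤ ε ^ 3 * Y := by
    rw [div_mul_eq_mul_div, div_le_iff₀ he3] at hsm
    linarith
  obtain ⟨a1, a2⟩ := abs_le.1 h1
  obtain ⟨b1, b2⟩ := abs_le.1 h2
  have hTs : T * s ≤ T ^ 2 * s := by
    apply mul_le_mul_of_nonneg_right _ hs
    nlinarith
  have hTs0 : 0 ≤ T * s := mul_nonneg (by linarith) hs
  have hμTs : μ * (T * s) ≤ T ^ 2 * s := by
    have : μ * (T * s) ≤ T * (T * s) := mul_le_mul_of_nonneg_right hμT hTs0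
    calc μ * (T * s) ≤ T * (T * s) := this
      _ = T ^ 2 * s := by ring
  -- lower bound of S1
  have c1 : (2 * μ) * (Y * μ - ε ^ 3 / 32 * (Y * μ) - T * s) ≤ 2 * μ * S1 :=
    mul_le_mul_of_nonneg_left (by linarith) (by linarith)
  have c2 : (2 * μ) * (Y * μ - ε ^ 3 / 32 * (Y * μ) - T * s) =
      2 * (Y * μ ^ 2) - ε ^ 3 / 16 * (Y * μ ^ 2) - 2 * (μ * (T * s)) := by ring
  have c3 : S1 ≤ 2 * (Y * μ) + T * s := by
    have hYμ : 0 ≤ Y * μ := mul_nonneg hY (by linarith)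
    have : ε ^ 3 / 32 * (Y * μ) ≤ 1 * (Y * μ) := mul_le_mul_of_nonneg_right (by linarith) hYμ
    linarith
  have hYμ2 : 0 ≤ Y * μ ^ 2 := mul_nonneg hY (sq_nonneg μ)
  have c4 : Y * μ * 8 ≤ ε ^ 3 * (Y * μ ^ 2) := by
    have hYμ : 0 ≤ Y * μ := mul_nonneg hY (by linarith)
    calc Y * μ * 8 ≤ Y * μ * (ε ^ 3 * μ) := mul_le_mul_of_nonneg_left hμe hYμ
      _ = ε ^ 3 * (Y * μ ^ 2) := by ring
  have c5 : 20 * (T ^ 2 * s) ≤ ε ^ 3 * (Y * μ ^ 2) := by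
    refine hsm'.trans ?_
    apply mul_le_mul_of_nonneg_left _ he3.le
    have : Y * 1 ≤ Y * μ ^ 2 := mul_le_mul_of_nonneg_left (by nlinarith) hY
    linarith
  have e : ε * ((ε * μ) ^ 2 * Y) = ε ^ 3 * (Y * μ ^ 2) := by ring
  rw [hD, e]
  have b3 : 2 * S2 ≤ Y * μ ^ 2 + ε ^ 3 / 32 * (Y * μ ^ 2) + 2 * (T ^ 2 * s) := by
    have : 2 * S2 ≤ 2 * (Y * (μ ^ 2 / 2)) + 2 * (ε ^ 3 / 32 * (Y * (μ ^ 2 / 2))) +
        2 * (T ^ 2 * s) := by linarith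
    refine this.trans (le_of_eq ?_)
    ring
  have fin : 2 * S2 + (1 - 2 * μ) * S1 + Y * μ ^ 2 ≤
      3 * (ε ^ 3 / 32 * (Y * μ ^ 2)) + 2 * (Y * μ) + 5 * (T ^ 2 * s) := by
    have e1 : (1 - 2 * μ) * S1 = S1 - 2 * μ * S1 := by ring
    rw [e1]
    linarith
  linarith

open Classical in
/-- **A law of large numbers** for windows with gaps, uniform in the system `Q` and the window. -/
theorem lln (c M0 w0 : ℕ) (hc : 1 ≤ c) (ε d : ℝ) (hε : 0 < ε) (hε1 : ε ≤ 1) (hd : 0 < d) :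
    ∃ (K0 y0 T0 : ℕ) (η' : ℝ), 0 < η' ∧ ∀ Y y T : ℕ, y0 ≤ y → y ^ K0 ≤ Y → T0 ≤ T → T ^ 16 ≤ Y →
      ∀ (M g : ℕ) (W : Finset ℕ) (Q : ℕ → ℕ → Prop) (Ex : ℕ → Prop), Ok c M0 w0 M T d W Q Ex →
      8 / ε ^ 3 ≤ W.card * Vq Q y →
      (∀ t ∈ Icc 1 T, ¬ Ex t →
        ((((pz y).filter (fun p : ℕ => T < p ∧ CoG Q p t)).card : ℕ) : ℝ) ≤ η' * T) →
      (((Icc 1 Y).filter (fun m => ε * (W.card * Vq Q y) <
        |(Nn Q y W (g + M * m) : ℝ) - W.card * Vq Q y|)).card : ℝ) ≤ ε * Y := by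
  have he3 : 0 < ε ^ 3 := by positivity
  have he31 : ε ^ 3 ≤ 1 := pow_le_one₀ hε.le hε1
  obtain ⟨K1, y1, T1, η1, hη1, hm1⟩ := momentW c 0 M0 w0 hc (ε ^ 3 / 32) d (by positivity)
    (by linarith) hd
  obtain ⟨K2, y2, T2, η2, hη2, hm2⟩ := momentW c 1 M0 w0 hc (ε ^ 3 / 32) d (by positivity)
    (by linarith) hd
  obtain ⟨y3, hy3⟩ : ∃ y3 : ℕ, (20 / ε ^ 3) ^ 4 ≤ y3 := exists_nat_ge _
  refine ⟨K1 + K2 + 1, y1 + y2 + y3 + 1, T1 + T2 + 1, min η1 η2, lt_min hη1 hη2, ?_⟩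
  intro Y y T hy hyY hT hTY M g W Q Ex hok hμ hlarge
  have hy0 : 1 ≤ y := by omega
  have hT1 : 1 ≤ T := by omega
  have hTr : (1 : ℝ) ≤ T := by exact_mod_cast hT1
  have hT0 : (0 : ℝ) ≤ T := by linarith
  have q1 := hm1 Y y T (by omega) ((Nat.pow_le_pow_right hy0 (by omega)).trans hyY) (by omega) M g W Q
    Ex hok (fun t ht h => (hlarge t ht h).trans
      (mul_le_mul_of_nonneg_right (min_le_left _ _) hT0))
  have q2 := hm2 Y y T (by omega) ((Nat.pow_le_pow_right hy0 (by omega)).trans hyY) (by omega) M g W Q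
    Ex hok (fun t ht h => (hlarge t ht h).trans
      (mul_le_mul_of_nonneg_right (min_le_right _ _) hT0))
  obtain ⟨μ, hμdef⟩ : ∃ μ, μ = W.card * Vq Q y := ⟨_, rfl⟩
  rw [← hμdef] at q1 q2 hμ ⊢
  have hyY' : y ≤ Y := by
    calc y = y ^ 1 := (pow_one y).symm
      _ ≤ y ^ (K1 + K2 + 1) := Nat.pow_le_pow_right hy0 (by omega)
      _ ≤ Y := hyY
  have hYbig : (20 / ε ^ 3) ^ 4 ≤ (Y : ℝ) := hy3.trans (by exact_mod_cast (by omega : y3 ≤ Y))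
  have hYpos : (0 : ℝ) < Y := lt_of_lt_of_le (by positivity) hYbig
  have hs4 : 20 / ε ^ 3 ≤ √(√(Y : ℝ)) := by
    apply Real.le_sqrt_of_sq_le
    apply Real.le_sqrt_of_sq_le
    calc ((20 / ε ^ 3) ^ 2) ^ 2 = (20 / ε ^ 3) ^ 4 := by ring
      _ ≤ (Y : ℝ) := hYbig
  have hT8 : (T : ℝ) ^ 8 ≤ Y := by
    have : T ^ 8 ≤ Y := (Nat.pow_le_pow_right hT1 (by norm_num)).trans hTY
    exact_mod_cast this
  have hT4 : (T : ℝ) ^ 2 ≤ √(√(Y : ℝ)) := by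
    apply Real.le_sqrt_of_sq_le
    apply Real.le_sqrt_of_sq_le
    calc (((T : ℝ) ^ 2) ^ 2) ^ 2 = (T : ℝ) ^ 8 := by ring
      _ ≤ (Y : ℝ) := hT8
  have hsm : 20 / ε ^ 3 * ((T : ℝ) ^ 2 * √(Y : ℝ)) ≤ Y := by
    have e1 : √(√(Y : ℝ)) * √(√(Y : ℝ)) = √(Y : ℝ) := Real.mul_self_sqrt (Real.sqrt_nonneg _)
    have e2 : √(Y : ℝ) * √(Y : ℝ) = Y := Real.mul_self_sqrt hYpos.le
    have h1 : 20 / ε ^ 3 * (T : ℝ) ^ 2 ≤ √(Y : ℝ) := by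
      rw [← e1]
      exact mul_le_mul hs4 hT4 (by positivity) (Real.sqrt_nonneg _)
    calc 20 / ε ^ 3 * ((T : ℝ) ^ 2 * √(Y : ℝ)) = 20 / ε ^ 3 * (T : ℝ) ^ 2 * √(Y : ℝ) := by ring
      _ ≤ √(Y : ℝ) * √(Y : ℝ) := mul_le_mul_of_nonneg_right h1 (Real.sqrt_nonneg _)
      _ = Y := e2
  have hμT : μ ≤ T := by
    have h1 : (W.card : ℝ) ≤ T := by
      have h2 := card_le_card hok.sub
      rw [Nat.card_Icc, Nat.add_sub_cancel] at h2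
      exact_mod_cast h2
    rw [hμdef]
    calc (W.card : ℝ) * Vq Q y ≤ W.card * 1 :=
          mul_le_mul_of_nonneg_left (Vq_le_one Q y) (Nat.cast_nonneg _)
      _ ≤ T := by linarith
  obtain ⟨N, hN⟩ : ∃ N : ℕ → ℕ, N = fun m => Nn Q y W (g + M * m) := ⟨_, rfl⟩
  have hNm : ∀ m, Nn Q y W (g + M * m) = N m := fun m => by rw [hN]
  simp only [hNm] at q1 q2 ⊢
  obtain ⟨S1, hS1⟩ : ∃ S1, S1 = ∑ m ∈ Icc 1 Y, ((N m).choose 1 : ℝ) := ⟨_, rfl⟩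
  obtain ⟨S2, hS2⟩ : ∃ S2, S2 = ∑ m ∈ Icc 1 Y, ((N m).choose 2 : ℝ) := ⟨_, rfl⟩
  have hcard : ((Icc 1 Y).card : ℝ) = Y := by rw [Nat.card_Icc, Nat.add_sub_cancel]
  have hvar := var_id (Icc 1 Y) N μ
  rw [← hS1, ← hS2, hcard] at hvar
  have r1 : |S1 - Y * μ| ≤ ε ^ 3 / 32 * (Y * μ) + T * √(Y : ℝ) := by
    have h := q1
    rw [show (0 + 1 : ℕ) = 1 by norm_num, ← hS1, pow_one, Nat.factorial_one, Nat.cast_one, div_one,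
      pow_one] at h
    calc _ ≤ _ := h
      _ = _ := by ring
  have r2 : |S2 - Y * (μ ^ 2 / 2)| ≤ ε ^ 3 / 32 * (Y * (μ ^ 2 / 2)) + T ^ 2 * √(Y : ℝ) := by
    have h := q2
    rw [show (1 + 1 : ℕ) = 2 by norm_num, ← hS2, Nat.factorial_two] at h
    push_cast at h
    calc _ ≤ _ := h
      _ = _ := by ring
  have hD := cheb_num ε μ Y T (√(Y : ℝ)) S1 S2 _ hε hε1 hμ hμT hTr hYpos.le (Real.sqrt_nonneg _)
    hsm r1 r2 hvar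
  have hμ0 : 0 < μ := lt_of_lt_of_le (by positivity) hμ
  have hεμ : 0 < (ε * μ) ^ 2 := by positivity
  have hlow : (ε * μ) ^ 2 * (((Icc 1 Y).filter (fun m => ε * μ < |(N m : ℝ) - μ|)).card : ℝ) ≤
      ∑ m ∈ Icc 1 Y, ((N m : ℝ) - μ) ^ 2 := by
    have h1 : ∑ m ∈ (Icc 1 Y).filter (fun m => ε * μ < |(N m : ℝ) - μ|), (ε * μ) ^ 2 ≤
        ∑ m ∈ (Icc 1 Y).filter (fun m => ε * μ < |(N m : ℝ) - μ|), ((N m : ℝ) - μ) ^ 2 := by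
      apply Finset.sum_le_sum
      intro m hm
      rw [mem_filter] at hm
      rw [← sq_abs ((N m : ℝ) - μ)]
      exact pow_le_pow_left₀ (by positivity) hm.2.le 2
    rw [Finset.sum_const, nsmul_eq_mul] at h1
    have h2 : ∑ m ∈ (Icc 1 Y).filter (fun m => ε * μ < |(N m : ℝ) - μ|), ((N m : ℝ) - μ) ^ 2 ≤
        ∑ m ∈ Icc 1 Y, ((N m : ℝ) - μ) ^ 2 :=
      Finset.sum_le_sum_of_subset_of_nonneg (filter_subset _ _) (fun _ _ _ => sq_nonneg _)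
    linarith
  have hfin := hlow.trans hD
  have e : ε * ((ε * μ) ^ 2 * Y) = (ε * μ) ^ 2 * (ε * Y) := by ring
  rw [e] at hfin
  exact le_of_mul_le_mul_left hfin hεμ

end Pool.Agent.X262.LOS
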