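import Pool.Agent.X262.LOS.PowTwo2

set_option autoImplicit false

/-!
# Rough integers in windows at the multiples of powers of two: the level and the `n`-th prime
-/

namespace Pool.Agent.X262.LOS

open Finset Filter Pool.Agent.H373R2.T7 Pool.Agent.W123.RP Pool.Agent.W123.RU
open Pool.Agent.TH464.PO Pool.Agent.Y879.AP

/-- the `n`-th prime -/
noncomputable def pn (n : ℕ) : ℕ := Nat.nth Nat.Prime (n - 1)

/-- the level `2 ^ (n / r)` -/
noncomputable def lev (n r : ℕ) : ℕ := ⌊(2 : ℝ) ^ ((n : ℝ) / r)⌋₊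

lemma pn_le : ∀ᶠ n : ℕ in atTop, pn n ≤ n ^ 2 := by
  have hlog : ∀ᶠ n : ℕ in atTop, Real.log n ≤ 1 / 8 * n := by
    have h := (Real.isLittleO_log_id_atTop.comp_tendsto tendsto_natCast_atTop_atTop).bound
      (show (0 : ℝ) < 1 / 8 by norm_num)
    filter_upwards [h, eventually_ge_atTop 1] with n h h1
    have hn : (1 : ℝ) ≤ n := by exact_mod_cast h1
    simp only [Function.comp, id] at h
    rw [Real.norm_of_nonneg (Real.log_nonneg hn), Real.norm_of_nonneg (by linarith)] at h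
    exact h
  filter_upwards [hlog, eventually_ge_atTop 16] with n hn h16
  have hnr : (16 : ℝ) ≤ n := by exact_mod_cast h16
  have h1 := Chebyshev.pi_ge (n ^ 2)
  have hl2 := Real.log_two_gt_d9
  have hln : 0 < Real.log n := Real.log_pos (by linarith)
  have h2 : (n : ℝ) ≤ Nat.primeCounting (n ^ 2) := by
    refine le_trans ?_ h1
    push_cast
    rw [Real.log_pow, le_div_iff₀ (by positivity)]
    push_cast
    have h3 : Real.log ((n : ℝ) ^ 2 + 1) ≤ 1 + 2 * Real.log n := by
      have h4 : Real.log ((n : ℝ) ^ 2 + 1) ≤ Real.log (2 * (n : ℝ) ^ 2) := by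
        apply Real.log_le_log (by positivity)
        nlinarith
      rw [Real.log_mul (by norm_num) (by positivity), Real.log_pow] at h4
      have := Real.log_two_lt_d9
      push_cast at h4
      linarith
    have h5 : (n : ℝ) * (2 * Real.log n) ≤ n * (2 * (1 / 8 * n)) := by
      apply mul_le_mul_of_nonneg_left _ (by linarith)
      linarith
    nlinarith
  have h3 : n ≤ Nat.primeCounting (n ^ 2) := by exact_mod_cast h2
  have h4 : n - 1 < Nat.count Nat.Prime (n ^ 2 + 1) := by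
    have : Nat.primeCounting (n ^ 2) = Nat.count Nat.Prime (n ^ 2 + 1) := rfl
    omega
  have h5 := Nat.nth_lt_of_lt_count h4
  unfold pn
  omega

lemma pn_ge : ∀ᶠ n : ℕ in atTop, (n : ℝ) * Real.log n ≤ 4 * pn n := by
  have h := Chebyshev.eventually_primeCounting_le (ε := 1) one_pos
  rw [eventually_atTop] at h
  obtain ⟨x0, hx0⟩ := h
  obtain ⟨n0, hn0⟩ : ∃ n0 : ℕ, x0 ≤ n0 := exists_nat_ge _
  filter_upwards [eventually_ge_atTop n0, eventually_ge_atTop 16] with n hn h16
  have hnr : (16 : ℝ) ≤ n := by exact_mod_cast h16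
  have hpn : n ≤ pn n := by
    have h1 := Nat.add_two_le_nth_prime (n - 1)
    unfold pn
    omega
  have hpr : (n : ℝ) ≤ (pn n : ℝ) := by exact_mod_cast hpn
  have h1 := hx0 (pn n) (hn0.trans ((by exact_mod_cast hn : (n0 : ℝ) ≤ n).trans hpr))
  rw [Nat.floor_natCast] at h1
  have h2 : ((n : ℝ) - 1) ≤ Nat.primeCounting (pn n) := by
    have h3 : Nat.primeCounting' (pn n) = n - 1 := Nat.primeCounting'_nth_eq (n - 1)
    have h4 : Nat.primeCounting' (pn n) ≤ Nat.primeCounting (pn n) := by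
      unfold Nat.primeCounting
      exact Nat.monotone_primeCounting' (Nat.le_succ _)
    have h5 : n ≤ Nat.primeCounting (pn n) + 1 := by omega
    have h6 : (n : ℝ) ≤ Nat.primeCounting (pn n) + 1 := by exact_mod_cast h5
    linarith
  have hlogn : 0 < Real.log n := Real.log_pos (by linarith)
  have hlogp : Real.log n ≤ Real.log (pn n) := Real.log_le_log (by linarith) hpr
  have h4 : Real.log 4 ≤ 1.4 := by
    have e : Real.log 4 = 2 * Real.log 2 := by
      rw [show (4 : ℝ) = 2 ^ 2 by norm_num, Real.log_pow]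
      norm_num
    rw [e]
    have := Real.log_two_lt_d9
    linarith
  have hlp : 0 < Real.log (pn n) := by linarith
  have h5 := h2.trans h1
  rw [le_div_iff₀ hlp] at h5
  have hp0 : (0 : ℝ) ≤ pn n := Nat.cast_nonneg _
  have h6 : ((n : ℝ) - 1) * Real.log n ≤ 3 * pn n := by
    calc ((n : ℝ) - 1) * Real.log n ≤ ((n : ℝ) - 1) * Real.log (pn n) :=
          mul_le_mul_of_nonneg_left hlogp (by linarith)
      _ ≤ _ := h5
      _ ≤ 3 * pn n := by
        apply mul_le_mul_of_nonneg_right _ hp0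
        linarith
  nlinarith

lemma lev_tendsto (r : ℕ) (hr : 1 ≤ r) : Tendsto (fun n : ℕ => lev n r) atTop atTop := by
  unfold lev
  apply (tendsto_nat_floor_atTop (α := ℝ)).comp
  have h1 : Tendsto (fun n : ℕ => (n : ℝ) / r) atTop atTop :=
    Tendsto.atTop_div_const (by exact_mod_cast hr) tendsto_natCast_atTop_atTop
  exact (tendsto_rpow_atTop_of_base_gt_one 2 (by norm_num)).comp h1

lemma lev_le (n r : ℕ) : (lev n r : ℝ) ≤ (2 : ℝ) ^ ((n : ℝ) / r) :=
  Nat.floor_le (Real.rpow_nonneg (by norm_num) _)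

lemma lev_log (n r : ℕ) (h : 2 ≤ lev n r) : 0 < Real.log (lev n r) ∧
    Real.log (lev n r) ≤ (n : ℝ) / r := by
  have h2 : (2 : ℝ) ≤ lev n r := by exact_mod_cast h
  have h3 : 0 < Real.log (lev n r) := Real.log_pos (by linarith)
  refine ⟨h3, ?_⟩
  have h4 := Real.log_le_log (by linarith) (lev_le n r)
  rw [Real.log_rpow (by norm_num)] at h4
  have h5 : (0 : ℝ) ≤ (n : ℝ) / r := by positivity
  have h6 := Real.log_two_lt_d9
  nlinarith [mul_le_mul_of_nonneg_left h6.le h5]

lemma lev_pow (δ : ℝ) (n r K0 K : ℕ) (hr : 1 ≤ r) (hK0 : (K0 : ℝ) ≤ δ * r)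
    (hK : (2 : ℝ) ^ (δ * n) ≤ K) : lev n r ^ K0 ≤ K := by
  have hr0 : (0 : ℝ) < r := by exact_mod_cast hr
  have h1 : ((lev n r ^ K0 : ℕ) : ℝ) ≤ K := by
    push_cast
    calc (lev n r : ℝ) ^ K0 ≤ ((2 : ℝ) ^ ((n : ℝ) / r)) ^ K0 :=
          pow_le_pow_left₀ (Nat.cast_nonneg _) (lev_le n r) K0
      _ = (2 : ℝ) ^ ((n : ℝ) / r * K0) := by
          rw [Real.rpow_mul (by norm_num), Real.rpow_natCast]
      _ ≤ (2 : ℝ) ^ (δ * n) := by
          apply Real.rpow_le_rpow_of_exponent_le (by norm_num)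
          rw [div_mul_eq_mul_div, div_le_iff₀ hr0]
          have : (n : ℝ) * K0 ≤ n * (δ * r) := mul_le_mul_of_nonneg_left hK0 (Nat.cast_nonneg _)
          linarith
      _ ≤ K := hK
  exact_mod_cast h1

lemma list_pow (b : ℝ) (hb : 0 ≤ b) (l : List ℕ) (h : ∀ q ∈ l, b ≤ (q : ℝ)) :
    b ^ l.length ≤ (l.prod : ℝ) := by
  induction l with
  | nil => simp
  | cons a t ih =>
    rw [List.length_cons, List.prod_cons, pow_succ, Nat.cast_mul]
    have h1 := h a List.mem_cons_self
    have h2 := ih fun q hq => h q (List.mem_cons_of_mem _ hq)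
    calc b ^ t.length * b ≤ (t.prod : ℝ) * a :=
          mul_le_mul h2 h1 hb (Nat.cast_nonneg _)
      _ = a * t.prod := mul_comm _ _

lemma factors_le (n r B m : ℕ) (hr : 1 ≤ r) (hm : 0 < m) (hmB : m < 2 ^ (B * n))
    (h : RoughP (lev n r) m) : m.primeFactorsList.length ≤ B * r := by
  by_contra hlt
  push Not at hlt
  have hr0 : (0 : ℝ) < r := by exact_mod_cast hr
  obtain ⟨b, hb⟩ : ∃ b : ℝ, b = (2 : ℝ) ^ ((n : ℝ) / r) := ⟨_, rfl⟩
  have hb1 : 1 ≤ b := by
    rw [hb]
    exact Real.one_le_rpow (by norm_num) (by positivity)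
  have h1 := list_pow b (by linarith) m.primeFactorsList (by
    intro q hq
    have hq1 := h q (Nat.prime_of_mem_primeFactorsList hq) (Nat.dvd_of_mem_primeFactorsList hq)
    unfold lev at hq1
    rw [← hb] at hq1
    exact (Nat.lt_of_floor_lt hq1).le)
  rw [Nat.prod_primeFactorsList hm.ne'] at h1
  have h2 : b ^ (B * r) ≤ m := (pow_le_pow_right₀ hb1 hlt.le).trans h1
  have h3 : b ^ (B * r) = 2 ^ (B * n) := by
    rw [hb, ← Real.rpow_natCast, ← Real.rpow_mul (by norm_num), ← Real.rpow_natCast]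
    congr 1
    push_cast
    field_simp
  rw [h3] at h2
  have h4 : 2 ^ (B * n) ≤ m := by exact_mod_cast h2
  omega

end Pool.Agent.X262.LOS
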