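import Pool.Agent.X262.LOS.PowTwo3

set_option autoImplicit false

/-!
# Rough integers in windows at the multiples of powers of two: the main theorem
-/

namespace Pool.Agent.X262.LOS

open Finset Filter Pool.Agent.H373R2.T7 Pool.Agent.W123.RP Pool.Agent.W123.RU
open Pool.Agent.TH464.PO Pool.Agent.Y879.AP

lemma rough_win (y n a s H m : ℕ) (hy : 2 ≤ y) (hn : 1 ≤ n) :
    roughIn y ((a + m) * 2 ^ n + s) H =
      Nn QP y (Icc 1 ((s + H + 1) / 2 - s / 2)) (a * 2 ^ (n - 1) + s / 2 + 2 ^ (n - 1) * m) := by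
  rw [rough_count y _ H hy]
  obtain ⟨b, rfl⟩ : ∃ b, n = b + 1 := ⟨n - 1, by omega⟩
  rw [Nat.add_sub_cancel]
  obtain ⟨c, hc⟩ : ∃ c, c = (a + m) * 2 ^ b := ⟨_, rfl⟩
  have e1 : (a + m) * 2 ^ (b + 1) + s = 2 * c + s := by
    rw [hc, pow_succ]
    ring
  have e2 : a * 2 ^ b + s / 2 + 2 ^ b * m = c + s / 2 := by
    rw [hc]
    ring
  rw [e1, e2]
  have e3 : (2 * c + s) / 2 = c + s / 2 := by omega
  have e4 : (2 * c + s + H + 1) / 2 - (2 * c + s) / 2 = (s + H + 1) / 2 - s / 2 := by omega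
  rw [e4, e3]

lemma shift_card' (P : ℕ → Prop) [DecidablePred P] (Z Y : ℕ) : ((Ioc Z (Z + Y)).filter P).card =
    ((Icc 1 Y).filter (fun m => P (Z + m))).card := by
  rw [shift_card P Z Y]
  congr 1
  apply Finset.filter_congr
  intro m _
  rw [one_mul]

lemma close_num (ε V H J μ μe N : ℝ) (_hε : 0 < ε) (hε1 : ε ≤ 1) (hV : 0 ≤ V) (hμ : μ = V * H)
    (hμe : μe = J * (2 * V)) (hJ1 : H ≤ 2 * J) (hJ2 : 2 * J ≤ H + 2) (hVs : 6 * V ≤ ε * μ)
    (h : |N - μe| ≤ ε / 2 * μe) : |N - μ| ≤ ε * μ := by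
  have h1 : μ ≤ μe := by
    rw [hμ, hμe]
    have := mul_le_mul_of_nonneg_left hJ1 hV
    linarith
  have h2 : μe ≤ μ + 2 * V := by
    rw [hμ, hμe]
    have := mul_le_mul_of_nonneg_left hJ2 hV
    linarith
  obtain ⟨a1, a2⟩ := abs_le.1 h
  have h3 : ε / 2 * μe ≤ ε / 2 * μ + V := by
    have : ε / 2 * μe ≤ ε / 2 * (μ + 2 * V) := mul_le_mul_of_nonneg_left h2 (by linarith)
    nlinarith
  rw [abs_le]
  constructor <;> linarith

lemma ev_pow (δ : ℝ) (hδ : 0 < δ) (E : ℕ) : ∀ᶠ n : ℕ in atTop, (n : ℝ) ^ E ≤ (2 : ℝ) ^ (δ * n) := by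
  have hb : 1 < (2 : ℝ) ^ δ := Real.one_lt_rpow (by norm_num) hδ
  have h := (isLittleO_pow_const_const_pow_of_one_lt (R := ℝ) E hb).bound one_pos
  filter_upwards [h] with n hn
  rw [one_mul, Real.norm_of_nonneg (by positivity), Real.norm_of_nonneg (by positivity)] at hn
  rw [Real.rpow_mul (by norm_num), Real.rpow_natCast]
  exact hn

open Classical in
/-- **Rough integers above the multiples of powers of two.** -/
theorem main_pow (δ ε x1 x0 : ℝ) (hδ : 0 < δ) (hε : 0 < ε) (hε1 : ε ≤ 1) (hx1 : 0 < x1)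
    (hx0 : 0 ≤ x0) : ∃ r0 : ℕ, 1 ≤ r0 ∧ ∀ r : ℕ, r0 ≤ r → ∀ᶠ n : ℕ in atTop,
      ∀ a s K : ℕ, (2 : ℝ) ^ (δ * n) ≤ K → ∀ H : ℕ,
      (H ≤ n ^ 2 → 1024 / ε ^ 3 ≤ Vz (lev n r) * H →
        (((Ioc a (a + K)).filter (fun k => ε * (Vz (lev n r) * H) <
          |(roughIn (lev n r) (k * 2 ^ n + s) H : ℝ) - Vz (lev n r) * H|)).card : ℝ) ≤ ε * K) ∧
      (x1 ≤ Vz (lev n r) * H → Vz (lev n r) * H ≤ x0 → ∀ A : Finset ℕ,
        |(((Ioc a (a + K)).filter (fun k => roughIn (lev n r) (k * 2 ^ n + s) H ∈ A)).card : ℝ) -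
          K * Po (Vz (lev n r) * H) A| ≤ ε * K) := by
  obtain ⟨K1, y1, T1, η1, hη1, h1⟩ := lln 1 1 0 le_rfl (ε / 2) 1 (by positivity) (by linarith)
    one_pos
  obtain ⟨K2, y2, T2, R2, η2, hη2, h2⟩ := lawW 1 1 0 le_rfl (x0 + 1) (ε / 2) 1 (by linarith)
    (by positivity) one_pos
  obtain ⟨c, C, hc, hC, hV⟩ := Vz_bounds
  obtain ⟨r0, hr0⟩ : ∃ r0 : ℕ, ((K1 + K2 : ℕ) : ℝ) / δ ≤ r0 := exists_nat_ge _
  refine ⟨r0 + 1, by omega, fun r hr => ?_⟩
  have hr1 : 1 ≤ r := by omega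
  have hrr : (1 : ℝ) ≤ r := by exact_mod_cast hr1
  have hKr : ((K1 + K2 : ℕ) : ℝ) ≤ δ * r := by
    have h3 : ((K1 + K2 : ℕ) : ℝ) / δ ≤ r := hr0.trans (by exact_mod_cast (by omega : r0 ≤ r))
    rw [div_le_iff₀ hδ] at h3
    linarith
  have hK1r : (K1 : ℝ) ≤ δ * r := by
    refine le_trans ?_ hKr
    exact_mod_cast (by omega : K1 ≤ K1 + K2)
  have hK2r : (K2 : ℝ) ≤ δ * r := by
    refine le_trans ?_ hKr
    exact_mod_cast (by omega : K2 ≤ K1 + K2)
  have hlev := lev_tendsto r hr1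
  -- the small constant
  obtain ⟨D, hD⟩ : ∃ D : ℝ, D = 2 * (T1 + T2 + 1 : ℕ) := ⟨_, rfl⟩
  have hD0 : 0 < D := by
    rw [hD]
    positivity
  obtain ⟨κ, hκ⟩ : ∃ κ : ℝ, κ = min (ε / 8) (min (1 / D) (x1 / D)) := ⟨_, rfl⟩
  have hκ0 : 0 < κ := by
    rw [hκ]
    positivity
  have hκ1 : κ ≤ ε / 8 := by rw [hκ]; exact min_le_left _ _
  have hκ2 : κ ≤ 1 / D := by rw [hκ]; exact (min_le_right _ _).trans (min_le_left _ _)
  have hκ3 : κ ≤ x1 / D := by rw [hκ]; exact (min_le_right _ _).trans (min_le_right _ _)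
  have hlog : Tendsto (fun n : ℕ => Real.log (lev n r : ℝ)) atTop atTop :=
    Real.tendsto_log_atTop.comp (tendsto_natCast_atTop_atTop.comp hlev)
  obtain ⟨n1, hn1⟩ : ∃ n1 : ℕ, x0 / c + 3 ≤ n1 := exists_nat_ge _
  filter_upwards [hlev.eventually_ge_atTop (y1 + y2 + 2), eventually_ge_atTop (n1 + 4),
    ev_pow δ hδ (2 * (16 + R2)), hlog.eventually_ge_atTop (C / κ)] with n e1 e2 e3 e4
  intro a s K hK H
  obtain ⟨y, hy⟩ : ∃ y, y = lev n r := ⟨_, rfl⟩
  obtain ⟨hll0, hll1⟩ := lev_log n r (by omega)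
  have hKlev1 := lev_pow δ n r K1 K hr1 hK1r hK
  have hKlev2 := lev_pow δ n r K2 K hr1 hK2r hK
  rw [← hy] at e1 e4 hll0 hll1 hKlev1 hKlev2 ⊢
  have hy2 : 2 ≤ y := by omega
  have hn4 : 4 ≤ n := by omega
  have hnr : (4 : ℝ) ≤ n := by exact_mod_cast hn4
  obtain ⟨v1, v2⟩ := hV y hy2
  obtain ⟨V, hVd⟩ : ∃ V, V = Vz y := ⟨_, rfl⟩
  have hVq : Vq QP y = 2 * V := by rw [Vq_QP y hy2, hVd]
  rw [← hVd] at v1 v2 ⊢
  have hVpos : 0 < V := lt_of_lt_of_le (by positivity) v1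
  have hVκ : V ≤ κ := by
    refine v2.trans ?_
    rw [div_le_iff₀ hll0]
    rw [div_le_iff₀ hκ0] at e4
    linarith
  have hVn : c / n ≤ V := by
    refine le_trans ?_ v1
    apply div_le_div_of_nonneg_left hc.le hll0
    refine hll1.trans ?_
    rw [div_le_iff₀ (by linarith)]
    nlinarith
  obtain ⟨J, hJ⟩ : ∃ J, J = (s + H + 1) / 2 - s / 2 := ⟨_, rfl⟩
  have hJ1 : H ≤ 2 * J := by omega
  have hJ2 : 2 * J ≤ H + 2 := by omega
  have hJ1r : (H : ℝ) ≤ 2 * J := by exact_mod_cast hJ1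
  have hJ2r : (2 : ℝ) * J ≤ H + 2 := by exact_mod_cast hJ2
  have hwin : ∀ m : ℕ, roughIn y ((a + m) * 2 ^ n + s) H =
      Nn QP y (Icc 1 J) (a * 2 ^ (n - 1) + s / 2 + 2 ^ (n - 1) * m) := by
    intro m
    rw [rough_win y n a s H m hy2 (by omega), hJ]
  have hcardJ : (((Icc 1 J).card : ℕ) : ℝ) = J := by rw [Nat.card_Icc, Nat.add_sub_cancel]
  -- the number of `k` is large
  have hbig : ∀ T : ℕ, T ≤ n ^ 2 → T ^ 16 ≤ K ∧ T ^ R2 ≤ K := by
    intro T hT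
    have hn1' : 1 ≤ n := by omega
    have h3 : ((n ^ (2 * (16 + R2)) : ℕ) : ℝ) ≤ K := by
      push_cast
      exact e3.trans hK
    have h4 : n ^ (2 * (16 + R2)) ≤ K := by exact_mod_cast h3
    constructor
    · calc T ^ 16 ≤ (n ^ 2) ^ 16 := Nat.pow_le_pow_left hT 16
        _ = n ^ (2 * 16) := by rw [← pow_mul]
        _ ≤ n ^ (2 * (16 + R2)) := Nat.pow_le_pow_right hn1' (by omega)
        _ ≤ K := h4
    · calc T ^ R2 ≤ (n ^ 2) ^ R2 := Nat.pow_le_pow_left hT R2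
        _ = n ^ (2 * R2) := by rw [← pow_mul]
        _ ≤ n ^ (2 * (16 + R2)) := Nat.pow_le_pow_right hn1' (by omega)
        _ ≤ K := h4
  -- long windows have many shifts
  have hlong : ∀ z : ℝ, κ ≤ z / D → z ≤ V * H → T1 ≤ J ∧ T2 ≤ J := by
    intro z hz hzV
    have h3 : D ≤ H := by
      have h4 : V * D ≤ V * H := by
        refine le_trans ?_ hzV
        rw [le_div_iff₀ hD0] at hz
        exact (mul_le_mul_of_nonneg_right hVκ hD0.le).trans hz
      exact le_of_mul_le_mul_left h4 hVpos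
    rw [hD] at h3
    have h4 : 2 * (T1 + T2 + 1) ≤ H := by exact_mod_cast h3
    omega
  constructor
  · intro hHn hHV
    have hJn : J ≤ n ^ 2 := by nlinarith
    have hb := hbig J hJn
    have he3 : ε ^ 3 ≤ 1 := pow_le_one₀ hε.le hε1
    have he3' : 0 < ε ^ 3 := by positivity
    have hμ1024 : 1024 ≤ V * H := by
      refine le_trans ?_ hHV
      rw [le_div_iff₀ he3']
      linarith
    have hT := hlong 1 hκ2 (by linarith)
    have h4 := h1 K y J (by omega) hKlev1 hT.1 hb.1 (2 ^ (n - 1)) (a * 2 ^ (n - 1) + s / 2) (Icc 1 J)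
      QP (fun _ => False) (QP_ok (n - 1) J) (by
        rw [hcardJ, hVq]
        have h5 : 8 / (ε / 2) ^ 3 = 64 / ε ^ 3 := by
          field_simp
          norm_num
        rw [h5]
        have h6 : 64 / ε ^ 3 ≤ 1024 / ε ^ 3 := by
          apply div_le_div_of_nonneg_right _ he3'.le
          norm_num
        have h7 : V * H ≤ J * (2 * V) := by
          have := mul_le_mul_of_nonneg_left hJ1r hVpos.le
          linarith
        linarith) (fun t ht _ => QP_large y J t ht η1 hη1)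
    rw [hcardJ, hVq] at h4
    rw [shift_card']
    have hsub : (Icc 1 K).filter (fun m => ε * (V * H) <
        |(roughIn y ((a + m) * 2 ^ n + s) H : ℝ) - V * H|) ⊆
        (Icc 1 K).filter (fun m => ε / 2 * (J * (2 * V)) <
          |(Nn QP y (Icc 1 J) (a * 2 ^ (n - 1) + s / 2 + 2 ^ (n - 1) * m) : ℝ) - J * (2 * V)|) := by
      intro m hm
      rw [mem_filter] at hm ⊢
      refine ⟨hm.1, ?_⟩
      by_contra hlt
      rw [not_lt] at hlt
      have h5 := close_num ε V H J (V * H) (J * (2 * V)) _ hε hε1 hVpos.le rfl rfl hJ1r hJ2r (by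
        have : V ≤ ε / 8 := hVκ.trans hκ1
        have h6 : ε * 1024 ≤ ε * (V * H) := mul_le_mul_of_nonneg_left hμ1024 hε.le
        linarith) hlt
      rw [← hwin m] at h5
      linarith [hm.2]
    have h5 : (((Icc 1 K).filter (fun m => ε * (V * H) <
        |(roughIn y ((a + m) * 2 ^ n + s) H : ℝ) - V * H|)).card : ℝ) ≤ ε / 2 * K :=
      le_trans (by exact_mod_cast card_le_card hsub) h4
    have hK0 : (0 : ℝ) ≤ K := Nat.cast_nonneg K
    nlinarith
  · intro hx1V hVx0 A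
    have hT := hlong x1 hκ3 hx1V
    have hHn : (H : ℝ) ≤ x0 / c * n := by
      have h3 : c / n * H ≤ x0 := (mul_le_mul_of_nonneg_right hVn (Nat.cast_nonneg H)).trans hVx0
      rw [div_mul_eq_mul_div, le_div_iff₀ hc]
      rw [div_mul_eq_mul_div, div_le_iff₀ (by linarith)] at h3
      linarith
    have hJn : J ≤ n ^ 2 := by
      have h3 : (H : ℝ) + 2 ≤ (n : ℝ) ^ 2 := by
        have h4 : x0 / c + 3 ≤ n := hn1.trans (by exact_mod_cast (by omega : n1 ≤ n))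
        have h5 : (x0 / c + 3) * n ≤ n * n := mul_le_mul_of_nonneg_right h4 (by linarith)
        nlinarith
      have h4 : H + 2 ≤ n ^ 2 := by exact_mod_cast h3
      omega
    have hb := hbig J hJn
    have hVε : V ≤ ε / 8 := hVκ.trans hκ1
    have hm1 : V * H ≤ J * (2 * V) := by
      have := mul_le_mul_of_nonneg_left hJ1r hVpos.le
      linarith
    have hm2 : J * (2 * V) ≤ V * H + 2 * V := by
      have := mul_le_mul_of_nonneg_left hJ2r hVpos.le
      linarith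
    have h4 := h2 K y J (by omega) hKlev2 hT.2 hb.2 (2 ^ (n - 1)) (a * 2 ^ (n - 1) + s / 2) (Icc 1 J)
      QP (fun _ => False) (QP_ok (n - 1) J) (by
        rw [hcardJ, hVq]
        linarith) (fun t ht _ => QP_large y J t ht η2 hη2) A
    rw [hcardJ, hVq] at h4
    have e5 : ∑ j ∈ A, Real.exp (-(J * (2 * V))) * (J * (2 * V)) ^ j / j.factorial =
        Po (J * (2 * V)) A := rfl
    rw [e5] at h4
    rw [shift_card']
    simp only [hwin]
    have hVH0 : 0 ≤ V * H := mul_nonneg hVpos.le (Nat.cast_nonneg H)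
    have h6 := Po_lip A (J * (2 * V)) (V * H) (hVH0.trans hm1) hVH0
    have h7 : |J * (2 * V) - V * H| ≤ ε / 2 := by
      rw [abs_le]
      constructor <;> linarith
    have hK0 : (0 : ℝ) ≤ K := Nat.cast_nonneg K
    have h8 : |K * Po (J * (2 * V)) A - K * Po (V * H) A| ≤ ε / 2 * K := by
      rw [← mul_sub, abs_mul, abs_of_nonneg hK0, mul_comm (ε / 2)]
      exact mul_le_mul_of_nonneg_left (h6.trans h7) hK0
    have h9 := abs_sub_le (((Icc 1 K).filter (fun m => Nn QP y (Icc 1 J)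
      (a * 2 ^ (n - 1) + s / 2 + 2 ^ (n - 1) * m) ∈ A)).card : ℝ) (K * Po (J * (2 * V)) A)
      (K * Po (V * H) A)
    linarith

end Pool.Agent.X262.LOS
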