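import Pool.Agent.X262.LOS.Win

set_option autoImplicit false

/-!
# Relative averages of the singular series: one factor and the tail
-/

namespace Pool.Agent.X262.LOS

open Finset Filter Pool.Agent.H373R2.T7 Pool.Agent.W123.RP Pool.Agent.W123.RU
open Pool.Agent.TH464.PO Pool.Agent.Y879.AP

/-- the collisions of `t` with the base -/
def CoB (Q : ℕ → ℕ → Prop) (B : Finset ℕ) (p t : ℕ) : Prop :=
  ∃ b ∈ B, ∃ m, Q p (m + b) ∧ Q p (m + t)

open Classical in
/-- the product over the collision primes -/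
noncomputable def FC (Co : ℕ → ℕ → Prop) (K w y t : ℕ) : ℝ :=
  ∏ p ∈ (pz y).filter (fun p : ℕ => w < p ∧ Co p t), (1 + (K : ℝ) / p)

open Classical in
lemma FC_ge (Co : ℕ → ℕ → Prop) (K w y t : ℕ) : 1 ≤ FC Co K w y t := by
  unfold FC
  apply Finset.one_le_prod
  intro p _
  have : 0 ≤ (K : ℝ) / p := by positivity
  linarith

open Classical in
lemma FC_pow (Co : ℕ → ℕ → Prop) (K M w y t : ℕ) :
    FC Co K w y t ^ M ≤ FC Co ((1 + K) ^ M - 1) w y t := by
  unfold FC
  rw [← Finset.prod_pow]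
  apply Finset.prod_le_prod
  · intro p _
    positivity
  · intro p hp
    rw [mem_filter] at hp
    have hp1 : (1 : ℝ) ≤ p := by exact_mod_cast (mem_pz.1 hp.1).2.one_lt.le
    have h := pow_factor K M (1 / (p : ℝ)) (by positivity) (by
      rw [div_le_one (by linarith)]
      exact hp1)
    rw [mul_one_div, mul_one_div] at h
    exact h

lemma coll_CoB (Q : ℕ → ℕ → Prop) (c : ℕ) (hQ : PerB Q c) (B : Finset ℕ) (w : ℕ) :
    Coll (CoB Q B) w (B.card * c ^ 2) := by
  classical
  refine ⟨fun p n => ?_, fun p hp hw => ?_⟩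
  · unfold CoB
    apply exists_congr
    intro b
    apply and_congr_right
    intro _
    apply exists_congr
    intro m
    apply and_congr_right
    intro _
    exact per_add Q c hQ p m m n (n % p) rfl (Nat.mod_mod _ _).symm
  · have h1 : ∀ b ∈ B, ((range p).filter (fun r => ∃ m, Q p (m + b) ∧ Q p (m + r))).card ≤ c ^ 2 := by
      intro b _
      obtain ⟨F, hF⟩ : ∃ F, F = (range p).filter (fun r => Q p r) := ⟨_, rfl⟩
      have hFc : F.card ≤ c := by
        have := hQ.few p hp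
        unfold nuB at this
        rw [hF]
        convert this
      have h2 : ((range p).filter (fun r => ∃ m, Q p (m + b) ∧ Q p (m + r))).card ≤ (F ×ˢ F).card := by
        apply Finset.card_le_card_of_injOn
          (fun r => if h : ∃ m, Q p (m + b) ∧ Q p (m + r) then
            ((h.choose + b) % p, (h.choose + r) % p) else (0, 0))
        · intro r hr
          rw [mem_coe, mem_filter] at hr
          have h := hr.2
          beta_reduce
          rw [dif_pos h, mem_coe, mem_product, hF, mem_filter, mem_filter, mem_range, mem_range]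
          exact ⟨⟨Nat.mod_lt _ hp.pos, (hQ.per p _).1 h.choose_spec.1⟩,
            ⟨Nat.mod_lt _ hp.pos, (hQ.per p _).1 h.choose_spec.2⟩⟩
        · intro r hr r' hr' he
          rw [mem_coe, mem_filter, mem_range] at hr hr'
          beta_reduce at he
          rw [dif_pos hr.2, dif_pos hr'.2, Prod.mk.injEq] at he
          have e1 : hr.2.choose ≡ hr'.2.choose [MOD p] := Nat.ModEq.add_right_cancel' b he.1
          have e2 : r ≡ r' [MOD p] := Nat.ModEq.add_left_cancel e1 he.2
          have := e2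
          unfold Nat.ModEq at this
          rwa [Nat.mod_eq_of_lt hr.1, Nat.mod_eq_of_lt hr'.1] at this
      refine h2.trans ?_
      rw [card_product, sq]
      exact Nat.mul_le_mul hFc hFc
    have h2 : (range p).filter (fun r => CoB Q B p r) ⊆
        B.biUnion (fun b => (range p).filter (fun r => ∃ m, Q p (m + b) ∧ Q p (m + r))) := by
      intro r hr
      rw [mem_filter] at hr
      obtain ⟨hr1, b, hb, hm⟩ := hr
      rw [mem_biUnion]
      exact ⟨b, hb, mem_filter.2 ⟨hr1, hm⟩⟩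
    refine (card_le_card h2).trans (card_biUnion_le.trans ?_)
    refine (Finset.sum_le_sum h1).trans (le_of_eq ?_)
    rw [Finset.sum_const, smul_eq_mul]

/-- some collision -/
def ClB (Q : ℕ → ℕ → Prop) (B H : Finset ℕ) (p : ℕ) : Prop := Cl Q H p ∨ ∃ h ∈ H, CoB Q B p h

open Classical in
lemma nuB_rel_le (Q : ℕ → ℕ → Prop) (c : ℕ) (hQ : PerB Q c) (B H : Finset ℕ) (p : ℕ) :
    nuB (QH Q (B ∪ H)) p ≤ nuB (QH Q B) p + H.card * nuB Q p := by
  have h1 : (range p).filter (fun r => QH Q (B ∪ H) p r) ⊆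
      (range p).filter (fun r => QH Q B p r) ∪ (range p).filter (fun r => QH Q H p r) := by
    intro r hr
    rw [mem_filter] at hr
    obtain ⟨hr1, h, hh, hq⟩ := hr
    rw [mem_union, mem_filter, mem_filter]
    rcases mem_union.1 hh with h2 | h2
    · exact Or.inl ⟨hr1, h, h2, hq⟩
    · exact Or.inr ⟨hr1, h, h2, hq⟩
  have h2 := (card_le_card h1).trans (card_union_le _ _)
  have h3 := nuB_QH_le Q c hQ H p
  unfold nuB at h3 ⊢
  have e1 : ((range p).filter (fun r => QH Q (B ∪ H) p r)).card ≤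
      ((range p).filter (fun r => QH Q B p r)).card + ((range p).filter (fun r => QH Q H p r)).card := h2
  convert e1.trans (Nat.add_le_add_left _ _) using 1
  convert h3

open Classical in
lemma nuB_rel_mono (Q : ℕ → ℕ → Prop) (B H : Finset ℕ) (p : ℕ) :
    nuB (QH Q B) p ≤ nuB (QH Q (B ∪ H)) p := by
  unfold nuB
  apply card_le_card
  intro r hr
  rw [mem_filter] at hr ⊢
  obtain ⟨hr1, h, hh, hq⟩ := hr
  exact ⟨hr1, h, mem_union_left _ hh, hq⟩

open Classical in
lemma nuB_rel_eq (Q : ℕ → ℕ → Prop) (c : ℕ) (hQ : PerB Q c) (B H : Finset ℕ) (p : ℕ)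
    (h : ¬ ClB Q B H p) : nuB (QH Q (B ∪ H)) p = nuB (QH Q B) p + H.card * nuB Q p := by
  unfold ClB at h
  rw [not_or] at h
  have h1 : (range p).filter (fun r => QH Q (B ∪ H) p r) =
      (range p).filter (fun r => QH Q B p r) ∪ (range p).filter (fun r => QH Q H p r) := by
    ext r
    rw [mem_union, mem_filter, mem_filter, mem_filter]
    constructor
    · rintro ⟨hr1, h, hh, hq⟩
      rcases mem_union.1 hh with h2 | h2
      · exact Or.inl ⟨hr1, h, h2, hq⟩
      · exact Or.inr ⟨hr1, h, h2, hq⟩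
    · rintro (⟨hr1, h, hh, hq⟩ | ⟨hr1, h, hh, hq⟩)
      · exact ⟨hr1, h, mem_union_left _ hh, hq⟩
      · exact ⟨hr1, h, mem_union_right _ hh, hq⟩
  have hd : Disjoint ((range p).filter (fun r => QH Q B p r)) ((range p).filter (fun r => QH Q H p r)) := by
    rw [Finset.disjoint_left]
    intro r hr hr'
    rw [mem_filter] at hr hr'
    obtain ⟨_, b, hb, hq⟩ := hr
    obtain ⟨_, a, ha, hq'⟩ := hr'
    exact h.2 ⟨a, ha, b, hb, r, hq, hq'⟩
  have h2 := card_union_of_disjoint hd
  rw [← h1] at h2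
  have h3 := nuB_eq_of_not_Cl Q c hQ H p h.1
  unfold nuB at h3 ⊢
  have e1 : ((range p).filter (fun r => QH Q (B ∪ H) p r)).card =
      ((range p).filter (fun r => QH Q B p r)).card + ((range p).filter (fun r => QH Q H p r)).card := h2
  convert e1 using 1
  congr 1
  symm
  convert h3

open Classical in
/-- upper bound for one factor -/
lemma factor_upR (Q : ℕ → ℕ → Prop) (c : ℕ) (hQ : PerB Q c) (B H : Finset ℕ) (p : ℕ) (hp : p.Prime)
    (hbig : 2 * (H.card * c) ≤ p) : 1 - (nuB (QH Q (B ∪ H)) p : ℝ) / p ≤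
      (1 - (nuB (QH Q B) p : ℝ) / p) * ((1 - (nuB Q p : ℝ) / p) ^ H.card *
        (if ClB Q B H p then 1 + ((2 * (H.card * c) : ℕ) : ℝ) / p else 1)) := by
  have hp0 : (0 : ℝ) < p := by exact_mod_cast hp.pos
  have hfew := hQ.few p hp
  obtain ⟨k, hk⟩ : ∃ k, k = H.card := ⟨_, rfl⟩
  obtain ⟨u, hu⟩ : ∃ u : ℝ, u = (nuB Q p : ℝ) / p := ⟨_, rfl⟩
  obtain ⟨v, hv⟩ : ∃ v : ℝ, v = (nuB (QH Q B) p : ℝ) / p := ⟨_, rfl⟩
  rw [← hu, ← hv]
  have hv1 : 0 ≤ 1 - v := by rw [hv]; exact one_sub_nonneg _ p hp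
  have hv0 : 0 ≤ v := by rw [hv]; positivity
  have hu0 : 0 ≤ u := by rw [hu]; positivity
  have hu1 : u ≤ 1 := by
    rw [hu, div_le_one hp0]
    exact_mod_cast nuB_le Q p
  have hc : (nuB Q p : ℝ) ≤ c := by exact_mod_cast hfew
  rw [← hk] at hbig ⊢
  have hk0 : (0 : ℝ) ≤ k := Nat.cast_nonneg k
  have hku : (k : ℝ) * u ≤ ((k * c : ℕ) : ℝ) / p := by
    rw [hu, ← mul_div_assoc]
    apply div_le_div_of_nonneg_right _ hp0.le
    push_cast
    gcongr
  have hkc : ((k * c : ℕ) : ℝ) / p ≤ 1 / 2 := by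
    rw [div_le_div_iff₀ hp0 (by norm_num)]
    have : ((2 * (k * c) : ℕ) : ℝ) ≤ p := by exact_mod_cast hbig
    push_cast at this ⊢
    linarith
  have hber := one_add_mul_le_pow (a := -u) (by linarith) k
  have hber' : 1 - k * u ≤ (1 - u) ^ k := by
    calc 1 - k * u = 1 + k * -u := by ring
      _ ≤ (1 + -u) ^ k := hber
      _ = (1 - u) ^ k := by ring
  by_cases h : ClB Q B H p
  · rw [if_pos h]
    have h1 : 1 - (nuB (QH Q (B ∪ H)) p : ℝ) / p ≤ 1 - v := by
      apply sub_le_sub_left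
      rw [hv]
      apply div_le_div_of_nonneg_right _ hp0.le
      exact_mod_cast nuB_rel_mono Q B H p
    refine h1.trans ?_
    obtain ⟨t, ht⟩ : ∃ t : ℝ, t = k * u := ⟨_, rfl⟩
    have ht0 : 0 ≤ t := by rw [ht]; positivity
    have ht1 : t ≤ 1 / 2 := by rw [ht]; linarith
    have h2 : 1 + 2 * t ≤ 1 + ((2 * (k * c) : ℕ) : ℝ) / p := by
      have : ((2 * (k * c) : ℕ) : ℝ) / p = 2 * (((k * c : ℕ) : ℝ) / p) := by
        push_cast
        ring
      rw [this, ht]
      linarith
    have h3 : (1 : ℝ) ≤ (1 - u) ^ k * (1 + ((2 * (k * c) : ℕ) : ℝ) / p) := by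
      calc (1 : ℝ) ≤ (1 - t) * (1 + 2 * t) := by nlinarith
        _ ≤ (1 - u) ^ k * (1 + ((2 * (k * c) : ℕ) : ℝ) / p) := by
          apply mul_le_mul (by rw [ht]; exact hber') h2 (by linarith)
          exact pow_nonneg (by linarith) k
    exact le_mul_of_one_le_right hv1 h3
  · rw [if_neg h, mul_one, nuB_rel_eq Q c hQ B H p h, ← hk]
    have e : ((nuB (QH Q B) p + k * nuB Q p : ℕ) : ℝ) / p = v + k * u := by
      rw [hu, hv]
      push_cast
      ring
    rw [e]
    calc 1 - (v + k * u) ≤ (1 - v) * (1 - k * u) := by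
          have : 0 ≤ v * (k * u) := by positivity
          nlinarith
      _ ≤ _ := mul_le_mul_of_nonneg_left hber' hv1

lemma factor_lowR (k : ℕ) (u v x A : ℝ) (h0 : 0 ≤ u) (h1 : u ≤ 1) (hv : 0 ≤ v) (hv1 : v ≤ 1)
    (hx : x ≤ v + k * u) (hk : v + k * u ≤ 1 / 2)
    (hA : (v + k * u) ^ 2 ≤ A) : (1 - v) * ((1 - u) ^ k * (1 - A)) ≤ 1 - x := by
  have h2 := pow_le_quad k u h0 h1
  have h3 : 0 ≤ (1 - u) ^ k := pow_nonneg (by linarith) k
  obtain ⟨t, ht⟩ : ∃ t, t = k * u := ⟨_, rfl⟩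
  rw [← ht] at hx hk hA h2
  have ht0 : 0 ≤ t := by rw [ht]; positivity
  have h5 : (v + t) ^ 2 ≤ 1 := by nlinarith
  have h4 : (1 - v) * ((1 - u) ^ k * (1 - A)) ≤ (1 - v) * ((1 - u) ^ k * (1 - (v + t) ^ 2)) :=
    mul_le_mul_of_nonneg_left (mul_le_mul_of_nonneg_left (by linarith) h3) (by linarith)
  have h6 : (1 - v) * ((1 - u) ^ k * (1 - (v + t) ^ 2)) ≤
      (1 - v) * ((1 - t + t ^ 2 / 2) * (1 - (v + t) ^ 2)) :=
    mul_le_mul_of_nonneg_left (mul_le_mul_of_nonneg_right h2 (by linarith)) (by linarith)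
  have h7 : (1 - v) * (1 - t + t ^ 2 / 2) ≤ (1 - (v + t)) + (v + t) ^ 2 / 2 := by
    nlinarith [mul_nonneg hv (sq_nonneg t), sq_nonneg v]
  have h8 : (1 - v) * ((1 - t + t ^ 2 / 2) * (1 - (v + t) ^ 2)) ≤
      ((1 - (v + t)) + (v + t) ^ 2 / 2) * (1 - (v + t) ^ 2) := by
    rw [← mul_assoc]
    exact mul_le_mul_of_nonneg_right h7 (by linarith)
  have h9 : ((1 - (v + t)) + (v + t) ^ 2 / 2) * (1 - (v + t) ^ 2) ≤ 1 - (v + t) := by
    obtain ⟨s, hs⟩ : ∃ s, s = v + t := ⟨_, rfl⟩
    rw [← hs] at hk ⊢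
    nlinarith [mul_nonneg (sq_nonneg s) (sq_nonneg (1 - s)), sq_nonneg s]
  linarith

open Classical in
/-- lower bound for one factor -/
lemma factor_loR (Q : ℕ → ℕ → Prop) (c : ℕ) (hQ : PerB Q c) (B H : Finset ℕ) (p : ℕ) (hp : p.Prime)
    (hbig : 2 * ((B.card + H.card) * c) ≤ p) :
      (1 - (nuB (QH Q B) p : ℝ) / p) * ((1 - (nuB Q p : ℝ) / p) ^ H.card *
        (1 - (((B.card + H.card) * c : ℕ) : ℝ) ^ 2 / (p : ℝ) ^ 2)) ≤
        1 - (nuB (QH Q (B ∪ H)) p : ℝ) / p := by
  have hp0 : (0 : ℝ) < p := by exact_mod_cast hp.pos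
  have hfew := hQ.few p hp
  have hc : (nuB Q p : ℝ) ≤ c := by exact_mod_cast hfew
  have hB : (nuB (QH Q B) p : ℝ) ≤ B.card * c := by
    exact_mod_cast (perB_QH Q c hQ B).few p hp
  have hk0 : (0 : ℝ) ≤ (H.card : ℝ) := Nat.cast_nonneg _
  have hsum : (nuB (QH Q B) p : ℝ) / p + (H.card : ℝ) * ((nuB Q p : ℝ) / p) ≤
      (((B.card + H.card) * c : ℕ) : ℝ) / p := by
    rw [← mul_div_assoc, ← add_div]
    apply div_le_div_of_nonneg_right _ hp0.le
    push_cast
    nlinarith
  have hkc : (((B.card + H.card) * c : ℕ) : ℝ) / p ≤ 1 / 2 := by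
    rw [div_le_div_iff₀ hp0 (by norm_num)]
    have : ((2 * ((B.card + H.card) * c) : ℕ) : ℝ) ≤ p := by exact_mod_cast hbig
    push_cast at this ⊢
    linarith
  apply factor_lowR
  · positivity
  · rw [div_le_one hp0]
    exact_mod_cast nuB_le Q p
  · positivity
  · rw [div_le_one hp0]
    exact_mod_cast nuB_le _ p
  · rw [← mul_div_assoc, ← add_div]
    apply div_le_div_of_nonneg_right _ hp0.le
    exact_mod_cast nuB_rel_le Q c hQ B H p
  · exact hsum.trans hkc
  · rw [← div_pow]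
    apply pow_le_pow_left₀ (by positivity) hsum

open Classical in
/-- upper bound for the tail -/
lemma tail_upR (Q : ℕ → ℕ → Prop) (c : ℕ) (hQ : PerB Q c) (B H : Finset ℕ) (w y K' : ℕ)
    (hbig : 2 * (H.card * c) ≤ w) (hK' : K' = (1 + 2 * (H.card * c)) ^ (H.card ^ 2 + H.card) - 1) :
    Vt (QH Q (B ∪ H)) w y ≤ Vt (QH Q B) w y * (Vt Q w y ^ H.card *
      (1 + (∑ x ∈ prs H, (FC (CoG Q) K' w y (x.2 - x.1) - 1) +
        ∑ h ∈ H, (FC (CoB Q B) K' w y h - 1)))) := by
  obtain ⟨K, hK⟩ : ∃ K, K = 2 * (H.card * c) := ⟨_, rfl⟩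
  have h1 : Vt (QH Q (B ∪ H)) w y ≤ ∏ p ∈ (pz y).filter (fun p => w < p),
      ((1 - (nuB (QH Q B) p : ℝ) / p) *
        ((1 - (nuB Q p : ℝ) / p) ^ H.card * (if ClB Q B H p then 1 + (K : ℝ) / p else 1))) := by
    unfold Vt
    apply Finset.prod_le_prod
    · intro p hp
      rw [mem_filter] at hp
      exact one_sub_nonneg _ p (mem_pz.1 hp.1).2
    · intro p hp
      rw [mem_filter] at hp
      have h2 := factor_upR Q c hQ B H p (mem_pz.1 hp.1).2 (by omega)
      rw [hK]
      exact h2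
  have h2 : ∏ p ∈ (pz y).filter (fun p => w < p), (if ClB Q B H p then 1 + (K : ℝ) / p else 1) ≤
      (∏ x ∈ prs H, FC (CoG Q) K w y (x.2 - x.1)) * ∏ h ∈ H, FC (CoB Q B) K w y h := by
    have e : ∏ x ∈ prs H, FC (CoG Q) K w y (x.2 - x.1) = ∏ p ∈ (pz y).filter (fun p => w < p),
        ∏ x ∈ prs H, (if CoG Q p (x.2 - x.1) then 1 + (K : ℝ) / p else 1) := by
      rw [Finset.prod_comm]
      apply Finset.prod_congr rfl
      intro x _
      unfold FC
      rw [← Finset.filter_filter, Finset.prod_filter]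
    have e' : ∏ h ∈ H, FC (CoB Q B) K w y h = ∏ p ∈ (pz y).filter (fun p => w < p),
        ∏ h ∈ H, (if CoB Q B p h then 1 + (K : ℝ) / p else 1) := by
      rw [Finset.prod_comm]
      apply Finset.prod_congr rfl
      intro x _
      unfold FC
      rw [← Finset.filter_filter, Finset.prod_filter]
    rw [e, e', ← Finset.prod_mul_distrib]
    apply Finset.prod_le_prod
    · intro p _
      split_ifs <;> positivity
    · intro p _
      have hge : ∀ x ∈ prs H, (1 : ℝ) ≤ (if CoG Q p (x.2 - x.1) then 1 + (K : ℝ) / p else 1) := by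
        intro x _
        have : 0 ≤ (K : ℝ) / p := by positivity
        split_ifs <;> linarith
      have hge' : ∀ h ∈ H, (1 : ℝ) ≤ (if CoB Q B p h then 1 + (K : ℝ) / p else 1) := by
        intro x _
        have : 0 ≤ (K : ℝ) / p := by positivity
        split_ifs <;> linarith
      have g1 := Finset.one_le_prod hge
      have g2 := Finset.one_le_prod hge'
      split_ifs with h
      · rcases h with h | h
        · obtain ⟨a, ha, b, hb, hab, hco⟩ := h
          have hmem : (a, b) ∈ prs H := by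
            unfold prs
            rw [mem_filter, mem_product]
            exact ⟨⟨ha, hb⟩, hab⟩
          have h3 := single_le_prod_one (prs H)
            (fun x => if CoG Q p (x.2 - x.1) then 1 + (K : ℝ) / p else 1) hge (a, b) hmem
          simp only [if_pos hco] at h3
          exact h3.trans (le_mul_of_one_le_right (by linarith) g2)
        · obtain ⟨a, ha, hco⟩ := h
          have h3 := single_le_prod_one H
            (fun x => if CoB Q B p x then 1 + (K : ℝ) / p else 1) hge' a ha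
          simp only [if_pos hco] at h3
          exact h3.trans (le_mul_of_one_le_left (by linarith) g1)
      · calc (1 : ℝ) = 1 * 1 := by ring
          _ ≤ _ := mul_le_mul g1 g2 zero_le_one (by linarith)
  have h3 : (∏ x ∈ prs H, FC (CoG Q) K w y (x.2 - x.1)) * (∏ h ∈ H, FC (CoB Q B) K w y h) - 1 ≤
      ∑ x ∈ prs H, (FC (CoG Q) K' w y (x.2 - x.1) - 1) + ∑ h ∈ H, (FC (CoB Q B) K' w y h - 1) := by
    obtain ⟨f, hf⟩ : ∃ f : (ℕ × ℕ) ⊕ ℕ → ℝ, f = Sum.elim (fun x => FC (CoG Q) K w y (x.2 - x.1))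
      (fun h => FC (CoB Q B) K w y h) := ⟨_, rfl⟩
    have hcard : ((prs H).disjSum H).card ≤ H.card ^ 2 + H.card := by
      rw [card_disjSum]
      exact Nat.add_le_add_right (prs_card H) _
    have h4 := prod_sub_one_le ((prs H).disjSum H) f (by
      intro i _
      rw [hf]
      rcases i with i | i
      · exact FC_ge _ _ _ _ _
      · exact FC_ge _ _ _ _ _) _ hcard
    rw [Finset.prod_disjSum, Finset.sum_disjSum] at h4
    have e1 : ∀ x, f (Sum.inl x) = FC (CoG Q) K w y (x.2 - x.1) := fun x => by rw [hf]; rfl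
    have e2 : ∀ x, f (Sum.inr x) = FC (CoB Q B) K w y x := fun x => by rw [hf]; rfl
    simp only [e1, e2] at h4
    refine h4.trans ?_
    apply add_le_add
    · apply Finset.sum_le_sum
      intro x _
      have := FC_pow (CoG Q) K (H.card ^ 2 + H.card) w y (x.2 - x.1)
      rw [hK', ← hK]
      linarith
    · apply Finset.sum_le_sum
      intro x _
      have := FC_pow (CoB Q B) K (H.card ^ 2 + H.card) w y x
      rw [hK', ← hK]
      linarith
  refine h1.trans ?_
  rw [Finset.prod_mul_distrib, Finset.prod_mul_distrib, Finset.prod_pow]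
  apply mul_le_mul_of_nonneg_left _ (Vt_nonneg _ w y)
  apply mul_le_mul_of_nonneg_left _ (pow_nonneg (Vt_nonneg Q w y) _)
  linarith

/-- lower bound for the tail -/
lemma tail_loR (Q : ℕ → ℕ → Prop) (c : ℕ) (hQ : PerB Q c) (B H : Finset ℕ) (w y : ℕ) (hw : 1 ≤ w)
    (hbig : 2 * ((B.card + H.card) * c) ≤ w) :
    Vt (QH Q B) w y * (Vt Q w y ^ H.card * (1 - (((B.card + H.card) * c : ℕ) : ℝ) ^ 2 / w)) ≤
      Vt (QH Q (B ∪ H)) w y := by
  have h1 : ∏ p ∈ (pz y).filter (fun p => w < p),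
      ((1 - (nuB (QH Q B) p : ℝ) / p) * ((1 - (nuB Q p : ℝ) / p) ^ H.card *
        (1 - (((B.card + H.card) * c : ℕ) : ℝ) ^ 2 / (p : ℝ) ^ 2))) ≤
      Vt (QH Q (B ∪ H)) w y := by
    unfold Vt
    apply Finset.prod_le_prod
    · intro p hp
      rw [mem_filter] at hp
      apply mul_nonneg (one_sub_nonneg _ p (mem_pz.1 hp.1).2)
      apply mul_nonneg (pow_nonneg (one_sub_nonneg Q p (mem_pz.1 hp.1).2) _)
      have hp0 : (0 : ℝ) < p := by exact_mod_cast (mem_pz.1 hp.1).2.pos
      rw [sub_nonneg, div_le_one (by positivity)]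
      apply pow_le_pow_left₀ (by positivity)
      have : (B.card + H.card) * c ≤ p := by omega
      exact_mod_cast this
    · intro p hp
      rw [mem_filter] at hp
      exact factor_loR Q c hQ B H p (mem_pz.1 hp.1).2 (by omega)
  refine le_trans ?_ h1
  rw [Finset.prod_mul_distrib, Finset.prod_mul_distrib, Finset.prod_pow]
  apply mul_le_mul_of_nonneg_left _ (Vt_nonneg _ w y)
  apply mul_le_mul_of_nonneg_left _ (pow_nonneg (Vt_nonneg Q w y) _)
  refine le_trans ?_ (prod_one_sub_ge _ _ (fun p _ => by positivity) ?_)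
  · have h2 := sum_inv_sq w y hw
    have h3 : ∑ p ∈ (pz y).filter (fun p => w < p), (((B.card + H.card) * c : ℕ) : ℝ) ^ 2 / (p : ℝ) ^ 2 ≤
        (((B.card + H.card) * c : ℕ) : ℝ) ^ 2 * (1 / w) := by
      calc ∑ p ∈ (pz y).filter (fun p => w < p), (((B.card + H.card) * c : ℕ) : ℝ) ^ 2 / (p : ℝ) ^ 2 ≤
          ∑ p ∈ (Icc 1 y).filter (fun n => w < n), (((B.card + H.card) * c : ℕ) : ℝ) ^ 2 / (p : ℝ) ^ 2 := by
            apply Finset.sum_le_sum_of_subset_of_nonneg
            · intro p hp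
              rw [mem_filter, mem_pz] at hp
              rw [mem_filter, mem_Icc]
              exact ⟨⟨hp.1.2.one_lt.le, hp.1.1⟩, hp.2⟩
            · intro p _ _
              positivity
        _ = (((B.card + H.card) * c : ℕ) : ℝ) ^ 2 *
            ∑ p ∈ (Icc 1 y).filter (fun n => w < n), 1 / (p : ℝ) ^ 2 := by
            rw [Finset.mul_sum]
            apply Finset.sum_congr rfl
            intros
            ring
        _ ≤ _ := mul_le_mul_of_nonneg_left h2 (by positivity)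
    rw [mul_one_div] at h3
    linarith
  · intro p hp
    rw [mem_filter] at hp
    have hp0 : (0 : ℝ) < p := by exact_mod_cast (mem_pz.1 hp.1).2.pos
    rw [div_le_one (by positivity)]
    apply pow_le_pow_left₀ (by positivity)
    have : (B.card + H.card) * c ≤ p := by omega
    exact_mod_cast this

end Pool.Agent.X262.LOS
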