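import Pool.Agent.X262.LOS.Rel2
import Pool.Agent.X262.LOS.LawW

set_option autoImplicit false

/-!
# The relative Poisson law
-/

namespace Pool.Agent.X262.LOS

open Finset Filter Pool.Agent.H373R2.T7 Pool.Agent.W123.RP Pool.Agent.W123.RU
open Pool.Agent.TH464.PO Pool.Agent.Y879.AP

open Classical in
/-- relative binomial moments as sums over sets of shifts -/
lemma moment_eqR (Q : ℕ → ℕ → Prop) (y k g M Y : ℕ) (W B : Finset ℕ) :
    ∑ m ∈ (Icc 1 Y).filter (fun m => Sf (QH Q B) y (g + M * m)),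
      ((Nn Q y W (g + M * m)).choose k : ℝ) =
      ∑ H ∈ powersetCard k W,
        (((Icc 1 Y).filter (fun m => Sf (Aff (QH Q (B ∪ H)) g M) y m)).card : ℝ) := by
  have h1 : ∀ H ∈ powersetCard k W,
      (((Icc 1 Y).filter (fun m => Sf (Aff (QH Q (B ∪ H)) g M) y m)).card : ℝ) =
      ∑ m ∈ (Icc 1 Y).filter (fun m => Sf (QH Q B) y (g + M * m)),
        if (∀ h ∈ H, Sf Q y (g + M * m + h)) then (1 : ℝ) else 0 := by
    intro H _
    rw [Finset.sum_ite, Finset.sum_const_zero, add_zero, Finset.sum_const, nsmul_eq_mul, mul_one]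
    congr 2
    rw [filter_filter]
    apply Finset.filter_congr
    intro m _
    have e : Sf (Aff (QH Q (B ∪ H)) g M) y m ↔ Sf (QH Q (B ∪ H)) y (g + M * m) := Iff.rfl
    rw [e, sf_QH, sf_QH]
    constructor
    · intro h
      exact ⟨fun b hb => h b (mem_union_left _ hb), fun b hb => h b (mem_union_right _ hb)⟩
    · rintro ⟨h2, h3⟩ b hb
      rcases mem_union.1 hb with h4 | h4
      · exact h2 b h4
      · exact h3 b h4
  rw [Finset.sum_congr rfl h1, Finset.sum_comm]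
  apply Finset.sum_congr rfl
  intro m _
  rw [Finset.sum_ite, Finset.sum_const_zero, add_zero, Finset.sum_const, nsmul_eq_mul, mul_one]
  unfold Nn
  rw [← Finset.card_powersetCard]
  congr 2
  ext H
  rw [mem_filter, mem_powersetCard, mem_powersetCard]
  constructor
  · rintro ⟨a1, a2⟩
    exact ⟨⟨fun h hh => (mem_filter.1 (a1 hh)).1, a2⟩, fun h hh => (mem_filter.1 (a1 hh)).2⟩
  · rintro ⟨⟨a1, a2⟩, a3⟩
    exact ⟨fun h hh => mem_filter.2 ⟨a1 hh, a3 h hh⟩, a2⟩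

/-- the conditions on the base -/
structure OkB (b w0 : ℕ) (W B : Finset ℕ) (Q : ℕ → ℕ → Prop) (ExB : ℕ → Prop) : Prop where
  card : B.card ≤ b
  exc : ∀ a ∈ W, ExB a → ∃ p ∈ pz w0, ∀ r, QH Q B p r ∨ Q p (r + a)

lemma perB_mono (Q : ℕ → ℕ → Prop) (c c' : ℕ) (h : PerB Q c) (hc : c ≤ c') : PerB Q c' :=
  ⟨h.per, fun p hp => (h.few p hp).trans hc⟩

open Classical in
/-- **Relative binomial moments.** -/
theorem momentR (c k b M0 w0 : ℕ) (hc : 1 ≤ c) (η d : ℝ) (hη : 0 < η) (hη1 : η ≤ 1) (hd : 0 < d) :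
    ∃ (K0 y0 T0 : ℕ) (η' : ℝ), 0 < η' ∧ ∀ Y y T : ℕ, y0 ≤ y → y ^ K0 ≤ Y → T0 ≤ T →
      ∀ (M g : ℕ) (W : Finset ℕ) (Q : ℕ → ℕ → Prop) (Ex : ℕ → Prop), Ok c M0 w0 M T d W Q Ex →
      (∀ t ∈ Icc 1 T, ¬ Ex t →
        ((((pz y).filter (fun p : ℕ => T < p ∧ CoG Q p t)).card : ℕ) : ℝ) ≤ η' * T) →
      ∀ (B : Finset ℕ) (ExB : ℕ → Prop), OkB b w0 W B Q ExB →
      (∀ t ∈ Icc 1 T, ¬ ExB t →
        ((((pz y).filter (fun p : ℕ => T < p ∧ CoB Q B p t)).card : ℕ) : ℝ) ≤ η' * T) →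
      |∑ m ∈ (Icc 1 Y).filter (fun m => Sf (QH Q B) y (g + M * m)),
          ((Nn Q y W (g + M * m)).choose (k + 1) : ℝ) -
        Y * (Vq (QH Q B) y * ((W.card * Vq Q y) ^ (k + 1) / (k + 1).factorial))| ≤
        η * Y * (Vq (QH Q B) y * ((W.card * Vq Q y) ^ (k + 1) / (k + 1).factorial)) +
          T ^ (k + 1) * √(Y : ℝ) := by
  obtain ⟨K0, x0, hK0, hfund⟩ := sys_fund ((b + (k + 1)) * c) (Nat.mul_pos (by omega) hc) (η / 4)
    (by positivity)
  obtain ⟨w, η', T0, hη', hsing⟩ := sing_avgR c k b M0 w0 (η / 4) d (by positivity) (by linarith) hd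
  refine ⟨K0, max x0 w, T0, η', hη', ?_⟩
  intro Y y T hy hyY hT M g W Q Ex hok hlarge B ExB hokB hlargeB
  obtain ⟨s1, s2⟩ := hsing T hT W hok.sub hok.dens Q hok.per hok.adm hok.equi Ex hok.exc B hokB.card
    ExB hokB.exc y ((le_max_right _ _).trans hy) hlarge hlargeB
  rw [moment_eqR]
  obtain ⟨S, hS⟩ : ∃ S, S = ∑ H ∈ powersetCard (k + 1) W, Vq (QH Q (B ∪ H)) y := ⟨_, rfl⟩
  obtain ⟨Z, hZ⟩ : ∃ Z : ℝ, Z = Vq (QH Q B) y * ((W.card * Vq Q y) ^ (k + 1) / (k + 1).factorial) :=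
    ⟨_, rfl⟩
  rw [← hS, ← hZ] at s1 s2
  rw [← hZ]
  have hV0 := Vq_nonneg Q y
  have hVB0 := Vq_nonneg (QH Q B) y
  have hZ0 : 0 ≤ Z := by rw [hZ]; positivity
  have hY0 : (0 : ℝ) ≤ Y := Nat.cast_nonneg Y
  have h1 : |∑ H ∈ powersetCard (k + 1) W,
      (((Icc 1 Y).filter (fun m => Sf (Aff (QH Q (B ∪ H)) g M) y m)).card : ℝ) - Y * S| ≤
      η / 4 * (Y * S) + T ^ (k + 1) * √(Y : ℝ) := by
    have e : Y * S = ∑ H ∈ powersetCard (k + 1) W, (Y : ℝ) * Vq (QH Q (B ∪ H)) y := by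
      rw [hS, Finset.mul_sum]
    rw [e, ← Finset.sum_sub_distrib]
    refine (Finset.abs_sum_le_sum_abs _ _).trans ?_
    have h2 : ∀ H ∈ powersetCard (k + 1) W,
        |(((Icc 1 Y).filter (fun m => Sf (Aff (QH Q (B ∪ H)) g M) y m)).card : ℝ) -
          Y * Vq (QH Q (B ∪ H)) y| ≤ η / 4 * (Y * Vq (QH Q (B ∪ H)) y) + √(Y : ℝ) := by
      intro H hH
      rw [mem_powersetCard] at hH
      have hcard : (B ∪ H).card ≤ b + (k + 1) := by
        have h3 := card_union_le B H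
        have h4 := hokB.card
        omega
      have hper0 := perB_QH Q c hok.per (B ∪ H)
      have hno : ∀ p, p ∣ M → ∀ n, ¬ QH Q (B ∪ H) p n := by
        rintro p hp n ⟨h, _, hq⟩
        exact hok.noM p hp _ hq
      have hper := perB_mono _ _ _ (perB_Aff (QH Q (B ∪ H)) _ hper0 g M hno)
        (Nat.mul_le_mul_right c hcard)
      have h3 := hfund Y y ((le_max_left _ _).trans hy) hyY (Aff (QH Q (B ∪ H)) g M) hper Y
      have e1 : ∏ p ∈ pz y, (1 - (nuB (Aff (QH Q (B ∪ H)) g M) p : ℝ) / p) =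
          Vq (QH Q (B ∪ H)) y := by
        rw [← Vq_Aff (QH Q (B ∪ H)) _ hper0 g M hno y]
        rfl
      rw [e1] at h3
      unfold Sf
      convert h3
    refine (Finset.sum_le_sum h2).trans ?_
    rw [Finset.sum_add_distrib, ← Finset.mul_sum, Finset.sum_const, nsmul_eq_mul]
    have h3 : ((powersetCard (k + 1) W).card : ℝ) ≤ (T : ℝ) ^ (k + 1) := by
      have h4 := card_le_card (powersetCard_mono (n := k + 1) hok.sub)
      rw [card_powersetCard (k + 1) (Icc 1 T), Nat.card_Icc, Nat.add_sub_cancel] at h4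
      exact_mod_cast h4.trans (Nat.choose_le_pow T (k + 1))
    have h4 := mul_le_mul_of_nonneg_right h3 (Real.sqrt_nonneg (Y : ℝ))
    linarith
  have h5 : |Y * S - Y * Z| ≤ η / 4 * (Y * Z) := by
    rw [← mul_sub, abs_mul, abs_of_nonneg hY0]
    have : |S - Z| ≤ η / 4 * Z := by
      rw [abs_le]
      constructor <;> linarith
    calc (Y : ℝ) * |S - Z| ≤ Y * (η / 4 * Z) := mul_le_mul_of_nonneg_left this hY0
      _ = _ := by ring
  have h6 : Y * S ≤ 2 * (Y * Z) := by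
    have h7 := (abs_le.1 h5).2
    have h8 : 0 ≤ Y * Z := mul_nonneg hY0 hZ0
    nlinarith
  have h8 : 0 ≤ Y * Z := mul_nonneg hY0 hZ0
  have h9 := abs_sub_le (∑ H ∈ powersetCard (k + 1) W,
      (((Icc 1 Y).filter (fun m => Sf (Aff (QH Q (B ∪ H)) g M) y m)).card : ℝ)) (Y * S) (Y * Z)
  have h10 : η / 4 * (Y * S) ≤ η / 4 * (2 * (Y * Z)) :=
    mul_le_mul_of_nonneg_left h6 (by positivity)
  have h11 : 0 ≤ η * (Y * Z) := by positivity
  calc _ ≤ _ := h9
    _ ≤ η / 4 * (2 * (Y * Z)) + T ^ (k + 1) * √(Y : ℝ) + η / 4 * (Y * Z) := by linarith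
    _ ≤ _ := by linarith

lemma poisson_le_one (x : ℝ) (hx : 0 ≤ x) (A : Finset ℕ) :
    0 ≤ ∑ j ∈ A, Real.exp (-x) * x ^ j / j.factorial ∧
      ∑ j ∈ A, Real.exp (-x) * x ^ j / j.factorial ≤ 1 := by
  have h0 : ∀ j : ℕ, 0 ≤ Real.exp (-x) * x ^ j / j.factorial := fun j => by positivity
  refine ⟨Finset.sum_nonneg fun j _ => h0 j, ?_⟩
  have h1 : A ⊆ range (A.sup id + 1) := by
    intro j hj
    rw [mem_range]
    have : j ≤ A.sup id := Finset.le_sup (f := id) hj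
    omega
  refine (Finset.sum_le_sum_of_subset_of_nonneg h1 (fun j _ _ => h0 j)).trans ?_
  have h2 := Real.sum_le_exp_of_nonneg hx (A.sup id + 1)
  have h3 : ∑ j ∈ range (A.sup id + 1), Real.exp (-x) * x ^ j / j.factorial =
      Real.exp (-x) * ∑ j ∈ range (A.sup id + 1), x ^ j / j.factorial := by
    rw [Finset.mul_sum]
    apply Finset.sum_congr rfl
    intros
    ring
  rw [h3]
  calc _ ≤ Real.exp (-x) * Real.exp x := mul_le_mul_of_nonneg_left h2 (Real.exp_pos _).le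
    _ = 1 := by rw [← Real.exp_add, neg_add_cancel, Real.exp_zero]

open Classical in
/-- **The relative Poisson law**, uniform in the system, the window and the base. -/
theorem lawR (c b M0 w0 : ℕ) (hc : 1 ≤ c) (x0 ε d : ℝ) (hx0 : 0 ≤ x0) (hε : 0 < ε) (hd : 0 < d) :
    ∃ (K0 y0 T0 R0 : ℕ) (η' : ℝ), 0 < η' ∧ ∀ Y y T : ℕ, y0 ≤ y → y ^ K0 ≤ Y → T0 ≤ T → T ^ R0 ≤ Y →
      ∀ (M g : ℕ) (W : Finset ℕ) (Q : ℕ → ℕ → Prop) (Ex : ℕ → Prop), Ok c M0 w0 M T d W Q Ex →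
      W.card * Vq Q y ≤ x0 →
      (∀ t ∈ Icc 1 T, ¬ Ex t →
        ((((pz y).filter (fun p : ℕ => T < p ∧ CoG Q p t)).card : ℕ) : ℝ) ≤ η' * T) →
      ∀ (B : Finset ℕ) (ExB : ℕ → Prop), OkB b w0 W B Q ExB →
      (∀ t ∈ Icc 1 T, ¬ ExB t →
        ((((pz y).filter (fun p : ℕ => T < p ∧ CoB Q B p t)).card : ℕ) : ℝ) ≤ η' * T) →
      |(((Icc 1 Y).filter (fun m => Sf (QH Q B) y (g + M * m))).card : ℝ) -
        Y * Vq (QH Q B) y| ≤ ε * (Y * Vq (QH Q B) y) ∧
      ∀ A : Finset ℕ, |(((Icc 1 Y).filter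
          (fun m => Sf (QH Q B) y (g + M * m) ∧ Nn Q y W (g + M * m) ∈ A)).card : ℝ) -
        Y * Vq (QH Q B) y *
          ∑ j ∈ A, Real.exp (-(W.card * Vq Q y)) * (W.card * Vq Q y) ^ j / j.factorial| ≤
          ε * (Y * Vq (QH Q B) y) := by
  obtain ⟨R, η, hη, htv⟩ := law_tv x0 (ε / 4) hx0 (by positivity)
  obtain ⟨X1, hX1⟩ : ∃ X1 : ℝ, X1 = (1 + x0) ^ (R + 1) := ⟨_, rfl⟩
  have hX1pos : 1 ≤ X1 := by rw [hX1]; exact one_le_pow₀ (by linarith)
  obtain ⟨η1, hη1⟩ : ∃ η1 : ℝ, η1 = min (min 1 (η / (16 * X1))) (min (1 / 4) (ε / 8)) := ⟨_, rfl⟩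
  have hη10 : 0 < η1 := by rw [hη1]; positivity
  have hη11 : η1 ≤ 1 := by rw [hη1]; exact (min_le_left _ _).trans (min_le_left _ _)
  have hη14 : η1 ≤ 1 / 4 := by rw [hη1]; exact (min_le_right _ _).trans (min_le_left _ _)
  have hη1ε : η1 ≤ ε / 8 := by rw [hη1]; exact (min_le_right _ _).trans (min_le_right _ _)
  have hη12 : η1 * X1 ≤ η / 16 := by
    have : η1 ≤ η / (16 * X1) := by rw [hη1]; exact (min_le_left _ _).trans (min_le_right _ _)
    rw [le_div_iff₀ (by positivity)] at this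
    linarith
  choose K0 y0 T0 η' hη' hmom using fun k => momentR c k b M0 w0 hc η1 d hη10 hη11 hd
  obtain ⟨K1, y1, hK1, hfund⟩ := sys_fund (b * c + 1) (by omega) η1 hη10
  obtain ⟨v, hv, hVlow⟩ := V_lower_unif (b * c)
  obtain ⟨y2, hy2⟩ : ∃ y2 : ℕ, (1 / (η1 * v)) ^ 8 ≤ y2 := exists_nat_ge _
  obtain ⟨η0, hη00, hη0⟩ := exists_lower η' hη' R
  refine ⟨(∑ k ∈ range R, K0 k) + K1 + 8 * (b * c) + 1, (∑ k ∈ range R, y0 k) + y1 + y2 + b * c + 2,
    (∑ k ∈ range R, T0 k) + 1, 8 * (R + 1), η0, hη00, ?_⟩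
  intro Y y T hy hyY hT hTR M g W Q Ex hok hx hlarge B ExB hokB hlargeB
  obtain ⟨x, hxdef⟩ : ∃ x, x = W.card * Vq Q y := ⟨_, rfl⟩
  rw [← hxdef] at hx ⊢
  have hx00 : 0 ≤ x := by
    rw [hxdef]
    exact mul_nonneg (Nat.cast_nonneg _) (Vq_nonneg Q y)
  have hperB := perB_QH Q c hok.per B
  have hbc : B.card * c ≤ b * c := Nat.mul_le_mul_right c hokB.card
  obtain ⟨VB, hVB⟩ : ∃ VB, VB = Vq (QH Q B) y := ⟨_, rfl⟩
  have hVB0 : 0 ≤ VB := by rw [hVB]; exact Vq_nonneg _ y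
  rw [← hVB]
  by_cases hadmB : ∀ p : ℕ, p.Prime → nuB (QH Q B) p < p
  swap
  · -- the base is not admissible
    push Not at hadmB
    obtain ⟨p, hp, hpB⟩ := hadmB
    have hpy : p ∈ pz y := by
      rw [mem_pz]
      have := hperB.few p hp
      exact ⟨by omega, hp⟩
    have hall : ∀ r, QH Q B p r := by
      intro r
      have h1 : nuB (QH Q B) p = p := le_antisymm (nuB_le _ p) hpB
      unfold nuB at h1
      have h2 : (range p).filter (fun r => QH Q B p r) = range p := by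
        apply Finset.filter_eq_self.2
        have h3 := Finset.card_filter_eq_iff (s := range p) (p := fun r => QH Q B p r)
        rw [card_range] at h3
        exact h3.1 (by convert h1)
      rw [hperB.per p r]
      have h4 : r % p ∈ (range p).filter (fun r => QH Q B p r) := by
        rw [h2, mem_range]
        exact Nat.mod_lt _ hp.pos
      exact (mem_filter.1 h4).2
    have e0 : (Icc 1 Y).filter (fun m => Sf (QH Q B) y (g + M * m)) = ∅ := by
      rw [Finset.filter_eq_empty_iff]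
      intro m _ h1
      exact h1 p hpy (hall _)
    have e1 : ∀ A : Finset ℕ, (Icc 1 Y).filter
        (fun m => Sf (QH Q B) y (g + M * m) ∧ Nn Q y W (g + M * m) ∈ A) = ∅ := by
      intro A
      rw [Finset.filter_eq_empty_iff]
      rintro m _ ⟨h1, _⟩
      exact h1 p hpy (hall _)
    rw [hVB, Vq_zero _ y p hpy hall]
    refine ⟨?_, fun A => ?_⟩
    · rw [e0, card_empty]
      simp
    · rw [e1, card_empty]
      simp
  have hy1' : 1 ≤ y := by omega
  have hT1 : 1 ≤ T := by omega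
  have hyY' : y ≤ Y := by
    calc y = y ^ 1 := (pow_one y).symm
      _ ≤ y ^ ((∑ k ∈ range R, K0 k) + K1 + 8 * (b * c) + 1) := Nat.pow_le_pow_right hy1' (by omega)
      _ ≤ Y := hyY
  have hY1 : (1 / (η1 * v)) ^ 8 ≤ (Y : ℝ) := hy2.trans (by exact_mod_cast (by omega : y2 ≤ Y))
  have hYpos : (0 : ℝ) < Y := lt_of_lt_of_le (by positivity) hY1
  obtain ⟨s, hs⟩ : ∃ s : ℝ, s = √(√(√(Y : ℝ))) := ⟨_, rfl⟩
  have hs0 : 0 < s := by rw [hs]; positivity
  have hs8 : s ^ 8 = (Y : ℝ) := by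
    have e1 : √(√(√(Y : ℝ))) ^ 2 = √(√(Y : ℝ)) := Real.sq_sqrt (Real.sqrt_nonneg _)
    have e2 : √(√(Y : ℝ)) ^ 2 = √(Y : ℝ) := Real.sq_sqrt (Real.sqrt_nonneg _)
    have e3 : √(Y : ℝ) ^ 2 = Y := Real.sq_sqrt hYpos.le
    calc s ^ 8 = ((s ^ 2) ^ 2) ^ 2 := by ring
      _ = (Y : ℝ) := by rw [hs, e1, e2, e3]
  have hle8 : ∀ a : ℝ, 0 ≤ a → a ^ 8 ≤ Y → a ≤ s := by
    intro a ha h
    rw [← hs8] at h
    exact le_of_pow_le_pow_left₀ (by norm_num) hs0.le h
  have hsqrt : √(Y : ℝ) = s ^ 4 := by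
    have : √(Y : ℝ) = √((s ^ 4) ^ 2) := by
      rw [← pow_mul]
      norm_num
      rw [hs8]
    rw [this, Real.sqrt_sq (by positivity)]
  have hs1 : 1 / (η1 * v) ≤ s := hle8 _ (by positivity) hY1
  have hT8 : (T : ℝ) ^ (R + 1) ≤ s := by
    apply hle8 _ (by positivity)
    rw [← pow_mul, mul_comm (R + 1) 8]
    exact_mod_cast hTR
  have hy8 : (y : ℝ) ^ (b * c) ≤ s := by
    apply hle8 _ (by positivity)
    rw [← pow_mul, mul_comm (b * c) 8]
    have : y ^ (8 * (b * c)) ≤ Y := (Nat.pow_le_pow_right hy1' (by omega)).trans hyY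
    exact_mod_cast this
  have hs1' : 1 ≤ s := by
    refine le_trans ?_ hT8
    exact one_le_pow₀ (by exact_mod_cast hT1)
  -- the lower bound for the density of the base
  have hVBlow : v / s ≤ VB := by
    have h1 := hVlow (QH Q B) (perB_mono _ _ _ hperB hbc) hadmB y (by omega)
    rw [← hVB] at h1
    refine le_trans ?_ h1
    have hy2r : (1 : ℝ) < y := by exact_mod_cast (by omega : 1 < y)
    have hlog : 0 < Real.log y := Real.log_pos hy2r
    have hlogle : Real.log y ≤ y := (Real.log_le_sub_one_of_pos (by linarith)).trans (by linarith)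
    apply div_le_div_of_nonneg_left hv.le (by positivity)
    exact (pow_le_pow_left₀ hlog.le hlogle _).trans hy8
  have hYVB : v * s ^ 7 ≤ Y * VB := by
    have h1 : v ≤ VB * s := by rwa [div_le_iff₀ hs0] at hVBlow
    rw [← hs8]
    calc v * s ^ 7 ≤ VB * s * s ^ 7 := mul_le_mul_of_nonneg_right h1 (by positivity)
      _ = s ^ 8 * VB := by ring
  have hs5 : s * √(Y : ℝ) ≤ η1 * (Y * VB) := by
    have h1 : 1 ≤ η1 * v * s := by
      rw [div_le_iff₀ (by positivity)] at hs1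
      linarith
    have h2 : (1 : ℝ) ≤ s := hs1'
    rw [hsqrt]
    calc s * s ^ 4 = s ^ 5 * 1 := by ring
      _ ≤ s ^ 5 * (η1 * v * s) := mul_le_mul_of_nonneg_left h1 (by positivity)
      _ = η1 * (v * s ^ 6 * 1) := by ring
      _ ≤ η1 * (v * s ^ 6 * s) := by gcongr
      _ = η1 * (v * s ^ 7) := by ring
      _ ≤ _ := mul_le_mul_of_nonneg_left hYVB hη10.le
  have hsq : √(Y : ℝ) ≤ η1 * (Y * VB) := by
    refine le_trans ?_ hs5
    exact le_mul_of_one_le_left (Real.sqrt_nonneg _) hs1'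
  obtain ⟨N, hN⟩ : ∃ N, N = Y * VB := ⟨_, rfl⟩
  have hN0 : 0 ≤ N := by rw [hN]; positivity
  rw [← hN] at hs5 hsq
  -- the number of the elements with the base
  obtain ⟨Om, hOm⟩ : ∃ Om, Om = (Icc 1 Y).filter (fun m => Sf (QH Q B) y (g + M * m)) := ⟨_, rfl⟩
  have hOmc : |(Om.card : ℝ) - N| ≤ 2 * (η1 * N) := by
    have hno : ∀ p, p ∣ M → ∀ n, ¬ QH Q B p n := by
      rintro p hp n ⟨h, _, hq⟩
      exact hok.noM p hp _ hq
    have hper := perB_mono _ _ _ (perB_Aff (QH Q B) _ hperB g M hno) (by omega : B.card * c ≤ b * c + 1)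
    have h3 := hfund Y y (by omega) ((Nat.pow_le_pow_right hy1' (by omega)).trans hyY)
      (Aff (QH Q B) g M) hper Y
    have e1 : ∏ p ∈ pz y, (1 - (nuB (Aff (QH Q B) g M) p : ℝ) / p) = VB := by
      rw [hVB, ← Vq_Aff (QH Q B) _ hperB g M hno y]
      rfl
    rw [e1, ← hN] at h3
    have e2 : Om.card = ((Icc 1 Y).filter (fun n : ℕ => ∀ p ∈ pz y, ¬ Aff (QH Q B) g M p n)).card := by
      rw [hOm]
      exact card_iff _ _ (fun m _ => Iff.rfl)
    rw [e2]
    linarith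
  obtain ⟨o1, o2⟩ := abs_le.1 hOmc
  have hOm2 : N / 2 ≤ Om.card := by nlinarith
  have hOm3 : (Om.card : ℝ) ≤ 2 * N := by nlinarith
  refine ⟨?_, fun A => ?_⟩
  · rw [← hOm, ← hN]
    refine hOmc.trans ?_
    calc 2 * (η1 * N) ≤ 2 * (ε / 8 * N) := by gcongr
      _ ≤ ε * N := by nlinarith
  obtain ⟨hP0, hP1⟩ := poisson_le_one x hx00 A
  obtain ⟨P, hP⟩ : ∃ P, P = ∑ j ∈ A, Real.exp (-x) * x ^ j / j.factorial := ⟨_, rfl⟩
  rw [← hP] at hP0 hP1 ⊢
  have hmain := htv Om (fun m => Nn Q y W (g + M * m)) x hx00 hx (by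
    intro k hk
    rcases k with _ | k
    · have e0 : (∑ n ∈ Om, ((Nn Q y W (g + M * n)).choose 0 : ℝ)) = Om.card := by
        have e01 : ∀ n ∈ Om, ((Nn Q y W (g + M * n)).choose 0 : ℝ) = 1 := fun n _ => by
          rw [Nat.choose_zero_right, Nat.cast_one]
        rw [Finset.sum_congr rfl e01, Finset.sum_const, nsmul_eq_mul, mul_one]
      rw [e0, pow_zero, Nat.factorial_zero, Nat.cast_one, div_one, mul_one, sub_self, abs_zero]
      exact mul_nonneg hη.le (Nat.cast_nonneg _)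
    · have hkR : k ∈ range R := mem_range.2 (by omega)
      have hKk : K0 k ≤ ∑ k ∈ range R, K0 k := Finset.single_le_sum (fun _ _ => Nat.zero_le _) hkR
      have hyk : y0 k ≤ ∑ k ∈ range R, y0 k := Finset.single_le_sum (fun _ _ => Nat.zero_le _) hkR
      have hTk : T0 k ≤ ∑ k ∈ range R, T0 k := Finset.single_le_sum (fun _ _ => Nat.zero_le _) hkR
      have h1 := hmom k Y y T (by omega)
        ((Nat.pow_le_pow_right hy1' (by omega)).trans hyY) (by omega) M g W Q Ex hok (fun t ht hx =>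
          (hlarge t ht hx).trans
            (mul_le_mul_of_nonneg_right (hη0 k (by omega)) (Nat.cast_nonneg _))) B ExB hokB
          (fun t ht hx => (hlargeB t ht hx).trans
            (mul_le_mul_of_nonneg_right (hη0 k (by omega)) (Nat.cast_nonneg _)))
      rw [← hxdef, ← hOm, ← hVB] at h1
      obtain ⟨q, hq⟩ : ∃ q, q = x ^ (k + 1) / ((k + 1).factorial : ℝ) := ⟨_, rfl⟩
      rw [← hq] at h1 ⊢
      have hq0 : 0 ≤ q := by rw [hq]; positivity
      have h2 : q ≤ X1 := by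
        have hf1 : (1 : ℝ) ≤ (k + 1).factorial := by exact_mod_cast Nat.factorial_pos (k + 1)
        calc q = x ^ (k + 1) / ((k + 1).factorial : ℝ) := hq
          _ ≤ x ^ (k + 1) := div_le_self (by positivity) hf1
          _ ≤ (1 + x0) ^ (k + 1) := pow_le_pow_left₀ hx00 (by linarith) _
          _ ≤ (1 + x0) ^ (R + 1) := pow_le_pow_right₀ (by linarith) (by omega)
          _ = X1 := hX1.symm
      have h3 : (T : ℝ) ^ (k + 1) * √(Y : ℝ) ≤ η1 * N := by
        refine le_trans ?_ hs5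
        apply mul_le_mul_of_nonneg_right _ (Real.sqrt_nonneg _)
        refine le_trans ?_ hT8
        apply pow_le_pow_right₀ (by exact_mod_cast hT1) (by omega)
      have e3 : (Y : ℝ) * (VB * q) = N * q := by rw [hN]; ring
      have e4 : η1 * Y * (VB * q) = η1 * (N * q) := by rw [hN]; ring
      rw [e3, e4] at h1
      have h4 : η1 * (N * q) ≤ η / 16 * N := by
        calc η1 * (N * q) ≤ η1 * (N * X1) := by gcongr
          _ = (η1 * X1) * N := by ring
          _ ≤ _ := mul_le_mul_of_nonneg_right hη12 hN0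
      have h5 : η1 * N ≤ η / 16 * N := by
        apply mul_le_mul_of_nonneg_right _ hN0
        refine le_trans ?_ hη12
        exact le_mul_of_one_le_right hη10.le hX1pos
      have h6 : |(N - Om.card) * q| ≤ η / 8 * N := by
        rw [abs_mul, abs_of_nonneg hq0, abs_sub_comm]
        calc |(Om.card : ℝ) - N| * q ≤ 2 * (η1 * N) * X1 := mul_le_mul hOmc h2 hq0 (by positivity)
          _ = 2 * ((η1 * X1) * N) := by ring
          _ ≤ 2 * (η / 16 * N) := by gcongr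
          _ = _ := by ring
      have h7 := abs_sub_le (∑ n ∈ Om, ((Nn Q y W (g + M * n)).choose (k + 1) : ℝ)) (N * q)
        (Om.card * q)
      have h8 : N * q - Om.card * q = (N - Om.card) * q := by ring
      rw [h8] at h7
      calc _ ≤ _ := h7
        _ ≤ (η / 16 * N + η / 16 * N) + η / 8 * N := by linarith
        _ ≤ η * (N / 2) := by nlinarith
        _ ≤ _ := mul_le_mul_of_nonneg_left hOm2 hη.le) A
  rw [← hP] at hmain
  have e5 : (Icc 1 Y).filter (fun m => Sf (QH Q B) y (g + M * m) ∧ Nn Q y W (g + M * m) ∈ A) =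
      Om.filter (fun m => Nn Q y W (g + M * m) ∈ A) := by
    rw [hOm, filter_filter]
  rw [e5, ← hN]
  have h9 : |(Om.card : ℝ) * P - N * P| ≤ ε / 4 * N := by
    rw [← sub_mul, abs_mul, abs_of_nonneg hP0]
    calc |(Om.card : ℝ) - N| * P ≤ 2 * (η1 * N) * 1 := mul_le_mul hOmc hP1 hP0 (by positivity)
      _ ≤ 2 * (ε / 8 * N) * 1 := by gcongr
      _ = _ := by ring
  have h10 := abs_sub_le (((Om.filter (fun m => Nn Q y W (g + M * m) ∈ A)).card : ℝ)) (Om.card * P)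
    (N * P)
  have h11 : ε / 4 * (Om.card : ℝ) ≤ ε / 2 * N := by nlinarith
  calc _ ≤ _ := h10
    _ ≤ ε / 2 * N + ε / 4 * N := by linarith
    _ ≤ ε * N := by nlinarith

end Pool.Agent.X262.LOS
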