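import Pool.Agent.X262.LOS.Rel3
import Pool.Agent.X262.LOS.Main
import Pool.Agent.X262.LOS.Cells

set_option autoImplicit false

/-!
# The sifted integers with a base and an empty window
-/

namespace Pool.Agent.X262.LOS

open Finset Filter Pool.Agent.H373R2.T7 Pool.Agent.W123.RP Pool.Agent.W123.RU
open Pool.Agent.TH464.PO Pool.Agent.Y879.AP

/-- the conditions on the system and the base -/
structure Sr (c b w0 : ℕ) (Q : ℕ → ℕ → Prop) (Ex : ℕ → Prop) (B : Finset ℕ) (ExB : ℕ → Prop) :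
    Prop where
  per : PerB Q c
  adm : ∀ p : ℕ, p.Prime → nuB Q p < p
  no1 : ∀ p, p ∣ 1 → ∀ n, ¬ Q p n
  exc : ∀ a b, a < b → Ex (b - a) → ∃ p ∈ pz w0, ∀ r, Q p (r + a) ∨ Q p (r + b)
  card : B.card ≤ b
  excB : ∀ a, a ∉ B → ExB a → ∃ p ∈ pz w0, ∀ r, QH Q B p r ∨ Q p (r + a)

/-- no element in the window outside of the base -/
def Vo1 (Q : ℕ → ℕ → Prop) (y : ℕ) (B : Finset ℕ) (T n : ℕ) : Prop :=
  ∀ h, 1 ≤ h → h ≤ T → h ∉ B → ¬ Sf Q y (n + h)

open Classical in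
/-- the number of the elements with the base and the empty window -/
noncomputable def Nv (Q : ℕ → ℕ → Prop) (y : ℕ) (B : Finset ℕ) (T Z Y : ℕ) : ℕ :=
  ((Ioc Z (Z + Y)).filter (fun n => Sf (QH Q B) y n ∧ Vo1 Q y B T n)).card

open Classical in
/-- the number of the elements with the base -/
noncomputable def Nb (Q : ℕ → ℕ → Prop) (y : ℕ) (B : Finset ℕ) (Z Y : ℕ) : ℕ :=
  ((Ioc Z (Z + Y)).filter (fun n => Sf (QH Q B) y n)).card

lemma shift_card (P : ℕ → Prop) [DecidablePred P] (Z Y : ℕ) : ((Ioc Z (Z + Y)).filter P).card =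
    ((Icc 1 Y).filter (fun m => P (Z + 1 * m))).card := by
  symm
  apply Finset.card_bij (fun n _ => n + Z)
  · intro n hn
    rw [mem_filter, mem_Icc] at hn
    rw [mem_filter, mem_Ioc]
    refine ⟨by omega, ?_⟩
    have := hn.2
    rwa [show Z + 1 * n = n + Z by ring] at this
  · intro a _ b _ hab
    omega
  · intro n hn
    rw [mem_filter, mem_Ioc] at hn
    refine ⟨n - Z, ?_, by omega⟩
    rw [mem_filter, mem_Icc, show Z + 1 * (n - Z) = n by omega]
    exact ⟨by omega, hn.2⟩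

lemma nn_vo (Q : ℕ → ℕ → Prop) (y : ℕ) (B : Finset ℕ) (T n : ℕ) :
    Nn Q y (Icc 1 T \ B) n ∈ ({0} : Finset ℕ) ↔ Vo1 Q y B T n := by
  classical
  rw [mem_singleton]
  unfold Nn Vo1
  rw [card_eq_zero, Finset.filter_eq_empty_iff]
  constructor
  · intro h a h1 h2 h3
    exact h (Finset.mem_sdiff.2 ⟨mem_Icc.2 ⟨h1, h2⟩, h3⟩)
  · intro h a ha
    rw [Finset.mem_sdiff, mem_Icc] at ha
    exact h a ha.1.1 ha.1.2 ha.2

lemma equi_sdiff (Q : ℕ → ℕ → Prop) (c : ℕ) (hQ : PerB Q c) (B : Finset ℕ) (b : ℕ)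
    (hB : B.card ≤ b) (T w m : ℕ) :
    |(Nn Q w (Icc 1 T \ B) m : ℝ) - (Icc 1 T \ B).card * Vq Q w| ≤ ((2 * b + 1 : ℕ) : ℝ) * Mw w := by
  classical
  have h1 := window Q c hQ w m T
  have hM : (1 : ℝ) ≤ Mw w := by exact_mod_cast Mw_pos w
  have hV0 := Vq_nonneg Q w
  have hV1 := Vq_le_one Q w
  have e1 : (Nn Q w (Icc 1 T \ B) m : ℝ) ≤ ((Icc 1 T).filter (fun h => Sf Q w (m + h))).card := by
    unfold Nn
    exact_mod_cast card_le_card (filter_subset_filter _ sdiff_subset)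
  have e2 : (((Icc 1 T).filter (fun h => Sf Q w (m + h))).card : ℝ) ≤
      Nn Q w (Icc 1 T \ B) m + b := by
    have h2 : (Icc 1 T).filter (fun h => Sf Q w (m + h)) ⊆
        (Icc 1 T \ B).filter (fun h => Sf Q w (m + h)) ∪ B := by
      intro h hh
      rw [mem_filter] at hh
      rw [mem_union, mem_filter, Finset.mem_sdiff]
      by_cases h3 : h ∈ B
      · exact Or.inr h3
      · exact Or.inl ⟨⟨hh.1, h3⟩, hh.2⟩
    have h3 := (card_le_card h2).trans (card_union_le _ _)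
    unfold Nn
    exact_mod_cast h3.trans (by omega)
  have e3 : (T : ℝ) - b ≤ (Icc 1 T \ B).card := by
    have h2 := Finset.le_card_sdiff B (Icc 1 T)
    rw [Nat.card_Icc, Nat.add_sub_cancel] at h2
    have h3 : T ≤ (Icc 1 T \ B).card + b := by omega
    have h4 : (T : ℝ) ≤ (Icc 1 T \ B).card + b := by exact_mod_cast h3
    linarith
  have e4 : ((Icc 1 T \ B).card : ℝ) ≤ T := by
    have := card_le_card (sdiff_subset (s := Icc 1 T) (t := B))
    rw [Nat.card_Icc, Nat.add_sub_cancel] at this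
    exact_mod_cast this
  obtain ⟨a1, a2⟩ := abs_le.1 h1
  have hb : (0 : ℝ) ≤ b := Nat.cast_nonneg b
  have hbM : (b : ℝ) ≤ b * Mw w := le_mul_of_one_le_right hb hM
  rw [abs_le]
  push_cast
  constructor
  · nlinarith
  · nlinarith

open Classical in
theorem rel_void (c b w0 : ℕ) (hc : 1 ≤ c) (x0 ε : ℝ) (hx0 : 0 ≤ x0) (hε : 0 < ε) (hε1 : ε ≤ 1) :
    ∃ (K0 y0 : ℕ) (κ η' τ1 : ℝ), 0 < κ ∧ 0 < η' ∧ 0 < τ1 ∧ ∀ y Y : ℕ, y0 ≤ y → y ^ K0 ≤ Y →
      ∀ (Q : ℕ → ℕ → Prop) (Ex : ℕ → Prop) (B : Finset ℕ) (ExB : ℕ → Prop), Sr c b w0 Q Ex B ExB →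
      Vq Q y ≤ κ →
      (∀ T : ℕ, τ1 ≤ T * Vq Q y → T * Vq Q y ≤ max x0 1 → T ≤ y → ∀ t ∈ Icc 1 T,
        (¬ Ex t → ((((pz y).filter (fun p : ℕ => T < p ∧ CoG Q p t)).card : ℕ) : ℝ) ≤ η' * T) ∧
        (¬ ExB t → ((((pz y).filter (fun p : ℕ => T < p ∧ CoB Q B p t)).card : ℕ) : ℝ) ≤ η' * T)) →
      ∀ Z : ℕ, |(Nb Q y B Z Y : ℝ) - Y * Vq (QH Q B) y| ≤ ε * (Y * Vq (QH Q B) y) ∧
        ∀ T : ℕ, T * Vq Q y ≤ x0 →
        |(Nv Q y B T Z Y : ℝ) - Y * Vq (QH Q B) y * Real.exp (-(T * Vq Q y))| ≤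
          ε * (Y * Vq (QH Q B) y) := by
  obtain ⟨K0, y0, T0, R0, η', hη', hlaw⟩ := lawR c b (2 * b + 1) w0 hc (max x0 1) (ε / 16) (1 / 2)
    (by positivity) (by positivity) (by norm_num)
  obtain ⟨y1, hy1⟩ := V_big c (max x0 1)
  obtain ⟨τ1, hτ1⟩ : ∃ τ1 : ℝ, τ1 = ε / 16 := ⟨_, rfl⟩
  have hτ10 : 0 < τ1 := by rw [hτ1]; positivity
  obtain ⟨κ, hκ⟩ : ∃ κ : ℝ, κ = τ1 / (T0 + 2 * b + 1) := ⟨_, rfl⟩
  have hκ0 : 0 < κ := by rw [hκ]; positivity
  have hκ1 : κ * (T0 + 2 * b + 1) = τ1 := by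
    rw [hκ]
    field_simp
  have hb0 : (0 : ℝ) ≤ b := Nat.cast_nonneg b
  have hT00 : (0 : ℝ) ≤ T0 := Nat.cast_nonneg T0
  have hκτ : κ ≤ τ1 := by
    nlinarith [mul_nonneg hκ0.le hT00, mul_nonneg hκ0.le hb0]
  have hκb : κ * b ≤ τ1 := by
    nlinarith [mul_nonneg hκ0.le hT00, mul_nonneg hκ0.le hb0]
  refine ⟨K0 + R0, max y0 (y1 + 1), κ, η', τ1, hκ0, hη', hτ10, ?_⟩
  intro y Y hy hyY Q Ex B ExB hs hVκ hcol Z
  have hy1' : 1 ≤ y := by
    have := (le_max_right y0 (y1 + 1)).trans hy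
    omega
  have hV0 : 0 < Vq Q y := Vq_pos Q hs.adm y
  obtain ⟨V, hV⟩ : ∃ V, V = Vq Q y := ⟨_, rfl⟩
  obtain ⟨N, hN⟩ : ∃ N, N = Y * Vq (QH Q B) y := ⟨_, rfl⟩
  have hVB0 := Vq_nonneg (QH Q B) y
  have hN0 : 0 ≤ N := by rw [hN]; positivity
  have hyB := hy1 y (by
    have := (le_max_right y0 (y1 + 1)).trans hy
    omega) Q hs.per hs.adm
  -- one window
  have hone : ∀ T : ℕ, τ1 ≤ T * Vq Q y → T * Vq Q y ≤ max x0 1 →
      |(Nv Q y B T Z Y : ℝ) - N * Real.exp (-(T * Vq Q y))| ≤ ε / 4 * N ∧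
      |(Nb Q y B Z Y : ℝ) - N| ≤ ε / 4 * N := by
    intro T hT1 hT2
    have hTy : T ≤ y := by
      have h1 : (T : ℝ) * Vq Q y ≤ y * Vq Q y := hT2.trans hyB
      exact_mod_cast le_of_mul_le_mul_right h1 hV0
    have hTbig : T0 + 2 * b + 1 ≤ T := by
      have h1 : κ * ((T0 + 2 * b + 1 : ℕ) : ℝ) ≤ κ * T := by
        push_cast
        rw [hκ1]
        calc τ1 ≤ T * Vq Q y := hT1
          _ ≤ T * κ := mul_le_mul_of_nonneg_left hVκ (Nat.cast_nonneg _)
          _ = κ * T := mul_comm _ _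
      exact_mod_cast le_of_mul_le_mul_left h1 hκ0
    have hTR : T ^ R0 ≤ Y := (Nat.pow_le_pow_left hTy R0).trans
      ((Nat.pow_le_pow_right hy1' (by omega)).trans hyY)
    have hyK : y ^ K0 ≤ Y := (Nat.pow_le_pow_right hy1' (by omega)).trans hyY
    have hcardW : ((Icc 1 T \ B).card : ℝ) ≤ T := by
      have := card_le_card (sdiff_subset (s := Icc 1 T) (t := B))
      rw [Nat.card_Icc, Nat.add_sub_cancel] at this
      exact_mod_cast this
    have hcardW' : (T : ℝ) - b ≤ (Icc 1 T \ B).card := by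
      have h2 := Finset.le_card_sdiff B (Icc 1 T)
      rw [Nat.card_Icc, Nat.add_sub_cancel] at h2
      have h5 := hs.card
      have h3 : T ≤ (Icc 1 T \ B).card + b := by omega
      have h4 : (T : ℝ) ≤ (Icc 1 T \ B).card + b := by exact_mod_cast h3
      linarith
    have hok : Ok c (2 * b + 1) w0 1 T (1 / 2) (Icc 1 T \ B) Q Ex :=
      { sub := sdiff_subset
        dens := by
          have h1 : ((T0 + 2 * b + 1 : ℕ) : ℝ) ≤ T := by exact_mod_cast hTbig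
          push_cast at h1
          linarith
        per := hs.per
        adm := hs.adm
        noM := hs.no1
        equi := fun w m => equi_sdiff Q c hs.per B b hs.card T w m
        exc := fun a _ b _ hab hx => hs.exc a b hab hx }
    have hokB : OkB b w0 (Icc 1 T \ B) B Q ExB :=
      { card := hs.card
        exc := fun a ha hx => hs.excB a (Finset.mem_sdiff.1 ha).2 hx }
    have hx : ((Icc 1 T \ B).card : ℝ) * Vq Q y ≤ max x0 1 :=
      (mul_le_mul_of_nonneg_right hcardW hV0.le).trans hT2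
    obtain ⟨h0, h1⟩ := hlaw Y y T ((le_max_left _ _).trans hy) hyK (by omega) hTR 1 Z
      (Icc 1 T \ B) Q Ex hok hx (fun t ht => (hcol T hT1 hT2 hTy t ht).1) B ExB hokB
      (fun t ht => (hcol T hT1 hT2 hTy t ht).2)
    -- the mean
    have hm1 : |((Icc 1 T \ B).card : ℝ) * Vq Q y - T * Vq Q y| ≤ ε / 16 := by
      rw [← sub_mul, abs_mul, abs_of_pos hV0]
      have h2 : |((Icc 1 T \ B).card : ℝ) - T| ≤ b := by
        rw [abs_le]
        constructor <;> linarith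
      calc |((Icc 1 T \ B).card : ℝ) - T| * Vq Q y ≤ b * κ := mul_le_mul h2 hVκ hV0.le hb0
        _ = κ * b := mul_comm _ _
        _ ≤ _ := by rw [← hτ1]; exact hκb
    have hx0' : 0 ≤ ((Icc 1 T \ B).card : ℝ) * Vq Q y := by positivity
    have hT0' : 0 ≤ (T : ℝ) * Vq Q y := by positivity
    have hexp : |Real.exp (-(((Icc 1 T \ B).card : ℝ) * Vq Q y)) - Real.exp (-(T * Vq Q y))| ≤
        ε / 16 := (exp_lip' _ _ hx0' hT0').trans hm1
    constructor
    · have h2 := h1 {0}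
      rw [Finset.sum_singleton, pow_zero, mul_one, Nat.factorial_zero, Nat.cast_one, div_one,
        ← hN] at h2
      have e1 : ((Icc 1 Y).filter (fun m => Sf (QH Q B) y (Z + 1 * m) ∧
          Nn Q y (Icc 1 T \ B) (Z + 1 * m) ∈ ({0} : Finset ℕ))).card = Nv Q y B T Z Y := by
        unfold Nv
        rw [shift_card]
        exact card_iff _ _ (fun m _ => by rw [nn_vo])
      rw [e1] at h2
      have h3 : |N * Real.exp (-(((Icc 1 T \ B).card : ℝ) * Vq Q y)) -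
          N * Real.exp (-(T * Vq Q y))| ≤ ε / 16 * N := by
        rw [← mul_sub, abs_mul, abs_of_nonneg hN0, mul_comm (ε / 16)]
        exact mul_le_mul_of_nonneg_left hexp hN0
      have h4 := abs_sub_le (Nv Q y B T Z Y : ℝ)
        (N * Real.exp (-(((Icc 1 T \ B).card : ℝ) * Vq Q y))) (N * Real.exp (-(T * Vq Q y)))
      nlinarith
    · rw [← hN] at h0
      have e1 : ((Icc 1 Y).filter (fun m => Sf (QH Q B) y (Z + 1 * m))).card = Nb Q y B Z Y := by
        unfold Nb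
        rw [shift_card]
      rw [e1] at h0
      nlinarith
  -- the smallest window
  obtain ⟨T', h1, h2, h3⟩ := exists_window V τ1 (by rw [hV]; exact hV0) (by rw [hV]; linarith)
  rw [hV] at h1 h2 h3
  have h4 := hone T' h1 (h2.trans (by
    refine le_trans ?_ (le_max_right _ _)
    rw [hτ1]
    linarith))
  have hNb := h4.2
  rw [← hN]
  refine ⟨hNb.trans (by nlinarith), fun T hT => ?_⟩
  by_cases hτT : τ1 ≤ T * Vq Q y
  · exact ((hone T hτT (hT.trans (le_max_left _ _))).1).trans (by nlinarith)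
  · rw [not_le] at hτT
    have hTT := h3 T hτT
    have a1 : (Nv Q y B T' Z Y : ℝ) ≤ Nv Q y B T Z Y := by
      unfold Nv
      have : ((Ioc Z (Z + Y)).filter (fun n => Sf (QH Q B) y n ∧ Vo1 Q y B T' n)).card ≤
          ((Ioc Z (Z + Y)).filter (fun n => Sf (QH Q B) y n ∧ Vo1 Q y B T n)).card := by
        apply card_le_card
        intro n hn
        rw [mem_filter] at hn ⊢
        exact ⟨hn.1, hn.2.1, fun h hh1 hh2 => hn.2.2 h hh1 (hh2.trans hTT)⟩
      exact_mod_cast this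
    have a2 : (Nv Q y B T Z Y : ℝ) ≤ Nb Q y B Z Y := by
      unfold Nv Nb
      have : ((Ioc Z (Z + Y)).filter (fun n => Sf (QH Q B) y n ∧ Vo1 Q y B T n)).card ≤
          ((Ioc Z (Z + Y)).filter (fun n => Sf (QH Q B) y n)).card := by
        apply card_le_card
        intro n hn
        rw [mem_filter] at hn ⊢
        exact ⟨hn.1, hn.2.1⟩
      exact_mod_cast this
    have hT0' : 0 ≤ (T : ℝ) * Vq Q y := by positivity
    have b1 : 1 - ε / 16 ≤ Real.exp (-(T * Vq Q y)) := by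
      have := Real.add_one_le_exp (-(T * Vq Q y))
      linarith
    have b2 : Real.exp (-(T * Vq Q y)) ≤ 1 := by
      rw [Real.exp_le_one_iff]
      linarith
    have b3 : 1 - ε / 8 ≤ Real.exp (-(T' * Vq Q y)) := by
      have := Real.add_one_le_exp (-(T' * Vq Q y))
      linarith
    obtain ⟨c1, c2⟩ := abs_le.1 h4.1
    obtain ⟨d1, d2⟩ := abs_le.1 hNb
    have e3 : N * (1 - ε / 8) ≤ N * Real.exp (-(T' * Vq Q y)) := mul_le_mul_of_nonneg_left b3 hN0
    have e4 : N * (1 - ε / 16) ≤ N * Real.exp (-(T * Vq Q y)) := mul_le_mul_of_nonneg_left b1 hN0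
    have e5 : N * Real.exp (-(T * Vq Q y)) ≤ N * 1 := mul_le_mul_of_nonneg_left b2 hN0
    have e6 : 0 ≤ ε * N := by positivity
    rw [abs_le]
    constructor <;> nlinarith

end Pool.Agent.X262.LOS
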