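import Pool.Agent.X262.LOS.Rel4
import Pool.Agent.Y879.GL.QuadU

set_option autoImplicit false

/-!
# The integers without small prime factors
-/

namespace Pool.Agent.X262.LOS

open Finset Filter Pool.Agent.H373R2.T7 Pool.Agent.W123.RP Pool.Agent.W123.RU
open Pool.Agent.TH464.PO Pool.Agent.Y879.AP

/-- divisibility by a number different from one -/
def Q1 (p n : ℕ) : Prop := ¬ p ∣ 1 ∧ p ∣ n

lemma Q1_nuB (p : ℕ) (hp : p.Prime) : nuB Q1 p = 1 := by
  classical
  unfold nuB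
  rw [card_eq_one]
  refine ⟨0, ?_⟩
  ext r
  rw [mem_filter, mem_range, mem_singleton]
  unfold Q1
  constructor
  · rintro ⟨h1, _, h2⟩
    exact Nat.eq_zero_of_dvd_of_lt h2 h1
  · rintro rfl
    exact ⟨hp.pos, fun h => hp.one_lt.ne' (Nat.dvd_one.1 h), dvd_zero p⟩

lemma Q1_perB : PerB Q1 1 := by
  refine ⟨fun p n => ?_, fun p hp => (Q1_nuB p hp).le⟩
  unfold Q1
  apply and_congr_right
  intro _
  exact (Nat.dvd_mod_iff (dvd_refl p)).symm

lemma Q1_adm (p : ℕ) (hp : p.Prime) : nuB Q1 p < p := by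
  rw [Q1_nuB p hp]
  exact hp.one_lt

lemma Vq_Q1 (y : ℕ) : Vq Q1 y = Vz y := by
  unfold Vq Vz
  apply Finset.prod_congr rfl
  intro p hp
  rw [Q1_nuB p (mem_pz.1 hp).2, Nat.cast_one]

lemma prime_count (S : Finset ℕ) (T m : ℕ) (R : ℝ) (hT : 1 ≤ T) (hm : m ≠ 0) (hR : (m : ℝ) ≤ R)
    (h : ∀ p ∈ S, p.Prime ∧ T < p ∧ p ∣ m) : (S.card : ℝ) * Real.log T ≤ Real.log R := by
  have h1 : ∏ p ∈ S, p ∣ m := Finset.prod_primes_dvd m (fun p hp => (h p hp).1.prime)
    (fun p hp => (h p hp).2.2)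
  have h2 : ∏ p ∈ S, p ≤ m := Nat.le_of_dvd (Nat.pos_of_ne_zero hm) h1
  have h3 : T ^ S.card ≤ ∏ p ∈ S, p := by
    rw [← Finset.prod_const]
    exact Finset.prod_le_prod' fun p hp => (h p hp).2.1.le
  have h4 : ((T ^ S.card : ℕ) : ℝ) ≤ R := le_trans (by exact_mod_cast h3.trans h2) hR
  have hT0 : (0 : ℝ) < T := by exact_mod_cast hT
  rw [← Real.log_pow]
  apply Real.log_le_log (by positivity)
  exact_mod_cast h4

open Classical in
/-- **The law with a base** for the integers without prime factors up to `X ^ (1 / r)`. -/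
theorem base_law (b : ℕ) (E x0 ε θ : ℝ) (hE : 0 ≤ E) (hx0 : 0 ≤ x0) (hε : 0 < ε) (hε1 : ε ≤ 1)
    (hθ : 0 < θ) : ∃ r0 : ℕ, 2 ≤ r0 ∧ ∀ r : ℕ, r0 ≤ r → ∀ᶠ X : ℕ in atTop, ∀ Z Y : ℕ,
      (X : ℝ) ^ θ ≤ Y → ∀ B : Finset ℕ, B.card ≤ b → (∀ a ∈ B, (a : ℝ) ≤ (X : ℝ) ^ E) →
      |(Nb Q1 ⌊(X : ℝ) ^ (1 / (r : ℝ))⌋₊ B Z Y : ℝ) -
        Y * Vq (QH Q1 B) ⌊(X : ℝ) ^ (1 / (r : ℝ))⌋₊| ≤
        ε * (Y * Vq (QH Q1 B) ⌊(X : ℝ) ^ (1 / (r : ℝ))⌋₊) ∧
      ∀ T : ℕ, T * Vz ⌊(X : ℝ) ^ (1 / (r : ℝ))⌋₊ ≤ x0 →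
        |(Nv Q1 ⌊(X : ℝ) ^ (1 / (r : ℝ))⌋₊ B T Z Y : ℝ) -
          Y * Vq (QH Q1 B) ⌊(X : ℝ) ^ (1 / (r : ℝ))⌋₊ *
            Real.exp (-(T * Vz ⌊(X : ℝ) ^ (1 / (r : ℝ))⌋₊))| ≤
          ε * (Y * Vq (QH Q1 B) ⌊(X : ℝ) ^ (1 / (r : ℝ))⌋₊) := by
  obtain ⟨K0, y0, κ, η', τ1, hκ, hη', hτ1, h1⟩ := rel_void 1 b 0 le_rfl x0 ε hx0 hε hε1
  obtain ⟨r1, hr1⟩ : ∃ r1 : ℕ, (K0 : ℝ) / θ ≤ r1 := exists_nat_ge _
  refine ⟨max r1 2, le_max_right _ _, ?_⟩
  intro r hr
  have hr2 : 2 ≤ r := (le_max_right _ _).trans hr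
  have hrr : (2 : ℝ) ≤ r := by exact_mod_cast hr2
  have hrpos : (0 : ℝ) < r := by linarith
  have hrK : (K0 : ℝ) ≤ θ * r := by
    have h4 : (K0 : ℝ) / θ ≤ r := hr1.trans (by exact_mod_cast (le_max_left _ _).trans hr)
    rw [div_le_iff₀ hθ] at h4
    linarith
  have hpow : Tendsto (fun X : ℕ => (X : ℝ) ^ (1 / (r : ℝ))) atTop atTop :=
    (tendsto_rpow_atTop (by positivity)).comp tendsto_natCast_atTop_atTop
  have hlog : Tendsto (fun X : ℕ => Real.log (X : ℝ)) atTop atTop :=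
    Real.tendsto_log_atTop.comp tendsto_natCast_atTop_atTop
  obtain ⟨C, hC, hVz⟩ := Pool.Agent.Y879.GL.Vz_up r hr2
  obtain ⟨L, hL⟩ : ∃ L : ℝ, L = b * (E + 1) * C / (τ1 * η') := ⟨_, rfl⟩
  have hL0 : 0 ≤ L := by rw [hL]; positivity
  filter_upwards [hpow.eventually_ge_atTop (y0 : ℝ), eventually_ge_atTop 2, hVz,
    hlog.eventually_ge_atTop (C / κ), hlog.eventually_ge_atTop (C / τ1 * Real.exp (L + 1))]
    with X h4 h5 h6 h7 h8
  intro Z Y hXY B hB hBX
  obtain ⟨y, hy⟩ : ∃ y, y = ⌊(X : ℝ) ^ (1 / (r : ℝ))⌋₊ := ⟨_, rfl⟩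
  rw [← hy] at h6 ⊢
  have hyy : y0 ≤ y := by
    rw [hy]
    exact Nat.le_floor h4
  have hX0 : (0 : ℝ) < X := by exact_mod_cast (by omega : 0 < X)
  have hX1 : (1 : ℝ) ≤ X := by exact_mod_cast (by omega : 1 ≤ X)
  have hX2 : (2 : ℝ) ≤ X := by exact_mod_cast h5
  have hlX : 0 < Real.log X := Real.log_pos (by linarith)
  have hyX' : (y : ℝ) ≤ X := by
    calc (y : ℝ) ≤ (X : ℝ) ^ (1 / (r : ℝ)) := by
          rw [hy]
          exact Nat.floor_le (by positivity)
      _ ≤ (X : ℝ) ^ (1 : ℝ) := by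
          apply Real.rpow_le_rpow_of_exponent_le hX1
          rw [div_le_one hrpos]
          linarith
      _ = X := Real.rpow_one _
  have hyK : y ^ K0 ≤ Y := by
    have h6 : ((y ^ K0 : ℕ) : ℝ) ≤ Y := by
      push_cast
      calc (y : ℝ) ^ K0 ≤ ((X : ℝ) ^ (1 / (r : ℝ))) ^ K0 := by
            apply pow_le_pow_left₀ (Nat.cast_nonneg _)
            rw [hy]
            exact Nat.floor_le (by positivity)
        _ = (X : ℝ) ^ (1 / (r : ℝ) * K0) := by
            rw [Real.rpow_mul hX0.le, Real.rpow_natCast]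
        _ ≤ (X : ℝ) ^ θ := by
            apply Real.rpow_le_rpow_of_exponent_le hX1
            rw [one_div, inv_mul_eq_div, div_le_iff₀ hrpos]
            exact hrK
        _ ≤ Y := hXY
    exact_mod_cast h6
  have hVκ : Vq Q1 y ≤ κ := by
    rw [Vq_Q1]
    refine h6.2.trans ?_
    rw [div_le_iff₀ hlX]
    rw [div_le_iff₀ hκ] at h7
    linarith
  have hsr : Sr 1 b 0 Q1 (fun _ => False) B (fun t => t ∈ B) :=
    { per := Q1_perB
      adm := Q1_adm
      no1 := fun p hp n h => h.1 hp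
      exc := fun _ _ _ h => h.elim
      card := hB
      excB := fun a ha hx => absurd hx ha }
  have h9 := h1 y Y hyy hyK Q1 (fun _ => False) B (fun t => t ∈ B) hsr hVκ (by
    intro T hT1 hT2 hTy t ht
    rw [mem_Icc] at ht
    have hTpos : 1 ≤ T := by omega
    refine ⟨fun _ => ?_, fun htB => ?_⟩
    · have : (pz y).filter (fun p : ℕ => T < p ∧ CoG Q1 p t) = ∅ := by
        rw [Finset.filter_eq_empty_iff]
        rintro p hp ⟨hTp, m, ⟨_, hm1⟩, ⟨_, hm2⟩⟩
        have h10 : p ∣ t := (Nat.dvd_add_right hm1).1 hm2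
        have := Nat.le_of_dvd (by omega) h10
        omega
      rw [this, card_empty]
      push_cast
      positivity
    · rw [Vq_Q1] at hT1
      have hTlog : τ1 / C * Real.log X ≤ T := by
        have h10 : τ1 ≤ T * (C / Real.log X) :=
          hT1.trans (mul_le_mul_of_nonneg_left h6.2 (Nat.cast_nonneg _))
        rw [← mul_div_assoc, le_div_iff₀ hlX] at h10
        rw [div_mul_eq_mul_div, div_le_iff₀ hC]
        exact h10
      have hTe : Real.exp (L + 1) ≤ T := by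
        refine le_trans ?_ hTlog
        rw [div_mul_eq_mul_div, div_le_iff₀ hτ1] at h8
        rw [div_mul_eq_mul_div, le_div_iff₀ hC]
        linarith
      have hTr : (0 : ℝ) < T := by exact_mod_cast hTpos
      have hLT : L + 1 ≤ Real.log T := by
        rw [← Real.log_exp (L + 1)]
        exact Real.log_le_log (Real.exp_pos _) hTe
      have hlT : 0 < Real.log T := by linarith
      have hT_X : (T : ℝ) ≤ X := le_trans (by exact_mod_cast hTy) hyX'
      have hcount : ∀ a ∈ B, ((((pz y).filter (fun p : ℕ => T < p ∧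
          ∃ m, Q1 p (m + a) ∧ Q1 p (m + t))).card : ℕ) : ℝ) ≤ (E + 1) * Real.log X / Real.log T := by
        intro a ha
        obtain ⟨m0, hm0, hm1, hm2⟩ : ∃ m0 : ℕ, m0 ≠ 0 ∧ (m0 : ℝ) ≤ (X : ℝ) ^ (E + 1) ∧
            ∀ p : ℕ, (∃ m, Q1 p (m + a) ∧ Q1 p (m + t)) → p ∣ m0 := by
          have hne : a ≠ t := fun h => htB (h ▸ ha)
          have hXE : (X : ℝ) ^ E ≤ (X : ℝ) ^ (E + 1) :=
            Real.rpow_le_rpow_of_exponent_le hX1 (by linarith)
          have hXE1 : (X : ℝ) ≤ (X : ℝ) ^ (E + 1) := by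
            calc (X : ℝ) = (X : ℝ) ^ (1 : ℝ) := (Real.rpow_one _).symm
              _ ≤ _ := Real.rpow_le_rpow_of_exponent_le hX1 (by linarith)
          rcases Nat.lt_or_gt_of_ne hne with h | h
          · refine ⟨t - a, by omega, ?_, ?_⟩
            · have h11 : ((t - a : ℕ) : ℝ) ≤ T := by exact_mod_cast (by omega : t - a ≤ T)
              linarith
            · rintro p ⟨m, ⟨_, hm1⟩, ⟨_, hm2⟩⟩
              have e : m + t = (m + a) + (t - a) := by omega
              rw [e] at hm2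
              exact (Nat.dvd_add_right hm1).1 hm2
          · refine ⟨a - t, by omega, ?_, ?_⟩
            · have h11 : ((a - t : ℕ) : ℝ) ≤ a := by exact_mod_cast (by omega : a - t ≤ a)
              have := hBX a ha
              linarith
            · rintro p ⟨m, ⟨_, hm1⟩, ⟨_, hm2⟩⟩
              have e : m + a = (m + t) + (a - t) := by omega
              rw [e] at hm1
              exact (Nat.dvd_add_right hm2).1 hm1
        rw [le_div_iff₀ hlT]
        have h12 := prime_count ((pz y).filter (fun p : ℕ => T < p ∧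
          ∃ m, Q1 p (m + a) ∧ Q1 p (m + t))) T m0 _ hTpos hm0 hm1 (by
            intro p hp
            rw [mem_filter, mem_pz] at hp
            exact ⟨hp.1.2, hp.2.1, hm2 p hp.2.2⟩)
        rw [Real.log_rpow hX0] at h12
        exact h12
      have hsub : (pz y).filter (fun p : ℕ => T < p ∧ CoB Q1 B p t) ⊆
          B.biUnion (fun a => (pz y).filter (fun p : ℕ => T < p ∧
            ∃ m, Q1 p (m + a) ∧ Q1 p (m + t))) := by
        intro p hp
        rw [mem_filter] at hp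
        obtain ⟨hp1, hp2, a, ha, hm⟩ := hp
        rw [mem_biUnion]
        exact ⟨a, ha, mem_filter.2 ⟨hp1, hp2, hm⟩⟩
      have h13 : ((((pz y).filter (fun p : ℕ => T < p ∧ CoB Q1 B p t)).card : ℕ) : ℝ) ≤
          ∑ a ∈ B, ((((pz y).filter (fun p : ℕ => T < p ∧
            ∃ m, Q1 p (m + a) ∧ Q1 p (m + t))).card : ℕ) : ℝ) := by
        exact_mod_cast (card_le_card hsub).trans card_biUnion_le
      refine h13.trans ((Finset.sum_le_sum hcount).trans ?_)
      rw [Finset.sum_const, nsmul_eq_mul]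
      have hq0 : 0 ≤ (E + 1) * Real.log X / Real.log T := by positivity
      have hBr : (B.card : ℝ) ≤ b := by exact_mod_cast hB
      calc (B.card : ℝ) * ((E + 1) * Real.log X / Real.log T) ≤
            b * ((E + 1) * Real.log X / Real.log T) := mul_le_mul_of_nonneg_right hBr hq0
        _ = (b * (E + 1) * Real.log X) / Real.log T := by ring
        _ ≤ η' * T := by
          rw [div_le_iff₀ hlT]
          have h14 : b * (E + 1) * C = L * (τ1 * η') := by
            rw [hL]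
            field_simp
          have h15 : Real.log X ≤ C / τ1 * T := by
            rw [div_mul_eq_mul_div, div_le_iff₀ hC] at hTlog
            rw [div_mul_eq_mul_div, le_div_iff₀ hτ1]
            linarith
          calc (b : ℝ) * (E + 1) * Real.log X ≤ b * (E + 1) * (C / τ1 * T) :=
                mul_le_mul_of_nonneg_left h15 (by positivity)
            _ = (b * (E + 1) * C) * T / τ1 := by ring
            _ = L * η' * T := by
              rw [h14]
              field_simp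
            _ ≤ η' * T * Real.log T := by
              have : L * (η' * T) ≤ Real.log T * (η' * T) :=
                mul_le_mul_of_nonneg_right (by linarith) (by positivity)
              linarith) Z
  rw [Vq_Q1] at h9
  exact h9

end Pool.Agent.X262.LOS
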