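import Pool.Agent.X262.LOS.Rel6
import Pool.Agent.Y879.PR.Law

set_option autoImplicit false

/-!
# The relative Poisson law around primes
-/

namespace Pool.Agent.X262.LOS

open Finset Filter Pool.Agent.H373R2.T7 Pool.Agent.W123.RP Pool.Agent.W123.RU
open Pool.Agent.TH464.PO Pool.Agent.Y879.AP
open Pool.Agent.Y879.PR (Base Om)

lemma base_QH {a e c : ℕ} {Q : ℕ → ℕ → Prop} (h : Base a e c Q) (B : Finset ℕ) (h0 : 0 ∈ B) :
    Base a e (B.card * c) (QH Q B) := by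
  refine ⟨perB_QH Q c h.per B, ?_, ?_⟩
  · rintro p n hp hpa ⟨g, _, hg⟩
    exact h.non p (n + g) hp hpa hg
  · intro p n hp hpa hn
    exact ⟨0, h0, by rw [add_zero]; exact h.base p n hp hpa hn⟩

lemma base_mono {a e c c' : ℕ} {Q : ℕ → ℕ → Prop} (h : Base a e c Q) (hc : c ≤ c') :
    Base a e c' Q := ⟨perB_mono Q c c' h.per hc, h.non, h.base⟩

open Classical in
lemma om_QHU (a e : ℕ) (Q : ℕ → ℕ → Prop) (y u Y : ℕ) (B H : Finset ℕ) :
    Om a e (QH Q (B ∪ H)) y u Y =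
      (Om a e (QH Q B) y u Y).filter (fun n => ∀ h ∈ H, Sf Q y (n + h)) := by
  ext n
  unfold Om
  rw [mem_filter, mem_filter, mem_filter, sf_QH, sf_QH]
  constructor
  · rintro ⟨h1, h2, h3⟩
    exact ⟨⟨h1, h2, fun h hh => h3 h (mem_union_left _ hh)⟩,
      fun h hh => h3 h (mem_union_right _ hh)⟩
  · rintro ⟨⟨h1, h2, h3⟩, h4⟩
    refine ⟨h1, h2, fun h hh => ?_⟩
    rcases mem_union.1 hh with h5 | h5
    · exact h3 h h5
    · exact h4 h h5

open Classical in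
lemma mom_eqP (a e : ℕ) (Q : ℕ → ℕ → Prop) (y u Y k : ℕ) (W B : Finset ℕ) :
    ∑ n ∈ Om a e (QH Q B) y u Y, ((Nn Q y W n).choose k : ℝ) =
      ∑ H ∈ powersetCard k W, ((Om a e (QH Q (B ∪ H)) y u Y).card : ℝ) := by
  have h1 : ∀ H ∈ powersetCard k W, ((Om a e (QH Q (B ∪ H)) y u Y).card : ℝ) =
      ∑ n ∈ Om a e (QH Q B) y u Y, if (∀ h ∈ H, Sf Q y (n + h)) then (1 : ℝ) else 0 := by
    intro H _
    rw [om_QHU, Finset.sum_ite, Finset.sum_const_zero, add_zero, Finset.sum_const, nsmul_eq_mul, mul_one]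
  rw [Finset.sum_congr rfl h1, Finset.sum_comm]
  apply Finset.sum_congr rfl
  intro m _
  rw [Finset.sum_ite, Finset.sum_const_zero, add_zero, Finset.sum_const, nsmul_eq_mul, mul_one]
  unfold Nn
  rw [← Finset.card_powersetCard]
  congr 2
  ext H
  rw [mem_filter, mem_powersetCard, mem_powersetCard]
  constructor
  · rintro ⟨a1, a2⟩
    exact ⟨⟨fun h hh => (mem_filter.1 (a1 hh)).1, a2⟩, fun h hh => (mem_filter.1 (a1 hh)).2⟩
  · rintro ⟨⟨a1, a2⟩, a3⟩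
    exact ⟨fun h hh => mem_filter.2 ⟨a1 hh, a3 h hh⟩, a2⟩

open Classical in
/-- **Relative binomial moments around primes.** -/
theorem momentP (a c k b M0 w0 : ℕ) (ha : Squarefree a) (η d δ : ℝ) (hη : 0 < η) (hη1 : η ≤ 1)
    (hd : 0 < d) (hδ : 0 < δ) (hδ1 : δ ≤ 1) :
    ∃ (K T0 : ℕ) (η' : ℝ), 0 < η' ∧ ∀ U : ℕ, ∃ x0 : ℕ, ∀ X y T : ℕ, x0 ≤ y → y ^ K ≤ X → T0 ≤ T →
      ∀ e : ℕ, e ≤ X → Nat.Coprime a e →
      ∀ (W : Finset ℕ) (Q : ℕ → ℕ → Prop) (Ex : ℕ → Prop), Ok c M0 w0 1 T d W Q Ex → Base a e c Q →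
      (∀ t ∈ Icc 1 T, ¬ Ex t →
        ((((pz y).filter (fun p : ℕ => T < p ∧ CoG Q p t)).card : ℕ) : ℝ) ≤ η' * T) →
      ∀ (B : Finset ℕ) (ExB : ℕ → Prop), 0 ∈ B → OkB b w0 W B Q ExB →
      (∀ t ∈ Icc 1 T, ¬ ExB t →
        ((((pz y).filter (fun p : ℕ => T < p ∧ CoB Q B p t)).card : ℕ) : ℝ) ≤ η' * T) →
      ∀ u Y : ℕ, δ * X ≤ u → δ * X ≤ Y → u + Y ≤ X →
      |(∑ n ∈ Om a e (QH Q B) y u Y, ((Nn Q y W n).choose (k + 1) : ℝ)) * Real.log X -
        Y / Vz y * (Vq (QH Q B) y * ((W.card * Vq Q y) ^ (k + 1) / (k + 1).factorial))| ≤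
        η * (Y / Vz y * (Vq (QH Q B) y * ((W.card * Vq Q y) ^ (k + 1) / (k + 1).factorial))) +
          (T : ℝ) ^ (k + 1) * (X / Real.log X ^ U) := by
  obtain ⟨K, hK, hcount⟩ := Pool.Agent.Y879.PR.prime_count a ((b + (k + 1)) * c) ha (η / 4) δ
    (by positivity) (by linarith) hδ hδ1
  obtain ⟨w, η', T0, hη', hsing⟩ := sing_avgR c k b M0 w0 (η / 4) d (by positivity) (by linarith) hd
  refine ⟨K, T0, η', hη', ?_⟩
  intro U
  obtain ⟨x0, hx0⟩ := hcount U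
  refine ⟨max x0 (max w 3), ?_⟩
  intro X y T hy hyX hT e heX hae W Q Ex hok hQ hlarge B ExB h0B hokB hlargeB u Y hu hY huY
  have hy0 : x0 ≤ y := (le_max_left _ _).trans hy
  have hyw : w ≤ y := ((le_max_left _ _).trans (le_max_right _ _)).trans hy
  have hy3 : 3 ≤ y := ((le_max_right _ _).trans (le_max_right _ _)).trans hy
  have hyX' : y ≤ X := (Nat.le_self_pow (by omega) y).trans hyX
  have hX1 : (1 : ℝ) ≤ X := by exact_mod_cast (by omega : 1 ≤ X)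
  have hl0 : 0 ≤ Real.log X := Real.log_nonneg hX1
  obtain ⟨s1, s2⟩ := hsing T hT W hok.sub hok.dens Q hok.per hok.adm hok.equi Ex hok.exc B hokB.card
    ExB hokB.exc y hyw hlarge hlargeB
  have hVz := Vz_pos y
  obtain ⟨G, hG⟩ : ∃ G : ℝ, G = Y / Vz y := ⟨_, rfl⟩
  have hG0 : 0 ≤ G := by rw [hG]; exact div_nonneg (Nat.cast_nonneg _) hVz.le
  obtain ⟨m, hm⟩ : ∃ m : ℝ, m = Vq (QH Q B) y * ((W.card * Vq Q y) ^ (k + 1) / (k + 1).factorial) :=
    ⟨_, rfl⟩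
  have hm0 : 0 ≤ m := by
    rw [hm]
    have h1 := Vq_nonneg Q y
    have h2 := Vq_nonneg (QH Q B) y
    positivity
  obtain ⟨E, hE⟩ : ∃ E : ℝ, E = X / Real.log X ^ U := ⟨_, rfl⟩
  have hE0 : 0 ≤ E := by rw [hE]; positivity
  obtain ⟨S, hS⟩ : ∃ S, S = ∑ H ∈ powersetCard (k + 1) W, Vq (QH Q (B ∪ H)) y := ⟨_, rfl⟩
  rw [← hS, ← hm] at s1 s2
  rw [← hm, ← hG, ← hE]
  rw [mom_eqP, Finset.sum_mul]
  have h1 : |∑ H ∈ powersetCard (k + 1) W, ((Om a e (QH Q (B ∪ H)) y u Y).card : ℝ) * Real.log X -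
      G * S| ≤ η / 4 * (G * S) + (T : ℝ) ^ (k + 1) * E := by
    have eG : G * S = ∑ H ∈ powersetCard (k + 1) W,
        (Y : ℝ) * (Vq (QH Q (B ∪ H)) y / Vz y) := by
      rw [hG, hS, Finset.mul_sum]
      apply Finset.sum_congr rfl
      intros
      ring
    rw [eG, ← Finset.sum_sub_distrib]
    refine (Finset.abs_sum_le_sum_abs _ _).trans ?_
    have h2 : ∀ H ∈ powersetCard (k + 1) W,
        |((Om a e (QH Q (B ∪ H)) y u Y).card : ℝ) * Real.log X -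
          (Y : ℝ) * (Vq (QH Q (B ∪ H)) y / Vz y)| ≤
        η / 4 * (Y * (Vq (QH Q (B ∪ H)) y / Vz y)) + E := by
      intro H hH
      rw [mem_powersetCard] at hH
      have hcard : (B ∪ H).card ≤ b + (k + 1) := by
        have h3 := card_union_le B H
        have h4 := hokB.card
        omega
      have hb := base_mono (base_QH hQ (B ∪ H) (mem_union_left _ h0B)) (Nat.mul_le_mul_right c hcard)
      rw [hE]
      exact hx0 X y hy0 hyX _ heX hae (QH Q (B ∪ H)) hb u Y hu hY huY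
    refine (Finset.sum_le_sum h2).trans ?_
    rw [Finset.sum_add_distrib, ← Finset.mul_sum, Finset.sum_const, nsmul_eq_mul]
    have h3 : ((powersetCard (k + 1) W).card : ℝ) ≤ (T : ℝ) ^ (k + 1) := by
      have h4 := card_le_card (powersetCard_mono (n := k + 1) hok.sub)
      rw [card_powersetCard (k + 1) (Icc 1 T), Nat.card_Icc, Nat.add_sub_cancel] at h4
      exact_mod_cast h4.trans (Nat.choose_le_pow T (k + 1))
    have h4 := mul_le_mul_of_nonneg_right h3 hE0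
    linarith
  have h5 : |G * S - G * m| ≤ η / 4 * (G * m) := by
    rw [← mul_sub, abs_mul, abs_of_nonneg hG0]
    have : |S - m| ≤ η / 4 * m := by
      rw [abs_le]
      constructor <;> linarith
    calc G * |S - m| ≤ G * (η / 4 * m) := mul_le_mul_of_nonneg_left this hG0
      _ = _ := by ring
  have hGm : 0 ≤ G * m := mul_nonneg hG0 hm0
  have h6 : G * S ≤ 2 * (G * m) := by
    have h7 := (abs_le.1 h5).2
    nlinarith
  have h9 := abs_sub_le (∑ H ∈ powersetCard (k + 1) W,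
      ((Om a e (QH Q (B ∪ H)) y u Y).card : ℝ) * Real.log X) (G * S) (G * m)
  have h10 : η / 4 * (G * S) ≤ η / 4 * (2 * (G * m)) :=
    mul_le_mul_of_nonneg_left h6 (by positivity)
  have h11 : 0 ≤ η * (G * m) := by positivity
  linarith

end Pool.Agent.X262.LOS
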