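import Pool.Agent.X262.LOS.RelP1

set_option autoImplicit false

/-!
# The relative Poisson law around primes
-/

namespace Pool.Agent.X262.LOS

open Finset Filter Pool.Agent.H373R2.T7 Pool.Agent.W123.RP Pool.Agent.W123.RU
open Pool.Agent.TH464.PO Pool.Agent.Y879.AP
open Pool.Agent.Y879.PR (Base Om)

open Classical in
/-- **The relative Poisson law around primes**, uniform in the system, the window and the base. -/
theorem lawP (a c b M0 w0 : ℕ) (ha : Squarefree a) (x0 ε d δ : ℝ) (hx0 : 0 ≤ x0) (hε : 0 < ε)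
    (hd : 0 < d) (hδ : 0 < δ) (hδ1 : δ ≤ 1) :
    ∃ (K0 y0 T0 : ℕ) (η' : ℝ), 0 < η' ∧ ∀ X y T : ℕ, y0 ≤ y → y ^ K0 ≤ X → T0 ≤ T →
      ∀ e : ℕ, e ≤ X → Nat.Coprime a e →
      ∀ (W : Finset ℕ) (Q : ℕ → ℕ → Prop) (Ex : ℕ → Prop), Ok c M0 w0 1 T d W Q Ex → Base a e c Q →
      W.card * Vq Q y ≤ x0 →
      (∀ t ∈ Icc 1 T, ¬ Ex t →
        ((((pz y).filter (fun p : ℕ => T < p ∧ CoG Q p t)).card : ℕ) : ℝ) ≤ η' * T) →
      ∀ (B : Finset ℕ) (ExB : ℕ → Prop), 0 ∈ B → OkB b w0 W B Q ExB →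
      (∀ t ∈ Icc 1 T, ¬ ExB t →
        ((((pz y).filter (fun p : ℕ => T < p ∧ CoB Q B p t)).card : ℕ) : ℝ) ≤ η' * T) →
      ∀ u Y : ℕ, δ * X ≤ u → δ * X ≤ Y → u + Y ≤ X →
      |((Om a e (QH Q B) y u Y).card : ℝ) * Real.log X - Y * (Vq (QH Q B) y / Vz y)| ≤
        ε * (Y * (Vq (QH Q B) y / Vz y)) ∧
      ∀ A : Finset ℕ, |(((Om a e (QH Q B) y u Y).filter (fun n => Nn Q y W n ∈ A)).card : ℝ) *
          Real.log X - Y * (Vq (QH Q B) y / Vz y) * Po (W.card * Vq Q y) A| ≤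
        ε * (Y * (Vq (QH Q B) y / Vz y)) := by
  obtain ⟨R, η, hη, htv⟩ := law_tv x0 (ε / 4) hx0 (by positivity)
  obtain ⟨X1, hX1⟩ : ∃ X1 : ℝ, X1 = (1 + x0) ^ (R + 1) := ⟨_, rfl⟩
  have hX1pos : 1 ≤ X1 := by rw [hX1]; exact one_le_pow₀ (by linarith)
  obtain ⟨η1, hη1⟩ : ∃ η1 : ℝ, η1 = min (min 1 (η / (16 * X1))) (min (1 / 4) (ε / 8)) := ⟨_, rfl⟩
  have hη10 : 0 < η1 := by rw [hη1]; positivity
  have hη11 : η1 ≤ 1 := by rw [hη1]; exact (min_le_left _ _).trans (min_le_left _ _)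
  have hη14 : η1 ≤ 1 / 4 := by rw [hη1]; exact (min_le_right _ _).trans (min_le_left _ _)
  have hη1ε : η1 ≤ ε / 8 := by rw [hη1]; exact (min_le_right _ _).trans (min_le_right _ _)
  have hη12 : η1 * X1 ≤ η / 16 := by
    have : η1 ≤ η / (16 * X1) := by rw [hη1]; exact (min_le_left _ _).trans (min_le_right _ _)
    rw [le_div_iff₀ (by positivity)] at this
    linarith
  choose K0 T0 η' hη' hmom using fun k => momentP a c k b M0 w0 ha η1 d δ hη10 hη11 hd hδ hδ1
  obtain ⟨U, hU⟩ : ∃ U : ℕ, U = c * (R + 1) + b * c + 1 := ⟨_, rfl⟩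
  choose y0 hy0 using fun k => hmom k U
  obtain ⟨K1, hK1, hcount⟩ := Pool.Agent.Y879.PR.prime_count a (b * c) ha η1 δ hη10 hη11 hδ hδ1
  obtain ⟨y1, hy1⟩ := hcount U
  obtain ⟨v1, hv1, hVlow1⟩ := V_lower_unif c
  obtain ⟨v2, hv2, hVlow2⟩ := V_lower_unif (b * c)
  obtain ⟨η0, hη00, hη0⟩ := exists_lower η' hη' R
  obtain ⟨D1, hD1⟩ : ∃ D1 : ℝ, D1 = x0 / (d * v1) + 1 := ⟨_, rfl⟩
  have hD11 : 1 ≤ D1 := by
    rw [hD1]
    have : 0 ≤ x0 / (d * v1) := by positivity
    linarith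
  have hlogX : Tendsto (fun X : ℕ => Real.log (X : ℝ)) atTop atTop :=
    Real.tendsto_log_atTop.comp tendsto_natCast_atTop_atTop
  obtain ⟨Z1, hZ1⟩ := eventually_atTop.1 ((hlogX.eventually_ge_atTop (D1 ^ (R + 1) / (η1 * δ * v2))).and
    (hlogX.eventually_ge_atTop 1))
  refine ⟨(∑ k ∈ range R, K0 k) + K1 + 1, (∑ k ∈ range R, y0 k) + y1 + Z1 + b * c + 3,
    (∑ k ∈ range R, T0 k) + 1, η0, hη00, ?_⟩
  intro X y T hy hyX hT e heX hae W Q Ex hok hQ hx hlarge B ExB h0B hokB hlargeB u Y hu hY huY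
  obtain ⟨x, hxdef⟩ : ∃ x, x = W.card * Vq Q y := ⟨_, rfl⟩
  rw [← hxdef] at hx ⊢
  have hx00 : 0 ≤ x := by
    rw [hxdef]
    exact mul_nonneg (Nat.cast_nonneg _) (Vq_nonneg Q y)
  have hperB := perB_QH Q c hok.per B
  have hbc : B.card * c ≤ b * c := Nat.mul_le_mul_right c hokB.card
  obtain ⟨VB, hVB⟩ : ∃ VB, VB = Vq (QH Q B) y := ⟨_, rfl⟩
  have hVB0 : 0 ≤ VB := by rw [hVB]; exact Vq_nonneg _ y
  rw [← hVB]
  obtain ⟨Om', hOm⟩ : ∃ Om', Om' = Om a e (QH Q B) y u Y := ⟨_, rfl⟩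
  rw [← hOm]
  by_cases hadmB : ∀ p : ℕ, p.Prime → nuB (QH Q B) p < p
  swap
  · -- the base is not admissible
    push Not at hadmB
    obtain ⟨p, hp, hpB⟩ := hadmB
    have hpy : p ∈ pz y := by
      rw [mem_pz]
      have := hperB.few p hp
      exact ⟨by omega, hp⟩
    have hall : ∀ r, QH Q B p r := by
      intro r
      have h1 : nuB (QH Q B) p = p := le_antisymm (nuB_le _ p) hpB
      unfold nuB at h1
      have h2 : (range p).filter (fun r => QH Q B p r) = range p := by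
        apply Finset.filter_eq_self.2
        have h3 := Finset.card_filter_eq_iff (s := range p) (p := fun r => QH Q B p r)
        rw [card_range] at h3
        exact h3.1 (by convert h1)
      rw [hperB.per p r]
      have h4 : r % p ∈ (range p).filter (fun r => QH Q B p r) := by
        rw [h2, mem_range]
        exact Nat.mod_lt _ hp.pos
      exact (mem_filter.1 h4).2
    have e0 : Om' = ∅ := by
      rw [hOm]
      unfold Om
      rw [Finset.filter_eq_empty_iff]
      rintro m _ ⟨_, h1⟩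
      exact h1 p hpy (hall _)
    rw [hVB, Vq_zero _ y p hpy hall, e0]
    refine ⟨?_, fun A => ?_⟩
    · simp
    · simp
  have hy1' : 1 ≤ y := by omega
  have hT1 : 1 ≤ T := by omega
  have hyX' : y ≤ X := by
    calc y = y ^ 1 := (pow_one y).symm
      _ ≤ y ^ ((∑ k ∈ range R, K0 k) + K1 + 1) := Nat.pow_le_pow_right hy1' (by omega)
      _ ≤ X := hyX
  obtain ⟨z1, z2⟩ := hZ1 X (by omega)
  obtain ⟨l, hl⟩ : ∃ l, l = Real.log X := ⟨_, rfl⟩
  rw [← hl] at z1 z2 ⊢
  have hl0 : 0 < l := by linarith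
  have hy3r : (3 : ℝ) ≤ y := by exact_mod_cast (by omega : 3 ≤ y)
  have hlogy : 0 < Real.log y := Real.log_pos (by linarith)
  have hlogyl : Real.log y ≤ l := by
    rw [hl]
    exact Real.log_le_log (by linarith) (by exact_mod_cast hyX')
  have hXr : (1 : ℝ) ≤ X := by exact_mod_cast (by omega : 1 ≤ X)
  have hVz := Vz_pos y
  have hVz1 := Vz_le_one y
  -- lower bounds for the densities
  have hV1low : v1 / l ^ c ≤ Vq Q y := by
    refine le_trans ?_ (hVlow1 Q hok.per hok.adm y (by omega))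
    exact div_le_div_of_nonneg_left hv1.le (by positivity) (pow_le_pow_left₀ hlogy.le hlogyl _)
  have hV2low : v2 / l ^ (b * c) ≤ VB := by
    rw [hVB]
    refine le_trans ?_ (hVlow2 (QH Q B) (perB_mono _ _ _ hperB hbc) hadmB y (by omega))
    exact div_le_div_of_nonneg_left hv2.le (by positivity) (pow_le_pow_left₀ hlogy.le hlogyl _)
  have hYr : 0 < (Y : ℝ) := lt_of_lt_of_le (by positivity) hY
  have hVBpos : 0 < VB := lt_of_lt_of_le (by positivity) hV2low
  obtain ⟨M, hM⟩ : ∃ M : ℝ, M = Y * (VB / Vz y) := ⟨_, rfl⟩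
  rw [← hM]
  have hM0 : 0 < M := by rw [hM]; positivity
  have hMlow : δ * X * (v2 / l ^ (b * c)) ≤ M := by
    rw [hM]
    apply mul_le_mul hY _ (by positivity) hYr.le
    refine hV2low.trans ?_
    rw [le_div_iff₀ hVz]
    nlinarith
  have hTr : (0 : ℝ) ≤ T := Nat.cast_nonneg _
  have hTup : (T : ℝ) ≤ D1 * l ^ c := by
    have h1 : d * T * (v1 / l ^ c) ≤ x0 := by
      calc d * T * (v1 / l ^ c) ≤ W.card * Vq Q y :=
            mul_le_mul hok.dens hV1low (by positivity) (Nat.cast_nonneg _)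
        _ ≤ x0 := by rw [← hxdef]; exact hx
    have h2 : (T : ℝ) ≤ x0 / (d * v1) * l ^ c := by
      rw [div_mul_eq_mul_div, le_div_iff₀ (by positivity)]
      rw [← mul_div_assoc, div_le_iff₀ (by positivity)] at h1
      linarith
    have h3 : 0 ≤ l ^ c := by positivity
    rw [hD1]
    nlinarith
  -- the error terms
  have hEk : ∀ k ≤ R + 1, (T : ℝ) ^ k * (X / l ^ U) ≤ η1 * M := by
    intro k hk
    have h1 : (T : ℝ) ^ k ≤ (D1 * l ^ c) ^ (R + 1) := by
      calc (T : ℝ) ^ k ≤ (D1 * l ^ c) ^ k := pow_le_pow_left₀ hTr hTup _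
        _ ≤ (D1 * l ^ c) ^ (R + 1) := by
          apply pow_le_pow_right₀ _ hk
          have : 1 ≤ l ^ c := one_le_pow₀ z2
          nlinarith
    have h2 : D1 ^ (R + 1) ≤ l * (η1 * δ * v2) := by
      rwa [div_le_iff₀ (by positivity)] at z1
    calc (T : ℝ) ^ k * (X / l ^ U) ≤ (D1 * l ^ c) ^ (R + 1) * (X / l ^ U) := by gcongr
      _ = D1 ^ (R + 1) * (l ^ (c * (R + 1)) * X / l ^ U) := by rw [mul_pow, ← pow_mul]; ring
      _ ≤ (l * (η1 * δ * v2)) * (l ^ (c * (R + 1)) * X / l ^ U) := by gcongr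
      _ = η1 * (δ * X * (v2 / l ^ (b * c))) := by
          rw [hU, pow_add, pow_add, pow_one]
          field_simp
      _ ≤ η1 * M := by gcongr
  have hE1 : (X : ℝ) / l ^ U ≤ η1 * M := by
    have := hEk 0 (Nat.zero_le _)
    rwa [pow_zero, one_mul] at this
  -- the number of the elements with the base
  have hOmc : |(Om'.card : ℝ) * l - M| ≤ 2 * (η1 * M) := by
    have hb := base_mono (base_QH hQ B h0B) hbc
    have h3 := hy1 X y (by omega) ((Nat.pow_le_pow_right hy1' (by omega)).trans hyX) e heX hae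
      (QH Q B) hb u Y hu hY huY
    rw [← hOm, ← hl, ← hVB, ← hM] at h3
    linarith
  obtain ⟨o1, o2⟩ := abs_le.1 hOmc
  have hOm2 : M / 2 ≤ Om'.card * l := by nlinarith
  have hOm3 : (Om'.card : ℝ) * l ≤ 2 * M := by nlinarith
  refine ⟨?_, fun A => ?_⟩
  · refine hOmc.trans ?_
    calc 2 * (η1 * M) ≤ 2 * (ε / 8 * M) := by gcongr
      _ ≤ ε * M := by nlinarith
  obtain ⟨hP0, hP1⟩ := poisson_le_one x hx00 A
  unfold Po
  obtain ⟨P, hP⟩ : ∃ P, P = ∑ j ∈ A, Real.exp (-x) * x ^ j / j.factorial := ⟨_, rfl⟩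
  rw [← hP] at hP0 hP1 ⊢
  have hmain := htv Om' (fun n => Nn Q y W n) x hx00 hx (by
    intro k hk
    rcases k with _ | k
    · have e0 : (∑ n ∈ Om', ((Nn Q y W n).choose 0 : ℝ)) = Om'.card := by
        have e01 : ∀ n ∈ Om', ((Nn Q y W n).choose 0 : ℝ) = 1 := fun n _ => by
          rw [Nat.choose_zero_right, Nat.cast_one]
        rw [Finset.sum_congr rfl e01, Finset.sum_const, nsmul_eq_mul, mul_one]
      rw [e0, pow_zero, Nat.factorial_zero, Nat.cast_one, div_one, mul_one, sub_self, abs_zero]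
      exact mul_nonneg hη.le (Nat.cast_nonneg _)
    · have hkR : k ∈ range R := mem_range.2 (by omega)
      have hKk : K0 k ≤ ∑ k ∈ range R, K0 k := Finset.single_le_sum (fun _ _ => Nat.zero_le _) hkR
      have hyk : y0 k ≤ ∑ k ∈ range R, y0 k := Finset.single_le_sum (fun _ _ => Nat.zero_le _) hkR
      have hTk : T0 k ≤ ∑ k ∈ range R, T0 k := Finset.single_le_sum (fun _ _ => Nat.zero_le _) hkR
      have h1 := hy0 k X y T (by omega)
        ((Nat.pow_le_pow_right hy1' (by omega)).trans hyX) (by omega) e heX hae W Q Ex hok hQ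
        (fun t ht hx => (hlarge t ht hx).trans
            (mul_le_mul_of_nonneg_right (hη0 k (by omega)) (Nat.cast_nonneg _))) B ExB h0B hokB
          (fun t ht hx => (hlargeB t ht hx).trans
            (mul_le_mul_of_nonneg_right (hη0 k (by omega)) (Nat.cast_nonneg _))) u Y hu hY huY
      rw [← hxdef, ← hOm, ← hVB, ← hl] at h1
      obtain ⟨q, hq⟩ : ∃ q, q = x ^ (k + 1) / ((k + 1).factorial : ℝ) := ⟨_, rfl⟩
      rw [← hq] at h1 ⊢
      have hq0 : 0 ≤ q := by rw [hq]; positivity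
      have h2 : q ≤ X1 := by
        have hf1 : (1 : ℝ) ≤ (k + 1).factorial := by exact_mod_cast Nat.factorial_pos (k + 1)
        calc q = x ^ (k + 1) / ((k + 1).factorial : ℝ) := hq
          _ ≤ x ^ (k + 1) := div_le_self (by positivity) hf1
          _ ≤ (1 + x0) ^ (k + 1) := pow_le_pow_left₀ hx00 (by linarith) _
          _ ≤ (1 + x0) ^ (R + 1) := pow_le_pow_right₀ (by linarith) (by omega)
          _ = X1 := hX1.symm
      have h3 : (T : ℝ) ^ (k + 1) * (X / l ^ U) ≤ η1 * M := hEk (k + 1) (by omega)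
      have e3 : (Y : ℝ) / Vz y * (VB * q) = M * q := by rw [hM]; ring
      rw [e3] at h1
      obtain ⟨S, hS⟩ : ∃ S : ℝ, S = ∑ n ∈ Om', ((Nn Q y W n).choose (k + 1) : ℝ) := ⟨_, rfl⟩
      rw [← hS] at h1 ⊢
      have h4 : η1 * (M * q) ≤ η / 16 * M := by
        calc η1 * (M * q) ≤ η1 * (M * X1) := by gcongr
          _ = (η1 * X1) * M := by ring
          _ ≤ _ := mul_le_mul_of_nonneg_right hη12 hM0.le
      have h5 : η1 * M ≤ η / 16 * M := by
        apply mul_le_mul_of_nonneg_right _ hM0.le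
        refine le_trans ?_ hη12
        exact le_mul_of_one_le_right hη10.le hX1pos
      have h6 : |(M - Om'.card * l) * q| ≤ η / 8 * M := by
        rw [abs_mul, abs_of_nonneg hq0, abs_sub_comm]
        calc |(Om'.card : ℝ) * l - M| * q ≤ 2 * (η1 * M) * X1 :=
              mul_le_mul hOmc h2 hq0 (by positivity)
          _ = 2 * ((η1 * X1) * M) := by ring
          _ ≤ 2 * (η / 16 * M) := by gcongr
          _ = _ := by ring
      have h7 := abs_sub_le (S * l) (M * q) (Om'.card * l * q)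
      have h8 : M * q - Om'.card * l * q = (M - Om'.card * l) * q := by ring
      rw [h8] at h7
      have h9 : |(S - Om'.card * q) * l| ≤ η * Om'.card * l := by
        have e9 : (S - Om'.card * q) * l = S * l - Om'.card * l * q := by ring
        rw [e9]
        calc _ ≤ _ := h7
          _ ≤ (η / 16 * M + η / 16 * M) + η / 8 * M := by linarith
          _ ≤ η * (M / 2) := by nlinarith
          _ ≤ η * (Om'.card * l) := mul_le_mul_of_nonneg_left hOm2 hη.le
          _ = _ := by ring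
      rw [abs_mul, abs_of_pos hl0] at h9
      exact le_of_mul_le_mul_right h9 hl0) A
  rw [← hP] at hmain
  obtain ⟨F, hF⟩ : ∃ F : ℝ, F = ((Om'.filter (fun n => Nn Q y W n ∈ A)).card : ℝ) := ⟨_, rfl⟩
  rw [← hF] at hmain ⊢
  have h8 : |F * l - Om'.card * l * P| ≤ ε / 4 * (Om'.card * l) := by
    have e8 : F * l - Om'.card * l * P = (F - Om'.card * P) * l := by ring
    rw [e8, abs_mul, abs_of_pos hl0]
    calc |F - Om'.card * P| * l ≤ ε / 4 * Om'.card * l := mul_le_mul_of_nonneg_right hmain hl0.le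
      _ = _ := by ring
  have h9 : |(Om'.card : ℝ) * l * P - M * P| ≤ ε / 4 * M := by
    rw [← sub_mul, abs_mul, abs_of_nonneg hP0]
    calc |(Om'.card : ℝ) * l - M| * P ≤ 2 * (η1 * M) * 1 := mul_le_mul hOmc hP1 hP0 (by positivity)
      _ ≤ 2 * (ε / 8 * M) * 1 := by gcongr
      _ = _ := by ring
  have h10 := abs_sub_le (F * l) (Om'.card * l * P) (M * P)
  have h11 : ε / 4 * ((Om'.card : ℝ) * l) ≤ ε / 2 * M := by nlinarith
  calc _ ≤ _ := h10
    _ ≤ ε / 2 * M + ε / 4 * M := by linarith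
    _ ≤ ε * M := by nlinarith

/-- the number of the primes with the base -/
noncomputable def NbP (a e : ℕ) (Q : ℕ → ℕ → Prop) (y : ℕ) (B : Finset ℕ) (u Y : ℕ) : ℕ :=
  (Om a e (QH Q B) y u Y).card

open Classical in
/-- the number of the primes with the base and a number of elements of `A` in the window -/
noncomputable def NP (a e : ℕ) (Q : ℕ → ℕ → Prop) (y : ℕ) (B : Finset ℕ) (T : ℕ) (A : Finset ℕ)
    (u Y : ℕ) : ℕ :=
  ((Om a e (QH Q B) y u Y).filter (fun n => Nn Q y (Icc 1 T \ B) n ∈ A)).card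

open Classical in
theorem rel_lawP (a c b w0 : ℕ) (ha : Squarefree a) (x0 ε δ : ℝ) (_hx0 : 0 ≤ x0) (hε : 0 < ε)
    (hε1 : ε ≤ 1) (hδ : 0 < δ) (hδ1 : δ ≤ 1) :
    ∃ (K0 y0 : ℕ) (κ η' τ1 : ℝ), 0 < κ ∧ 0 < η' ∧ 0 < τ1 ∧ ∀ X y : ℕ, y0 ≤ y → y ^ K0 ≤ X →
      ∀ e : ℕ, e ≤ X → Nat.Coprime a e →
      ∀ (Q : ℕ → ℕ → Prop) (Ex : ℕ → Prop) (B : Finset ℕ) (ExB : ℕ → Prop), Sr c b w0 Q Ex B ExB →
      Base a e c Q → 0 ∈ B → Vq Q y ≤ κ →
      (∀ T : ℕ, τ1 ≤ T * Vq Q y → T * Vq Q y ≤ max x0 1 → T ≤ y → ∀ t ∈ Icc 1 T,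
        (¬ Ex t → ((((pz y).filter (fun p : ℕ => T < p ∧ CoG Q p t)).card : ℕ) : ℝ) ≤ η' * T) ∧
        (¬ ExB t → ((((pz y).filter (fun p : ℕ => T < p ∧ CoB Q B p t)).card : ℕ) : ℝ) ≤ η' * T)) →
      ∀ u Y : ℕ, δ * X ≤ u → δ * X ≤ Y → u + Y ≤ X →
        |(NbP a e Q y B u Y : ℝ) * Real.log X - Y * (Vq (QH Q B) y / Vz y)| ≤
          ε * (Y * (Vq (QH Q B) y / Vz y)) ∧
        ∀ T : ℕ, T * Vq Q y ≤ x0 → ∀ A : Finset ℕ,
        |(NP a e Q y B T A u Y : ℝ) * Real.log X -
          Y * (Vq (QH Q B) y / Vz y) * Po (T * Vq Q y) A| ≤ ε * (Y * (Vq (QH Q B) y / Vz y)) := by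
  obtain ⟨K0, y0, T0, η', hη', hlaw⟩ := lawP a c b (2 * b + 1) w0 ha (max x0 1) (ε / 16) (1 / 2) δ
    (by positivity) (by positivity) (by norm_num) hδ hδ1
  obtain ⟨y1, hy1⟩ := V_big c (max x0 1)
  obtain ⟨τ1, hτ1⟩ : ∃ τ1 : ℝ, τ1 = ε / 16 := ⟨_, rfl⟩
  have hτ10 : 0 < τ1 := by rw [hτ1]; positivity
  obtain ⟨κ, hκ⟩ : ∃ κ : ℝ, κ = τ1 / (T0 + 2 * b + 1) := ⟨_, rfl⟩
  have hκ0 : 0 < κ := by rw [hκ]; positivity
  have hκ1 : κ * (T0 + 2 * b + 1) = τ1 := by
    rw [hκ]
    field_simp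
  have hb0 : (0 : ℝ) ≤ b := Nat.cast_nonneg b
  have hT00 : (0 : ℝ) ≤ T0 := Nat.cast_nonneg T0
  have hκτ : κ ≤ τ1 := by
    nlinarith [mul_nonneg hκ0.le hT00, mul_nonneg hκ0.le hb0]
  have hκb : κ * b ≤ τ1 := by
    nlinarith [mul_nonneg hκ0.le hT00, mul_nonneg hκ0.le hb0]
  refine ⟨K0 + 1, max y0 (max (y1 + 1) 2), κ, η', τ1, hκ0, hη', hτ10, ?_⟩
  intro X y hy hyX e heX hae Q Ex B ExB hs hQ h0B hVκ hcol u Y hu hY huY
  have hy2 : 2 ≤ y := ((le_max_right _ _).trans (le_max_right y0 (max (y1 + 1) 2))).trans hy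
  have hy1' : 1 ≤ y := by omega
  have hV0 : 0 < Vq Q y := Vq_pos Q hs.adm y
  obtain ⟨V, hV⟩ : ∃ V, V = Vq Q y := ⟨_, rfl⟩
  obtain ⟨N, hN⟩ : ∃ N, N = Y * (Vq (QH Q B) y / Vz y) := ⟨_, rfl⟩
  have hVB0 := Vq_nonneg (QH Q B) y
  have hVz := Vz_pos y
  have hN0 : 0 ≤ N := by rw [hN]; positivity
  have hyK : y ^ K0 ≤ X := (Nat.pow_le_pow_right hy1' (by omega)).trans hyX
  have hyX' : y ≤ X := (Nat.le_self_pow (by omega) y).trans hyX
  obtain ⟨l, hl⟩ : ∃ l, l = Real.log X := ⟨_, rfl⟩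
  have hl0 : 0 ≤ l := by
    rw [hl]
    exact Real.log_natCast_nonneg X
  have hyB := hy1 y (by
    have := ((le_max_left _ _).trans (le_max_right y0 (max (y1 + 1) 2))).trans hy
    omega) Q hs.per hs.adm
  -- one window
  have hone : ∀ T : ℕ, τ1 ≤ T * Vq Q y → T * Vq Q y ≤ max x0 1 →
      (∀ A : Finset ℕ, |(NP a e Q y B T A u Y : ℝ) * l - N * Po (T * Vq Q y) A| ≤ ε / 8 * N) ∧
      |(NbP a e Q y B u Y : ℝ) * l - N| ≤ ε / 4 * N := by
    intro T hT1 hT2
    have hTy : T ≤ y := by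
      have h1 : (T : ℝ) * Vq Q y ≤ y * Vq Q y := hT2.trans hyB
      exact_mod_cast le_of_mul_le_mul_right h1 hV0
    have hTbig : T0 + 2 * b + 1 ≤ T := by
      have h1 : κ * ((T0 + 2 * b + 1 : ℕ) : ℝ) ≤ κ * T := by
        push_cast
        rw [hκ1]
        calc τ1 ≤ T * Vq Q y := hT1
          _ ≤ T * κ := mul_le_mul_of_nonneg_left hVκ (Nat.cast_nonneg _)
          _ = κ * T := mul_comm _ _
      exact_mod_cast le_of_mul_le_mul_left h1 hκ0
    have hcardW : ((Icc 1 T \ B).card : ℝ) ≤ T := by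
      have := card_le_card (sdiff_subset (s := Icc 1 T) (t := B))
      rw [Nat.card_Icc, Nat.add_sub_cancel] at this
      exact_mod_cast this
    have hcardW' : (T : ℝ) - b ≤ (Icc 1 T \ B).card := by
      have h2 := Finset.le_card_sdiff B (Icc 1 T)
      rw [Nat.card_Icc, Nat.add_sub_cancel] at h2
      have h5 := hs.card
      have h3 : T ≤ (Icc 1 T \ B).card + b := by omega
      have h4 : (T : ℝ) ≤ (Icc 1 T \ B).card + b := by exact_mod_cast h3
      linarith
    have hok : Ok c (2 * b + 1) w0 1 T (1 / 2) (Icc 1 T \ B) Q Ex :=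
      { sub := sdiff_subset
        dens := by
          have h1 : ((T0 + 2 * b + 1 : ℕ) : ℝ) ≤ T := by exact_mod_cast hTbig
          push_cast at h1
          linarith
        per := hs.per
        adm := hs.adm
        noM := hs.no1
        equi := fun w m => equi_sdiff Q c hs.per B b hs.card T w m
        exc := fun a _ b _ hab hx => hs.exc a b hab hx }
    have hokB : OkB b w0 (Icc 1 T \ B) B Q ExB :=
      { card := hs.card
        exc := fun a ha hx => hs.excB a (Finset.mem_sdiff.1 ha).2 hx }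
    have hx : ((Icc 1 T \ B).card : ℝ) * Vq Q y ≤ max x0 1 :=
      (mul_le_mul_of_nonneg_right hcardW hV0.le).trans hT2
    obtain ⟨h0, h1⟩ := hlaw X y T ((le_max_left _ _).trans hy) hyK (by omega) e heX hae
      (Icc 1 T \ B) Q Ex hok hQ hx (fun t ht => (hcol T hT1 hT2 hTy t ht).1) B ExB h0B hokB
      (fun t ht => (hcol T hT1 hT2 hTy t ht).2) u Y hu hY huY
    -- the mean
    have hm1 : |((Icc 1 T \ B).card : ℝ) * Vq Q y - T * Vq Q y| ≤ ε / 16 := by
      rw [← sub_mul, abs_mul, abs_of_pos hV0]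
      have h2 : |((Icc 1 T \ B).card : ℝ) - T| ≤ b := by
        rw [abs_le]
        constructor <;> linarith
      calc |((Icc 1 T \ B).card : ℝ) - T| * Vq Q y ≤ b * κ := mul_le_mul h2 hVκ hV0.le hb0
        _ = κ * b := mul_comm _ _
        _ ≤ _ := by rw [← hτ1]; exact hκb
    have hx0' : 0 ≤ ((Icc 1 T \ B).card : ℝ) * Vq Q y := by positivity
    have hT0' : 0 ≤ (T : ℝ) * Vq Q y := by positivity
    have hexp : ∀ A : Finset ℕ, |Po (((Icc 1 T \ B).card : ℝ) * Vq Q y) A - Po (T * Vq Q y) A| ≤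
        ε / 16 := fun A => (Po_lip A _ _ hx0' hT0').trans hm1
    constructor
    · intro A
      have h2 := h1 A
      rw [← hN, ← hl] at h2
      have e1 : ((Om a e (QH Q B) y u Y).filter (fun n => Nn Q y (Icc 1 T \ B) n ∈ A)).card =
          NP a e Q y B T A u Y := rfl
      rw [e1] at h2
      have h3 : |N * Po (((Icc 1 T \ B).card : ℝ) * Vq Q y) A -
          N * Po (T * Vq Q y) A| ≤ ε / 16 * N := by
        rw [← mul_sub, abs_mul, abs_of_nonneg hN0, mul_comm (ε / 16)]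
        exact mul_le_mul_of_nonneg_left (hexp A) hN0
      have h4 := abs_sub_le ((NP a e Q y B T A u Y : ℝ) * l)
        (N * Po (((Icc 1 T \ B).card : ℝ) * Vq Q y) A) (N * Po (T * Vq Q y) A)
      linarith
    · rw [← hN, ← hl] at h0
      have e1 : (Om a e (QH Q B) y u Y).card = NbP a e Q y B u Y := rfl
      rw [e1] at h0
      nlinarith
  -- the smallest window
  obtain ⟨T', h1, h2, h3⟩ := exists_window V τ1 (by rw [hV]; exact hV0) (by rw [hV]; linarith)
  rw [hV] at h1 h2 h3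
  have h4 := hone T' h1 (h2.trans (by
    refine le_trans ?_ (le_max_right _ _)
    rw [hτ1]
    linarith))
  have hNb := h4.2
  rw [← hN, ← hl]
  refine ⟨hNb.trans (by nlinarith), fun T hT A => ?_⟩
  by_cases hτT : τ1 ≤ T * Vq Q y
  · exact ((hone T hτT (hT.trans (le_max_left _ _))).1 A).trans (by nlinarith)
  · rw [not_le] at hτT
    have hTT := h3 T hτT
    have hT0' : 0 ≤ (T : ℝ) * Vq Q y := by positivity
    obtain ⟨n0, hn0⟩ : ∃ n0 : ℝ, n0 = (NP a e Q y B T {0} u Y : ℝ) * l := ⟨_, rfl⟩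
    have a1 : (NP a e Q y B T' {0} u Y : ℝ) * l ≤ n0 := by
      rw [hn0]
      apply mul_le_mul_of_nonneg_right _ hl0
      unfold NP
      have : ((Om a e (QH Q B) y u Y).filter (fun n =>
            Nn Q y (Icc 1 T' \ B) n ∈ ({0} : Finset ℕ))).card ≤
          ((Om a e (QH Q B) y u Y).filter (fun n =>
            Nn Q y (Icc 1 T \ B) n ∈ ({0} : Finset ℕ))).card := by
        apply card_le_card
        intro n hn
        rw [mem_filter, nn_vo] at hn ⊢
        exact ⟨hn.1, fun h hh1 hh2 => hn.2 h hh1 (hh2.trans hTT)⟩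
      exact_mod_cast this
    have b3 : 1 - ε / 8 ≤ Po (T' * Vq Q y) {0} := by
      unfold Po
      rw [Finset.sum_singleton, pow_zero, mul_one, Nat.factorial_zero, Nat.cast_one, div_one]
      have := Real.add_one_le_exp (-(T' * Vq Q y))
      linarith
    have b1 : 1 - ε / 16 ≤ Po (T * Vq Q y) {0} := by
      unfold Po
      rw [Finset.sum_singleton, pow_zero, mul_one, Nat.factorial_zero, Nat.cast_one, div_one]
      have := Real.add_one_le_exp (-(T * Vq Q y))
      linarith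
    obtain ⟨c1, c2⟩ := abs_le.1 (h4.1 {0})
    obtain ⟨d1, d2⟩ := abs_le.1 hNb
    have e3 : N * (1 - ε / 8) ≤ N * Po (T' * Vq Q y) {0} := mul_le_mul_of_nonneg_left b3 hN0
    have e6 : 0 ≤ ε * N := by positivity
    have f1 : N - ε / 4 * N ≤ n0 := by nlinarith
    by_cases h0A : 0 ∈ A
    · have g1 : n0 ≤ (NP a e Q y B T A u Y : ℝ) * l := by
        rw [hn0]
        apply mul_le_mul_of_nonneg_right _ hl0
        unfold NP
        have : ((Om a e (QH Q B) y u Y).filter (fun n =>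
              Nn Q y (Icc 1 T \ B) n ∈ ({0} : Finset ℕ))).card ≤
            ((Om a e (QH Q B) y u Y).filter (fun n =>
              Nn Q y (Icc 1 T \ B) n ∈ A)).card := by
          apply card_le_card
          intro n hn
          rw [mem_filter, mem_singleton] at hn
          rw [mem_filter, hn.2]
          exact ⟨hn.1, h0A⟩
        exact_mod_cast this
      have g2 : (NP a e Q y B T A u Y : ℝ) * l ≤ NbP a e Q y B u Y * l := by
        apply mul_le_mul_of_nonneg_right _ hl0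
        unfold NP NbP
        exact_mod_cast card_le_card (filter_subset _ _)
      have g3 : Po (T * Vq Q y) {0} ≤ Po (T * Vq Q y) A := by
        unfold Po
        apply Finset.sum_le_sum_of_subset_of_nonneg
        · intro j hj
          rw [mem_singleton] at hj
          rw [hj]
          exact h0A
        · intro j _ _
          positivity
      have g4 := (Po_bd (T * Vq Q y) hT0' A).2
      have g5 : N * (1 - ε / 16) ≤ N * Po (T * Vq Q y) A :=
        mul_le_mul_of_nonneg_left (b1.trans g3) hN0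
      have g6 : N * Po (T * Vq Q y) A ≤ N * 1 := mul_le_mul_of_nonneg_left g4 hN0
      rw [abs_le]
      constructor <;> nlinarith
    · have g1 : (NP a e Q y B T A u Y : ℝ) * l + n0 ≤ NbP a e Q y B u Y * l := by
        rw [hn0, ← add_mul]
        apply mul_le_mul_of_nonneg_right _ hl0
        unfold NP NbP
        have : ((Om a e (QH Q B) y u Y).filter (fun n =>
              Nn Q y (Icc 1 T \ B) n ∈ A)).card +
            ((Om a e (QH Q B) y u Y).filter (fun n =>
              Nn Q y (Icc 1 T \ B) n ∈ ({0} : Finset ℕ))).card ≤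
            (Om a e (QH Q B) y u Y).card := by
          rw [← Finset.card_union_of_disjoint]
          · apply card_le_card
            intro n hn
            rw [mem_union, mem_filter, mem_filter] at hn
            rcases hn with hn | hn
            · exact hn.1
            · exact hn.1
          · rw [Finset.disjoint_left]
            intro n hn hn'
            rw [mem_filter] at hn hn'
            rw [mem_singleton] at hn'
            exact h0A (hn'.2 ▸ hn.2)
        exact_mod_cast this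
      have g3 : Po (T * Vq Q y) A + Po (T * Vq Q y) {0} ≤ 1 := by
        have := (Po_bd (T * Vq Q y) hT0' (A ∪ {0})).2
        unfold Po at this ⊢
        rw [Finset.sum_union (by
          rw [Finset.disjoint_singleton_right]
          exact h0A)] at this
        exact this
      have g4 := (Po_bd (T * Vq Q y) hT0' A).1
      have g5 : N * Po (T * Vq Q y) A ≤ N * (ε / 16) := mul_le_mul_of_nonneg_left (by linarith) hN0
      have g6 : 0 ≤ N * Po (T * Vq Q y) A := by positivity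
      have g7 : (0 : ℝ) ≤ (NP a e Q y B T A u Y : ℝ) * l := by positivity
      rw [abs_le]
      constructor <;> nlinarith

end Pool.Agent.X262.LOS
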