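import Pool.Agent.X262.LOS.Cls
import Pool.Agent.X262.LOS.Cmb

set_option autoImplicit false

/-!
# The asymptotics of the void counts
-/

namespace Pool.Agent.X262.LOS

open Finset Filter Pool.Agent.H373R2.T7 Pool.Agent.W123.RP Pool.Agent.W123.RU
open Pool.Agent.TH464.PO Pool.Agent.Y879.AP

/-- the sifted integers in the classes `C` modulo `M` -/
def Gd (Q : ℕ → ℕ → Prop) (y M : ℕ) (C : Finset ℕ) (n : ℕ) : Prop := Sf Q y n ∧ n % M ∈ C

/-- the conditions on the system -/
structure Sy (c M w0 D : ℕ) (C : Finset ℕ) (Q : ℕ → ℕ → Prop) (Ex : ℕ → Prop) : Prop where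
  per : PerB Q c
  adm : ∀ p : ℕ, p.Prime → nuB Q p < p
  noM : ∀ p, p ∣ M → ∀ n, ¬ Q p n
  exc : ∀ g a b, (g + a) % M ∈ C → (g + b) % M ∈ C → a < b → Ex (b - a) →
    ∃ p ∈ pz w0, ∀ r, Q p (r + a) ∨ Q p (r + b)
  col : ∀ y T t : ℕ, 1 ≤ t → t ≤ T → ¬ Ex t → ∀ S : Finset ℕ, S ⊆ pz y →
    (∀ p ∈ S, T < p ∧ CoG Q p t) → S.card ≤ D
  cls : C ⊆ range M
  two : 2 ≤ C.card

/-- the mean, in units of `t V / M` -/
noncomputable def Nm (q j : ℕ) (u v : Bool) : ℝ :=
  q * (j + 2) - (if v = false then 1 else 0) - (if u = true then 1 else 0)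

lemma sum_ends (C : Finset ℕ) (M a b t j : ℕ) (ha : a ∈ C) (hb : b ∈ C) (u v : Bool) :
    ∑ c ∈ C, ((hi_ b t j v c : ℝ) - lo_ a t u c) / M = t / M * Nm C.card j u v := by
  have h1 : ∑ c ∈ C, (hi_ b t j v c : ℝ) = t * (C.card * (j + 2) - (if v = false then 1 else 0)) := by
    cases v
    · have e : ∀ c ∈ C, (hi_ b t j false c : ℝ) = (j + 2) * t - (if c = b then (t : ℝ) else 0) := by
        intro c _
        unfold hi_
        by_cases h : c = b
        · rw [if_pos ⟨rfl, h⟩, if_pos h]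
          push_cast
          ring
        · rw [if_neg (fun h1 => h h1.2), if_neg h]
          push_cast
          ring
      rw [Finset.sum_congr rfl e, Finset.sum_sub_distrib, Finset.sum_const, nsmul_eq_mul,
        Finset.sum_ite_eq' C b, if_pos hb, if_pos rfl]
      ring
    · have e : ∀ c ∈ C, (hi_ b t j true c : ℝ) = (j + 2) * t := by
        intro c _
        unfold hi_
        rw [if_neg (fun h => by simp at h)]
        push_cast
        ring
      rw [Finset.sum_congr rfl e, Finset.sum_const, nsmul_eq_mul, if_neg (by simp)]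
      ring
  have h2 : ∑ c ∈ C, (lo_ a t u c : ℝ) = t * (if u = true then 1 else 0) := by
    cases u
    · have e : ∀ c ∈ C, (lo_ a t false c : ℝ) = 0 := by
        intro c _
        unfold lo_
        rw [if_neg (fun h => by simp at h)]
        simp
      rw [Finset.sum_congr rfl e]
      simp
    · have e : ∀ c ∈ C, (lo_ a t true c : ℝ) = (if c = a then (t : ℝ) else 0) := by
        intro c _
        unfold lo_
        by_cases h : c = a
        · rw [if_pos ⟨rfl, h⟩, if_pos h]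
        · rw [if_neg (fun h1 => h h1.2), if_neg h]
          simp
      rw [Finset.sum_congr rfl e, Finset.sum_ite_eq' C a, if_pos ha]
      simp
  rw [← Finset.sum_div, Finset.sum_sub_distrib, h1, h2]
  unfold Nm
  ring

lemma exp_lip (x y : ℝ) (hx : 0 ≤ x) (hy : 0 ≤ y) : |Real.exp (-x) - Real.exp (-y)| ≤ |x - y| := by
  have key : ∀ x y : ℝ, 0 ≤ x → x ≤ y → |Real.exp (-x) - Real.exp (-y)| ≤ |x - y| := by
    intro x y hx hxy
    have h1 : Real.exp (-y) ≤ Real.exp (-x) := Real.exp_le_exp.2 (by linarith)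
    rw [abs_of_nonneg (by linarith), abs_of_nonpos (by linarith)]
    have h2 : Real.exp (-y) = Real.exp (-x) * Real.exp (-(y - x)) := by
      rw [← Real.exp_add]
      congr 1
      ring
    have h3 := Real.add_one_le_exp (-(y - x))
    have h4 : Real.exp (-x) ≤ 1 := Real.exp_le_one_iff.2 (by linarith)
    have h5 := Real.exp_pos (-x)
    rw [h2]
    nlinarith
  rcases le_total x y with h | h
  · exact key x y hx h
  · rw [abs_sub_comm, abs_sub_comm x]
    exact key y x hy h

open Classical in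
/-- **The void counts.** -/
theorem voids (c M w0 D K : ℕ) (hc : 1 ≤ c) (x0 ε : ℝ) (hx0 : 0 ≤ x0) (hε : 0 < ε) :
    ∃ K1 y1 T1 : ℕ, ∀ y Y' t : ℕ, y1 ≤ y → y ^ K1 ≤ Y' → T1 ≤ t → (K + 1) * t ≤ y →
      ∀ (C : Finset ℕ) (Q : ℕ → ℕ → Prop) (Ex : ℕ → Prop), Sy c M w0 D C Q Ex →
      ((K + 1) * t : ℕ) * Vq Q y ≤ x0 → ∀ a ∈ C, ∀ b ∈ C, ∀ j < K, ∀ u v : Bool, ∀ g : ℕ,
      |(((Icc 1 Y').filter (fun m => Vo (Gd Q y M C) M ((K + 1) * t) (lo_ a t u) (hi_ b t j v)
        (g + M * m))).card : ℝ) - Y' * Real.exp (-(t * Vq Q y / M * Nm C.card j u v))| ≤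
        (ε + C.card * Vq Q y) * Y' := by
  rcases Nat.eq_zero_or_pos M with hM0 | hM1
  · refine ⟨0, 0, 0, ?_⟩
    intro y Y' t _ _ _ _ C Q Ex hsy _ a ha
    have := hsy.cls ha
    rw [hM0] at this
    simp at this
  obtain ⟨d, hd⟩ : ∃ d : ℝ, d = 1 / (M * (K + 1)) := ⟨_, rfl⟩
  have hMr : (0 : ℝ) < M := by exact_mod_cast hM1
  have hd0 : 0 < d := by rw [hd]; positivity
  obtain ⟨K0, y0, T0, R0, η', hη', hlaw⟩ := lawW c (2 * M) w0 hc x0 ε d hx0 hε hd0
  obtain ⟨T2, hT2⟩ : ∃ T2 : ℕ, (D : ℝ) / η' ≤ T2 := exists_nat_ge _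
  refine ⟨max K0 R0, max y0 1, max (max T0 T2) (M * M + 1), ?_⟩
  intro y Y' t hy hyY ht hty C Q Ex hsy hx a ha b hb j hj u v g
  obtain ⟨T, hT⟩ : ∃ T, T = (K + 1) * t := ⟨_, rfl⟩
  have hy1 : 1 ≤ y := by omega
  have htT : t ≤ T := by rw [hT]; exact Nat.le_mul_of_pos_left t (by omega)
  have ht1 : M * M + 1 ≤ t := by omega
  have hjT : (j + 2) * t ≤ T := by
    rw [hT]
    exact Nat.mul_le_mul_right t (by omega)
  rw [← hT] at hty hx ⊢
  obtain ⟨W, hW⟩ : ∃ W, W = Wcl M T g C (lo_ a t u) (hi_ b t j v) := ⟨_, rfl⟩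
  have hqM : C.card ≤ M := by
    have := card_le_card hsy.cls
    rwa [card_range] at this
  have hends1 : ∀ c' ∈ C, lo_ a t u c' ≤ hi_ b t j v c' := by
    intro c' _
    unfold lo_ hi_
    have e1 : t ≤ (j + 1) * t := Nat.le_mul_of_pos_left t (by omega)
    have e2 : t ≤ (j + 2) * t := Nat.le_mul_of_pos_left t (by omega)
    split_ifs <;> omega
  have hends2 : ∀ c' ∈ C, hi_ b t j v c' ≤ T := by
    intro c' _
    unfold hi_
    have e1 : (j + 1) * t ≤ (j + 2) * t := Nat.mul_le_mul_right t (by omega)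
    split_ifs <;> omega
  have hsize := wcl_size M T g C hsy.cls (lo_ a t u) (hi_ b t j v) hends1 hends2
  rw [sum_ends C M a b t j ha hb u v, ← hW] at hsize
  have hq2 : (2 : ℝ) ≤ C.card := by exact_mod_cast hsy.two
  have hqMr : (C.card : ℝ) ≤ M := by exact_mod_cast hqM
  have hNm : 2 ≤ Nm C.card j u v := by
    unfold Nm
    have h1 : (if v = false then (1 : ℝ) else 0) ≤ 1 := by split_ifs <;> norm_num
    have h2 : (if u = true then (1 : ℝ) else 0) ≤ 1 := by split_ifs <;> norm_num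
    have h3 : (0 : ℝ) ≤ C.card * j := by positivity
    nlinarith
  have htr : (M : ℝ) * M ≤ t := by
    have : M * M ≤ t := by omega
    exact_mod_cast this
  have htr0 : (0 : ℝ) ≤ t := Nat.cast_nonneg t
  have hdens : d * T ≤ W.card := by
    have h1 : d * T = t / M := by
      rw [hd, hT]
      push_cast
      field_simp
    have h2 : (M : ℝ) ≤ t / M := by
      rw [le_div_iff₀ hMr]
      exact htr
    have h3 := (abs_le.1 hsize).1
    rw [h1]
    have h4 : (t : ℝ) / M * 2 ≤ t / M * Nm C.card j u v :=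
      mul_le_mul_of_nonneg_left hNm (by positivity)
    linarith
  have hV0 := Vq_nonneg Q y
  have hok : Ok c (2 * M) w0 M T d W Q Ex := by
    refine ⟨?_, hdens, hsy.per, hsy.adm, hsy.noM, ?_, ?_⟩
    · rw [hW]
      exact filter_subset _ _
    · intro w m
      rw [hW]
      exact wcl_equi Q c hsy.per M T g C hsy.cls _ _ hends1 hends2 hsy.noM w m
    · intro a' ha' b' hb' hab hex
      rw [hW] at ha' hb'
      unfold Wcl at ha' hb'
      rw [mem_filter] at ha' hb'
      exact hsy.exc g a' b' ha'.2.1 hb'.2.1 hab hex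
  have hWT : (W.card : ℝ) ≤ T := by
    have h1 := card_le_card hok.sub
    rw [Nat.card_Icc, Nat.add_sub_cancel] at h1
    exact_mod_cast h1
  have hx1 : W.card * Vq Q y ≤ x0 := le_trans (mul_le_mul_of_nonneg_right hWT hV0) hx
  have hyK : y ^ K0 ≤ Y' := (Nat.pow_le_pow_right hy1 (le_max_left _ _)).trans hyY
  have hTR : T ^ R0 ≤ Y' := by
    calc T ^ R0 ≤ y ^ R0 := Nat.pow_le_pow_left hty R0
      _ ≤ y ^ max K0 R0 := Nat.pow_le_pow_right hy1 (le_max_right _ _)
      _ ≤ Y' := hyY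
  have hTr : (T2 : ℝ) ≤ T := by exact_mod_cast (by omega : T2 ≤ T)
  have h1 := hlaw Y' y T (by omega) hyK (by omega) hTR M g W Q Ex hok hx1 (by
    intro t' ht' hex
    rw [mem_Icc] at ht'
    have h2 := hsy.col y T t' ht'.1 ht'.2 hex ((pz y).filter (fun p : ℕ => T < p ∧ CoG Q p t'))
      (filter_subset _ _) (fun p hp => (mem_filter.1 hp).2)
    have h3 : (D : ℝ) ≤ η' * T := by
      rw [div_le_iff₀ hη'] at hT2
      nlinarith
    refine le_trans ?_ h3
    exact_mod_cast h2) {0}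
  have hset : ((Icc 1 Y').filter (fun m => Nn Q y W (g + M * m) ∈ ({0} : Finset ℕ))).card =
      ((Icc 1 Y').filter (fun m => Vo (Gd Q y M C) M T (lo_ a t u) (hi_ b t j v) (g + M * m))).card := by
    apply card_iff
    intro m _
    rw [mem_singleton]
    unfold Nn
    rw [Finset.card_eq_zero, Finset.filter_eq_empty_iff]
    have hmod : ∀ h, (g + M * m + h) % M = (g + h) % M := by
      intro h
      rw [show g + M * m + h = g + h + M * m by ring, Nat.add_mul_mod_self_left]
    constructor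
    · intro h2 h hh hG hl hu
      apply h2 (x := h) _ hG.1
      rw [hW]
      unfold Wcl
      rw [mem_filter]
      rw [hmod] at hl hu
      have h3 := hG.2
      rw [hmod] at h3
      exact ⟨hh, h3, hl, hu⟩
    · intro h2 h hh hS
      rw [hW] at hh
      unfold Wcl at hh
      rw [mem_filter] at hh
      obtain ⟨b1, b2, b3, b4⟩ := hh
      refine h2 h b1 ⟨hS, ?_⟩ ?_ ?_
      · rw [hmod]
        exact b2
      · rw [hmod]
        exact b3
      · rw [hmod]
        exact b4
  rw [hset, Finset.sum_singleton, pow_zero, Nat.factorial_zero, mul_one, Nat.cast_one, div_one] at h1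
  have h2 : |Real.exp (-(W.card * Vq Q y)) - Real.exp (-(t * Vq Q y / M * Nm C.card j u v))| ≤
      C.card * Vq Q y := by
    refine (exp_lip _ _ (by positivity) (by positivity)).trans ?_
    have e : (W.card : ℝ) * Vq Q y - t * Vq Q y / M * Nm C.card j u v =
        (W.card - t / M * Nm C.card j u v) * Vq Q y := by ring
    rw [e, abs_mul, abs_of_nonneg hV0]
    exact mul_le_mul_of_nonneg_right hsize hV0
  have hY0 : (0 : ℝ) ≤ Y' := Nat.cast_nonneg _
  have h3 : |Y' * Real.exp (-(W.card * Vq Q y)) - Y' * Real.exp (-(t * Vq Q y / M * Nm C.card j u v))| ≤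
      C.card * Vq Q y * Y' := by
    rw [← mul_sub, abs_mul, abs_of_nonneg hY0, mul_comm]
    exact mul_le_mul_of_nonneg_right h2 hY0
  have h4 := abs_sub_le ((((Icc 1 Y').filter (fun m => Vo (Gd Q y M C) M T (lo_ a t u) (hi_ b t j v)
        (g + M * m))).card : ℝ)) (Y' * Real.exp (-(W.card * Vq Q y)))
        (Y' * Real.exp (-(t * Vq Q y / M * Nm C.card j u v)))
  linarith

end Pool.Agent.X262.LOS
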