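import Pool.Agent.TH464.PO.Law
import Pool.Agent.TH464.PO.Gen
import Pool.Agent.Y879.AP.Basic

set_option autoImplicit false

/-!
# The average of the singular series over the sets of shifts in a window with gaps
-/

namespace Pool.Agent.X262.LOS

open Finset Filter Pool.Agent.H373R2.T7 Pool.Agent.W123.RP Pool.Agent.W123.RU
open Pool.Agent.TH464.PO Pool.Agent.Y879.AP

open Classical in
/-- the number of the shifts in `W` which lead from `n` to a sifted integer -/
noncomputable def Nn (Q : ℕ → ℕ → Prop) (y : ℕ) (W : Finset ℕ) (n : ℕ) : ℕ :=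
  (W.filter (fun h => Sf Q y (n + h))).card

open Classical in
lemma sum_setsW (Q : ℕ → ℕ → Prop) (c : ℕ) (hQ : PerB Q c) (w k : ℕ) (W : Finset ℕ) :
    (Mw w : ℝ) * ∑ H ∈ powersetCard k W, Vq (QH Q H) w =
      ∑ m ∈ range (Mw w), (((Nn Q w W m).choose k : ℕ) : ℝ) := by
  rw [Finset.mul_sum]
  have h1 : ∀ H ∈ powersetCard k W, (Mw w : ℝ) * Vq (QH Q H) w =
      ∑ m ∈ range (Mw w), if (∀ h ∈ H, Sf Q w (m + h)) then (1 : ℝ) else 0 := by
    intro H _
    rw [← exact (QH Q H) _ (perB_QH Q c hQ H) w]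
    rw [Finset.sum_ite, Finset.sum_const_zero, add_zero, Finset.sum_const, nsmul_eq_mul, mul_one]
    congr 2
    apply Finset.filter_congr
    intro m _
    exact sf_QH Q H w m
  rw [Finset.sum_congr rfl h1, Finset.sum_comm]
  apply Finset.sum_congr rfl
  intro m _
  rw [Finset.sum_ite, Finset.sum_const_zero, add_zero, Finset.sum_const, nsmul_eq_mul, mul_one]
  unfold Nn
  rw [← Finset.card_powersetCard]
  congr 2
  ext H
  rw [mem_filter, mem_powersetCard, mem_powersetCard]
  constructor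
  · rintro ⟨⟨a1, a2⟩, a3⟩
    exact ⟨fun h hh => mem_filter.2 ⟨a1 hh, a3 h hh⟩, a2⟩
  · rintro ⟨a1, a2⟩
    exact ⟨⟨fun h hh => (mem_filter.1 (a1 hh)).1, a2⟩, fun h hh => (mem_filter.1 (a1 hh)).2⟩

open Classical in
/-- **The small primes.** -/
theorem small_avgW (k w M0 : ℕ) (η d : ℝ) (hη : 0 < η) (hd : 0 < d) : ∃ T0 : ℕ, ∀ T : ℕ, T0 ≤ T →
    ∀ W : Finset ℕ, d * T ≤ W.card →
    ∀ (Q : ℕ → ℕ → Prop) (c : ℕ), PerB Q c → (∀ p : ℕ, p.Prime → nuB Q p < p) →
    (∀ m : ℕ, |(Nn Q w W m : ℝ) - W.card * Vq Q w| ≤ M0 * Mw w) →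
    (1 - η) * ((W.card * Vq Q w) ^ k / k.factorial) ≤
      ∑ H ∈ powersetCard k W, Vq (QH Q H) w ∧
    ∑ H ∈ powersetCard k W, Vq (QH Q H) w ≤
      (1 + η) * ((W.card * Vq Q w) ^ k / k.factorial) := by
  obtain ⟨M, hM⟩ : ∃ M, M = Mw w := ⟨_, rfl⟩
  have hMpos : 0 < M := by rw [hM]; exact Mw_pos w
  have hMr : (0 : ℝ) < M := by exact_mod_cast hMpos
  obtain ⟨E, hE⟩ : ∃ E : ℝ, E = M0 * M := ⟨_, rfl⟩
  have hE0 : 0 ≤ E := by rw [hE]; positivity
  obtain ⟨δ, hδ⟩ : ∃ δ : ℝ, δ = min 1 (η / (2 ^ k + k)) := ⟨_, rfl⟩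
  have hδ0 : 0 < δ := by rw [hδ]; positivity
  have hδ1 : δ ≤ 1 := by rw [hδ]; exact min_le_left _ _
  have hδη : δ * (2 ^ k + k) ≤ η := by
    have : δ ≤ η / (2 ^ k + k) := by rw [hδ]; exact min_le_right _ _
    rwa [le_div_iff₀ (by positivity)] at this
  obtain ⟨T0, hT0⟩ : ∃ T0 : ℕ, (M : ℝ) * (E + k + 1) / (δ * d) ≤ T0 := exists_nat_ge _
  refine ⟨T0, ?_⟩
  intro T hT W hWT Q c hQ hadm hEq
  have hTr : (M : ℝ) * (E + k + 1) / (δ * d) ≤ T := hT0.trans (by exact_mod_cast hT)
  have hVw := Vq_pos Q hadm w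
  have hex := exact Q c hQ w
  rw [← hM] at hex
  have hMW : 1 ≤ (M : ℝ) * Vq Q w := by
    rw [← hex]
    have h1 : (0 : ℝ) < (((range M).filter (fun m => Sf Q w m)).card : ℝ) := by
      rw [hex]
      positivity
    have h2 : 0 < ((range M).filter (fun m => Sf Q w m)).card := by exact_mod_cast h1
    exact_mod_cast h2
  obtain ⟨x, hx⟩ : ∃ x : ℝ, x = W.card * Vq Q w := ⟨_, rfl⟩
  rw [← hx]
  have hxM : E + k + 1 ≤ δ * x := by
    rw [hx]
    rw [div_le_iff₀ (by positivity)] at hTr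
    have h1 : (M : ℝ) * (E + k + 1) ≤ M * (δ * (W.card * Vq Q w)) := by
      calc (M : ℝ) * (E + k + 1) ≤ T * (δ * d) := hTr
        _ = δ * (d * T) * 1 := by ring
        _ ≤ δ * (W.card : ℝ) * (M * Vq Q w) := by
            apply mul_le_mul _ hMW zero_le_one (by positivity)
            exact mul_le_mul_of_nonneg_left hWT hδ0.le
        _ = _ := by ring
    exact le_of_mul_le_mul_left h1 hMr
  have hMk : (0 : ℝ) < E + k + 1 := by positivity
  have hx0 : 0 < x := by
    by_contra hcon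
    rw [not_lt] at hcon
    have : δ * x ≤ 0 := mul_nonpos_of_nonneg_of_nonpos hδ0.le hcon
    linarith
  have hxx : E + k ≤ x := by nlinarith
  have hkf : (0 : ℝ) < k.factorial := by exact_mod_cast Nat.factorial_pos k
  have hsum := sum_setsW Q c hQ w k W
  rw [← hM] at hsum
  have hb : ∀ m ∈ range M, (x - E - k) ^ k / k.factorial ≤ (((Nn Q w W m).choose k : ℕ) : ℝ) ∧
      (((Nn Q w W m).choose k : ℕ) : ℝ) ≤ (x + E) ^ k / k.factorial := by
    intro m _
    apply choose_bounds
    · have := hEq m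
      rw [← hM, ← hx, ← hE] at this
      exact this
    · exact hxx
  have hlo : (M : ℝ) * ((x - E - k) ^ k / k.factorial) ≤ M *
      ∑ H ∈ powersetCard k W, Vq (QH Q H) w := by
    rw [hsum]
    have := Finset.card_nsmul_le_sum (range M) (fun m => (((Nn Q w W m).choose k : ℕ) : ℝ)) _
      (fun m hm => (hb m hm).1)
    rwa [card_range, nsmul_eq_mul] at this
  have hup : (M : ℝ) * ∑ H ∈ powersetCard k W, Vq (QH Q H) w ≤
      M * ((x + E) ^ k / k.factorial) := by
    rw [hsum]
    have := Finset.sum_le_card_nsmul (range M) (fun m => (((Nn Q w W m).choose k : ℕ) : ℝ)) _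
      (fun m hm => (hb m hm).2)
    rwa [card_range, nsmul_eq_mul] at this
  have hlo' := le_of_mul_le_mul_left hlo hMr
  have hup' := le_of_mul_le_mul_left hup hMr
  have hk0 : (0 : ℝ) ≤ k := Nat.cast_nonneg k
  have hMδ : E / x ≤ δ := by
    rw [div_le_iff₀ hx0]
    linarith
  have hMkδ : (E + k) / x ≤ δ := by
    rw [div_le_iff₀ hx0]
    linarith
  constructor
  · refine le_trans ?_ hlo'
    rw [← mul_div_assoc]
    apply div_le_div_of_nonneg_right _ hkf.le
    have h1 : x - E - k = x * (1 + -((E + k) / x)) := by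
      field_simp
      ring
    rw [h1, mul_pow, mul_comm (1 - η)]
    apply mul_le_mul_of_nonneg_left _ (by positivity)
    have h2 := one_add_mul_le_pow (a := -((E + k) / x)) (by linarith) k
    refine le_trans ?_ h2
    have h3 : (k : ℝ) * ((E + k) / x) ≤ k * δ := by gcongr
    have h4 : (0 : ℝ) < 2 ^ k := by positivity
    have h5 : k * δ ≤ δ * (2 ^ k + k) := by nlinarith
    linarith
  · refine le_trans hup' ?_
    rw [← mul_div_assoc]
    apply div_le_div_of_nonneg_right _ hkf.le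
    have h1 : x + E = x * (1 + E / x) := by
      field_simp
    rw [h1, mul_pow, mul_comm (1 + η)]
    apply mul_le_mul_of_nonneg_left _ (by positivity)
    have h2 := one_add_pow_le k (E / x) (by positivity) (by linarith)
    refine h2.trans ?_
    have h6 : (1 : ℝ) ≤ 2 ^ k := one_le_pow₀ (by norm_num)
    have h3 : (2 ^ k - 1) * (E / x) ≤ (2 ^ k - 1) * δ :=
      mul_le_mul_of_nonneg_left hMδ (by linarith)
    have h5 : (2 ^ k - 1) * δ ≤ δ * (2 ^ k + k) := by nlinarith
    linarith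

/-- the collisions, without the exceptional differences for the large primes -/
def CoE (Q : ℕ → ℕ → Prop) (Ex : ℕ → Prop) (T p t : ℕ) : Prop :=
  CoG Q p t ∧ (p ≤ T ∨ ¬ Ex (t % p))

lemma coll_CoE (Q : ℕ → ℕ → Prop) (c : ℕ) (hQ : PerB Q c) (Ex : ℕ → Prop) (T w : ℕ) :
    Coll (CoE Q Ex T) w (c ^ 2) := by
  classical
  have h := coll_gen Q c hQ w
  refine ⟨fun p n => ?_, fun p hp hw => ?_⟩
  · unfold CoE
    rw [h.per p n, Nat.mod_mod]
  · refine le_trans (card_le_card ?_) (h.few p hp hw)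
    intro r hr
    rw [mem_filter] at hr ⊢
    exact ⟨hr.1, hr.2.1⟩

open Classical in
/-- **The average of the singular series** over the sets of shifts in a window with gaps. -/
theorem sing_avgW (c k M0 w0 : ℕ) (η d : ℝ) (hη : 0 < η) (hη1 : η ≤ 1) (hd : 0 < d) :
    ∃ (w : ℕ) (η' : ℝ) (T0 : ℕ), 0 < η' ∧ ∀ T : ℕ, T0 ≤ T →
      ∀ W : Finset ℕ, W ⊆ Icc 1 T → d * T ≤ W.card → ∀ Q : ℕ → ℕ → Prop, PerB Q c →
      (∀ p : ℕ, p.Prime → nuB Q p < p) →
      (∀ w m : ℕ, |(Nn Q w W m : ℝ) - W.card * Vq Q w| ≤ M0 * Mw w) → ∀ Ex : ℕ → Prop,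
      (∀ a ∈ W, ∀ b ∈ W, a < b → Ex (b - a) → ∃ p ∈ pz w0, ∀ r, Q p (r + a) ∨ Q p (r + b)) →
      ∀ y : ℕ, w ≤ y →
      (∀ t ∈ Icc 1 T, ¬ Ex t →
        ((((pz y).filter (fun p : ℕ => T < p ∧ CoG Q p t)).card : ℕ) : ℝ) ≤ η' * T) →
      (1 - η) * ((W.card * Vq Q y) ^ (k + 1) / (k + 1).factorial) ≤
        ∑ H ∈ powersetCard (k + 1) W, Vq (QH Q H) y ∧
      ∑ H ∈ powersetCard (k + 1) W, Vq (QH Q H) y ≤
        (1 + η) * ((W.card * Vq Q y) ^ (k + 1) / (k + 1).factorial) := by
  obtain ⟨c1, B, w1, hc1, hw12, hW⟩ := W_low c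
  obtain ⟨K, hK⟩ : ∃ K : ℕ, K = (1 + 2 * ((k + 1) * c)) ^ ((k + 1) ^ 2) - 1 := ⟨_, rfl⟩
  obtain ⟨A, hA⟩ : ∃ A : ℕ, A = 12 * (K * c ^ 2 + 1) * (k + 1).factorial + ((k + 1) * c) ^ 2 :=
    ⟨_, rfl⟩
  obtain ⟨w, hw0, hw2, hAw, hAw'⟩ := exists_w A B (k + 1) (d * c1) (η / 4) (by positivity)
    (by positivity) (max (max w1 (2 * ((k + 1) * c))) w0)
  have hww1 : w1 ≤ w := by omega
  have hwc : 2 * ((k + 1) * c) ≤ w := by omega
  have hw0w : w0 ≤ w := by omega
  have hwr : (0 : ℝ) < w := by exact_mod_cast (by omega : 0 < w)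
  obtain ⟨η1, hη1def⟩ : ∃ η1 : ℝ, η1 = ((K * c ^ 2 + 1 : ℕ) : ℝ) / w := ⟨_, rfl⟩
  have hη10 : 0 < η1 := by rw [hη1def]; positivity
  have hfac : (1 : ℝ) ≤ (k + 1).factorial := by
    exact_mod_cast Nat.factorial_pos (k + 1)
  have hAge : 12 * η1 * (k + 1).factorial ≤ (A : ℝ) / w := by
    rw [hη1def, le_div_iff₀ hwr]
    have : ((12 * (K * c ^ 2 + 1) * (k + 1).factorial : ℕ) : ℝ) ≤ A := by
      exact_mod_cast (by omega : 12 * (K * c ^ 2 + 1) * (k + 1).factorial ≤ A)
    refine le_trans (le_of_eq ?_) this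
    push_cast
    field_simp
  have hAge2 : (((k + 1) * c : ℕ) : ℝ) ^ 2 / w ≤ η / 4 := by
    refine le_trans ?_ hAw'
    apply div_le_div_of_nonneg_right _ hwr.le
    exact_mod_cast (by omega : ((k + 1) * c) ^ 2 ≤ A)
  have hη1le : η1 ≤ 1 := by nlinarith
  obtain ⟨T1, hT1, havg⟩ := avg_sharp K (c ^ 2) w (by omega) η1 hη10 (by
    rw [hη1def]
    apply div_le_div_of_nonneg_right _ hwr.le
    push_cast
    linarith)
  obtain ⟨T2, hsmall⟩ := small_avgW (k + 1) w M0 (η / 4) d (by positivity) hd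
  refine ⟨w, η1 / (K + 1), max T1 T2, by positivity, ?_⟩
  intro T hT W hWT hWd Q hQ hadm hEq Ex hEx y hwy hlarge
  have hT1' : T1 ≤ T := (le_max_left _ _).trans hT
  have hT2' : T2 ≤ T := (le_max_right _ _).trans hT
  obtain ⟨s1, s2⟩ := hsmall T hT2' W hWd Q c hQ hadm (hEq w)
  have hWpos := Vq_pos Q hadm w
  obtain ⟨u, hu⟩ : ∃ u : ℝ, u = W.card := ⟨_, rfl⟩
  have hu0 : 0 ≤ u := by rw [hu]; positivity
  obtain ⟨v, hv⟩ : ∃ v, v = Vq Q w := ⟨_, rfl⟩
  obtain ⟨V, hV⟩ : ∃ V, V = Vt Q w y := ⟨_, rfl⟩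
  have hV0 : 0 ≤ V := by rw [hV]; exact Vt_nonneg Q w y
  rw [← hu] at s1 s2 hWd ⊢
  rw [← hv] at s1 s2 hWpos
  rw [Vq_split Q w y hwy, ← hv, ← hV]
  have hT0 : (0 : ℝ) ≤ T := Nat.cast_nonneg T
  have e1 : (u * (v * V)) ^ (k + 1) / (k + 1).factorial =
      V ^ (k + 1) * ((u * v) ^ (k + 1) / (k + 1).factorial) := by
    rw [← mul_assoc, mul_pow (u * v) V]
    ring
  rw [e1]
  have hterm : ∀ H ∈ powersetCard (k + 1) W, Vq (QH Q H) y = Vq (QH Q H) w * Vt (QH Q H) w y :=
    fun H _ => Vq_split _ w y hwy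
  have hX0 : 0 ≤ (u * v) ^ (k + 1) / ((k + 1).factorial : ℝ) := by positivity
  have hVk : 0 ≤ V ^ (k + 1) := by positivity
  constructor
  · -- lower bound
    have h1 : ∀ H ∈ powersetCard (k + 1) W,
        V ^ (k + 1) * (1 - η / 4) * Vq (QH Q H) w ≤ Vq (QH Q H) y := by
      intro H hH
      rw [hterm H hH]
      rw [mem_powersetCard] at hH
      have h2 := tail_lo Q c hQ H w y (by omega) (by rw [hH.2]; exact hwc)
      rw [hH.2, ← hV] at h2
      have h3 : V ^ (k + 1) * (1 - η / 4) ≤ Vt (QH Q H) w y := by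
        refine le_trans ?_ h2
        apply mul_le_mul_of_nonneg_left _ hVk
        linarith
      calc V ^ (k + 1) * (1 - η / 4) * Vq (QH Q H) w ≤ Vt (QH Q H) w y * Vq (QH Q H) w :=
            mul_le_mul_of_nonneg_right h3 (Vq_nonneg _ w)
        _ = _ := mul_comm _ _
    have h2 := Finset.sum_le_sum h1
    rw [← Finset.mul_sum] at h2
    refine le_trans ?_ h2
    calc (1 - η) * (V ^ (k + 1) * ((u * v) ^ (k + 1) / (k + 1).factorial)) ≤
        V ^ (k + 1) * (1 - η / 4) * ((1 - η / 4) * ((u * v) ^ (k + 1) / (k + 1).factorial)) := by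
          have h3 : 1 - η ≤ (1 - η / 4) * (1 - η / 4) := by nlinarith
          have h4 := mul_le_mul_of_nonneg_right h3 (mul_nonneg hVk hX0)
          calc (1 - η) * (V ^ (k + 1) * ((u * v) ^ (k + 1) / (k + 1).factorial)) ≤ _ := h4
            _ = _ := by ring
      _ ≤ _ := mul_le_mul_of_nonneg_left s1 (mul_nonneg hVk (by linarith))
  · -- upper bound
    obtain ⟨g, hg⟩ : ∃ g : ℕ → ℝ, g = fun t => if Ex t then 0 else Fp Q K w y t - 1 := ⟨_, rfl⟩
    have hg0 : ∀ t, 0 ≤ g t := by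
      intro t
      rw [hg]
      beta_reduce
      have := Fp_ge Q K w y t
      split_ifs
      · exact le_rfl
      · linarith
    have h1 : ∀ H ∈ powersetCard (k + 1) W, Vq (QH Q H) y ≤
        V ^ (k + 1) * (Vq (QH Q H) w + ∑ x ∈ prs H, g (x.2 - x.1)) := by
      intro H hH
      have h4 := Vq_nonneg (QH Q H) w
      have hgs : 0 ≤ ∑ x ∈ prs H, g (x.2 - x.1) := Finset.sum_nonneg fun x _ => hg0 _
      by_cases hex : ∃ a ∈ H, ∃ b ∈ H, a < b ∧ Ex (b - a)
      · -- a local obstruction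
        obtain ⟨a, ha, b, hb, hab, hx⟩ := hex
        rw [mem_powersetCard] at hH
        obtain ⟨p, hp, hcov⟩ := hEx a (hH.1 ha) b (hH.1 hb) hab hx
        have hpy : p ∈ pz y := by
          rw [mem_pz] at hp ⊢
          exact ⟨by omega, hp.2⟩
        have hall : nuB (QH Q H) p = p := by
          unfold nuB
          rw [Finset.filter_true_of_mem, card_range]
          intro r _
          rcases hcov r with h | h
          · exact ⟨a, ha, h⟩
          · exact ⟨b, hb, h⟩
        have hzero : Vq (QH Q H) y = 0 := by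
          unfold Vq
          apply Finset.prod_eq_zero hpy
          rw [hall]
          have : (p : ℝ) ≠ 0 := by exact_mod_cast (mem_pz.1 hpy).2.ne_zero
          field_simp
          norm_num
        rw [hzero]
        positivity
      · have hgeq : ∑ x ∈ prs H, g (x.2 - x.1) = ∑ x ∈ prs H, (Fp Q K w y (x.2 - x.1) - 1) := by
          apply Finset.sum_congr rfl
          intro x hx
          unfold prs at hx
          rw [mem_filter, mem_product] at hx
          rw [hg]
          beta_reduce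
          rw [if_neg]
          intro h
          exact hex ⟨x.1, hx.1.1, x.2, hx.1.2, hx.2, h⟩
        rw [hterm H hH]
        rw [mem_powersetCard] at hH
        have h2 := tail_up Q c hQ H w y (by rw [hH.2]; exact hwc)
        rw [hH.2, ← hV, ← hK, ← hgeq] at h2
        have h5 := Vq_le_one (QH Q H) w
        calc Vq (QH Q H) w * Vt (QH Q H) w y ≤ Vq (QH Q H) w * (V ^ (k + 1) *
              (1 + ∑ x ∈ prs H, g (x.2 - x.1))) := mul_le_mul_of_nonneg_left h2 h4
          _ = V ^ (k + 1) * (Vq (QH Q H) w +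
              Vq (QH Q H) w * ∑ x ∈ prs H, g (x.2 - x.1)) := by ring
          _ ≤ _ := by
            apply mul_le_mul_of_nonneg_left _ hVk
            have := mul_le_mul_of_nonneg_right h5 hgs
            linarith
    have h2 := Finset.sum_le_sum h1
    rw [← Finset.mul_sum, Finset.sum_add_distrib] at h2
    refine h2.trans ?_
    have h3 : ∑ H ∈ powersetCard (k + 1) W, ∑ x ∈ prs H, g (x.2 - x.1) ≤
        (T : ℝ) ^ k * ∑ t ∈ Icc 1 T, g t := by
      refine le_trans ?_ (sum_prs k T g hg0)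
      apply Finset.sum_le_sum_of_subset_of_nonneg (powersetCard_mono hWT)
      intro H _ _
      exact Finset.sum_nonneg fun x _ => hg0 _
    have h4 := havg T hT1' (CoE Q Ex T) (coll_CoE Q c hQ Ex T w) y (η1 / (K + 1)) (by positivity) (by
      rw [← mul_div_assoc, div_le_iff₀ (by positivity)]
      have : (0 : ℝ) ≤ K := Nat.cast_nonneg K
      nlinarith) (by
        intro t ht
        rw [mem_Icc] at ht
        by_cases hxt : Ex t
        · have : (pz y).filter (fun p : ℕ => T < p ∧ CoE Q Ex T p t) = ∅ := by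
            rw [Finset.filter_eq_empty_iff]
            rintro p _ ⟨h1, h2⟩
            unfold CoE at h2
            rcases h2.2 with h3 | h3
            · omega
            · rw [Nat.mod_eq_of_lt (by omega)] at h3
              exact h3 hxt
          rw [this, card_empty]
          push_cast
          positivity
        · refine le_trans ?_ (hlarge t (mem_Icc.2 ht) hxt)
          have : ((pz y).filter (fun p : ℕ => T < p ∧ CoE Q Ex T p t)).card ≤
              ((pz y).filter (fun p : ℕ => T < p ∧ CoG Q p t)).card := by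
            apply card_le_card
            intro p hp
            rw [mem_filter] at hp ⊢
            exact ⟨hp.1, hp.2.1, hp.2.2.1⟩
          exact_mod_cast this)
    have h5 : ∑ t ∈ Icc 1 T, g t ≤ 12 * η1 * T := by
      have h6 : ∑ t ∈ Icc 1 T, g t ≤ ∑ t ∈ Icc 1 T,
          (∏ p ∈ (pz y).filter (fun p : ℕ => w < p ∧ CoE Q Ex T p t), (1 + (K : ℝ) / p) - 1) := by
        apply Finset.sum_le_sum
        intro t ht
        rw [mem_Icc] at ht
        rw [hg]
        beta_reduce
        split_ifs with hxt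
        · have : (1 : ℝ) ≤ ∏ p ∈ (pz y).filter (fun p : ℕ => w < p ∧ CoE Q Ex T p t),
              (1 + (K : ℝ) / p) := by
            apply Finset.one_le_prod
            intro p _
            have : 0 ≤ (K : ℝ) / p := by positivity
            linarith
          linarith
        · apply sub_le_sub_right
          unfold Fp
          apply le_of_eq
          apply Finset.prod_congr _ (fun _ _ => rfl)
          ext p
          rw [mem_filter, mem_filter]
          unfold CoE
          constructor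
          · rintro ⟨a1, a2, a3⟩
            refine ⟨a1, a2, a3, ?_⟩
            rcases Nat.lt_or_ge T p with h | h
            · right
              rw [Nat.mod_eq_of_lt (by omega)]
              exact hxt
            · exact Or.inl h
          · rintro ⟨a1, a2, a3, _⟩
            exact ⟨a1, a2, a3⟩
      refine h6.trans ?_
      rw [Finset.sum_sub_distrib, Finset.sum_const, Nat.card_Icc, Nat.add_sub_cancel, nsmul_eq_mul,
        mul_one]
      have h6 := exp_bound η1 hη10.le hη1le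
      have h7 := mul_le_mul_of_nonneg_right h6 hT0
      linarith
    have h6 : ∑ H ∈ powersetCard (k + 1) W, ∑ x ∈ prs H, g (x.2 - x.1) ≤
        η / 4 * ((u * v) ^ (k + 1) / (k + 1).factorial) := by
      calc _ ≤ (T : ℝ) ^ k * ∑ t ∈ Icc 1 T, g t := h3
        _ ≤ (T : ℝ) ^ k * (12 * η1 * T) := mul_le_mul_of_nonneg_left h5 (by positivity)
        _ = 12 * η1 * (k + 1).factorial * (T ^ (k + 1) / (k + 1).factorial) := by
          rw [pow_succ]
          field_simp
        _ ≤ (η / 4 * (d * c1 / Real.log w ^ B) ^ (k + 1)) * (T ^ (k + 1) / (k + 1).factorial) := by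
          apply mul_le_mul_of_nonneg_right (hAge.trans hAw) (by positivity)
        _ = η / 4 * ((d * T) ^ (k + 1) * (c1 / Real.log w ^ B) ^ (k + 1) / (k + 1).factorial) := by
          rw [mul_div_assoc d c1, mul_pow, mul_pow]
          ring
        _ ≤ η / 4 * (u ^ (k + 1) * v ^ (k + 1) / (k + 1).factorial) := by
          have hlog : 0 < Real.log w := Real.log_pos (by exact_mod_cast (by omega : 1 < w))
          have h8 : (d * (T : ℝ)) ^ (k + 1) ≤ u ^ (k + 1) := pow_le_pow_left₀ (by positivity) hWd _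
          have h9 : (c1 / Real.log w ^ B) ^ (k + 1) ≤ v ^ (k + 1) := by
            apply pow_le_pow_left₀ (by positivity)
            rw [hv]
            exact hW w hww1 Q hQ hadm
          have h10 : (d * (T : ℝ)) ^ (k + 1) * (c1 / Real.log w ^ B) ^ (k + 1) ≤
              u ^ (k + 1) * v ^ (k + 1) := mul_le_mul h8 h9 (by positivity) (by positivity)
          apply mul_le_mul_of_nonneg_left _ (by positivity)
          exact div_le_div_of_nonneg_right h10 (by positivity)
        _ = _ := by rw [mul_pow]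
    calc V ^ (k + 1) * (∑ H ∈ powersetCard (k + 1) W, Vq (QH Q H) w +
        ∑ H ∈ powersetCard (k + 1) W, ∑ x ∈ prs H, g (x.2 - x.1)) ≤
        V ^ (k + 1) * ((1 + η / 4) * ((u * v) ^ (k + 1) / (k + 1).factorial) +
          η / 4 * ((u * v) ^ (k + 1) / (k + 1).factorial)) := by
          apply mul_le_mul_of_nonneg_left _ hVk
          linarith
      _ = (1 + η / 2) * (V ^ (k + 1) * ((u * v) ^ (k + 1) / (k + 1).factorial)) := by ring
      _ ≤ (1 + η) * (V ^ (k + 1) * ((u * v) ^ (k + 1) / (k + 1).factorial)) := by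
        apply mul_le_mul_of_nonneg_right (by linarith) (mul_nonneg hVk hX0)

end Pool.Agent.X262.LOS
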